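import Mathlib

set_option autoImplicit false

/-! # The Delta-system lemma

Every uncountable family of finite sets has an uncountable subfamily in which any two members have
the same intersection.

PROOF. For some `n` uncountably many `s ∈ S` have `(f s).card = n` (a countable union of
countable sets is countable): so it is enough to prove `delta_aux`, by induction on `n`, for all
`S`, `f`. `n = 0`: root `∅`. Step `n + 1`.
Case 1: there is `c` with `{s ∈ S | c ∈ f s}` uncountable. Apply the induction hypothesis to this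
set and `f' s = (f s).erase c`; root `insert c r`.
Case 2: for every `c` the set `{s ∈ S | c ∈ f s}` is countable. By Zorn's lemma take a maximal
subset `D ⊆ S` with `f s ∩ f t = ∅` for `s ≠ t` in `D`. If `D` were countable, the set `C` of all
elements of all `f s`, `s ∈ D`, would be countable, and so would be `⋃_{c ∈ C} {s ∈ S | c ∈ f s}`;
so some `s ∈ S`, not in this union and not in `D`, could be added to `D`. So `D` is uncountable,
and the root is `∅`. -/

namespace Pool.Agent.RFN

theorem delta_aux {ι α : Type*} [DecidableEq α] (n : ℕ) (S : Set ι) (hS : ¬ S.Countable)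
    (f : ι → Finset α) (hf : ∀ s ∈ S, (f s).card = n) :
    ∃ S' ⊆ S, ¬ S'.Countable ∧ ∃ r : Finset α, ∀ s ∈ S', ∀ t ∈ S', s ≠ t → f s ∩ f t = r := by
  induction n generalizing S f with
  | zero =>
    refine ⟨S, Set.Subset.rfl, hS, ∅, fun s hs t _ _ => ?_⟩
    rw [Finset.card_eq_zero.mp (hf s hs), Finset.empty_inter]
  | succ n ih =>
    by_cases h : ∃ c, ¬ {s ∈ S | c ∈ f s}.Countable
    · obtain ⟨c, hc⟩ := h
      obtain ⟨S', hS', hS'c, r, hr⟩ := ih {s ∈ S | c ∈ f s} hc (fun s => (f s).erase c)
        (fun s hs => by rw [Finset.card_erase_of_mem hs.2, hf s hs.1]; rfl)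
      refine ⟨S', hS'.trans (Set.sep_subset _ _), hS'c, insert c r, fun s hs t ht hst => ?_⟩
      have h1 := hr s hs t ht hst
      have hcs := (hS' hs).2
      have hct := (hS' ht).2
      rw [← h1]
      ext x
      by_cases hx : x = c
      · subst hx; simp [hcs, hct]
      · simp [hx]
    · push Not at h
      obtain ⟨D, hD⟩ := zorn_subset
        {D : Set ι | D ⊆ S ∧ ∀ s ∈ D, ∀ t ∈ D, s ≠ t → f s ∩ f t = ∅} (by
          intro c hc hchain
          refine ⟨⋃₀ c, ⟨Set.sUnion_subset fun D hD => (hc hD).1, ?_⟩,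
            fun s hs => Set.subset_sUnion_of_mem hs⟩
          rintro s ⟨A, hA, hsA⟩ t ⟨B, hB, htB⟩ hst
          rcases hchain.total hA hB with hAB | hBA
          · exact (hc hB).2 s (hAB hsA) t htB hst
          · exact (hc hA).2 s hsA t (hBA htB) hst)
      obtain ⟨⟨hDS, hDd⟩, hmax⟩ := hD
      refine ⟨D, hDS, ?_, ∅, hDd⟩
      intro hDc
      have hC : (⋃ s ∈ D, (f s : Set α)).Countable :=
        hDc.biUnion fun s _ => (f s).finite_toSet.countable
      have hU : (⋃ c ∈ (⋃ s ∈ D, (f s : Set α)), {s ∈ S | c ∈ f s}).Countable :=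
        hC.biUnion fun c _ => h c
      have hne : ∃ s ∈ S, s ∉ D ∪ ⋃ c ∈ (⋃ s ∈ D, (f s : Set α)), {s ∈ S | c ∈ f s} := by
        by_contra hcon
        push Not at hcon
        exact hS ((hDc.union hU).mono hcon)
      obtain ⟨s, hsS, hs⟩ := hne
      have hsD : s ∉ D := fun h0 => hs (Or.inl h0)
      have hsU : ∀ t ∈ D, f s ∩ f t = ∅ := by
        intro t ht
        rw [Finset.eq_empty_iff_forall_notMem]
        intro x hx
        rw [Finset.mem_inter] at hx
        apply hs
        right
        simp only [Set.mem_iUnion]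
        exact ⟨x, ⟨t, ht, hx.2⟩, hsS, hx.1⟩
      have hins : insert s D ∈
          {D : Set ι | D ⊆ S ∧ ∀ s ∈ D, ∀ t ∈ D, s ≠ t → f s ∩ f t = ∅} := by
        refine ⟨Set.insert_subset hsS hDS, ?_⟩
        rintro a (rfl | ha) b (rfl | hb) hab
        · exact absurd rfl hab
        · exact hsU b hb
        · rw [Finset.inter_comm]; exact hsU a ha
        · exact hDd a ha b hb hab
      exact hsD (hmax hins (Set.subset_insert s D) (Set.mem_insert s D))

/-- Pigeon hole principle for uncountable sets. -/
theorem pigeon {ι C : Type*} [Countable C] (S : Set ι) (hS : ¬ S.Countable) (f : ι → C) :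
    ∃ c, ¬ {s ∈ S | f s = c}.Countable := by
  by_contra hcon
  push Not at hcon
  apply hS
  refine (Set.countable_iUnion hcon).mono fun s hs => ?_
  exact Set.mem_iUnion.2 ⟨f s, hs, rfl⟩

theorem delta {ι α : Type*} [DecidableEq α] (S : Set ι) (hS : ¬ S.Countable)
    (f : ι → Finset α) :
    ∃ S' ⊆ S, ¬ S'.Countable ∧ ∃ r : Finset α, ∀ s ∈ S', ∀ t ∈ S', s ≠ t → f s ∩ f t = r := by
  obtain ⟨n, hn⟩ := pigeon S hS (fun s => (f s).card)
  obtain ⟨S', h1, h2, h3⟩ := delta_aux n _ hn f (fun s hs => hs.2)
  exact ⟨S', h1.trans (Set.sep_subset _ _), h2, h3⟩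

end Pool.Agent.RFN
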