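import Pool.Agent.RFN.TDefs

set_option autoImplicit false

/-! # The axiom of choice from enumerations by ordinals

`WOx x R`: `R` is a set of pairs `(α, v)`, single valued, such that every element `v` of `x` occurs,
the first components are linearly ordered by `∈` (or equal), and every nonempty set `y` containing
some `v` with `(α, v) ∈ R` has such a `v` with a minimal `α`.

PROOF of `choice_of_wo`. Let `x` be a set of nonempty sets and `R` given by the hypothesis for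
`sUn x`. For `y ∈ x` let `F y` be the unique `z` such that for some `α`, `(α, z) ∈ R`, `z ∈ y` and
`β ∉ α` for all `(β, w) ∈ R` with `w ∈ y`. Existence: `y` has an element `v`, `v ∈ sUn x`, occurs in
`R`; last clause. Uniqueness: for two such pairs `(α, z)`, `(α', z')`: `α' ∉ α`, `α ∉ α'`, so
`α = α'` and `z = z'`. Choice function: `mkf x (sUn x) (fun y => iota (fun z => ...))`. -/

universe u

namespace Pool.Agent.RFN

open Pool.Agent.H78.ZF

variable {N : Type u} [ZFM N]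

/-- An enumeration of `x` by ordinals. -/
structure WOx (x R : N) : Prop where
  all : ∀ v, v ∈ x → ∃ α, opair α v ∈ R
  sv : ∀ α v w, opair α v ∈ R → opair α w ∈ R → v = w
  lin : ∀ α v β w, opair α v ∈ R → opair β w ∈ R → α ∈ β ∨ α = β ∨ β ∈ α
  min : ∀ y : N, (∃ α v, opair α v ∈ R ∧ v ∈ y) →
    ∃ α v, opair α v ∈ R ∧ v ∈ y ∧ ∀ β w, opair β w ∈ R → w ∈ y → β ∉ α

theorem choice_of_wo (h : ∀ x : N, ∃ R, WOx x R) : Choice N := by
  intro x hx
  obtain ⟨R, hR⟩ := h (sUn x)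
  -- the first element of `y`
  have key : ∀ y, y ∈ x → ∃! z : N, ∃ α, opair α z ∈ R ∧ z ∈ y ∧
      ∀ β w, opair β w ∈ R → w ∈ y → β ∉ α := by
    intro y hy
    obtain ⟨v, hv⟩ := hx y hy
    obtain ⟨α, hα⟩ := hR.all v ((mem_sUn x v).2 ⟨y, hy, hv⟩)
    obtain ⟨α, z, h1, h2, h3⟩ := hR.min y ⟨α, v, hα, hv⟩
    refine ⟨z, ⟨α, h1, h2, h3⟩, ?_⟩
    rintro z' ⟨α', h1', h2', h3'⟩
    have e : α = α' := by
      rcases hR.lin α z α' z' h1 h1' with h4 | h4 | h4
      · exact absurd h4 (h3' α z h1 h2)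
      · exact h4
      · exact absurd h4 (h3 α' z' h1' h2')
    subst e
    exact hR.sv _ _ _ h1' h1
  have hF : ∀ y, y ∈ x → iota (fun z : N => ∃ α, opair α z ∈ R ∧ z ∈ y ∧
      ∀ β w, opair β w ∈ R → w ∈ y → β ∉ α) ∈ y := by
    intro y hy
    obtain ⟨α, -, h2, -⟩ := iota_spec (key y hy)
    exact h2
  have hF' : ∀ y, y ∈ x → iota (fun z : N => ∃ α, opair α z ∈ R ∧ z ∈ y ∧
      ∀ β w, opair β w ∈ R → w ∈ y → β ∉ α) ∈ sUn x := by
    intro y hy
    rw [mem_sUn]
    exact ⟨y, hy, hF y hy⟩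
  refine ⟨mkf x (sUn x) (fun y => iota (fun z : N => ∃ α, opair α z ∈ R ∧ z ∈ y ∧
      ∀ β w, opair β w ∈ R → w ∈ y → β ∉ α)), mkf_fun hF', fun y hy => ?_⟩
  rw [ap_mkf hF' hy]
  exact hF y hy

end Pool.Agent.RFN
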