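import Pool.Agent.H78.ZF.Pairing

set_option autoImplicit false

/-! # Topological groups in a model of set theory

`N` is a model of ZF (`ZFM N`: a type with a binary relation, written `∈`, satisfying the axioms of
ZF). All notions below are the usual set theoretic notions, interpreted in `N`: `opair x y` is the
Kuratowski ordered pair of `N`, `prod A B` the cartesian product, `pow A` the power set,
`Fun f A B` says that `f` is a function from `A` to `B` and `ap f x` is its value, `Inj` and `Bij`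
are injections and bijections, `omega` is the set of natural numbers of `N`. -/

universe u

namespace Pool.Agent.RFN

open Pool.Agent.H78.ZF

variable {N : Type u} [ZFM N]

/-- The axiom of choice: every set of nonempty sets has a choice function. -/
def Choice (N : Type u) [ZFM N] : Prop :=
  ∀ x : N, (∀ y, y ∈ x → ∃ z, z ∈ y) → ∃ f, Fun f x (sUn x) ∧ ∀ y, y ∈ x → ap f y ∈ y

/-- `A` is countable: there is an injection of `A` into the natural numbers. -/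
def Ctbl (A : N) : Prop := ∃ f, Inj f A omega

/-- `T` is a topology on the set `X` (the set of the open sets). -/
def IsTop (X T : N) : Prop :=
  (∀ U, U ∈ T → U ⊆ X) ∧ X ∈ T ∧ (∀ S, S ⊆ T → sUn S ∈ T) ∧
  ∀ U V W, U ∈ T → V ∈ T → (∀ x, x ∈ W ↔ x ∈ U ∧ x ∈ V) → W ∈ T

/-- The Hausdorff property. -/
def IsHaus (X T : N) : Prop :=
  ∀ x y, x ∈ X → y ∈ X → x ≠ y →
    ∃ U V, U ∈ T ∧ V ∈ T ∧ x ∈ U ∧ y ∈ V ∧ ∀ z, ¬ (z ∈ U ∧ z ∈ V)

/-- `f` is a continuous map from `(X, T)` to `(Y, S)`. -/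
def IsCont (f X T Y S : N) : Prop :=
  Fun f X Y ∧ ∀ x V, x ∈ X → V ∈ S → ap f x ∈ V → ∃ U, U ∈ T ∧ x ∈ U ∧ ∀ y, y ∈ U → ap f y ∈ V

/-- `T1` is the product topology on `X × Y`. -/
def IsProdTop (T1 X T Y S : N) : Prop :=
  ∀ W, W ∈ T1 ↔ W ⊆ prod X Y ∧ ∀ x y, opair x y ∈ W →
    ∃ U V, U ∈ T ∧ V ∈ S ∧ x ∈ U ∧ y ∈ V ∧ ∀ u v, u ∈ U → v ∈ V → opair u v ∈ W

/-- `h` is a homeomorphism of `(X, T)` onto `(Y, S)`: a bijection which is continuous and open. -/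
def IsHomeo (h X T Y S : N) : Prop :=
  Bij h X Y ∧ IsCont h X T Y S ∧
  ∀ U V, U ∈ T → (∀ y, y ∈ V ↔ ∃ x, x ∈ U ∧ y = ap h x) → V ∈ S

/-- `(G, m)` is a group with multiplication `m : G × G → G`. -/
def IsGrp (G m : N) : Prop :=
  Fun m (prod G G) G ∧
  (∀ x y z, x ∈ G → y ∈ G → z ∈ G →
    ap m (opair (ap m (opair x y)) z) = ap m (opair x (ap m (opair y z)))) ∧
  ∃ e, e ∈ G ∧ (∀ x, x ∈ G → ap m (opair e x) = x ∧ ap m (opair x e) = x) ∧
    ∀ x, x ∈ G → ∃ y, y ∈ G ∧ ap m (opair x y) = e ∧ ap m (opair y x) = e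

/-- `y` is the inverse of `x` in the group `(G, m)`: `x y` is a unit element. -/
def IsInv (G m x y : N) : Prop :=
  x ∈ G ∧ y ∈ G ∧ ∀ z, z ∈ G → ap m (opair (ap m (opair x y)) z) = z

/-- `(G, m, T)` is a Hausdorff topological group. -/
def IsTopGrp (G m T : N) : Prop :=
  IsGrp G m ∧ IsTop G T ∧ IsHaus G T ∧
  (∀ x y W, x ∈ G → y ∈ G → W ∈ T → ap m (opair x y) ∈ W →
    ∃ U V, U ∈ T ∧ V ∈ T ∧ x ∈ U ∧ y ∈ V ∧
      ∀ u v, u ∈ U → v ∈ V → ap m (opair u v) ∈ W) ∧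
  ∀ x x' W, IsInv G m x x' → W ∈ T → x' ∈ W →
    ∃ U, U ∈ T ∧ x ∈ U ∧ ∀ u u', u ∈ U → IsInv G m u u' → u' ∈ W

/-- `h` is a homomorphism from `(G, m)` to `(K, n)`. -/
def IsHom (h G m K n : N) : Prop :=
  Fun h G K ∧ ∀ x y, x ∈ G → y ∈ G → ap h (ap m (opair x y)) = ap n (opair (ap h x) (ap h y))

/-- The topology `T` of `X` has a countable base. -/
def IsSecCtb (X T : N) : Prop :=
  ∃ B, B ⊆ T ∧ Ctbl B ∧ ∀ U x, U ∈ T → x ∈ U → ∃ V, V ∈ B ∧ x ∈ V ∧ V ⊆ U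

/-- `(R, lt)` is a copy of the ordered set of the real numbers: a Dedekind complete dense linear
order without endpoints which has a countable order dense subset (`lt` is a set of ordered
pairs). -/
def IsRealLine (R lt : N) : Prop :=
  (∃ x, x ∈ R) ∧
  (∀ x, x ∈ R → opair x x ∉ lt) ∧
  (∀ x y z, x ∈ R → y ∈ R → z ∈ R → opair x y ∈ lt → opair y z ∈ lt → opair x z ∈ lt) ∧
  (∀ x y, x ∈ R → y ∈ R → opair x y ∈ lt ∨ x = y ∨ opair y x ∈ lt) ∧
  (∀ x, x ∈ R → (∃ y, y ∈ R ∧ opair x y ∈ lt) ∧ ∃ y, y ∈ R ∧ opair y x ∈ lt) ∧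
  (∃ Q, Q ⊆ R ∧ Ctbl Q ∧ ∀ x y, x ∈ R → y ∈ R → opair x y ∈ lt →
    ∃ q, q ∈ Q ∧ opair x q ∈ lt ∧ opair q y ∈ lt) ∧
  ∀ S, S ⊆ R → (∃ x, x ∈ S) → (∃ b, b ∈ R ∧ ∀ x, x ∈ S → opair x b ∈ lt ∨ x = b) →
    ∃ b, b ∈ R ∧ (∀ x, x ∈ S → opair x b ∈ lt ∨ x = b) ∧
      ∀ c, c ∈ R → (∀ x, x ∈ S → opair x c ∈ lt ∨ x = c) → opair b c ∈ lt ∨ b = c

/-- `f` is a continuous function from `(X, T)` to the real line `(R, lt)`. -/
def IsContReal (f X T R lt : N) : Prop :=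
  Fun f X R ∧ ∀ x a b, x ∈ X → a ∈ R → b ∈ R → opair a (ap f x) ∈ lt → opair (ap f x) b ∈ lt →
    ∃ U, U ∈ T ∧ x ∈ U ∧ ∀ y, y ∈ U → opair a (ap f y) ∈ lt ∧ opair (ap f y) b ∈ lt

/-- `(G, m, T)` is R-factorizable: every continuous real function on it is the composition of a
continuous homomorphism to a second countable Hausdorff topological group and a continuous real
function. -/
def IsRFact (G m T : N) : Prop :=
  ∀ R lt f, IsRealLine R lt → IsContReal f G T R lt →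
    ∃ K n S h k, IsTopGrp K n S ∧ IsSecCtb K S ∧ IsHom h G m K n ∧ IsCont h G T K S ∧
      IsContReal k K S R lt ∧ ∀ x, x ∈ G → ap f x = ap k (ap h x)

/-- The negation of Q1 holds in the model `N`: there are an R-factorizable topological group
`(G, m, T)`, a topological group `(H, n, S)` and an uncountable set `D` such that `G` is
homeomorphic to `H × D`, where `D` has the discrete topology. -/
def NegQ1 (N : Type u) [ZFM N] : Prop :=
  ∃ G m T H n S D T1 h : N, IsTopGrp G m T ∧ IsRFact G m T ∧ IsTopGrp H n S ∧ ¬ Ctbl D ∧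
    IsProdTop T1 H S D (pow D) ∧ IsHomeo h G T (prod H D) T1

end Pool.Agent.RFN
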