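import Pool.Agent.RFN.SDict
import Pool.Agent.RFN.TChoice

set_option autoImplicit false

/-! # The axiom of choice in the generic extension

`acOrd x` is an injection of the set of the names occurring in `x` into the ordinals, `acZ x u` the von
Neumann ordinal `acOrd x u`, and `acN x` the name of the set of the pairs `(α, v)`, where `v` is
the value of a name `u` in `x` and `α` the value of the canonical name of `acZ x u`.

PROOFS.
* `val_ord`: `c α = val X g (checkN α.toZFSet)` for `α` in `OX = {α | checkN α.toZFSet ∈ X}`. By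
  `mem_val`, `mem_ch_checkN` the elements of `c α` are the `c β`, `β < α`, `β ∈ OX` (`⊤ ∈ g`;
  the elements of `α.toZFSet` are the `β.toZFSet`, `β < α`). So `β < α → c β ∈ c α`; `c α = c β`
  implies `α = β` (otherwise `c β ∈ c β`, `ZFSet.mem_irrefl`), and `c β ∈ c α` implies `β < α`
  (there is `γ < α` in `OX` with `c β = c γ`, so `β = γ`).
* `exists_wo`: `x = el x'` for a name `x'` (`exists_el`), `R = el (acN x')`. The elements of `R` are
  the `opair (c (acOrd x' u)) (el u)` with `u ∈ X`, `(u, p) ∈ ch x'`, `p ∈ g` (`mem_val`,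
  `mem_ch_acN`, `opair_el`, closure under `opairN` and projections). `all`: `mem_val`. `sv`:
  `acOrd_inj`. `lin`: linearity of the ordinals. `min`: the least ordinal of the form `acOrd x' u`
  with `el u ∈ y`. -/

namespace Pool.Agent.RFN

open Pool.Agent.ChoicelessEmb LName

open Pool.Agent.H78.ZF (ZFM opair omega succ)

/-- The names which occur in `x`. -/
def chs (x : Na) : Set Na := {u | ∃ c, (u, c) ∈ ch x}

instance small_chs (x : Na) : Small.{0} (chs x) := by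
  apply smallR (fun b : ch x => b.1.1)
  rintro u ⟨c, hc⟩
  exact ⟨⟨(u, c), hc⟩, rfl⟩

open Classical in
/-- An injection of the names which occur in `x` into the ordinals. -/
noncomputable def acOrd (x u : Na) : Ordinal.{0} :=
  if h : u ∈ chs x then
    Ordinal.typein (WellOrderingRel (α := Shrink.{0} (chs x))) (equivShrink _ ⟨u, h⟩)
  else 0

theorem acOrd_inj {x u v : Na} (hu : u ∈ chs x) (hv : v ∈ chs x) (h : acOrd x u = acOrd x v) :
    u = v := by
  unfold acOrd at h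
  rw [dif_pos hu, dif_pos hv] at h
  have h1 := (equivShrink (chs x)).injective (Ordinal.typein_injective _ h)
  exact congrArg Subtype.val h1

/-- The name of the pairs. -/
noncomputable def acN (x : Na) : Na :=
  LName.mk {a | ∃ u c, (u, c) ∈ ch x ∧ a = (opairN (checkN (acOrd x u).toZFSet) u, c)}

theorem mem_ch_acN {x v : Na} {c : Pf} :
    (v, c) ∈ ch (acN x) ↔ ∃ u, (u, c) ∈ ch x ∧ v = opairN (checkN (acOrd x u).toZFSet) u := by
  have : Small.{0} {a : Na × Pf | ∃ u c, (u, c) ∈ ch x ∧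
      a = (opairN (checkN (acOrd x u).toZFSet) u, c)} := by
    apply smallR (fun b : ch x => (opairN (checkN (acOrd x b.1.1).toZFSet) b.1.1, b.1.2))
    rintro a ⟨u, c, hu, rfl⟩
    exact ⟨⟨(u, c), hu⟩, rfl⟩
  unfold acN
  rw [ch_mk]
  constructor
  · rintro ⟨u, c', hu, e⟩
    simp only [Prod.mk.injEq] at e
    obtain ⟨rfl, rfl⟩ := e
    exact ⟨u, hu, rfl⟩
  · rintro ⟨u, hu, rfl⟩
    exact ⟨u, c, hu, rfl⟩

/-- The requirements for the axiom of choice. -/
structure StA (X : Set Na) : Prop where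
  ac : ∀ x ∈ X, acN x ∈ X
  ord : ∀ x ∈ X, ∀ u ∈ X, checkN (acOrd x u).toZFSet ∈ X

theorem req_stA : Req fun (X : Set Na) _ _ => StA X :=
  ((Req.op1 acN).and (Req.op2 fun x u => checkN (acOrd x u).toZFSet)).mono
    fun _ _ _ _ h => ⟨h.1, h.2⟩

variable {X : Set Na} {g : Set Pf}

/-- The elements of the value of the canonical name of an ordinal. -/
theorem mem_val_ord (hg : ⊤ ∈ g) {α : Ordinal.{0}} {v : ZFSet.{0}} :
    v ∈ val X g (checkN α.toZFSet) ↔
      ∃ β < α, (checkN β.toZFSet : Na) ∈ X ∧ v = val X g (checkN β.toZFSet) := by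
  rw [mem_val]
  constructor
  · rintro ⟨u, c, hu, hX, hc, rfl⟩
    obtain ⟨y, hy, rfl, rfl⟩ := mem_ch_checkN.1 hu
    obtain ⟨β, hβ, rfl⟩ := Ordinal.mem_toZFSet_iff.1 hy
    exact ⟨β, hβ, hX, rfl⟩
  · rintro ⟨β, hβ, hX, rfl⟩
    exact ⟨checkN β.toZFSet, ⊤, mem_ch_checkN.2 ⟨_, Ordinal.mem_toZFSet_iff.2 ⟨β, hβ, rfl⟩, rfl, rfl⟩,
      hX, hg, rfl⟩

theorem val_ord (hg : ⊤ ∈ g) {α β : Ordinal.{0}} (hα : (checkN α.toZFSet : Na) ∈ X)
    (hβ : (checkN β.toZFSet : Na) ∈ X) :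
    (val X g (checkN β.toZFSet) ∈ val X g (checkN α.toZFSet) ↔ β < α) ∧
      (val X g (checkN β.toZFSet) = val X g (checkN α.toZFSet) ↔ β = α) := by
  have h1 : ∀ {α β : Ordinal.{0}}, (checkN β.toZFSet : Na) ∈ X → β < α →
      val X g (checkN β.toZFSet) ∈ val X g (checkN α.toZFSet) :=
    fun hX h => (mem_val_ord hg).2 ⟨_, h, hX, rfl⟩
  have h2 : ∀ {α β : Ordinal.{0}}, (checkN α.toZFSet : Na) ∈ X → (checkN β.toZFSet : Na) ∈ X →
      val X g (checkN β.toZFSet) = val X g (checkN α.toZFSet) → β = α := by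
    intro α β hα hβ h
    rcases lt_trichotomy β α with h' | h' | h'
    · have := h1 hβ h'
      rw [h] at this
      exact absurd this (ZFSet.mem_irrefl _)
    · exact h'
    · have := h1 hα h'
      rw [h] at this
      exact absurd this (ZFSet.mem_irrefl _)
  refine ⟨⟨fun h => ?_, h1 hβ⟩, ⟨h2 hα hβ, fun h => by rw [h]⟩⟩
  obtain ⟨γ, hγ, hγX, e⟩ := (mem_val_ord hg).1 h
  rw [h2 hγX hβ e]
  exact hγ

theorem exists_wo [hs : SX X g] (hA : StA X) (x : Mod X g) : ∃ R, WOx x R := by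
  have hg : ⊤ ∈ g := hs.st.op.atom.fil.top_mem
  obtain ⟨x', hx', rfl⟩ := exists_el x
  -- the elements of the set
  have hx : ∀ v : Mod X g, v ∈ el X g x' hx' ↔
      ∃ u, ∃ hu : u ∈ X, (∃ p ∈ g, (u, p) ∈ ch x') ∧ v = el X g u hu := by
    intro v
    have h1 : v ∈ el X g x' hx' ↔ v.1 ∈ val X g x' := Iff.rfl
    rw [h1, mem_val]
    constructor
    · rintro ⟨u, p, hu, hX, hp, e⟩
      exact ⟨u, hX, ⟨p, hp, hu⟩, Subtype.ext e⟩
    · rintro ⟨u, hX, ⟨p, hp, hu⟩, e⟩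
      exact ⟨u, p, hu, hX, hp, congrArg Subtype.val e⟩
  -- the pairs of the relation
  have hR : ∀ α v : Mod X g, opair α v ∈ el X g (acN x') (hA.ac x' hx') ↔
      ∃ u, ∃ hu : u ∈ X, (∃ p ∈ g, (u, p) ∈ ch x') ∧
        α = el X g (checkN (acOrd x' u).toZFSet) (hA.ord x' hx' u hu) ∧ v = el X g u hu := by
    intro α v
    have h1 : opair α v ∈ el X g (acN x') (hA.ac x' hx') ↔ (opair α v).1 ∈ val X g (acN x') :=
      Iff.rfl
    rw [h1, mem_val]
    constructor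
    · rintro ⟨w, p, hw, hX, hp, e⟩
      obtain ⟨u, hu, rfl⟩ := mem_ch_acN.1 hw
      obtain ⟨h2, h3⟩ := hs.st.proj _ _ hX
      refine ⟨u, h3, ⟨p, hp, hu⟩, ?_⟩
      have e' : opair α v = opair (el X g (checkN (acOrd x' u).toZFSet) h2) (el X g u h3) := by
        rw [opair_el]
        exact Subtype.ext e
      exact Pool.Agent.H78.ZF.opair_inj e'
    · rintro ⟨u, hX, ⟨p, hp, hu⟩, rfl, rfl⟩
      refine ⟨_, p, mem_ch_acN.2 ⟨u, hu, rfl⟩,
        hs.st.opair _ (hA.ord x' hx' u hX) _ hX, hp, ?_⟩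
      exact congrArg Subtype.val (opair_el (hA.ord x' hx' u hX) hX)
  have hle : ∀ {u v : Na} (hu : u ∈ X) (hv : v ∈ X),
      (el X g (checkN (acOrd x' u).toZFSet) (hA.ord x' hx' u hu) ∈
        el X g (checkN (acOrd x' v).toZFSet) (hA.ord x' hx' v hv) ↔ acOrd x' u < acOrd x' v) ∧
      (el X g (checkN (acOrd x' u).toZFSet) (hA.ord x' hx' u hu) =
        el X g (checkN (acOrd x' v).toZFSet) (hA.ord x' hx' v hv) ↔
          acOrd x' u = acOrd x' v) := by
    intro u v hu hv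
    obtain ⟨h1, h2⟩ := val_ord (X := X) hg (hA.ord x' hx' v hv) (hA.ord x' hx' u hu)
    exact ⟨h1, Subtype.ext_iff.trans h2⟩
  refine ⟨el X g (acN x') (hA.ac x' hx'), ?_, ?_, ?_, ?_⟩
  · intro v hv
    obtain ⟨u, hu, hp, rfl⟩ := (hx v).1 hv
    exact ⟨_, (hR _ _).2 ⟨u, hu, hp, rfl, rfl⟩⟩
  · intro α v w hv hw
    obtain ⟨u, hu, ⟨p, hp, hpu⟩, rfl, rfl⟩ := (hR _ _).1 hv
    obtain ⟨u', hu', ⟨p', hp', hpu'⟩, e, rfl⟩ := (hR _ _).1 hw
    have h1 := (hle hu hu').2.1 e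
    have h2 : u = u' := acOrd_inj ⟨p, hpu⟩ ⟨p', hpu'⟩ h1
    subst h2
    rfl
  · intro α v β w hv hw
    obtain ⟨u, hu, _, rfl, rfl⟩ := (hR _ _).1 hv
    obtain ⟨u', hu', _, rfl, rfl⟩ := (hR _ _).1 hw
    rcases lt_trichotomy (acOrd x' u) (acOrd x' u') with h | h | h
    · exact Or.inl ((hle hu hu').1.2 h)
    · exact Or.inr (Or.inl ((hle hu hu').2.2 h))
    · exact Or.inr (Or.inr ((hle hu' hu).1.2 h))
  · intro y ⟨α, v, hv, hvy⟩
    obtain ⟨u, hu, hp, rfl, rfl⟩ := (hR _ _).1 hv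
    have hne : {o : Ordinal.{0} | ∃ u, ∃ hu : u ∈ X, (∃ p ∈ g, (u, p) ∈ ch x') ∧
        el X g u hu ∈ y ∧ o = acOrd x' u}.Nonempty := ⟨_, u, hu, hp, hvy, rfl⟩
    obtain ⟨u0, hu0, hp0, hy0, e0⟩ := WellFounded.min_mem Ordinal.lt_wf _ hne
    refine ⟨_, _, (hR _ _).2 ⟨u0, hu0, hp0, rfl, rfl⟩, hy0, ?_⟩
    intro β w hw hwy hβ
    obtain ⟨u1, hu1, hp1, rfl, rfl⟩ := (hR _ _).1 hw
    have h1 := (hle hu1 hu0).1.1 hβ
    rw [← e0] at h1
    have h2 : acOrd x' u1 ∈ {o : Ordinal.{0} | ∃ u, ∃ hu : u ∈ X, (∃ p ∈ g, (u, p) ∈ ch x') ∧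
        el X g u hu ∈ y ∧ o = acOrd x' u} := ⟨u1, hu1, hp1, hwy, rfl⟩
    exact WellFounded.not_lt_min Ordinal.lt_wf _ h2 h1

theorem choice_mod [hs : SX X g] (hA : StA X) : Choice (Mod X g) :=
  choice_of_wo fun x => exists_wo hA x

end Pool.Agent.RFN
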