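import Pool.Agent.RFN.Cond

set_option autoImplicit false

/-! # Data for the amalgamation

`AD` collects everything which is used in the construction of a common extension of conditions
`p P`, `P : T` (a finite set of parties), with root `a`, i.e. `AA (p P).a ∩ AA (p Q).a = AA a` for
`P ≠ Q`, all isomorphic over the root. The group `RA` is a common copy of the groups
`AA (p P).a`: `io P : RA → AA (p P).a` is an isomorphism and the homomorphism `fo` (the folding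
map) is its inverse, for all `P` simultaneously. A party `P` takes part only with its coordinates
of level `< bd P`; the parties with `bd P = ⊤` are called main, the other ones auxiliary. Every
auxiliary party `θ` comes with an element `g θ` with `fo (g θ) = 0`, such that the cosets
`AA (p θ).a + g θ` are pairwise disjoint and disjoint from all the groups `AA (p P).a`, and for
every level of a root coordinate they cover together with the groups `AA (p P).a` the group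
generated by the parties of larger `bd`. -/

namespace Pool.Agent.RFN

/-- The union of the index sets of the parties with `bd P > α`. -/
def aS {T : Type} [Fintype T] (p : T → Pf) (bd : T → WithTop Ordinal.{0})
    (α : WithTop Ordinal.{0}) : Set Ix := {i | ∃ P, α < bd P ∧ i ∈ (p P).1.a}

/-- The group generated by the parties with `bd P > α`. -/
def SS {T : Type} [Fintype T] (p : T → Pf) (bd : T → WithTop Ordinal.{0})
    (α : WithTop Ordinal.{0}) : AddSubgroup Gp where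
  carrier := {x | ∀ i ∈ x.support, i ∈ aS p bd α}
  zero_mem' := by simp
  add_mem' := by
    intro x y hx hy i hi
    rcases Finset.mem_union.1 (Finsupp.support_add hi) with h | h
    · exact hx i h
    · exact hy i h
  neg_mem' := by
    intro x hx
    rw [neg_eq]
    exact hx

/-- The union of all index sets. -/
noncomputable def ar {T : Type} [Fintype T] (p : T → Pf) : Finset Ix :=
  Finset.univ.biUnion fun P => (p P).1.a

theorem mem_ar {T : Type} [Fintype T] {p : T → Pf} {i : Ix} : i ∈ ar p ↔ ∃ P, i ∈ (p P).1.a := by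
  simp [ar]

theorem SS_le {T : Type} [Fintype T] (p : T → Pf) (bd : T → WithTop Ordinal.{0})
    (α : WithTop Ordinal.{0}) : SS p bd α ≤ AA (ar p) := by
  intro x hx
  rw [mem_AA]
  intro i hi
  obtain ⟨P, _, h⟩ := hx i hi
  exact mem_ar.2 ⟨P, h⟩

theorem AA_le_ar {T : Type} [Fintype T] (p : T → Pf) (P : T) : AA (p P).1.a ≤ AA (ar p) :=
  AA_mono fun i hi => mem_ar.2 ⟨P, hi⟩

theorem AA_le_SS {T : Type} [Fintype T] (p : T → Pf) (bd : T → WithTop Ordinal.{0})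
    {α : WithTop Ordinal.{0}} {P : T} (h : α < bd P) : AA (p P).1.a ≤ SS p bd α :=
  fun _ hx i hi => ⟨P, h, hx hi⟩

theorem SS_mono {T : Type} [Fintype T] (p : T → Pf) (bd : T → WithTop Ordinal.{0})
    {α β : WithTop Ordinal.{0}} (h : α ≤ β) : SS p bd β ≤ SS p bd α := by
  intro x hx i hi
  obtain ⟨P, h1, h2⟩ := hx i hi
  exact ⟨P, h.trans_lt h1, h2⟩

/-- The data for the amalgamation. -/
structure AD (T : Type) [Fintype T] (Rt : Type) [AddCommGroup Rt] where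
  /-- the parties -/
  p : T → Pf
  /-- the root -/
  a : Finset Ix
  RA : AddSubgroup Rt
  io : T → Rt →+ Gp
  fo : Gp →+ Rt
  /-- the root coordinates -/
  Dl : Finset Jx
  bd : T → WithTop Ordinal.{0}
  g : T → Gp
  /-- a main party -/
  t0 : T
  ht0 : bd t0 = ⊤
  a_sub : ∀ P, a ⊆ (p P).1.a
  io_mem : ∀ P, ∀ w ∈ RA, io P w ∈ AA (p P).1.a
  fo_io : ∀ P, ∀ w ∈ RA, fo (io P w) = w
  fo_mem : ∀ P, ∀ x ∈ AA (p P).1.a, fo x ∈ RA
  io_fo : ∀ P, ∀ x ∈ AA (p P).1.a, io P (fo x) = x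
  inter : ∀ P Q, P ≠ Q → ∀ x ∈ AA (p P).1.a, x ∈ AA (p Q).1.a → x ∈ AA a
  /-- folding maps the group generated by all parties to `RA` -/
  fo_all : ∀ x ∈ AA (ar p), fo x ∈ RA
  -- ranks
  rk_root : ∀ x ∈ AA a, ∀ y ∈ AA (ar p), y ∉ AA a → rk x < rk y
  rk_ne : ∀ P Q, P ≠ Q → ∀ x ∈ AA (p P).1.a, ∀ y ∈ AA (p Q).1.a, x ∉ AA a → y ∉ AA a →
    rk x ≠ rk y
  -- the conditions agree on the root and are isomorphic
  pi_eq : ∀ x ∈ AA a, ∀ P Q, (p P).1.pi x = (p Q).1.pi x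
  d_eq : ∀ x ∈ AA a, ∀ P Q, (p P).1.d x = (p Q).1.d x
  pi_root : ∀ x ∈ AA a, ∀ P, (p P).1.pi x ∈ AA a
  L_iso : ∀ x ∈ AA a, ∀ P Q, ∀ w ∈ RA, io P w ∈ (p P).1.L x → io Q w ∈ (p Q).1.L x
  Dl_sub : ∀ P, Dl ⊆ (p P).1.j
  Dl_inter : ∀ P Q, P ≠ Q → ∀ i ∈ (p P).1.j, i ∈ (p Q).1.j → i ∈ Dl
  M_iso : ∀ i ∈ Dl, ∀ P Q, ∀ w ∈ RA, io P w ∈ (p P).1.M i → io Q w ∈ (p Q).1.M i
  B_iso : ∀ i ∈ Dl, ∀ P Q, ∀ w ∈ RA, io P w ∈ (p P).1.B i → io Q w ∈ (p Q).1.B i
  -- the auxiliary parties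
  g_fo : ∀ θ, bd θ ≠ ⊤ → fo (g θ) = 0
  g_ar : ∀ θ, bd θ ≠ ⊤ → g θ ∈ AA (ar p)
  g_mem : ∀ θ, bd θ ≠ ⊤ → ∀ α < bd θ, g θ ∈ SS p bd α
  g_rk : ∀ θ, bd θ ≠ ⊤ → ∀ u ∈ AA (p θ).1.a, rk u < rk (g θ)
  g_disj : ∀ θ, bd θ ≠ ⊤ → ∀ P, ∀ u ∈ AA (p θ).1.a, u + g θ ∉ AA (p P).1.a
  g_disj2 : ∀ θ θ', bd θ ≠ ⊤ → bd θ' ≠ ⊤ → θ ≠ θ' → ∀ u ∈ AA (p θ).1.a,
    ∀ u' ∈ AA (p θ').1.a, u + g θ ≠ u' + g θ'
  g_cover : ∀ i ∈ Dl, ∀ z ∈ SS p bd (lev i.1),
    (∃ Q, (lev i.1 : WithTop Ordinal.{0}) < bd Q ∧ z ∈ AA (p Q).1.a) ∨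
    ∃ θ, bd θ ≠ ⊤ ∧ (lev i.1 : WithTop Ordinal.{0}) ≤ bd θ ∧ z + g θ ∈ AA (p θ).1.a

end Pool.Agent.RFN
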