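import Pool.Agent.RFN.AmLoc

set_option autoImplicit false

/-! # The amalgamated condition: the coordinates

PROOFS.
* `InJ_root`: for `i ∈ Dl` and `lev i < bd P`: `InJ i P` (`Dl_sub`).
* `InJ_unique`: `Dl_inter`.
* `mem_MR_root`: unfold. `mem_MR_P`: the chosen party is `P` (`InJ_unique`), `mem_sup_zmultiples`.
* `MR_le`: root: `SS_le`. Party: `M_le` of `p P` (`AA_le_ar`), `gg_mem`.
* `BR_sub`: `B_sub` of the parties, `AA_le_ar`.
* `MR_iff` (`InJ i P`, `x ∈ AA (p P).a`: `x ∈ MR i ↔ x ∈ (p P).M i`): if `i ∈ Dl`: `x ∈ SS` by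
  `AA_le_SS`, and `M_iso` in both directions, `io_fo`. If `i ∉ Dl`: as in `LR_iff`
  (`x + gg P ∈ (p P).M i ≤ AA (p P).a` is impossible for auxiliary `P` by `g_disj`; for main `P`
  `gg P = 0`).
* `LeB_r`: put the pieces together (`piR_P`, `dR_P`, `LR_iff`, `MR_iff`).
* `Le_r`: same with `bd P = ⊤`: `Ordinal` values are `< ⊤` (`WithTop.coe_lt_top`). -/

namespace Pool.Agent.RFN

namespace AD

variable {T : Type} [Fintype T] {Rt : Type} [AddCommGroup Rt] (D : AD T Rt)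

theorem InJ_root {i : Jx} (hi : i ∈ D.Dl) {P : T} (h : (lev i.1 : WithTop Ordinal.{0}) < D.bd P) :
    D.InJ i P := ⟨D.Dl_sub P hi, h⟩

theorem InJ_unique {i : Jx} (hi : i ∉ D.Dl) {P Q : T} (h : D.InJ i P) (h' : D.InJ i Q) :
    P = Q := by
  by_contra hne
  exact hi (D.Dl_inter P Q hne i h.1 h'.1)

theorem mem_MR_root {i : Jx} (hi : i ∈ D.Dl) {x : Gp} :
    x ∈ D.MR i ↔ x ∈ SS D.p D.bd (lev i.1) ∧ D.io D.t0 (D.fo x) ∈ (D.p D.t0).1.M i := by
  unfold MR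
  rw [if_pos hi]
  exact Iff.rfl

theorem mem_MR_P {i : Jx} (hi : i ∉ D.Dl) {P : T} (h : D.InJ i P) {x : Gp} :
    x ∈ D.MR i ↔ x ∈ (D.p P).1.M i ∨ x + D.gg P ∈ (D.p P).1.M i := by
  have hE : ∃ P, D.InJ i P := ⟨P, h⟩
  have hc : hE.choose = P := D.InJ_unique hi hE.choose_spec h
  unfold MR
  rw [if_neg hi, dif_pos hE, hc]
  exact mem_sup_zmultiples

theorem MR_le {i : Jx} (hi : i ∈ D.jR) : D.MR i ≤ AA (ar D.p) := by
  obtain ⟨P, hP⟩ := D.mem_jR.1 hi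
  intro x hx
  by_cases hD : i ∈ D.Dl
  · exact SS_le _ _ _ ((D.mem_MR_root hD).1 hx).1
  · rcases (D.mem_MR_P hD hP).1 hx with h | h
    · exact AA_le_ar D.p P ((D.p P).2.M_le i hP.1 h)
    · have h1 := AA_le_ar D.p P ((D.p P).2.M_le i hP.1 h)
      have h2 := AddSubgroup.add_mem _ h1 (D.gg_mem P)
      rwa [add_add_cancel] at h2

theorem BR_sub {i : Jx} (hi : i ∈ D.jR) : D.BR i ⊆ AA (ar D.p) := by
  rintro b ⟨P, hP, hb⟩
  exact AA_le_ar D.p P ((D.p P).2.B_sub i hP.1 hb)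

theorem MR_iff {i : Jx} {P : T} (h : D.InJ i P) {x : Gp} (hx : x ∈ AA (D.p P).1.a) :
    x ∈ D.MR i ↔ x ∈ (D.p P).1.M i := by
  by_cases hi : i ∈ D.Dl
  · rw [D.mem_MR_root hi]
    have hS : x ∈ SS D.p D.bd (lev i.1) := AA_le_SS D.p D.bd h.2 hx
    have e : D.io P (D.fo x) = x := D.io_fo P x hx
    have hR : D.fo x ∈ D.RA := D.fo_mem P x hx
    constructor
    · rintro ⟨-, h1⟩
      have h2 := D.M_iso i hi D.t0 P _ hR h1
      rwa [e] at h2
    · intro h1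
      exact ⟨hS, D.M_iso i hi P D.t0 _ hR (by rwa [e])⟩
  · rw [D.mem_MR_P hi h]
    refine ⟨?_, Or.inl⟩
    rintro (h1 | h1)
    · exact h1
    · by_cases hb : D.bd P = ⊤
      · have hg : D.gg P = 0 := by
          unfold gg
          rw [if_pos hb]
        rwa [hg, add_zero] at h1
      · have hg : D.gg P = D.g P := by
          unfold gg
          rw [if_neg hb]
        rw [hg] at h1
        exact absurd ((D.p P).2.M_le i h.1 h1) (D.g_disj P hb P x hx)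

theorem LeB_r (P : T) : LeB (D.bd P) D.r (D.p P).1 where
  a := fun _ hi => mem_ar.2 ⟨P, hi⟩
  pi := fun _ hx => D.piR_P hx
  d := fun _ hx => D.dR_P hx
  L := fun _ hx _ hl => D.LR_iff hx hl
  j := fun _ hi hl => D.mem_jR.2 ⟨P, hi, hl⟩
  M := fun _ hi hl _ hx => D.MR_iff ⟨hi, hl⟩ hx
  B := fun _ hi hl _ hb => ⟨P, ⟨hi, hl⟩, hb⟩

theorem Le_r {P : T} (hP : D.bd P = ⊤) : Le D.r (D.p P).1 := by
  have h := D.LeB_r P
  have hlt : ∀ i : Jx, (lev i.1 : WithTop Ordinal.{0}) < D.bd P := fun i => by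
    rw [hP]
    exact WithTop.coe_lt_top _
  exact ⟨h.a, h.pi, h.d, h.L, fun i hi => h.j i hi (hlt i), fun i hi => h.M i hi (hlt i),
    fun i hi => h.B i hi (hlt i)⟩

end AD

end Pool.Agent.RFN
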