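import Pool.Agent.RFN.AD

set_option autoImplicit false

/-! # The amalgamated condition: definition

`D.r` is the common extension. On the group `AA (p P).a` of a party it is `p P`; on the coset
`AA (p θ).a + g θ` of an auxiliary party it is the translate of `p θ`; on the other elements `y` it
is either forced by the subgroups `L x`, `x` in the root, or `pi y = y`, `d y = rk y`. -/

namespace Pool.Agent.RFN

/-- In a group of exponent two, the subgroup generated by `K` and `v` is `K ∪ (K + v)`. -/
theorem mem_sup_zmultiples {K : AddSubgroup Gp} {v l : Gp} :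
    l ∈ K ⊔ AddSubgroup.zmultiples v ↔ l ∈ K ∨ l + v ∈ K := by
  constructor
  · intro h
    obtain ⟨x, hx, y, hy, rfl⟩ := AddSubgroup.mem_sup.1 h
    obtain ⟨n, rfl⟩ := AddSubgroup.mem_zmultiples_iff.1 hy
    rcases Int.even_or_odd n with ⟨k, hk⟩ | ⟨k, hk⟩
    · left
      have : n • v = 0 := by
        rw [hk, add_zsmul, ← zsmul_add, add_self, zsmul_zero]
      rw [this, add_zero]
      exact hx
    · right
      have : n • v = v := by
        rw [hk, add_zsmul, one_zsmul, mul_comm, mul_zsmul, two_zsmul, add_self, zsmul_zero,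
          zero_add]
      rw [this, add_add_cancel]
      exact hx
  · rintro (h | h)
    · exact AddSubgroup.mem_sup_left h
    · have h1 : v ∈ K ⊔ AddSubgroup.zmultiples v :=
        AddSubgroup.mem_sup_right (AddSubgroup.mem_zmultiples v)
      have h2 := AddSubgroup.add_mem _ (AddSubgroup.mem_sup_left (T := AddSubgroup.zmultiples v) h)
        h1
      rwa [add_add_cancel] at h2

namespace AD

variable {T : Type} [Fintype T] {Rt : Type} [AddCommGroup Rt] (D : AD T Rt)

/-- `y` is in the group of a party. -/
def InP (y : Gp) : Prop := ∃ P, y ∈ AA (D.p P).1.a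

/-- `y` is in the coset of an auxiliary party. -/
def InG (y : Gp) : Prop := ∃ θ, D.bd θ ≠ ⊤ ∧ y + D.g θ ∈ AA (D.p θ).1.a

/-- The value at `y` is forced by the subgroup of the root element `x`. -/
def Fo (y x : Gp) : Prop := x ∈ AA D.a ∧ D.io D.t0 (D.fo (y + x)) ∈ (D.p D.t0).1.L x

open Classical in
/-- The element `g θ`, for main parties replaced by `0`. -/
noncomputable def gg (θ : T) : Gp := if D.bd θ = ⊤ then 0 else D.g θ

open Classical in
/-- The map `pi` of the amalgam. -/
noncomputable def piR (y : Gp) : Gp :=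
  if h : D.InP y then (D.p h.choose).1.pi y
  else if h : D.InG y then (D.p h.choose).1.pi (y + D.g h.choose) + D.g h.choose
  else if h : ∃ x, D.Fo y x then y + h.choose + (D.p D.t0).1.pi h.choose
  else y

open Classical in
/-- The colours of the amalgam. -/
noncomputable def dR (y : Gp) : Om :=
  if h : D.InP y then (D.p h.choose).1.d y
  else if h : D.InG y then (D.p h.choose).1.d (y + D.g h.choose)
  else if h : ∃ x, D.Fo y x then (D.p D.t0).1.d h.choose
  else rk y

open Classical in
/-- The subgroups `L x` of the amalgam. -/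
noncomputable def LR (x : Gp) : AddSubgroup Gp :=
  if x ∈ AA D.a then
    AA (ar D.p) ⊓ ((D.p D.t0).1.L x).comap ((D.io D.t0).comp D.fo)
  else if h : D.InP x then
    (D.p h.choose).1.L x ⊔ AddSubgroup.zmultiples (D.gg h.choose)
  else ⊥

open Classical in
/-- The coordinates of the amalgam. -/
noncomputable def jR : Finset Jx :=
  Finset.univ.biUnion fun P => (D.p P).1.j.filter fun i =>
    (lev i.1 : WithTop Ordinal.{0}) < D.bd P

/-- `i` is a coordinate with which `P` takes part. -/
def InJ (i : Jx) (P : T) : Prop := i ∈ (D.p P).1.j ∧ (lev i.1 : WithTop Ordinal.{0}) < D.bd P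

open Classical in
/-- The subgroups `M i` of the amalgam. -/
noncomputable def MR (i : Jx) : AddSubgroup Gp :=
  if i ∈ D.Dl then
    SS D.p D.bd (lev i.1) ⊓ ((D.p D.t0).1.M i).comap ((D.io D.t0).comp D.fo)
  else if h : ∃ P, D.InJ i P then
    (D.p h.choose).1.M i ⊔ AddSubgroup.zmultiples (D.gg h.choose)
  else ⊥

/-- The sets `B i` of the amalgam. -/
def BR (i : Jx) : Set Gp := {b | ∃ P, D.InJ i P ∧ b ∈ (D.p P).1.B i}

/-- The amalgam. -/
noncomputable def r : Cond0 where
  a := ar D.p
  pi := D.piR
  d := D.dR
  L := D.LR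
  j := D.jR
  M := D.MR
  B := D.BR

theorem mem_jR {i : Jx} : i ∈ D.jR ↔ ∃ P, D.InJ i P := by
  simp [jR, InJ]

end AD

end Pool.Agent.RFN
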