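import Pool.Agent.RFN.AmPhi

set_option autoImplicit false

/-! # The amalgamated condition: ranks and injectivity

PROOF of `rank` (`rk y = max (rk (piR y)) (dR y)` for `y ∈ AA (ar p)`).
* `y ∈ AA (p P).a`: `rank` of `p P` with `piR_P`, `dR_P`.
* `y = u + g θ`, `u ∈ AA (p θ).a`: `rk (u' + g θ) = rk (g θ)` for all `u' ∈ AA (p θ).a`
  (`rk_add_of_lt`, `g_rk`); so `rk y = rk (g θ) = rk (piR y)` (`piR_G`, `pi_mem`), and
  `dR y = (p θ).d u ≤ rk u < rk (g θ)` (`rank` of `p θ`).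
* otherwise, `y ∉ AA a` (`AA a ⊆` groups of the parties); if `Fo y x`: `piR y = y + b` with
  `b = x + pi x ∈ AA a`, `rk (y + b) = rk y` (`rk_root`, `rk_add_of_lt`), and
  `dR y = (p t0).d x ≤ rk x < rk y` (`rank` of `p t0`, `rk_root`).
* otherwise `piR y = y`, `dR y = rk y`.

PROOF of `inj` (`y1, y2 ∈ AA (ar p)`, `piR y1 = piR y2`, `dR y1 = dR y2` imply `y1 = y2`).
The block of `piR y` is the one of `y`: if `y ∈ AA (p P).a` then `piR y ∈ AA (p P).a`; if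
`y + g θ ∈ AA (p θ).a` then `piR y + g θ ∈ AA (p θ).a`; otherwise `piR y ∈ y + AA a`
(`piR_other`), so `piR y` is neither `InP` nor `InG` (`InP_add_iff`, `InG_add_iff`).
Hence `y1`, `y2` are in the same sort of block.
* Both `InP`: `y1 ∈ AA (p P).a`, `y2 ∈ AA (p Q).a`. If `P = Q`, or `y1 ∈ AA a`, or `y2 ∈ AA a`:
  both are in the group of one party, use its `inj`. Otherwise `piR y1 = piR y2` is in both groups,
  so in `AA a`; by `rank` and `rk_root`, `rk (piR y1) < rk y1`, so `dR y1 = rk y1`, similarly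
  `dR y2 = rk y2`, and `rk y1 = rk y2` contradicts `rk_ne`.
* Both `InG`: `piR y1 = v1 + g θ1`, `piR y2 = v2 + g θ2`; by `g_disj2`, `θ1 = θ2`; then use `inj`
  of `p θ1` (for `u1 = y1 + g θ1`, `u2 = y2 + g θ1`).
* Both other. `y1 + y2 =: b ∈ AA a` (both `y1 + piR y1`, `y2 + piR y2` are in `AA a`).
  - Both forced, by `x1`, `x2`: `y1 + x1 + pi x1 = y2 + x2 + pi x2`, `d x1 = d x2` (for `p t0`).
    Put `z_k = io t0 (fo y_k)`, in `AA (p t0).a`; `z1 + z2 = io t0 (fo b) = b`.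
    `z_k = x_k + l_k`, `l_k = io t0 (fo (y_k + x_k)) ∈ L x_k`, so `pi z_k = pi x_k + z_k + x_k`,
    `d z_k = d x_k`; hence `pi z1 + pi z2 = (x1 + pi x1) + (x2 + pi x2) + b = (y1 + y2) + b = 0`
    and `d z1 = d z2`: `z1 = z2` by `inj` of `p t0`, so `b = 0`, `y1 = y2`.
  - `y1` forced by `x`, `y2` not forced: `dR y1 = (p t0).d x ≤ rk x < rk y2 = dR y2` (`rk_root`;
    `y2 ∉ AA a`). Contradiction. Symmetric case the same.
  - Both not forced: `y1 = piR y1 = piR y2 = y2`. -/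

namespace Pool.Agent.RFN

namespace AD

variable {T : Type} [Fintype T] {Rt : Type} [AddCommGroup Rt] (D : AD T Rt)

private theorem d_le {P : T} {x : Gp} (hx : x ∈ AA (D.p P).1.a) : (D.p P).1.d x ≤ rk x := by
  rw [(D.p P).2.rank x hx]
  exact le_max_right _ _

private theorem notMem_root {y : Gp} (h1 : ¬ D.InP y) : y ∉ AA D.a := fun h =>
  h1 ⟨D.t0, AA_mono (D.a_sub D.t0) h⟩

theorem rankR {y : Gp} (hy : y ∈ AA (ar D.p)) : rk y = max (rk (D.piR y)) (D.dR y) := by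
  by_cases hP : D.InP y
  · obtain ⟨P, hP⟩ := hP
    rw [D.piR_P hP, D.dR_P hP]
    exact (D.p P).2.rank y hP
  by_cases hG : D.InG y
  · obtain ⟨θ, hθ, h⟩ := hG
    have e : y + D.g θ + D.g θ = y := add_add_cancel y (D.g θ)
    have h1 := D.piR_G hθ h
    have h2 := D.dR_G hθ h
    rw [e] at h1 h2
    have h3 : rk y = rk (D.g θ) := by
      have := rk_add_of_lt (D.g_rk θ hθ _ h)
      rwa [e] at this
    have h4 : rk ((D.p θ).1.pi (y + D.g θ) + D.g θ) = rk (D.g θ) :=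
      rk_add_of_lt (D.g_rk θ hθ _ ((D.p θ).2.pi_mem _ h))
    have h5 : (D.p θ).1.d (y + D.g θ) < rk (D.g θ) := (D.d_le h).trans_lt (D.g_rk θ hθ _ h)
    rw [h1, h2, h3, h4, max_eq_left h5.le]
  by_cases hF : ∃ x, D.Fo y x
  · obtain ⟨x, hx⟩ := hF
    have hya := D.notMem_root hP
    rw [D.piR_F hy hP hG hx, D.dR_F hy hP hG hx]
    have hb : x + (D.p D.t0).1.pi x ∈ AA D.a :=
      AddSubgroup.add_mem _ hx.1 (D.pi_root x hx.1 D.t0)
    have h1 := D.rk_root _ hb y hy hya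
    have h2 : y + x + (D.p D.t0).1.pi x = (x + (D.p D.t0).1.pi x) + y := by abel
    rw [h2, rk_add_of_lt h1]
    have h3 : (D.p D.t0).1.d x < rk y :=
      (D.d_le (AA_mono (D.a_sub D.t0) hx.1)).trans_lt (D.rk_root x hx.1 y hy hya)
    rw [max_eq_left h3.le]
  · obtain ⟨h1, h2⟩ := D.piR_N hP hG hF
    rw [h1, h2, max_self]

private theorem InP_piR {y : Gp} (h : D.InP y) : D.InP (D.piR y) := by
  obtain ⟨P, hP⟩ := h
  refine ⟨P, ?_⟩
  rw [D.piR_P hP]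
  exact (D.p P).2.pi_mem y hP

private theorem InG_piR {y : Gp} (h : D.InG y) : D.InG (D.piR y) := by
  obtain ⟨θ, hθ, h⟩ := h
  refine ⟨θ, hθ, ?_⟩
  have h1 := D.piR_G hθ h
  rw [add_add_cancel] at h1
  rw [h1, add_add_cancel]
  exact (D.p θ).2.pi_mem _ h

private theorem other_piR {y : Gp} (hy : y ∈ AA (ar D.p)) (h1 : ¬ D.InP y) (h2 : ¬ D.InG y) :
    ¬ D.InP (D.piR y) ∧ ¬ D.InG (D.piR y) := by
  have hb := D.piR_other hy h1 h2
  have e : y + (y + D.piR y) = D.piR y := by rw [← add_assoc, add_self, zero_add]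
  have k1 := D.InP_add_iff (y := y) hb
  have k2 := D.InG_add_iff (y := y) hb
  rw [e] at k1 k2
  exact ⟨fun h => h1 (k1.1 h), fun h => h2 (k2.1 h)⟩

private theorem InG_piR_iff {y : Gp} (hy : y ∈ AA (ar D.p)) : D.InG (D.piR y) ↔ D.InG y := by
  constructor
  · intro h
    by_contra hG
    by_cases hP : D.InP y
    · exact D.not_InP_of_InG h (D.InP_piR hP)
    · exact (D.other_piR hy hP hG).2 h
  · exact D.InG_piR

private theorem InP_piR_iff {y : Gp} (hy : y ∈ AA (ar D.p)) : D.InP (D.piR y) ↔ D.InP y := by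
  constructor
  · intro h
    by_contra hP
    by_cases hG : D.InG y
    · exact D.not_InP_of_InG (D.InG_piR hG) h
    · exact (D.other_piR hy hP hG).1 h
  · exact D.InP_piR

private theorem inj_same {y1 y2 : Gp} {P : T} (h1 : y1 ∈ AA (D.p P).1.a)
    (h2 : y2 ∈ AA (D.p P).1.a) (hpi : D.piR y1 = D.piR y2) (hd : D.dR y1 = D.dR y2) :
    y1 = y2 := by
  rw [D.piR_P h1, D.piR_P h2] at hpi
  rw [D.dR_P h1, D.dR_P h2] at hd
  exact (D.p P).2.inj y1 h1 y2 h2 hpi hd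

private theorem d_eq_rk {y : Gp} {P : T} (hy : y ∈ AA (D.p P).1.a) (hya : y ∉ AA D.a)
    (h : D.piR y ∈ AA D.a) : D.dR y = rk y := by
  have h1 := D.rk_root _ h y (AA_le_ar D.p P hy) hya
  have h2 := D.rankR (AA_le_ar D.p P hy)
  rcases max_choice (rk (D.piR y)) (D.dR y) with h3 | h3
  · rw [h3] at h2
    exact absurd h2.symm h1.ne
  · rw [h3] at h2
    exact h2.symm

/-- the folded point of a forced point -/
private theorem fold {y x : Gp} (hx : D.Fo y x) :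
    (D.p D.t0).1.pi (D.io D.t0 (D.fo y)) =
        (D.p D.t0).1.pi x + (D.io D.t0 (D.fo y) + x) ∧
      (D.p D.t0).1.d (D.io D.t0 (D.fo y)) = (D.p D.t0).1.d x := by
  have hxt : x ∈ AA (D.p D.t0).1.a := AA_mono (D.a_sub D.t0) hx.1
  have e : D.io D.t0 (D.fo (y + x)) = D.io D.t0 (D.fo y) + x := by
    rw [map_add, map_add, D.io_fo D.t0 x hxt]
  have hl : D.io D.t0 (D.fo y) + x ∈ (D.p D.t0).1.L x := by
    rw [← e]
    exact hx.2
  have e2 : x + (D.io D.t0 (D.fo y) + x) = D.io D.t0 (D.fo y) := by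
    rw [add_comm, add_add_cancel]
  have h1 := (D.p D.t0).2.loc_pi x hxt _ hl
  have h2 := (D.p D.t0).2.loc_d x hxt _ hl
  rw [e2] at h1 h2
  exact ⟨h1, h2⟩

/-- the case that one of the two points is forced and the other one is not -/
private theorem mixed {y1 y2 x : Gp} (h1 : y1 ∈ AA (ar D.p)) (h2 : y2 ∈ AA (ar D.p))
    (hP1 : ¬ D.InP y1) (hG1 : ¬ D.InG y1) (hP2 : ¬ D.InP y2) (hG2 : ¬ D.InG y2)
    (hx : D.Fo y1 x) (hn : ¬ ∃ x, D.Fo y2 x) : D.dR y1 ≠ D.dR y2 := by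
  rw [D.dR_F h1 hP1 hG1 hx, (D.piR_N hP2 hG2 hn).2]
  exact ((D.d_le (AA_mono (D.a_sub D.t0) hx.1)).trans_lt
    (D.rk_root x hx.1 y2 h2 (D.notMem_root hP2))).ne

theorem injR {y1 y2 : Gp} (h1 : y1 ∈ AA (ar D.p)) (h2 : y2 ∈ AA (ar D.p))
    (hpi : D.piR y1 = D.piR y2) (hd : D.dR y1 = D.dR y2) : y1 = y2 := by
  have hPP : D.InP y1 ↔ D.InP y2 := by
    rw [← D.InP_piR_iff h1, ← D.InP_piR_iff h2, hpi]
  have hGG : D.InG y1 ↔ D.InG y2 := by
    rw [← D.InG_piR_iff h1, ← D.InG_piR_iff h2, hpi]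
  by_cases hP1 : D.InP y1
  · obtain ⟨P, hP⟩ := hP1
    obtain ⟨Q, hQ⟩ := hPP.1 ⟨P, hP⟩
    by_cases hPQ : P = Q
    · subst hPQ
      exact D.inj_same hP hQ hpi hd
    by_cases hy1 : y1 ∈ AA D.a
    · exact D.inj_same (AA_mono (D.a_sub Q) hy1) hQ hpi hd
    by_cases hy2 : y2 ∈ AA D.a
    · exact D.inj_same hP (AA_mono (D.a_sub P) hy2) hpi hd
    exfalso
    have k1 : D.piR y1 ∈ AA (D.p P).1.a := by
      rw [D.piR_P hP]
      exact (D.p P).2.pi_mem y1 hP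
    have k2 : D.piR y1 ∈ AA (D.p Q).1.a := by
      rw [hpi, D.piR_P hQ]
      exact (D.p Q).2.pi_mem y2 hQ
    have k3 := D.inter P Q hPQ _ k1 k2
    have k4 := D.d_eq_rk hP hy1 k3
    have k5 := D.d_eq_rk hQ hy2 (by rw [← hpi]; exact k3)
    exact D.rk_ne P Q hPQ y1 hP y2 hQ hy1 hy2 (by rw [← k4, ← k5, hd])
  have hP2 : ¬ D.InP y2 := fun h => hP1 (hPP.2 h)
  by_cases hG1 : D.InG y1
  · obtain ⟨θ₁, hθ₁, k1⟩ := hG1
    obtain ⟨θ₂, hθ₂, k2⟩ := hGG.1 ⟨θ₁, hθ₁, k1⟩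
    have e1 := D.piR_G hθ₁ k1
    have e2 := D.piR_G hθ₂ k2
    have f1 := D.dR_G hθ₁ k1
    have f2 := D.dR_G hθ₂ k2
    rw [add_add_cancel] at e1 e2 f1 f2
    rw [e1, e2] at hpi
    rw [f1, f2] at hd
    by_cases hθ : θ₁ = θ₂
    · subst hθ
      have k3 := (D.p θ₁).2.inj _ k1 _ k2 (add_right_cancel hpi) hd
      exact add_right_cancel k3
    · exact absurd hpi (D.g_disj2 θ₁ θ₂ hθ₁ hθ₂ hθ _ ((D.p θ₁).2.pi_mem _ k1) _
        ((D.p θ₂).2.pi_mem _ k2))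
  have hG2 : ¬ D.InG y2 := fun h => hG1 (hGG.2 h)
  by_cases hF1 : ∃ x, D.Fo y1 x
  · obtain ⟨x1, hx1⟩ := hF1
    by_cases hF2 : ∃ x, D.Fo y2 x
    · obtain ⟨x2, hx2⟩ := hF2
      have hb : y1 + y2 ∈ AA D.a := by
        have b1 := D.piR_other h1 hP1 hG1
        have b2 := D.piR_other h2 hP2 hG2
        have b3 := AddSubgroup.add_mem _ b1 b2
        have e : y1 + D.piR y1 + (y2 + D.piR y2) = y1 + y2 + (D.piR y1 + D.piR y2) := by abel
        rwa [e, hpi, add_self, add_zero] at b3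
      rw [D.piR_F h1 hP1 hG1 hx1, D.piR_F h2 hP2 hG2 hx2] at hpi
      rw [D.dR_F h1 hP1 hG1 hx1, D.dR_F h2 hP2 hG2 hx2] at hd
      obtain ⟨p1, q1⟩ := D.fold hx1
      obtain ⟨p2, q2⟩ := D.fold hx2
      have hz : D.io D.t0 (D.fo y1) + D.io D.t0 (D.fo y2) = y1 + y2 := by
        rw [← map_add, ← map_add]
        exact D.io_fo D.t0 _ (AA_mono (D.a_sub D.t0) hb)
      have hz1 := D.io_mem D.t0 _ (D.fo_all y1 h1)
      have hz2 := D.io_mem D.t0 _ (D.fo_all y2 h2)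
      have hpz : (D.p D.t0).1.pi (D.io D.t0 (D.fo y1)) =
          (D.p D.t0).1.pi (D.io D.t0 (D.fo y2)) := by
        apply eq_of_add_eq_zero
        rw [p1, p2]
        have e : (D.p D.t0).1.pi x1 + (D.io D.t0 (D.fo y1) + x1) +
            ((D.p D.t0).1.pi x2 + (D.io D.t0 (D.fo y2) + x2)) =
            ((D.p D.t0).1.pi x1 + x1 + ((D.p D.t0).1.pi x2 + x2)) +
              (D.io D.t0 (D.fo y1) + D.io D.t0 (D.fo y2)) := by abel
        rw [e, hz]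
        have e2 : (D.p D.t0).1.pi x1 + x1 + ((D.p D.t0).1.pi x2 + x2) + (y1 + y2) =
            (y1 + x1 + (D.p D.t0).1.pi x1) + (y2 + x2 + (D.p D.t0).1.pi x2) := by abel
        rw [e2, hpi, add_self]
      have hzz := (D.p D.t0).2.inj _ hz1 _ hz2 hpz (by rw [q1, q2, hd])
      rw [hzz, add_self] at hz
      exact eq_of_add_eq_zero hz.symm
    · exact absurd hd (D.mixed h1 h2 hP1 hG1 hP2 hG2 hx1 hF2)
  · by_cases hF2 : ∃ x, D.Fo y2 x
    · obtain ⟨x2, hx2⟩ := hF2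
      exact absurd hd.symm (D.mixed h2 h1 hP2 hG2 hP1 hG1 hx2 hF1)
    · rw [(D.piR_N hP1 hG1 hF1).1, (D.piR_N hP2 hG2 hF2).1] at hpi
      exact hpi

end AD

end Pool.Agent.RFN
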