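import Pool.Agent.RFN.AmPhi

set_option autoImplicit false

/-! # The amalgamated condition: the subgroups `L x`

PROOFS.
* `mem_LR_root`: unfold (`x ∈ AA a`).
* `mem_LR_P`: for `x ∈ AA (p P).a`, `x ∉ AA a`: the chosen party is `P` (`inter`), and
  `mem_sup_zmultiples`.
* `LR_le`: root: first component. Party `P`: `L_le` of `p P`, `gg P ∈ AA (ar p)` (`g_ar` or `0`).
* `LR_iff` (for `x, l ∈ AA (p P).a`: `l ∈ LR x ↔ l ∈ (p P).L x`): if `x ∈ AA a`:
  `l ∈ AA (ar p)`, and `io t0 (fo l) ∈ (p t0).L x ↔ io P (fo l) = l ∈ (p P).L x` by `L_iso`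
  (both directions), `io_fo`, `fo_mem`. If `x ∉ AA a`: `l + gg P ∈ (p P).L x ≤ AA (p P).a` would
  give (if `P` is auxiliary) `g P = l + g P + l`, i.e. `l + g P ∈ AA (p P).a`, against `g_disj`;
  if `P` is main `gg P = 0`.
* `loc` (for `x ∈ AA (ar p)`, `l ∈ LR x`: `piR (x + l) = piR x + l` and `dR (x + l) = dR x`):
  (1) `x ∈ AA a`, `l ∈ AA (ar p)`, `io t0 (fo l) ∈ (p t0).L x`; put `y = x + l`.
    `piR x = (p t0).pi x`, `dR x = (p t0).d x` (`piR_P`). Note `Fo y x` (`y + x = l`).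
    (1a) `y ∈ AA (p P).a`: `l = y + x ∈ AA (p P).a`, `l ∈ (p P).L x` by `LR_iff`, use
      `loc_pi`, `loc_d` of `p P` and `pi_eq`, `d_eq`.
    (1b) `y = u + g θ`, `u = y + g θ ∈ AA (p θ).a`: `l' = u + x = l + g θ ∈ AA (p θ).a`,
      `fo l' = fo l + 0` (`g_fo`), so `l' = io θ (fo l')` is in `(p θ).L x` by `L_iso`, and
      `piR y = (p θ).pi (x + l') + g θ = (p θ).pi x + l' + g θ = piR x + l` (`piR_G`).
    (1c) otherwise `piR_F`: `piR y = y + x + (p t0).pi x = l + piR x`, `dR_F`.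
  (2) `x ∉ AA a`, `x ∈ AA (p P).a`: `l ∈ (p P).L x` or `l + gg P ∈ (p P).L x`. In the first case
    `x + l ∈ AA (p P).a`, use `piR_P`. In the second case, if `P` is main it is the same case;
    if `P` is auxiliary, `l' = l + g P ∈ (p P).L x`, `x + l = (x + l') + g P`, use `piR_G`:
    `piR (x + l) = (p P).pi (x + l') + g P = (p P).pi x + l' + g P = piR x + l`.
  (3) otherwise `LR x = ⊥`, `l = 0`. -/

namespace Pool.Agent.RFN

namespace AD

variable {T : Type} [Fintype T] {Rt : Type} [AddCommGroup Rt] (D : AD T Rt)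

theorem mem_LR_root {x l : Gp} (hx : x ∈ AA D.a) :
    l ∈ D.LR x ↔ l ∈ AA (ar D.p) ∧ D.io D.t0 (D.fo l) ∈ (D.p D.t0).1.L x := by
  unfold LR
  rw [if_pos hx, AddSubgroup.mem_inf, AddSubgroup.mem_comap]
  rfl

theorem mem_LR_P {x l : Gp} {P : T} (hx : x ∈ AA (D.p P).1.a) (hx' : x ∉ AA D.a) :
    l ∈ D.LR x ↔ l ∈ (D.p P).1.L x ∨ l + D.gg P ∈ (D.p P).1.L x := by
  have h : D.InP x := ⟨P, hx⟩
  have hQ : h.choose = P := by
    by_contra hne
    exact hx' (D.inter h.choose P hne x h.choose_spec hx)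
  unfold LR
  rw [if_neg hx', dif_pos h, mem_sup_zmultiples, hQ]

theorem gg_top {P : T} (h : D.bd P = ⊤) : D.gg P = 0 := by
  unfold gg
  rw [if_pos h]

theorem gg_aux {P : T} (h : D.bd P ≠ ⊤) : D.gg P = D.g P := by
  unfold gg
  rw [if_neg h]

theorem gg_mem (P : T) : D.gg P ∈ AA (ar D.p) := by
  by_cases h : D.bd P = ⊤
  · rw [D.gg_top h]
    exact AddSubgroup.zero_mem _
  · rw [D.gg_aux h]
    exact D.g_ar P h

theorem LR_le {x : Gp} (hx : x ∈ AA (ar D.p)) : D.LR x ≤ AA (ar D.p) := by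
  have _ := hx
  unfold LR
  split_ifs with h1 h2
  · exact inf_le_left
  · refine sup_le ?_ ?_
    · exact ((D.p h2.choose).2.L_le x h2.choose_spec).trans (AA_le_ar D.p _)
    · rw [AddSubgroup.zmultiples_le]
      exact D.gg_mem _
  · exact bot_le

theorem LR_iff {P : T} {x l : Gp} (hx : x ∈ AA (D.p P).1.a) (hl : l ∈ AA (D.p P).1.a) :
    l ∈ D.LR x ↔ l ∈ (D.p P).1.L x := by
  by_cases hxa : x ∈ AA D.a
  · rw [D.mem_LR_root hxa]
    have hw := D.fo_mem P l hl
    have hio := D.io_fo P l hl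
    constructor
    · rintro ⟨-, h⟩
      have := D.L_iso x hxa D.t0 P _ hw h
      rwa [hio] at this
    · intro h
      refine ⟨AA_le_ar D.p P hl, ?_⟩
      apply D.L_iso x hxa P D.t0 _ hw
      rwa [hio]
  · rw [D.mem_LR_P hx hxa]
    constructor
    · rintro (h | h)
      · exact h
      · by_cases hb : D.bd P = ⊤
        · rwa [D.gg_top hb, add_zero] at h
        · rw [D.gg_aux hb] at h
          exact absurd ((D.p P).2.L_le x hx h) (D.g_disj P hb P l hl)
    · exact Or.inl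

theorem loc {x l : Gp} (hx : x ∈ AA (ar D.p)) (hl : l ∈ D.LR x) :
    D.piR (x + l) = D.piR x + l ∧ D.dR (x + l) = D.dR x := by
  have hlar : l ∈ AA (ar D.p) := D.LR_le hx hl
  by_cases hxa : x ∈ AA D.a
  · have hxP : ∀ P, x ∈ AA (D.p P).1.a := fun P => AA_mono (D.a_sub P) hxa
    obtain ⟨-, hL⟩ := (D.mem_LR_root hxa).1 hl
    have hyx : x + l + x = l := by rw [add_comm x l, add_add_cancel]
    by_cases h1 : D.InP (x + l)
    · obtain ⟨P, hP⟩ := h1
      have hlP : l ∈ AA (D.p P).1.a := by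
        rw [← hyx]
        exact AddSubgroup.add_mem _ hP (hxP P)
      have hlL := (D.LR_iff (hxP P) hlP).1 hl
      rw [D.piR_P hP, D.piR_P (hxP P), D.dR_P hP, D.dR_P (hxP P)]
      exact ⟨(D.p P).2.loc_pi x (hxP P) l hlL, (D.p P).2.loc_d x (hxP P) l hlL⟩
    by_cases h2 : D.InG (x + l)
    · obtain ⟨θ, hθ, hu⟩ := h2
      set u := x + l + D.g θ with hudef
      have hl' : u + x = l + D.g θ := by
        rw [hudef, add_right_comm, hyx]
      have hl'mem : l + D.g θ ∈ AA (D.p θ).1.a := by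
        rw [← hl']
        exact AddSubgroup.add_mem _ hu (hxP θ)
      have hfo : D.fo (l + D.g θ) = D.fo l := by
        rw [map_add, D.g_fo θ hθ, add_zero]
      have hLθ : l + D.g θ ∈ (D.p θ).1.L x := by
        have h3 := D.L_iso x hxa D.t0 θ (D.fo l) (D.fo_all l hlar) hL
        rw [← hfo, D.io_fo θ _ hl'mem] at h3
        exact h3
      have hxu : x + (l + D.g θ) = u := by
        rw [hudef, add_assoc]
      have hyu : x + l = u + D.g θ := by
        rw [hudef, add_add_cancel]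
      have hpi := (D.p θ).2.loc_pi x (hxP θ) _ hLθ
      have hd := (D.p θ).2.loc_d x (hxP θ) _ hLθ
      rw [hxu] at hpi hd
      rw [D.piR_P (hxP θ), D.dR_P (hxP θ), hyu, D.piR_G hθ hu, D.dR_G hθ hu, hpi, hd]
      refine ⟨?_, rfl⟩
      rw [← add_assoc, add_add_cancel]
    · have hy : x + l ∈ AA (ar D.p) := AddSubgroup.add_mem _ hx hlar
      have hF : D.Fo (x + l) x := by
        refine ⟨hxa, ?_⟩
        rw [hyx]
        exact hL
      rw [D.piR_F hy h1 h2 hF, D.dR_F hy h1 h2 hF, D.piR_P (hxP D.t0), D.dR_P (hxP D.t0), hyx]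
      exact ⟨add_comm _ _, rfl⟩
  · by_cases h1 : D.InP x
    · obtain ⟨P, hP⟩ := h1
      have first : ∀ l ∈ (D.p P).1.L x,
          D.piR (x + l) = D.piR x + l ∧ D.dR (x + l) = D.dR x := by
        intro l hlL
        have hlP := (D.p P).2.L_le x hP hlL
        have hy : x + l ∈ AA (D.p P).1.a := AddSubgroup.add_mem _ hP hlP
        rw [D.piR_P hy, D.piR_P hP, D.dR_P hy, D.dR_P hP]
        exact ⟨(D.p P).2.loc_pi x hP l hlL, (D.p P).2.loc_d x hP l hlL⟩
      rcases (D.mem_LR_P hP hxa).1 hl with h | h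
      · exact first l h
      · by_cases hb : D.bd P = ⊤
        · rw [D.gg_top hb, add_zero] at h
          exact first l h
        · rw [D.gg_aux hb] at h
          have hlP := (D.p P).2.L_le x hP h
          have hu : x + (l + D.g P) ∈ AA (D.p P).1.a := AddSubgroup.add_mem _ hP hlP
          have hyu : x + l = x + (l + D.g P) + D.g P := by
            rw [← add_assoc, add_add_cancel]
          have hpi := (D.p P).2.loc_pi x hP _ h
          have hd := (D.p P).2.loc_d x hP _ h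
          rw [D.piR_P hP, D.dR_P hP, hyu, D.piR_G hb hu, D.dR_G hb hu, hpi, hd]
          refine ⟨?_, rfl⟩
          rw [← add_assoc, add_add_cancel]
    · have h0 : l = 0 := by
        unfold LR at hl
        rw [if_neg hxa, dif_neg h1] at hl
        exact hl
      rw [h0, add_zero, add_zero]
      exact ⟨rfl, rfl⟩

end AD

end Pool.Agent.RFN
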