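import Pool.Agent.RFN.AmDef

set_option autoImplicit false

/-! # The amalgamated condition: values of `pi` and `d`

Blocks. `D.InP y`: `y` is in a group `AA (p P).a`; `D.InG y`: `y + g θ ∈ AA (p θ).a` for an
auxiliary `θ`. Both sets are unions of cosets of `AA a` (`InP_add`, `InG_add`), and they are
disjoint (`g_disj`: from `y + g θ =: u ∈ AA (p θ).a` we get `y = u + g θ ∉ AA (p P).a`).

PROOFS.
* `piR_P`, `dR_P`: let `Q` be the chosen party with `y ∈ AA (p Q).a`. If `Q = P` clear. Otherwise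
  `y ∈ AA a` by `inter` and `pi_eq`, `d_eq` apply.
* `piR_G`, `dR_G` (for `y = u + g θ`): not `InP` by `g_disj`; `InG` holds with `θ`
  (`u + g θ + g θ = u`); the chosen `θ'` equals `θ` by `g_disj2` (with `u' = y + g θ'`:
  `u' + g θ' = y = u + g θ`).
* `Fo_unique`: if `Fo y x` and `Fo y x'` then `x + pi x = x' + pi x'` and `d x = d x'` (all for
  `p t0`): put `z = io t0 (fo y)`, an element of `AA (p t0).a` (for `y ∈ AA (ar D.p)`, by `fo_all`,
  `io_mem`). As `x ∈ AA a ⊆ AA (p t0).a`, `io t0 (fo x) = x`, so `z = x + l` with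
  `l = io t0 (fo (y + x)) ∈ L x`. By `loc_pi`, `loc_d` of `p t0`:
  `pi z = pi x + l = pi x + z + x`, `d z = d x`. Same for `x'`.
* `piR_F`, `dR_F`: the chosen `x'` satisfies `Fo y x'`; use `Fo_unique`.
* `piR_mem`: by cases, with `pi_mem` of the parties, `g_ar`, and `piR_other`. -/

namespace Pool.Agent.RFN

namespace AD

variable {T : Type} [Fintype T] {Rt : Type} [AddCommGroup Rt] (D : AD T Rt)

theorem InP_add {y b : Gp} (hy : D.InP y) (hb : b ∈ AA D.a) : D.InP (y + b) := by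
  obtain ⟨P, hP⟩ := hy
  exact ⟨P, AddSubgroup.add_mem _ hP (AA_mono (D.a_sub P) hb)⟩

theorem InG_add {y b : Gp} (hy : D.InG y) (hb : b ∈ AA D.a) : D.InG (y + b) := by
  obtain ⟨θ, hθ, h⟩ := hy
  refine ⟨θ, hθ, ?_⟩
  have := AddSubgroup.add_mem _ h (AA_mono (D.a_sub θ) hb)
  rwa [add_right_comm] at this

theorem InP_add_iff {y b : Gp} (hb : b ∈ AA D.a) : D.InP (y + b) ↔ D.InP y :=
  ⟨fun h => by have := D.InP_add h hb; rwa [add_add_cancel] at this, fun h => D.InP_add h hb⟩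

theorem InG_add_iff {y b : Gp} (hb : b ∈ AA D.a) : D.InG (y + b) ↔ D.InG y :=
  ⟨fun h => by have := D.InG_add h hb; rwa [add_add_cancel] at this, fun h => D.InG_add h hb⟩

theorem not_InP_of_InG {y : Gp} (hy : D.InG y) : ¬ D.InP y := by
  rintro ⟨P, hP⟩
  obtain ⟨θ, hθ, h⟩ := hy
  have := D.g_disj θ hθ P _ h
  rw [add_add_cancel] at this
  exact this hP

theorem piR_P {y : Gp} {P : T} (h : y ∈ AA (D.p P).1.a) : D.piR y = (D.p P).1.pi y := by
  have hP : D.InP y := ⟨P, h⟩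
  unfold piR
  rw [dif_pos hP]
  by_cases e : hP.choose = P
  · rw [e]
  · exact D.pi_eq y (D.inter _ _ e y hP.choose_spec h) _ _

theorem dR_P {y : Gp} {P : T} (h : y ∈ AA (D.p P).1.a) : D.dR y = (D.p P).1.d y := by
  have hP : D.InP y := ⟨P, h⟩
  unfold dR
  rw [dif_pos hP]
  by_cases e : hP.choose = P
  · rw [e]
  · exact D.d_eq y (D.inter _ _ e y hP.choose_spec h) _ _

private theorem InG_of {u : Gp} {θ : T} (hθ : D.bd θ ≠ ⊤) (h : u ∈ AA (D.p θ).1.a) :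
    D.InG (u + D.g θ) := ⟨θ, hθ, by rw [add_add_cancel]; exact h⟩

private theorem choose_G {u : Gp} {θ : T} (hθ : D.bd θ ≠ ⊤) (h : u ∈ AA (D.p θ).1.a)
    (hG : D.InG (u + D.g θ)) : hG.choose = θ := by
  by_contra e
  obtain ⟨h1, h2⟩ := hG.choose_spec
  exact D.g_disj2 θ hG.choose hθ h1 (Ne.symm e) u h _ h2 (add_add_cancel _ _).symm

theorem piR_G {u : Gp} {θ : T} (hθ : D.bd θ ≠ ⊤) (h : u ∈ AA (D.p θ).1.a) :
    D.piR (u + D.g θ) = (D.p θ).1.pi u + D.g θ := by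
  have hG : D.InG (u + D.g θ) := D.InG_of hθ h
  unfold piR
  rw [dif_neg (D.not_InP_of_InG hG), dif_pos hG, D.choose_G hθ h hG, add_add_cancel]

theorem dR_G {u : Gp} {θ : T} (hθ : D.bd θ ≠ ⊤) (h : u ∈ AA (D.p θ).1.a) :
    D.dR (u + D.g θ) = (D.p θ).1.d u := by
  have hG : D.InG (u + D.g θ) := D.InG_of hθ h
  unfold dR
  rw [dif_neg (D.not_InP_of_InG hG), dif_pos hG, D.choose_G hθ h hG, add_add_cancel]

private theorem Fo_val {y x : Gp} (h : D.Fo y x) :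
    x + (D.p D.t0).1.pi x = (D.p D.t0).1.pi (D.io D.t0 (D.fo y)) + D.io D.t0 (D.fo y) ∧
      (D.p D.t0).1.d (D.io D.t0 (D.fo y)) = (D.p D.t0).1.d x := by
  obtain ⟨hx, hl⟩ := h
  have hx' : x ∈ AA (D.p D.t0).1.a := AA_mono (D.a_sub D.t0) hx
  obtain ⟨z, hz⟩ : ∃ z, z = D.io D.t0 (D.fo y) := ⟨_, rfl⟩
  rw [map_add, map_add, D.io_fo D.t0 x hx', ← hz] at hl
  rw [← hz]
  have e1 : x + (z + x) = z := by rw [add_comm, add_add_cancel]
  have h1 := (D.p D.t0).2.loc_pi x hx' _ hl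
  have h2 := (D.p D.t0).2.loc_d x hx' _ hl
  rw [e1] at h1 h2
  refine ⟨?_, h2⟩
  rw [h1]
  have e2 : (D.p D.t0).1.pi x + (z + x) + z = (D.p D.t0).1.pi x + x := by
    have : (D.p D.t0).1.pi x + (z + x) + z = (D.p D.t0).1.pi x + x + z + z := by abel
    rw [this, add_add_cancel]
  rw [e2, add_comm]

theorem Fo_unique {y x x' : Gp} (hy : y ∈ AA (ar D.p)) (h : D.Fo y x) (h' : D.Fo y x') :
    x + (D.p D.t0).1.pi x = x' + (D.p D.t0).1.pi x' ∧ (D.p D.t0).1.d x = (D.p D.t0).1.d x' := by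
  have _ := hy
  obtain ⟨a1, a2⟩ := D.Fo_val h
  obtain ⟨b1, b2⟩ := D.Fo_val h'
  exact ⟨a1.trans b1.symm, a2.symm.trans b2⟩

theorem piR_F {y x : Gp} (hy : y ∈ AA (ar D.p)) (h1 : ¬ D.InP y) (h2 : ¬ D.InG y)
    (h : D.Fo y x) : D.piR y = y + x + (D.p D.t0).1.pi x := by
  have h3 : ∃ x, D.Fo y x := ⟨x, h⟩
  unfold piR
  rw [dif_neg h1, dif_neg h2, dif_pos h3, add_assoc, add_assoc,
    (D.Fo_unique hy h h3.choose_spec).1]

theorem dR_F {y x : Gp} (hy : y ∈ AA (ar D.p)) (h1 : ¬ D.InP y) (h2 : ¬ D.InG y)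
    (h : D.Fo y x) : D.dR y = (D.p D.t0).1.d x := by
  have h3 : ∃ x, D.Fo y x := ⟨x, h⟩
  unfold dR
  rw [dif_neg h1, dif_neg h2, dif_pos h3, (D.Fo_unique hy h h3.choose_spec).2]

theorem piR_N {y : Gp} (h1 : ¬ D.InP y) (h2 : ¬ D.InG y) (h : ¬ ∃ x, D.Fo y x) :
    D.piR y = y ∧ D.dR y = rk y := by
  unfold piR dR
  rw [dif_neg h1, dif_neg h2, dif_neg h, dif_neg h1, dif_neg h2, dif_neg h]
  exact ⟨rfl, rfl⟩

/-- For the other elements `pi y` is in the same coset of the root group. -/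
theorem piR_other {y : Gp} (hy : y ∈ AA (ar D.p)) (h1 : ¬ D.InP y) (h2 : ¬ D.InG y) :
    y + D.piR y ∈ AA D.a := by
  by_cases h3 : ∃ x, D.Fo y x
  · obtain ⟨x, hx⟩ := h3
    rw [D.piR_F hy h1 h2 hx]
    have e : y + (y + x + (D.p D.t0).1.pi x) = x + (D.p D.t0).1.pi x := by
      have : y + (y + x + (D.p D.t0).1.pi x) = x + (D.p D.t0).1.pi x + y + y := by abel
      rw [this, add_add_cancel]
    rw [e]
    exact AddSubgroup.add_mem _ hx.1 (D.pi_root x hx.1 _)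
  · rw [(D.piR_N h1 h2 h3).1, add_self]
    exact AddSubgroup.zero_mem _

theorem piR_mem {y : Gp} (hy : y ∈ AA (ar D.p)) : D.piR y ∈ AA (ar D.p) := by
  by_cases h1 : D.InP y
  · obtain ⟨P, hP⟩ := h1
    rw [D.piR_P hP]
    exact AA_le_ar D.p P ((D.p P).2.pi_mem y hP)
  · by_cases h2 : D.InG y
    · obtain ⟨θ, hθ, h⟩ := h2
      have e := D.piR_G hθ h
      rw [add_add_cancel] at e
      rw [e]
      exact AddSubgroup.add_mem _ (AA_le_ar D.p θ ((D.p θ).2.pi_mem _ h)) (D.g_ar θ hθ)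
    · have h3 : y + D.piR y ∈ AA (ar D.p) :=
        AA_mono (fun i hi => mem_ar.2 ⟨D.t0, D.a_sub D.t0 hi⟩) (D.piR_other hy h1 h2)
      have h4 := AddSubgroup.add_mem _ h3 hy
      rwa [add_comm y, add_add_cancel] at h4

end AD

end Pool.Agent.RFN
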