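import Pool.Agent.RFN.AmCoord

set_option autoImplicit false

/-! # The amalgamated condition: witnesses

`LeS_of_LeB`: if `r` extends the coordinates of level `< α` of `q`, `q` extends the condition of a
tuple, and all coordinates of the tuple have level `< α`, then `r` extends the condition of the
tuple. (Direct.)

`wit_transfer` is the main step: let `P` be a party, `u ∈ AA (p P).a`, with a witness
`(q, x, Z, W)` in `β` (in `p P`), where `lev β ≤ bd P` (or `lev β < bd P`). Then both `u` and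
`u + gg P` have it as a witness in the amalgam. PROOF. All subnames of `β` have level
`< lev β ≤ bd P` (`lev_sub`), so `LeS` holds by `LeS_of_LeB` and `LeB_r`. `Z ⊆ AA (p P).a ⊆
AA (ar p)`. Let `v = u + x`, so `v ∈ (p P).L z` for `z ∈ Z`. `v ∈ AA (p P).a` if `Z` is nonempty
(`L_le`), and `v ∈ LR z` by `LR_iff`; `v + gg P ∈ LR z`: if `z ∈ AA a` by `mem_LR_root`
(`fo (gg P) = 0`, `gg_mem`, and `LR_iff` for `v`), if `z ∉ AA a` by `mem_LR_P`
(`v + gg P + gg P = v`). For `k ∈ W`, `i' = (sub k, num k)`: `i' ∈ (p P).j` (`LeS`), `lev i' < lev β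
≤ bd P`, so `InJ i' P`; `v ∈ (p P).M i'`, `v ∈ AA (p P).a` (`M_le`), so `v ∈ MR i'` (`MR_iff`);
`v + gg P ∈ MR i'`: if `i' ∈ Dl` by `mem_MR_root`: `gg P ∈ SS (lev i')` (`g_mem`, as
`lev i' < bd P`), `fo (gg P) = 0`; if `i' ∉ Dl` by `mem_MR_P`.

PROOF of `witR` (`i ∈ jR`, `b ∈ BR i`, `m ∈ MR i`: `Wit r i.1 (b + m)`).
`b ∈ (p P).B i` with `InJ i P`.
* `i ∉ Dl`: `m ∈ (p P).M i` or `m' = m + gg P ∈ (p P).M i`. `u = b + m` or `u = b + m'` has a
  witness in `p P` (field `wit`); `b + m` is `u` or `u + gg P`: use `wit_transfer`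
  (`lev i.1 < bd P`).
* `i ∈ Dl`: `z = b + m ∈ SS (lev i.1)` (`AA_le_SS` for `b`), and for every party `Q`,
  `io Q (fo z) = io Q (fo b) + io Q (fo m)` with `io Q (fo b) ∈ (p Q).B i` (`B_iso`, `io_fo` for
  `P`), `io Q (fo m) ∈ (p Q).M i` (`M_iso` from `t0`), so `io Q (fo z)` has a witness in `p Q`.
  By `g_cover`: either `z ∈ AA (p Q).a`, `lev i.1 < bd Q`: `z = io Q (fo z)`, use
  `wit_transfer`. Or `u = z + g θ ∈ AA (p θ).a`, `lev i.1 ≤ bd θ`: `fo u = fo z`,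
  `u = io θ (fo z)`, `z = u + g θ = u + gg θ`, use `wit_transfer`. -/

namespace Pool.Agent.RFN

theorem LeS_of_LeB {α : WithTop Ordinal.{0}} {r q : Cond0} {s : Shape} {sub : ℕ → Nm}
    (h : LeB α r q) (h' : LeS q s sub)
    (hα : ∀ k, (lev (sub k) : WithTop Ordinal.{0}) < α) : LeS r s sub where
  a := h'.a.trans h.a
  pi x hx := (h.pi x (AA_mono h'.a hx)).trans (h'.pi x hx)
  d x hx := (h.d x (AA_mono h'.a hx)).trans (h'.d x hx)
  L x hx l hl := (h.L x (AA_mono h'.a hx) l (AA_mono h'.a hl)).trans (h'.L x hx l hl)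
  j k hk := h.j _ (h'.j k hk) (hα k)
  M k hk x hx := (h.M _ (h'.j k hk) (hα k) x (AA_mono h'.a hx)).trans (h'.M k hk x hx)
  B k hk := (h'.B k hk).trans (h.B _ (h'.j k hk) (hα k))

namespace AD

variable {T : Type} [Fintype T] {Rt : Type} [AddCommGroup Rt] (D : AD T Rt)

theorem wit_gg_of_ne {P : T} (h : D.bd P ≠ ⊤) : D.gg P = D.g P := by
  unfold gg
  rw [if_neg h]

theorem wit_gg_of_eq {P : T} (h : D.bd P = ⊤) : D.gg P = 0 := by
  unfold gg
  rw [if_pos h]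

theorem wit_fo_gg (P : T) : D.fo (D.gg P) = 0 := by
  by_cases h : D.bd P = ⊤
  · rw [D.wit_gg_of_eq h, map_zero]
  · rw [D.wit_gg_of_ne h, D.g_fo P h]

theorem wit_gg_SS {P : T} {α : WithTop Ordinal.{0}} (hα : α < D.bd P) : D.gg P ∈ SS D.p D.bd α := by
  by_cases h : D.bd P = ⊤
  · rw [D.wit_gg_of_eq h]
    exact AddSubgroup.zero_mem _
  · rw [D.wit_gg_of_ne h]
    exact D.g_mem P h α hα

theorem wit_transfer {P : T} {β : Nm} (hβ : (lev β : WithTop Ordinal.{0}) ≤ D.bd P) {u : Gp}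
    (hu : u ∈ AA (D.p P).1.a) (h : Wit (D.p P).1 β u) :
    Wit D.r β u ∧ Wit D.r β (u + D.gg P) := by
  cases β with
  | nil => exact absurd h id
  | mk sh sub =>
    obtain ⟨i, s, hs, h1, h2, h3, h4⟩ := h
    have hlev : ∀ k, (lev (sub i k) : WithTop Ordinal.{0}) < D.bd P := fun k =>
      lt_of_lt_of_le (WithTop.coe_lt_coe.2 (lev_sub sh sub i k)) hβ
    have hLeS : LeS D.r s (sub i) := LeS_of_LeB (D.LeB_r P) h1 hlev
    have hZ : (s.Z : Set Gp) ⊆ AA D.r.a := fun z hz => AA_le_ar D.p P (h2 hz)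
    have hL1 : ∀ z ∈ s.Z, u + s.x ∈ D.LR z := fun z hz =>
      (D.LR_iff (h2 hz) ((D.p P).2.L_le z (h2 hz) (h3 z hz))).2 (h3 z hz)
    have hL2 : ∀ z ∈ s.Z, u + s.x + D.gg P ∈ D.LR z := by
      intro z hz
      by_cases hza : z ∈ AA D.a
      · obtain ⟨h5, h6⟩ := (D.mem_LR_root hza).1 (hL1 z hz)
        refine (D.mem_LR_root hza).2 ⟨AddSubgroup.add_mem _ h5 (D.gg_mem P), ?_⟩
        rw [map_add, D.wit_fo_gg, add_zero]
        exact h6
      · refine (D.mem_LR_P (h2 hz) hza).2 (Or.inr ?_)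
        rw [add_add_cancel]
        exact h3 z hz
    have hM1 : ∀ k ∈ s.W, k < s.m ∧ u + s.x ∈ D.MR (sub i k, s.num k) := by
      intro k hk
      obtain ⟨hk1, hk2⟩ := h4 k hk
      have hJ : D.InJ (sub i k, s.num k) P := ⟨h1.j k hk1, hlev k⟩
      exact ⟨hk1, (D.MR_iff hJ ((D.p P).2.M_le _ (h1.j k hk1) hk2)).2 hk2⟩
    have hM2 : ∀ k ∈ s.W, k < s.m ∧ u + s.x + D.gg P ∈ D.MR (sub i k, s.num k) := by
      intro k hk
      obtain ⟨hk1, hk2⟩ := h4 k hk
      have hJ : D.InJ (sub i k, s.num k) P := ⟨h1.j k hk1, hlev k⟩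
      refine ⟨hk1, ?_⟩
      by_cases hi : (sub i k, s.num k) ∈ D.Dl
      · obtain ⟨h5, h6⟩ := (D.mem_MR_root hi).1 (hM1 k hk).2
        refine (D.mem_MR_root hi).2 ⟨AddSubgroup.add_mem _ h5 (D.wit_gg_SS (hlev k)), ?_⟩
        rw [map_add, D.wit_fo_gg, add_zero]
        exact h6
      · refine (D.mem_MR_P hi hJ).2 (Or.inr ?_)
        rw [add_add_cancel]
        exact hk2
    refine ⟨⟨i, s, hs, hLeS, hZ, hL1, hM1⟩, ⟨i, s, hs, hLeS, hZ, fun z hz => ?_, fun k hk => ?_⟩⟩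
    · show u + D.gg P + s.x ∈ D.LR z
      rw [add_right_comm]
      exact hL2 z hz
    · refine ⟨(hM2 k hk).1, ?_⟩
      show u + D.gg P + s.x ∈ D.MR (sub i k, s.num k)
      rw [add_right_comm]
      exact (hM2 k hk).2

theorem witR {i : Jx} (hi : i ∈ D.jR) {b m : Gp} (hb : b ∈ D.BR i) (hm : m ∈ D.MR i) :
    Wit D.r i.1 (b + m) := by
  obtain ⟨P, hP, hb⟩ := hb
  have hbA : b ∈ AA (D.p P).1.a := (D.p P).2.B_sub i hP.1 hb
  by_cases hi' : i ∈ D.Dl
  · obtain ⟨hm1, hm2⟩ := (D.mem_MR_root hi').1 hm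
    have hz : b + m ∈ SS D.p D.bd (lev i.1) :=
      AddSubgroup.add_mem _ (AA_le_SS D.p D.bd hP.2 hbA) hm1
    have hw : ∀ Q, Wit (D.p Q).1 i.1 (D.io Q (D.fo (b + m))) := by
      intro Q
      have h1 : D.io Q (D.fo b) ∈ (D.p Q).1.B i := by
        refine D.B_iso i hi' P Q _ (D.fo_mem P b hbA) ?_
        rw [D.io_fo P b hbA]
        exact hb
      have h2 : D.io Q (D.fo m) ∈ (D.p Q).1.M i :=
        D.M_iso i hi' D.t0 Q _ (D.fo_all m (SS_le D.p D.bd _ hm1)) hm2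
      have h3 := (D.p Q).2.wit i (D.Dl_sub Q hi') _ h1 _ h2
      rw [map_add, map_add]
      exact h3
    rcases D.g_cover i hi' _ hz with ⟨Q, hQ, hzQ⟩ | ⟨θ, hθ, hle, hu⟩
    · have h1 := hw Q
      rw [D.io_fo Q _ hzQ] at h1
      exact (D.wit_transfer hQ.le hzQ h1).1
    · have h1 := hw θ
      have h2 : D.io θ (D.fo (b + m)) = b + m + D.g θ := by
        have h3 : D.fo (b + m + D.g θ) = D.fo (b + m) := by
          rw [map_add (f := D.fo) (b + m) (D.g θ), D.g_fo θ hθ, add_zero]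
        rw [← h3, D.io_fo θ _ hu]
      rw [h2] at h1
      have h4 := (D.wit_transfer hle hu h1).2
      rw [D.wit_gg_of_ne hθ, add_add_cancel] at h4
      exact h4
  · rcases (D.mem_MR_P hi' hP).1 hm with h | h
    · have h1 := (D.p P).2.wit i hP.1 b hb m h
      exact (D.wit_transfer hP.2.le
        (AddSubgroup.add_mem _ hbA ((D.p P).2.M_le i hP.1 h)) h1).1
    · have h1 := (D.p P).2.wit i hP.1 b hb _ h
      have h2 := (D.wit_transfer hP.2.le
        (AddSubgroup.add_mem _ hbA ((D.p P).2.M_le i hP.1 h)) h1).2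
      rw [← add_assoc, add_add_cancel] at h2
      exact h2

end AD

end Pool.Agent.RFN
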