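import Pool.Agent.RFN.AmInj
import Pool.Agent.RFN.AmWit

set_option autoImplicit false

/-! # The amalgamation lemma

PROOF. `D.r` is valid: `pi_zero`: `0 ∈ AA (p t0).a`, `piR_P`. The other fields: `piR_mem`, `injR`,
`rankR`, `LR_le`, `loc`, `MR_le`, `BR_sub`, `witR`. It extends the main parties by `Le_r`. For the
last statement: `x = io P w + io Q w ∈ SS (lev i.1)` (`AA_le_SS`, `bd P = bd Q = ⊤`), and
`fo x = w + w = fo (io P w + io P w) = fo 0 = 0`; `mem_MR_root`. -/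

namespace Pool.Agent.RFN

namespace AD

variable {T : Type} [Fintype T] {Rt : Type} [AddCommGroup Rt] (D : AD T Rt)

theorem valid_r : Valid D.r where
  pi_zero := by
    show D.piR 0 = 0
    rw [D.piR_P (P := D.t0) (AddSubgroup.zero_mem _)]
    exact (D.p D.t0).2.pi_zero
  pi_mem x hx := D.piR_mem hx
  inj x hx y hy h h' := D.injR hx hy h h'
  rank x hx := D.rankR hx
  L_le x hx := D.LR_le hx
  loc_pi x hx l hl := (D.loc hx hl).1
  loc_d x hx l hl := (D.loc hx hl).2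
  M_le i hi := D.MR_le hi
  B_sub i hi := D.BR_sub hi
  wit i hi b hb m hm := D.witR hi hb hm

theorem amalg : ∃ r : Pf, (∀ P, D.bd P = ⊤ → r ≤ D.p P) ∧
    ∀ P Q, D.bd P = ⊤ → D.bd Q = ⊤ → ∀ w ∈ D.RA, ∀ i ∈ D.Dl,
      D.io P w + D.io Q w ∈ r.1.M i := by
  refine ⟨⟨D.r, D.valid_r⟩, fun P hP => D.Le_r hP, ?_⟩
  intro P Q hP hQ w hw i hi
  show D.io P w + D.io Q w ∈ D.MR i
  rw [D.mem_MR_root hi]
  have hlt : (lev i.1 : WithTop Ordinal.{0}) < ⊤ := WithTop.coe_lt_top _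
  refine ⟨AddSubgroup.add_mem _ (AA_le_SS D.p D.bd (by rw [hP]; exact hlt) (D.io_mem P w hw))
    (AA_le_SS D.p D.bd (by rw [hQ]; exact hlt) (D.io_mem Q w hw)), ?_⟩
  have h1 : w + w = 0 := by
    have h2 : D.fo (D.io P w + D.io P w) = w + w := by rw [map_add, D.fo_io P w hw]
    rw [add_self, map_zero] at h2
    exact h2.symm
  rw [map_add, D.fo_io P w hw, D.fo_io Q w hw, h1, map_zero]
  exact AddSubgroup.zero_mem _

end AD

end Pool.Agent.RFN
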