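import Mathlib

set_option autoImplicit false

/-! # The system of auxiliary parties

`Att n F` (for a finite set `F` of levels in a linear order `Λ`): a finite set `T` of parties with
injective positions `pos : T → ℤ` and bounds `bd : T → WithTop Λ`, two different main parties
`t0`, `t1` of bound `⊤`, and for every auxiliary party `θ` (`bd θ ≠ ⊤`) an element `y θ` of
`T → V`, `V = Fin n → ZMod 2`, supported on parties of larger bound and larger position, such that
(`b1`) `y θ + single θ w` is never of the form `single P v`, (`b2`) the sets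
`{y θ + single θ v}` are pairwise disjoint, and (`cover`) for every level `α ∈ F` every
`z : T → V` supported on the parties of bound `> α` is of the form `single Q v` with `bd Q > α` or
`y θ + single θ v` with `θ` auxiliary, `α ≤ bd θ`.

PROOF of existence, by induction on `F` adding a new minimum (`Finset.induction_on_min`).
`F = ∅`: `T = Bool` (or `Fin 2`), `bd = ⊤`, `y = 0`, `pos = 0, 1`.
Step: let `(T, ...)` be given for `F`, `α0` less than all elements of `F`. Let `Z` be the set of
all `z : T → V` which are neither of the form `single P v` nor of the form `y θ + single θ v`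
with `θ` auxiliary. New `T' = T ⊕ Z` (finite); `bd (inr z) = α0`, `y' (inr z) = (z on T, 0 on Z)`,
`y' (inl θ) = (y θ on T, 0 on Z)`; positions: old ones for `T`, for the elements of `Z` different
integers smaller than all old positions (e.g. `-(c + 1 + index)` with an enumeration of `Z` and
`c` larger than all `|pos|`).
* `bd_mem`: clear. * `y_bd`: for `inl θ` old; for `inr z`: support in `T`, all bounds of `T` are
  `⊤` or in `F`, so `> α0`; the positions in `T` are larger.
* `b1` for `inl θ`: evaluate at the coordinates: if `y' (inl θ) + single (inl θ) w =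
  single (inl P) v` restrict to `T`: old `b1`; if it is `single (inr z) v`: the restriction to `T`
  is `y θ + single θ w = 0 = single θ 0`, against old `b1`. For `inr z`: `z + single (inr z) w =
  single (inl P) v`: restriction to `T`: `z = single P v`, against `z ∈ Z`;
  `= single (inr z') v`: restriction to `T`: `z = 0 = single t0 0`, against `z ∈ Z`.
* `b2`: both old: restrict to `T`. `inr z ≠ inr z'`: the restrictions to `T` are `z ≠ z'`.
  `inr z`, `inl θ`: restriction to `T`: `z = y θ + single θ v'`, against `z ∈ Z`.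
* `cover` for `α ∈ F`: `z'` is supported on parties of bound `> α > α0`, so on `T`; restrict, use
  the old cover and extend by `0`. For `α0`: `z'` is supported on `T` (bound `> α0`). If the
  restriction `z` is `single P v`: then `bd P > α0` (all bounds in `T`). If it is
  `y θ + single θ v` with `θ` auxiliary: `bd θ ∈ F`, so `α0 ≤ bd θ`. Otherwise `z ∈ Z` and
  `z' = y' (inr z) + single (inr z) 0`, `bd (inr z) = α0`. -/

namespace Pool.Agent.RFN

/-- The system of auxiliary parties. -/
structure Att (n : ℕ) {Λ : Type*} [LinearOrder Λ] (F : Finset Λ) where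
  T : Type
  [ft : Fintype T]
  [de : DecidableEq T]
  pos : T → ℤ
  pos_inj : Function.Injective pos
  bd : T → WithTop Λ
  bd_mem : ∀ P, bd P = ⊤ ∨ ∃ α ∈ F, bd P = α
  t0 : T
  t1 : T
  t_ne : t0 ≠ t1
  bd_t0 : bd t0 = ⊤
  bd_t1 : bd t1 = ⊤
  y : T → T → Fin n → ZMod 2
  y_bd : ∀ θ, bd θ ≠ ⊤ → ∀ P, y θ P ≠ 0 → bd θ < bd P ∧ pos θ < pos P
  b1 : ∀ θ, bd θ ≠ ⊤ → ∀ w P v, y θ + Pi.single θ w ≠ Pi.single P v
  b2 : ∀ θ θ', bd θ ≠ ⊤ → bd θ' ≠ ⊤ → θ ≠ θ' → ∀ v v',
    y θ + Pi.single θ v ≠ y θ' + Pi.single θ' v'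
  cover : ∀ α ∈ F, ∀ z : T → Fin n → ZMod 2, (∀ P, z P ≠ 0 → (α : WithTop Λ) < bd P) →
    (∃ Q v, (α : WithTop Λ) < bd Q ∧ z = Pi.single Q v) ∨
    ∃ θ v, bd θ ≠ ⊤ ∧ (α : WithTop Λ) ≤ bd θ ∧ z = y θ + Pi.single θ v

attribute [instance] Att.ft Att.de

/-- The case without levels. -/
theorem att_empty (n : ℕ) {Λ : Type*} [LinearOrder Λ] : Nonempty (Att n (∅ : Finset Λ)) := by
  refine ⟨{ T := Bool, pos := fun b => if b then 1 else 0, pos_inj := ?_, bd := fun _ => ⊤,
            bd_mem := fun _ => Or.inl rfl, t0 := false, t1 := true, t_ne := by decide,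
            bd_t0 := rfl, bd_t1 := rfl, y := fun _ _ => 0, y_bd := ?_, b1 := ?_, b2 := ?_,
            cover := ?_ }⟩
  · intro a b h
    cases a <;> cases b <;> simp_all
  · intro θ h
    exact absurd rfl h
  · intro θ h
    exact absurd rfl h
  · intro θ θ' h
    exact absurd rfl h
  · intro α h
    exact absurd h (Finset.notMem_empty α)

/-- Adding a new smallest level. -/
theorem att_insert (n : ℕ) {Λ : Type*} [LinearOrder Λ] {F : Finset Λ} {α0 : Λ}
    (h0 : ∀ α ∈ F, α0 < α) (A : Att n F) : Nonempty (Att n (insert α0 F)) := by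
  classical
  -- the new parties
  set Bad : (A.T → Fin n → ZMod 2) → Prop := fun z =>
    (∃ P v, z = Pi.single P v) ∨ ∃ θ v, A.bd θ ≠ ⊤ ∧ z = A.y θ + Pi.single θ v with hBad
  let Zt : Type := {z : A.T → Fin n → ZMod 2 // ¬ Bad z}
  have : Fintype Zt := Fintype.ofFinite _
  have : DecidableEq Zt := Classical.decEq _
  set c : ℤ := ∑ P : A.T, |A.pos P| with hc
  have hcP : ∀ P, -c ≤ A.pos P := by
    intro P
    have h1 : |A.pos P| ≤ c :=
      Finset.single_le_sum (f := fun P => |A.pos P|) (fun i _ => abs_nonneg _) (Finset.mem_univ P)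
    linarith [neg_abs_le (A.pos P)]
  set pos' : A.T ⊕ Zt → ℤ := Sum.elim A.pos
    (fun z => -(c + 1 + ((Fintype.equivFin Zt z).val : ℤ))) with hpos'
  have hneg : ∀ (P : A.T) (z : Zt), pos' (Sum.inr z) < pos' (Sum.inl P) := by
    intro P z
    show -(c + 1 + ((Fintype.equivFin Zt z).val : ℤ)) < A.pos P
    have h1 := hcP P
    have h2 : (0 : ℤ) ≤ ((Fintype.equivFin Zt z).val : ℤ) := Int.natCast_nonneg _
    linarith
  set y' : A.T ⊕ Zt → A.T ⊕ Zt → Fin n → ZMod 2 := Sum.elim
    (fun θ => Sum.elim (A.y θ) (fun _ => 0)) (fun z => Sum.elim z.1 (fun _ => 0)) with hy'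
  -- bounds of old parties
  have hbd : ∀ P : A.T, (α0 : WithTop Λ) < A.bd P := by
    intro P
    rcases A.bd_mem P with h | ⟨α, hα, h⟩
    · rw [h]; exact WithTop.coe_lt_top α0
    · rw [h]; exact WithTop.coe_lt_coe.mpr (h0 α hα)
  -- restrictions
  have r1 : ∀ (P : A.T) (v : Fin n → ZMod 2),
      (Pi.single (Sum.inl P) v : A.T ⊕ Zt → Fin n → ZMod 2) ∘ Sum.inl = Pi.single P v := by
    intro P v
    funext Q
    by_cases h : Q = P
    · subst h; simp
    · have h' : (Sum.inl Q : A.T ⊕ Zt) ≠ Sum.inl P := fun h2 => h (Sum.inl_injective h2)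
      simp [Pi.single_eq_of_ne h, Pi.single_eq_of_ne h']
  have r2 : ∀ (z : Zt) (v : Fin n → ZMod 2),
      (Pi.single (Sum.inr z) v : A.T ⊕ Zt → Fin n → ZMod 2) ∘ Sum.inl = 0 := by
    intro z v
    funext Q
    have h' : (Sum.inl Q : A.T ⊕ Zt) ≠ Sum.inr z := Sum.inl_ne_inr
    simp
  have r3 : ∀ (P : A.T) (v : Fin n → ZMod 2) (z : Zt),
      (Pi.single (Sum.inl P) v : A.T ⊕ Zt → Fin n → ZMod 2) (Sum.inr z) = 0 := by
    intro P v z
    exact Pi.single_eq_of_ne Sum.inr_ne_inl _
  have y1 : ∀ θ : A.T, (y' (Sum.inl θ)) ∘ Sum.inl = A.y θ := fun θ => rfl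
  have y2 : ∀ z : Zt, (y' (Sum.inr z)) ∘ Sum.inl = z.1 := fun z => rfl
  have radd : ∀ f g : A.T ⊕ Zt → Fin n → ZMod 2,
      (f + g) ∘ Sum.inl = f ∘ Sum.inl + g ∘ Sum.inl := fun f g => rfl
  -- extension of functions supported on the old parties
  have ext1 : ∀ f g : A.T ⊕ Zt → Fin n → ZMod 2, f ∘ Sum.inl = g ∘ Sum.inl →
      (∀ z, f (Sum.inr z) = g (Sum.inr z)) → f = g := by
    intro f g h1 h2
    funext Q
    rcases Q with Q | Q
    · exact congrFun h1 Q
    · exact h2 Q
  refine ⟨{ T := A.T ⊕ Zt, pos := pos', pos_inj := ?_,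
            bd := Sum.elim A.bd (fun _ => (α0 : WithTop Λ)),
            bd_mem := ?_, t0 := Sum.inl A.t0, t1 := Sum.inl A.t1,
            t_ne := fun h => A.t_ne (Sum.inl_injective h),
            bd_t0 := A.bd_t0, bd_t1 := A.bd_t1, y := y', y_bd := ?_, b1 := ?_, b2 := ?_,
            cover := ?_ }⟩
  · -- pos_inj
    rintro (P | z) (Q | z') h
    · rw [A.pos_inj (show A.pos P = A.pos Q from h)]
    · exact absurd h (hneg P z').ne'
    · exact absurd h (hneg Q z).ne
    · have h1 : -(c + 1 + ((Fintype.equivFin Zt z).val : ℤ)) =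
          -(c + 1 + ((Fintype.equivFin Zt z').val : ℤ)) := h
      have h2 : (Fintype.equivFin Zt z).val = (Fintype.equivFin Zt z').val := by omega
      rw [(Fintype.equivFin Zt).injective (Fin.ext h2)]
  · -- bd_mem
    rintro (P | z)
    · rcases A.bd_mem P with h | ⟨α, hα, h⟩
      · exact Or.inl h
      · exact Or.inr ⟨α, Finset.mem_insert_of_mem hα, h⟩
    · exact Or.inr ⟨α0, Finset.mem_insert_self _ _, rfl⟩
  · -- y_bd
    rintro (θ | z) hθ (P | z') hy
    · exact A.y_bd θ hθ P hy
    · exact absurd rfl hy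
    · exact ⟨hbd P, hneg P z⟩
    · exact absurd rfl hy
  · -- b1
    rintro (θ | z) hθ w (P | z') v heq
    · have h1 := congrArg (fun f => f ∘ Sum.inl) heq
      simp only [radd, r1, y1] at h1
      exact A.b1 θ hθ w P v h1
    · have h1 := congrArg (fun f => f ∘ Sum.inl) heq
      simp only [radd, r1, r2, y1] at h1
      refine A.b1 θ hθ w θ 0 ?_
      rw [h1, Pi.single_zero]
    · have h1 := congrArg (fun f => f ∘ Sum.inl) heq
      simp only [radd, r1, r2, y2, add_zero] at h1
      exact z.2 (Or.inl ⟨P, v, h1⟩)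
    · have h1 := congrArg (fun f => f ∘ Sum.inl) heq
      simp only [radd, r2, y2, add_zero] at h1
      exact z.2 (Or.inl ⟨A.t0, 0, by rw [h1, Pi.single_zero]⟩)
  · -- b2
    rintro (θ | z) (θ' | z') hθ hθ' hne v v' heq
    · have h1 := congrArg (fun f => f ∘ Sum.inl) heq
      simp only [radd, r1, y1] at h1
      exact A.b2 θ θ' hθ hθ' (fun h => hne (by rw [h])) v v' h1
    · have h1 := congrArg (fun f => f ∘ Sum.inl) heq
      simp only [radd, r1, r2, y1, y2, add_zero] at h1
      exact z'.2 (Or.inr ⟨θ, v, hθ, h1.symm⟩)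
    · have h1 := congrArg (fun f => f ∘ Sum.inl) heq
      simp only [radd, r1, r2, y1, y2, add_zero] at h1
      exact z.2 (Or.inr ⟨θ', v', hθ', h1⟩)
    · have h1 := congrArg (fun f => f ∘ Sum.inl) heq
      simp only [radd, r2, y2, add_zero] at h1
      exact hne (by rw [Subtype.ext h1])
  · -- cover
    intro α hα z' hz'
    have hα0 : α0 ≤ α := by
      rcases Finset.mem_insert.mp hα with h | h
      · exact h.ge
      · exact (h0 α h).le
    have hz0 : ∀ z : Zt, z' (Sum.inr z) = 0 := by
      intro z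
      by_contra hne
      have h1 : (α : WithTop Λ) < α0 := hz' _ hne
      exact absurd (WithTop.coe_lt_coe.mp h1) (not_lt.mpr hα0)
    rcases Finset.mem_insert.mp hα with h | h
    · subst h
      by_cases hb : Bad (z' ∘ Sum.inl)
      · rcases hb with ⟨P, v, hPv⟩ | ⟨θ, v, hθ, hv⟩
        · left
          refine ⟨Sum.inl P, v, hbd P, ?_⟩
          refine ext1 _ _ (by rw [hPv, r1]) fun z => ?_
          rw [hz0, r3]
        · right
          refine ⟨Sum.inl θ, v, hθ, (hbd θ).le, ?_⟩
          refine ext1 _ _ (by rw [hv, radd, r1, y1]) fun z => ?_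
          rw [hz0, Pi.add_apply, r3]
          rfl
      · right
        refine ⟨Sum.inr ⟨z' ∘ Sum.inl, hb⟩, 0, WithTop.coe_ne_top, le_refl _, ?_⟩
        rw [Pi.single_zero, add_zero]
        exact ext1 _ _ rfl fun z => hz0 z
    · rcases A.cover α h (z' ∘ Sum.inl) (fun P hP => hz' (Sum.inl P) hP) with
        ⟨Q, v, hQ, hv⟩ | ⟨θ, v, hθ, hθα, hv⟩
      · left
        refine ⟨Sum.inl Q, v, hQ, ?_⟩
        refine ext1 _ _ (by rw [hv, r1]) fun z => ?_
        rw [hz0, r3]
      · right
        refine ⟨Sum.inl θ, v, hθ, hθα, ?_⟩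
        refine ext1 _ _ (by rw [hv, radd, r1, y1]) fun z => ?_
        rw [hz0, Pi.add_apply, r3]
        rfl

theorem exists_att (n : ℕ) {Λ : Type*} [LinearOrder Λ] (F : Finset Λ) :
    Nonempty (Att n F) := by
  classical
  refine Finset.induction_on_min F (att_empty n) fun α0 s h0 ih => ?_
  obtain ⟨A⟩ := ih
  exact att_insert n h0 A

end Pool.Agent.RFN
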