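import Mathlib

set_option autoImplicit false

/-! # The base group

`Om` is a well ordered set of type omega_1 (the set of colours), `Ix = Om × ℕ` the set of indices
of the basis vectors, `Gp` the group of finitely supported functions from `Ix` to `ZMod 2`,
`rk x` the largest first coordinate of an index in the support of `x` and `AA a` the finite
subgroup of the elements with support in the finite set `a`. -/

namespace Pool.Agent.RFN

/-- The set of colours: a well ordered set of type omega_1. -/
abbrev Om : Type := (Cardinal.ord (Cardinal.aleph 1)).ToType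

instance : Nonempty Om := by
  rw [Ordinal.nonempty_toType_iff]
  intro h
  rw [Cardinal.ord_eq_zero] at h
  exact (Cardinal.aleph_pos 1).ne' h

noncomputable instance : OrderBot Om := WellFoundedLT.toOrderBot Om

/-- Initial segments are countable. -/
theorem countable_Iic (x : Om) : (Set.Iic x).Countable := by
  have h : Cardinal.mk (Set.Iio x) < Cardinal.aleph 1 := Cardinal.mk_Iio_toType_ord_lt x
  have h2 : (Set.Iio x).Countable := by
    rw [← Cardinal.le_aleph0_iff_set_countable]
    have : Cardinal.aleph 1 = Order.succ Cardinal.aleph0 := by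
      rw [← Cardinal.succ_aleph0]
    exact Order.lt_succ_iff.1 (lt_of_lt_of_eq h this)
  rw [← Set.Iio_insert]
  exact h2.insert x

theorem not_countable_Om : ¬ Countable Om := by
  intro h
  have h1 : Cardinal.mk Om = Cardinal.aleph 1 := by
    rw [Cardinal.mk_toType, Cardinal.card_ord]
  have h2 : Cardinal.mk Om ≤ Cardinal.aleph0 := Cardinal.mk_le_aleph0
  rw [h1] at h2
  exact absurd h2 (not_le.2 Cardinal.aleph0_lt_aleph_one)

/-- The indices of the basis vectors. -/
abbrev Ix : Type := Om × ℕ

/-- The group. -/
abbrev Gp : Type := Ix →₀ ZMod 2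

theorem add_self (x : Gp) : x + x = 0 := by
  ext i
  exact CharTwo.add_self_eq_zero (x i)

theorem add_add_cancel (x y : Gp) : x + y + y = x := by rw [add_assoc, add_self, add_zero]

theorem neg_eq (x : Gp) : -x = x := by
  rw [neg_eq_iff_add_eq_zero, add_self]

theorem eq_of_add_eq_zero {x y : Gp} (h : x + y = 0) : x = y := by
  rw [← add_add_cancel x y, h, zero_add]

/-- The rank of an element. -/
noncomputable def rk (x : Gp) : Om := x.support.sup Prod.fst

theorem rk_zero : rk 0 = ⊥ := by simp [rk]

theorem rk_add_le (x y : Gp) : rk (x + y) ≤ max (rk x) (rk y) := by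
  refine Finset.sup_le fun i hi => ?_
  have h := Finsupp.support_add hi
  rcases Finset.mem_union.1 h with h | h
  · exact (Finset.le_sup (f := Prod.fst) h).trans (le_max_left _ _)
  · exact (Finset.le_sup (f := Prod.fst) h).trans (le_max_right _ _)

theorem rk_add_of_lt {x y : Gp} (h : rk x < rk y) : rk (x + y) = rk y := by
  apply le_antisymm
  · exact (rk_add_le x y).trans (max_le h.le le_rfl)
  · by_contra hcon
    push Not at hcon
    have h1 : rk y ≤ max (rk (x + y)) (rk x) := by
      have := rk_add_le (x + y) x
      rwa [add_comm x y, add_add_cancel, add_comm y x] at this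
    exact absurd h1 (not_le.2 (max_lt hcon h))

theorem rk_single (i : Ix) : rk (Finsupp.single i 1) = i.1 := by
  unfold rk
  rw [Finsupp.support_single _ one_ne_zero, Finset.sup_singleton]

/-- The elements with support in `a`. -/
def AA (a : Finset Ix) : AddSubgroup Gp where
  carrier := {x | x.support ⊆ a}
  zero_mem' := by simp
  add_mem' := by
    intro x y hx hy
    exact Finsupp.support_add.trans (Finset.union_subset hx hy)
  neg_mem' := by
    intro x hx
    rw [neg_eq]
    exact hx

theorem mem_AA {a : Finset Ix} {x : Gp} : x ∈ AA a ↔ x.support ⊆ a := Iff.rfl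

theorem AA_mono {a b : Finset Ix} (h : a ⊆ b) : AA a ≤ AA b := fun _ hx => hx.trans h

theorem finite_AA (a : Finset Ix) : Finite (AA a) := by
  refine Finite.of_injective (β := a → ZMod 2) (fun x i => x.1 i) ?_
  intro x y h
  apply Subtype.ext
  ext i
  by_cases hi : i ∈ a
  · exact congrFun h ⟨i, hi⟩
  · have h1 : x.1 i = 0 := Finsupp.notMem_support_iff.1 fun h => hi (x.2 h)
    have h2 : y.1 i = 0 := Finsupp.notMem_support_iff.1 fun h => hi (y.2 h)
    rw [h1, h2]

theorem mem_AA_inter {a b : Finset Ix} {x : Gp} : x ∈ AA a → x ∈ AA b → x ∈ AA (a ∩ b) :=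
  fun h1 h2 => Finset.subset_inter h1 h2

theorem mem_AA_empty {x : Gp} : x ∈ AA ∅ ↔ x = 0 := by
  rw [mem_AA, Finset.subset_empty, Finsupp.support_eq_empty]

theorem mem_AA_support (x : Gp) : x ∈ AA x.support := Finset.Subset.refl _

theorem single_mem_AA {a : Finset Ix} {i : Ix} (h : i ∈ a) : Finsupp.single i 1 ∈ AA a := by
  rw [mem_AA, Finsupp.support_single _ one_ne_zero]
  simpa using h

theorem mem_AA_iff {a : Finset Ix} {x : Gp} : x ∈ AA a ↔ ∀ i, i ∉ a → x i = 0 := by
  rw [mem_AA]
  constructor
  · intro h i hi
    exact Finsupp.notMem_support_iff.1 fun h' => hi (h h')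
  · intro h i hi
    by_contra hcon
    exact Finsupp.mem_support_iff.1 hi (h i hcon)

/-- Every element of `AA (insert i a)` is in `AA a` or in `AA a + e_i`. -/
theorem mem_AA_insert {a : Finset Ix} {i : Ix} {x : Gp} (hx : x ∈ AA (insert i a)) :
    x ∈ AA a ∨ x + Finsupp.single i 1 ∈ AA a := by
  have h2 : ∀ b : ZMod 2, b = 0 ∨ b + 1 = 0 := by decide
  rw [mem_AA_iff] at hx
  rcases h2 (x i) with h | h
  · left
    rw [mem_AA_iff]
    intro j hj
    by_cases hji : j = i
    · rw [hji]; exact h
    · exact hx j (by simp [hji, hj])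
  · right
    rw [mem_AA_iff]
    intro j hj
    by_cases hji : j = i
    · rw [hji]; simpa using h
    · have := hx j (by simp [hji, hj])
      rw [Finsupp.add_apply, this, Finsupp.single_apply, if_neg (fun h => hji h.symm), add_zero]

/-- If the ranks in `a` are at most `m`, so are the ranks of the elements of `AA a`. -/
theorem rk_le_of_mem_AA {a : Finset Ix} {m : Om} (h : ∀ i ∈ a, i.1 ≤ m) {x : Gp}
    (hx : x ∈ AA a) : rk x ≤ m :=
  Finset.sup_le fun i hi => h i (hx hi)

/-- A bound for the rank from below. -/
theorem le_rk {x : Gp} {i : Ix} (h : x i ≠ 0) : i.1 ≤ rk x :=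
  Finset.le_sup (f := Prod.fst) (Finsupp.mem_support_iff.2 h)

end Pool.Agent.RFN
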