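import Pool.Agent.RFN.Base

set_option autoImplicit false

/-! # Open-names and conditions

A condition `p` has a finite set `p.a` of indices, with `A = AA p.a`, and on the finite group `A`:
a map `p.pi : A → A` and a colour `p.d : A → Om` (the finite part of the generic bijection
`x ↦ (pi x, d x)` of the group onto its product with the set of colours), for every `x` in `A` a
subgroup `p.L x` of `A` (neighbourhood of `0` on which the bijection is a translation near `x`),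
and a finite set `p.j` of coordinates `i = (β, n)`, `β` an open-name, `n : ℕ`, with for every
`i ∈ p.j` a subgroup `p.M i` of `A` and a subset `p.B i` of `A`.

An open-name `β` is a family (indexed by `Gp × ℕ`) of tuples `(q, x, Z, W)`: `q` is the data of a
condition with coordinates built from earlier open-names `sub i k`; `x` is an element of the
group, `Z` a finite set of elements and `W` a set of coordinates of `q`. -/

namespace Pool.Agent.RFN

/-- The data of a tuple `(q, x, Z, W)`. The condition `q` has `m` coordinates, the `k`-th one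
being `(sub k, num k)`, where `sub k` is the `k`-th subname of the tuple. -/
structure Shape : Type where
  m : ℕ
  a : Finset Ix
  pi : Gp → Gp
  d : Gp → Om
  L : Gp → AddSubgroup Gp
  num : ℕ → ℕ
  M : ℕ → AddSubgroup Gp
  B : ℕ → Set Gp
  x : Gp
  Z : Finset Gp
  W : Finset ℕ

/-- Open-names. -/
inductive Nm : Type
  | nil : Nm
  | mk (sh : Gp × ℕ → Option Shape) (sub : Gp × ℕ → ℕ → Nm) : Nm

/-- The level of an open-name. -/
noncomputable def lev : Nm → Ordinal.{0}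
  | .nil => 0
  | .mk _ sub => ⨆ i : (Gp × ℕ) × ℕ, Order.succ (lev (sub i.1 i.2))

theorem lev_sub (sh : Gp × ℕ → Option Shape) (sub : Gp × ℕ → ℕ → Nm) (i : Gp × ℕ) (k : ℕ) :
    lev (sub i k) < lev (.mk sh sub) := by
  have h : Order.succ (lev (sub i k)) ≤ ⨆ i : (Gp × ℕ) × ℕ, Order.succ (lev (sub i.1 i.2)) :=
    Ordinal.le_iSup (fun i : (Gp × ℕ) × ℕ => Order.succ (lev (sub i.1 i.2))) (i, k)
  rw [lev]
  exact (Order.lt_succ _).trans_le h

/-- The coordinates of the conditions. -/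
abbrev Jx : Type := Nm × ℕ

/-- The data of a condition. -/
structure Cond0 : Type where
  a : Finset Ix
  pi : Gp → Gp
  d : Gp → Om
  L : Gp → AddSubgroup Gp
  j : Finset Jx
  M : Jx → AddSubgroup Gp
  B : Jx → Set Gp

/-- `p` extends the condition of the tuple with shape `s` and subnames `sub`. -/
structure LeS (p : Cond0) (s : Shape) (sub : ℕ → Nm) : Prop where
  a : s.a ⊆ p.a
  pi : ∀ x ∈ AA s.a, p.pi x = s.pi x
  d : ∀ x ∈ AA s.a, p.d x = s.d x
  L : ∀ x ∈ AA s.a, ∀ l ∈ AA s.a, (l ∈ p.L x ↔ l ∈ s.L x)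
  j : ∀ k < s.m, (sub k, s.num k) ∈ p.j
  M : ∀ k < s.m, ∀ x ∈ AA s.a, (x ∈ p.M (sub k, s.num k) ↔ x ∈ s.M k)
  B : ∀ k < s.m, s.B k ⊆ p.B (sub k, s.num k)

/-- `p` extends the coordinates of level `< α` of `q`, and everything else of `q`. -/
structure LeB (α : WithTop Ordinal.{0}) (p q : Cond0) : Prop where
  a : q.a ⊆ p.a
  pi : ∀ x ∈ AA q.a, p.pi x = q.pi x
  d : ∀ x ∈ AA q.a, p.d x = q.d x
  L : ∀ x ∈ AA q.a, ∀ l ∈ AA q.a, (l ∈ p.L x ↔ l ∈ q.L x)
  j : ∀ i ∈ q.j, (lev i.1 : WithTop Ordinal.{0}) < α → i ∈ p.j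
  M : ∀ i ∈ q.j, (lev i.1 : WithTop Ordinal.{0}) < α → ∀ x ∈ AA q.a, (x ∈ p.M i ↔ x ∈ q.M i)
  B : ∀ i ∈ q.j, (lev i.1 : WithTop Ordinal.{0}) < α → q.B i ⊆ p.B i

/-- `p` extends `q`. -/
structure Le (p q : Cond0) : Prop where
  a : q.a ⊆ p.a
  pi : ∀ x ∈ AA q.a, p.pi x = q.pi x
  d : ∀ x ∈ AA q.a, p.d x = q.d x
  L : ∀ x ∈ AA q.a, ∀ l ∈ AA q.a, (l ∈ p.L x ↔ l ∈ q.L x)
  j : q.j ⊆ p.j
  M : ∀ i ∈ q.j, ∀ x ∈ AA q.a, (x ∈ p.M i ↔ x ∈ q.M i)
  B : ∀ i ∈ q.j, q.B i ⊆ p.B i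

/-- `p` has a witness in the open-name `β` for the element `z`: a tuple `(q, x, Z, W)` of `β` such
that `p` extends `q` and `z - x` is in the subgroups `L u`, `u ∈ Z`, and `M i`, `i ∈ W`. -/
def Wit (p : Cond0) : Nm → Gp → Prop
  | .nil, _ => False
  | .mk sh sub, z => ∃ i s, sh i = some s ∧ LeS p s (sub i) ∧ (s.Z : Set Gp) ⊆ AA p.a ∧
      (∀ u ∈ s.Z, z + s.x ∈ p.L u) ∧
      ∀ k ∈ s.W, k < s.m ∧ z + s.x ∈ p.M (sub i k, s.num k)

/-- Valid conditions. -/
structure Valid (p : Cond0) : Prop where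
  pi_zero : p.pi 0 = 0
  pi_mem : ∀ x ∈ AA p.a, p.pi x ∈ AA p.a
  inj : ∀ x ∈ AA p.a, ∀ y ∈ AA p.a, p.pi x = p.pi y → p.d x = p.d y → x = y
  rank : ∀ x ∈ AA p.a, rk x = max (rk (p.pi x)) (p.d x)
  L_le : ∀ x ∈ AA p.a, p.L x ≤ AA p.a
  loc_pi : ∀ x ∈ AA p.a, ∀ l ∈ p.L x, p.pi (x + l) = p.pi x + l
  loc_d : ∀ x ∈ AA p.a, ∀ l ∈ p.L x, p.d (x + l) = p.d x
  M_le : ∀ i ∈ p.j, p.M i ≤ AA p.a
  B_sub : ∀ i ∈ p.j, p.B i ⊆ AA p.a
  wit : ∀ i ∈ p.j, ∀ b ∈ p.B i, ∀ m ∈ p.M i, Wit p i.1 (b + m)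

/-- The forcing notion. -/
def Pf : Type := {p : Cond0 // Valid p}

theorem Le.refl (p : Cond0) : Le p p :=
  ⟨Finset.Subset.refl _, fun _ _ => rfl, fun _ _ => rfl, fun _ _ _ _ => Iff.rfl,
    Finset.Subset.refl _, fun _ _ _ _ => Iff.rfl, fun _ _ => Set.Subset.refl _⟩

theorem Le.trans {p q r : Cond0} (h : Le p q) (h' : Le q r) : Le p r where
  a := h'.a.trans h.a
  pi x hx := (h.pi x (AA_mono h'.a hx)).trans (h'.pi x hx)
  d x hx := (h.d x (AA_mono h'.a hx)).trans (h'.d x hx)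
  L x hx l hl := (h.L x (AA_mono h'.a hx) l (AA_mono h'.a hl)).trans (h'.L x hx l hl)
  j := h'.j.trans h.j
  M i hi x hx := (h.M i (h'.j hi) x (AA_mono h'.a hx)).trans (h'.M i hi x hx)
  B i hi := (h'.B i hi).trans (h.B i (h'.j hi))

instance : Preorder Pf where
  le p q := Le p.1 q.1
  le_refl p := Le.refl p.1
  le_trans _ _ _ h h' := Le.trans h h'

theorem Pf.le_def {p q : Pf} : p ≤ q ↔ Le p.1 q.1 := Iff.rfl

/-- The weakest condition. -/
noncomputable def topC : Cond0 where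
  a := ∅
  pi := id
  d := rk
  L := fun _ => ⊥
  j := ∅
  M := fun _ => ⊥
  B := fun _ => ∅

theorem valid_topC : Valid topC where
  pi_zero := rfl
  pi_mem x hx := hx
  inj x _ y _ h _ := h
  rank x _ := (max_self _).symm
  L_le x _ := bot_le
  loc_pi x _ l _ := rfl
  loc_d x _ l hl := by
    have : l = 0 := hl
    rw [this, add_zero]
  M_le i hi := by simp [topC] at hi
  B_sub i hi := by simp [topC] at hi
  wit i hi := by simp [topC] at hi

theorem Valid.d_zero {p : Cond0} (h : Valid p) : p.d 0 = ⊥ := by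
  have h1 := h.rank 0 (AddSubgroup.zero_mem _)
  rw [h.pi_zero, rk_zero, eq_comm, max_eq_bot] at h1
  exact h1.2

noncomputable instance : OrderTop Pf where
  top := ⟨topC, valid_topC⟩
  le_top p := by
    have key : ∀ x ∈ AA topC.a, x = 0 := fun x hx => mem_AA_empty.1 hx
    refine ⟨by simp [topC], ?_, ?_, ?_, by simp [topC], ?_, ?_⟩
    · intro x hx
      rw [key x hx, p.2.pi_zero]; rfl
    · intro x hx
      rw [key x hx, p.2.d_zero]
      exact rk_zero.symm
    · intro x _ l hl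
      rw [key l hl]
      exact ⟨fun _ => AddSubgroup.zero_mem _, fun _ => AddSubgroup.zero_mem _⟩
    · intro i hi
      simp [topC] at hi
    · intro i hi
      simp [topC] at hi

/-- Witnesses are inherited by extensions. -/
theorem LeS.mono {p q : Cond0} {s : Shape} {sub : ℕ → Nm} (hp : Le p q) (h : LeS q s sub) :
    LeS p s sub where
  a := h.a.trans hp.a
  pi x hx := (hp.pi x (AA_mono h.a hx)).trans (h.pi x hx)
  d x hx := (hp.d x (AA_mono h.a hx)).trans (h.d x hx)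
  L x hx l hl := (hp.L x (AA_mono h.a hx) l (AA_mono h.a hl)).trans (h.L x hx l hl)
  j k hk := hp.j (h.j k hk)
  M k hk x hx := (hp.M _ (h.j k hk) x (AA_mono h.a hx)).trans (h.M k hk x hx)
  B k hk := (h.B k hk).trans (hp.B _ (h.j k hk))

theorem Wit.mono {p q : Cond0} (hq : Valid q) (hp : Le p q) {β : Nm} {z : Gp}
    (h : Wit q β z) : Wit p β z := by
  cases β with
  | nil => exact h
  | mk sh sub =>
    obtain ⟨i, s, hs, h1, h2, h3, h4⟩ := h
    refine ⟨i, s, hs, h1.mono hp, fun u hu => AA_mono hp.a (h2 hu), ?_, ?_⟩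
    · intro u hu
      have h5 := hq.L_le u (h2 hu) (h3 u hu)
      exact (hp.L u (h2 hu) _ h5).2 (h3 u hu)
    · intro k hk
      obtain ⟨hk1, hk2⟩ := h4 k hk
      refine ⟨hk1, ?_⟩
      have h5 := hq.M_le _ (h1.j k hk1) hk2
      exact (hp.M _ (h1.j k hk1) _ h5).2 hk2

end Pool.Agent.RFN
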