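import Pool.Agent.RFN.ExtVec

set_option autoImplicit false

/-! # Adding a coordinate to a condition

`addCoord p i B0`: the new coordinate `i ∉ p.j` gets `M i = 0` and `B i = B0`. It is valid if
`B0 ⊆ AA p.a` and every element of `B0` has a witness: in `wit` for the new coordinate
`b + m = b`; the witnesses for `p` are witnesses for the extension by `Wit.mono`. -/

namespace Pool.Agent.RFN

open Classical in
/-- `p` with the new coordinate `i`. -/
noncomputable def addCoord (p : Cond0) (i : Jx) (B0 : Set Gp) : Cond0 where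
  a := p.a
  pi := p.pi
  d := p.d
  L := p.L
  j := insert i p.j
  M k := if k = i then ⊥ else p.M k
  B k := if k = i then B0 else p.B k

theorem addCoord_j (p : Cond0) (i : Jx) (B0 : Set Gp) (k : Jx) :
    k ∈ (addCoord p i B0).j ↔ k = i ∨ k ∈ p.j := by
  classical
  simp [addCoord]

theorem addCoord_M_self (p : Cond0) (i : Jx) (B0 : Set Gp) : (addCoord p i B0).M i = ⊥ := by
  simp [addCoord]

theorem addCoord_M_ne (p : Cond0) (i : Jx) (B0 : Set Gp) {k : Jx} (h : k ≠ i) :
    (addCoord p i B0).M k = p.M k := by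
  simp [addCoord, h]

theorem addCoord_B_self (p : Cond0) (i : Jx) (B0 : Set Gp) : (addCoord p i B0).B i = B0 := by
  simp [addCoord]

theorem addCoord_B_ne (p : Cond0) (i : Jx) (B0 : Set Gp) {k : Jx} (h : k ≠ i) :
    (addCoord p i B0).B k = p.B k := by
  simp [addCoord, h]

theorem le_addCoord (p : Cond0) {i : Jx} (hi : i ∉ p.j) (B0 : Set Gp) :
    Le (addCoord p i B0) p := by
  have hne : ∀ k ∈ p.j, k ≠ i := fun k hk h => hi (h ▸ hk)
  refine ⟨Finset.Subset.refl _, fun _ _ => rfl, fun _ _ => rfl, fun _ _ _ _ => Iff.rfl,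
    ?_, ?_, ?_⟩
  · intro k hk
    exact (addCoord_j p i B0 k).2 (Or.inr hk)
  · intro k hk x _
    rw [addCoord_M_ne p i B0 (hne k hk)]
  · intro k hk
    rw [addCoord_B_ne p i B0 (hne k hk)]

theorem valid_addCoord {p : Cond0} (hp : Valid p) {i : Jx} (hi : i ∉ p.j) {B0 : Set Gp}
    (hB : B0 ⊆ AA p.a) (hw : ∀ b ∈ B0, Wit p i.1 b) : Valid (addCoord p i B0) where
  pi_zero := hp.pi_zero
  pi_mem := hp.pi_mem
  inj := hp.inj
  rank := hp.rank
  L_le := hp.L_le
  loc_pi := hp.loc_pi
  loc_d := hp.loc_d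
  M_le := by
    intro k hk
    rcases (addCoord_j p i B0 k).1 hk with rfl | hk
    · rw [addCoord_M_self]
      exact bot_le
    · rw [addCoord_M_ne p i B0 (fun h => hi (h ▸ hk))]
      exact hp.M_le k hk
  B_sub := by
    intro k hk
    rcases (addCoord_j p i B0 k).1 hk with rfl | hk
    · rw [addCoord_B_self]
      exact hB
    · rw [addCoord_B_ne p i B0 (fun h => hi (h ▸ hk))]
      exact hp.B_sub k hk
  wit := by
    intro k hk b hb m hm
    rcases (addCoord_j p i B0 k).1 hk with rfl | hk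
    · rw [addCoord_B_self] at hb
      rw [addCoord_M_self] at hm
      have hm0 : m = 0 := hm
      rw [hm0, add_zero]
      exact (hw b hb).mono hp (le_addCoord p hi B0)
    · have hne : k ≠ i := fun h => hi (h ▸ hk)
      rw [addCoord_B_ne p i B0 hne] at hb
      rw [addCoord_M_ne p i B0 hne] at hm
      exact (hp.wit k hk b hb m hm).mono hp (le_addCoord p hi B0)

/-- Finite sets of coordinates can be added. -/
theorem ext_j (p : Pf) (j : Finset Jx) :
    ∃ q ≤ p, q.1.a = p.1.a ∧ j ⊆ q.1.j := by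
  classical
  induction j using Finset.induction_on with
  | empty => exact ⟨p, le_rfl, rfl, Finset.empty_subset _⟩
  | insert i s _ ih =>
    obtain ⟨q, hq, ha, hs⟩ := ih
    by_cases hi : i ∈ q.1.j
    · exact ⟨q, hq, ha, Finset.insert_subset hi hs⟩
    · refine ⟨⟨addCoord q.1 i ∅, valid_addCoord q.2 hi (Set.empty_subset _)
        (fun b hb => absurd hb (Set.notMem_empty b))⟩, ?_, ha, ?_⟩
      · exact Le.trans (le_addCoord q.1 hi ∅) hq
      · intro k hk
        rcases Finset.mem_insert.1 hk with rfl | hk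
        · exact (addCoord_j q.1 k ∅ k).2 (Or.inl rfl)
        · exact (addCoord_j q.1 i ∅ k).2 (Or.inr (hs hk))

/-- Finite sets of coordinates and of indices can be added (with `B i = ∅` for the new
coordinates). -/
theorem ext_dom (p : Pf) (a : Finset Ix) (j : Finset Jx) :
    ∃ q ≤ p, a ⊆ q.1.a ∧ j ⊆ q.1.j := by
  obtain ⟨q, hq, ha, _⟩ := ext_a p a
  obtain ⟨r, hr, hra, hj⟩ := ext_j q j
  exact ⟨r, le_trans hr hq, by rw [hra]; exact ha, hj⟩

/-- An element with a witness in `β` can be put into a new set `B (β, n)`.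
PROOF: `p.j` is finite: take `n` with `(β, n) ∉ p.j`, and `B0 = {x}`. -/
theorem ext_B (p : Pf) (β : Nm) (x : Gp) (hx : x ∈ AA p.1.a) (hw : Wit p.1 β x) :
    ∃ q ≤ p, ∃ n : ℕ, (β, n) ∈ q.1.j ∧ x ∈ q.1.B (β, n) := by
  classical
  obtain ⟨n, hn⟩ : ∃ n : ℕ, (β, n) ∉ p.1.j := by
    obtain ⟨n, hn⟩ := Infinite.exists_notMem_finset (p.1.j.image Prod.snd)
    exact ⟨n, fun h => hn (Finset.mem_image.2 ⟨(β, n), h, rfl⟩)⟩
  refine ⟨⟨addCoord p.1 (β, n) {x}, valid_addCoord p.2 hn ?_ ?_⟩,
    le_addCoord p.1 hn {x}, n, ?_, ?_⟩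
  · intro y hy
    rw [Set.mem_singleton_iff.1 hy]
    exact hx
  · intro b hb
    rw [Set.mem_singleton_iff.1 hb]
    exact hw
  · exact (addCoord_j p.1 (β, n) {x} (β, n)).2 (Or.inl rfl)
  · show x ∈ (addCoord p.1 (β, n) {x}).B (β, n)
    rw [addCoord_B_self]
    exact Set.mem_singleton x

end Pool.Agent.RFN
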