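import Pool.Agent.RFN.Linked
import Pool.Agent.RFN.ExtCoord

set_option autoImplicit false

/-! # Countable chain condition and countable index

PROOFS.
* `ccc`: apply `linked` to the set of pairs `(p, 0)`, `p ∈ E`, and `w = ∅`.
* `exists_antichain`: by Zorn's lemma take a maximal subset `D` of `E` of pairwise incompatible
  conditions; it is countable by `ccc`; enumerate it. (`F : ℕ → Option Pf`, the empty set is
  enumerated by `none`.) If `p ∈ E` is compatible with no element of `D`, then `insert p D` is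
  larger.
* `exists_index`: consider the pairs `(p, x)` with `w ⊆ p.j` and `x ∈ AA p.a`, and call two
  pairs linked if there is `r ≤ p, q` with `x + y ∈ r.M i` for all `i ∈ w`. Take a maximal set `D`
  of pairwise not linked pairs (Zorn); it is countable by `linked`; enumerate it. For every pair
  `(p, x)` there is a pair in `D` linked to `(p, x)` (if `(p, x) ∈ D` itself: `r = p`,
  `x + x = 0`). -/

namespace Pool.Agent.RFN

/-- A maximal set of pairwise unrelated elements of `U`, enumerated. -/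
theorem exists_enum {α : Type} (U : Set α) (R : α → α → Prop) (hsymm : ∀ x y, R x y → R y x)
    (hrefl : ∀ x ∈ U, R x x)
    (hc : ∀ D : Set α, D ⊆ U → D.Pairwise (fun x y => ¬ R x y) → D.Countable) :
    ∃ F : ℕ → Option α, (∀ k q, F k = some q → q ∈ U) ∧ ∀ p ∈ U, ∃ k q, F k = some q ∧ R p q := by
  obtain ⟨D, hD⟩ := zorn_subset {D : Set α | D ⊆ U ∧ D.Pairwise (fun x y => ¬ R x y)} (by
    intro c hcs hch
    refine ⟨⋃₀ c, ⟨Set.sUnion_subset fun s hs => (hcs hs).1, ?_⟩, fun s hs =>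
      Set.subset_sUnion_of_mem hs⟩
    exact (Set.pairwise_sUnion hch.directedOn).2 fun s hs => (hcs hs).2)
  have hcount : D.Countable := hc D hD.prop.1 hD.prop.2
  have hmem : ∀ p ∈ U, ∃ q ∈ D, R p q := by
    intro p hp
    by_contra hcon
    push Not at hcon
    have h1 : insert p D ∈ {D : Set α | D ⊆ U ∧ D.Pairwise (fun x y => ¬ R x y)} := by
      refine ⟨Set.insert_subset hp hD.prop.1, ?_⟩
      refine (Set.pairwise_insert).2 ⟨hD.prop.2, fun b hb _ => ⟨hcon b hb, fun h => ?_⟩⟩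
      exact hcon b hb (hsymm _ _ h)
    have h2 : insert p D ⊆ D := hD.le_of_ge h1 (Set.subset_insert p D)
    exact hcon p (h2 (Set.mem_insert p D)) (hrefl p hp)
  rcases D.eq_empty_or_nonempty with hDe | hDn
  · refine ⟨fun _ => none, fun k q h => by simp at h, fun p hp => ?_⟩
    obtain ⟨q, hq, -⟩ := hmem p hp
    rw [hDe] at hq
    exact absurd hq (Set.notMem_empty q)
  · obtain ⟨f, hf⟩ := hcount.exists_eq_range hDn
    refine ⟨fun k => some (f k), fun k q h => ?_, fun p hp => ?_⟩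
    · have h1 : f k = q := Option.some.inj h
      rw [← h1]
      exact hD.prop.1 (hf ▸ Set.mem_range_self k)
    · obtain ⟨q, hq, hR⟩ := hmem p hp
      rw [hf] at hq
      obtain ⟨k, rfl⟩ := hq
      exact ⟨k, f k, rfl, hR⟩

/-- The countable chain condition. -/
theorem ccc (E : Set Pf) (h : ∀ p ∈ E, ∀ q ∈ E, p ≠ q → ¬ ∃ r, r ≤ p ∧ r ≤ q) :
    E.Countable := by
  by_contra hE
  have hinj : Function.Injective (fun p : Pf => (p, (0 : Gp))) := fun p q hpq =>
    congrArg Prod.fst hpq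
  have hS : ¬ ((fun p : Pf => (p, (0 : Gp))) '' E).Countable := fun hcon =>
    hE (Set.countable_of_injective_of_countable_image hinj.injOn hcon)
  obtain ⟨s, hs, t, ht, hst, r, hrs, hrt, -⟩ := linked _ hS ∅ (by
    rintro s ⟨p, hp, rfl⟩
    exact ⟨AddSubgroup.zero_mem _, Finset.empty_subset _⟩)
  obtain ⟨p, hp, rfl⟩ := hs
  obtain ⟨q, hq, rfl⟩ := ht
  exact h p hp q hq (fun e => hst (by rw [e])) ⟨r, hrs, hrt⟩

/-- Every set of conditions contains a countable subset such that every member of the set is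
compatible with a member of the subset. -/
theorem exists_antichain (E : Set Pf) : ∃ F : ℕ → Option Pf, (∀ k q, F k = some q → q ∈ E) ∧
    ∀ p ∈ E, ∃ k q, F k = some q ∧ ∃ r, r ≤ p ∧ r ≤ q := by
  refine exists_enum E (fun p q => ∃ r, r ≤ p ∧ r ≤ q) ?_ ?_ ?_
  · rintro p q ⟨r, h1, h2⟩
    exact ⟨r, h2, h1⟩
  · intro p _
    exact ⟨p, le_rfl, le_rfl⟩
  · intro D _ hD
    exact ccc D fun p hp q hq hpq => hD hp hq hpq

/-- The subgroups `M i`, `i ∈ w`, and their intersection, have countable index. -/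
theorem exists_index (w : Finset Jx) : ∃ F : ℕ → Option (Pf × Gp),
    (∀ k q y, F k = some (q, y) → w ⊆ q.1.j ∧ y ∈ AA q.1.a) ∧ ∀ p : Pf, w ⊆ p.1.j → ∀ x ∈ AA p.1.a, ∃ k q y, F k = some (q, y) ∧
      ∃ r, r ≤ p ∧ r ≤ q ∧ ∀ i ∈ w, x + y ∈ r.1.M i := by
  obtain ⟨F, hF1, hF2⟩ := exists_enum {s : Pf × Gp | w ⊆ s.1.1.j ∧ s.2 ∈ AA s.1.1.a}
    (fun s t => ∃ r : Pf, r ≤ s.1 ∧ r ≤ t.1 ∧ ∀ i ∈ w, s.2 + t.2 ∈ r.1.M i) (by
      rintro s t ⟨r, h1, h2, h3⟩
      exact ⟨r, h2, h1, fun i hi => by rw [add_comm]; exact h3 i hi⟩) (by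
      rintro s ⟨h1, h2⟩
      exact ⟨s.1, le_rfl, le_rfl, fun i _ => by rw [add_self]; exact AddSubgroup.zero_mem _⟩) (by
      intro D hDU hD
      by_contra hDc
      obtain ⟨s, hs, t, ht, hst, r, hr⟩ := linked D hDc w fun s hs =>
        ⟨(hDU hs).2, (hDU hs).1⟩
      exact hD hs ht hst ⟨r, hr⟩)
  refine ⟨F, fun k q y h => ?_, fun p hp x hx => ?_⟩
  · exact hF1 k (q, y) h
  · obtain ⟨k, ⟨q, y⟩, hk, r, hr⟩ := hF2 (p, x) ⟨hp, hx⟩
    exact ⟨k, q, y, hk, r, hr⟩

end Pool.Agent.RFN
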