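import Pool.Agent.RFN.Cond

set_option autoImplicit false

/-! # Adding a basis vector to a condition

PROOF (of `valid_addVec`). `A = AA p.a`, `e = e_i`, `A' = AA (insert i p.a) = A ∪ (A + e)` (a
disjoint union, `mem_AA_insert`; an element `x` of `A` has `x i = 0`, an element of `A + e` has
`x i = 1`). The new data: on `A` everything as in `p`; for `x ∈ A' \ A`, `x ≠ e`:
`pi x = x`, `d x = rk x`; `pi e = y`, `d e = ξ` where either `(y, ξ) = (e, rk e)` or
`y ∈ A`, `rk e = max (rk y) ξ` and `(y, ξ)` is not a value of `(p.pi, p.d)` on `A`. The subgroups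
`L x`, `x ∈ A`, `M i`, and the sets `B i` are unchanged; `L x = 0` for `x ∉ A`.
* `inj`: `(pi, d)` maps `A` into `A × Om` injectively, `x ∈ A' \ A`, `x ≠ e` to `(x, rk x)`, and
  `e` to `(y, ξ)`, which is `(e, rk e)` or a pair with `y ∈ A` which is not a value on `A`.
* `rank`: clear (`max (rk x) (rk x) = rk x`).
* `loc`: for `x ∈ A`, `l ∈ L x ≤ A` use `p`; for `x ∉ A`, `l = 0`.
* `wit`: `b, m ∈ A`; the witness for `p` is one for the extension (`Wit.mono` applied to
  `Le new p`; here one needs `Le new p`, which is `le_addVec`, proved first). -/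

namespace Pool.Agent.RFN

open Classical in
/-- `p` with the new basis vector `e_i`, which is mapped to `(y, ξ)`. -/
noncomputable def addVec (p : Cond0) (i : Ix) (y : Gp) (ξ : Om) : Cond0 where
  a := insert i p.a
  pi x := if x ∈ AA p.a then p.pi x else if x = Finsupp.single i 1 then y else x
  d x := if x ∈ AA p.a then p.d x else if x = Finsupp.single i 1 then ξ else rk x
  L x := if x ∈ AA p.a then p.L x else ⊥
  j := p.j
  M := p.M
  B := p.B

theorem single_notMem {a : Finset Ix} {i : Ix} (hi : i ∉ a) :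
    (Finsupp.single i 1 : Gp) ∉ AA a := by
  intro h
  have h1 := mem_AA_iff.1 h i hi
  rw [Finsupp.single_eq_same] at h1
  exact one_ne_zero h1

theorem addVec_pi_of_mem {p : Cond0} {i : Ix} {y : Gp} {ξ : Om} {x : Gp} (h : x ∈ AA p.a) :
    (addVec p i y ξ).pi x = p.pi x := by
  unfold addVec
  exact if_pos h

theorem addVec_d_of_mem {p : Cond0} {i : Ix} {y : Gp} {ξ : Om} {x : Gp} (h : x ∈ AA p.a) :
    (addVec p i y ξ).d x = p.d x := by
  unfold addVec
  exact if_pos h

theorem addVec_L_of_mem {p : Cond0} {i : Ix} {y : Gp} {ξ : Om} {x : Gp} (h : x ∈ AA p.a) :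
    (addVec p i y ξ).L x = p.L x := by
  unfold addVec
  exact if_pos h

theorem addVec_L_of_notMem {p : Cond0} {i : Ix} {y : Gp} {ξ : Om} {x : Gp} (h : x ∉ AA p.a) :
    (addVec p i y ξ).L x = ⊥ := by
  unfold addVec
  exact if_neg h

theorem addVec_pi_single {p : Cond0} {i : Ix} {y : Gp} {ξ : Om} (hi : i ∉ p.a) :
    (addVec p i y ξ).pi (Finsupp.single i 1) = y := by
  unfold addVec
  exact (if_neg (single_notMem hi)).trans (if_pos rfl)

theorem addVec_d_single {p : Cond0} {i : Ix} {y : Gp} {ξ : Om} (hi : i ∉ p.a) :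
    (addVec p i y ξ).d (Finsupp.single i 1) = ξ := by
  unfold addVec
  exact (if_neg (single_notMem hi)).trans (if_pos rfl)

theorem addVec_pi_other {p : Cond0} {i : Ix} {y : Gp} {ξ : Om} {x : Gp} (h : x ∉ AA p.a)
    (h1 : x ≠ Finsupp.single i 1) : (addVec p i y ξ).pi x = x := by
  unfold addVec
  exact (if_neg h).trans (if_neg h1)

theorem addVec_d_other {p : Cond0} {i : Ix} {y : Gp} {ξ : Om} {x : Gp} (h : x ∉ AA p.a)
    (h1 : x ≠ Finsupp.single i 1) : (addVec p i y ξ).d x = rk x := by
  unfold addVec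
  exact (if_neg h).trans (if_neg h1)

theorem le_addVec (p : Cond0) (i : Ix) (y : Gp) (ξ : Om) : Le (addVec p i y ξ) p where
  a := Finset.subset_insert _ _
  pi _ hx := addVec_pi_of_mem hx
  d _ hx := addVec_d_of_mem hx
  L _ hx _ _ := by rw [addVec_L_of_mem hx]
  j := Finset.Subset.refl _
  M _ _ _ _ := Iff.rfl
  B _ _ := Set.Subset.refl _

theorem valid_addVec {p : Cond0} (hp : Valid p) {i : Ix} (hi : i ∉ p.a) {y : Gp} {ξ : Om}
    (h : (y = Finsupp.single i 1 ∧ ξ = i.1) ∨
      (y ∈ AA p.a ∧ i.1 = max (rk y) ξ ∧ ∀ x ∈ AA p.a, ¬ (p.pi x = y ∧ p.d x = ξ))) :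
    Valid (addVec p i y ξ) := by
  have hsub : AA p.a ≤ AA (addVec p i y ξ).a := AA_mono (Finset.subset_insert _ _)
  have he : (Finsupp.single i 1 : Gp) ∉ AA p.a := single_notMem hi
  have heA : (Finsupp.single i 1 : Gp) ∈ AA (addVec p i y ξ).a :=
    single_mem_AA (Finset.mem_insert_self _ _)
  refine ⟨?_, ?_, ?_, ?_, ?_, ?_, ?_, ?_, ?_, ?_⟩
  · rw [addVec_pi_of_mem (AddSubgroup.zero_mem _)]
    exact hp.pi_zero
  · intro x hx
    by_cases hxA : x ∈ AA p.a
    · rw [addVec_pi_of_mem hxA]
      exact hsub (hp.pi_mem x hxA)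
    · by_cases hxe : x = Finsupp.single i 1
      · rw [hxe, addVec_pi_single hi]
        rcases h with ⟨h1, _⟩ | ⟨h1, _⟩
        · rw [h1]
          exact heA
        · exact hsub h1
      · rw [addVec_pi_other hxA hxe]
        exact hx
  · -- a mixed pair
    have mixed : ∀ u ∈ AA p.a, ∀ v, v ∉ AA p.a →
        (addVec p i y ξ).pi u = (addVec p i y ξ).pi v →
        (addVec p i y ξ).d u = (addVec p i y ξ).d v → False := by
      intro u hu v hv h1 h2
      rw [addVec_pi_of_mem hu] at h1
      rw [addVec_d_of_mem hu] at h2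
      by_cases hve : v = Finsupp.single i 1
      · rw [hve, addVec_pi_single hi] at h1
        rw [hve, addVec_d_single hi] at h2
        rcases h with ⟨h3, _⟩ | ⟨_, _, h3⟩
        · apply he
          rw [← h3, ← h1]
          exact hp.pi_mem u hu
        · exact h3 u hu ⟨h1, h2⟩
      · rw [addVec_pi_other hv hve] at h1
        apply hv
        rw [← h1]
        exact hp.pi_mem u hu
    have mixed2 : ∀ v, v ∉ AA p.a → v ≠ Finsupp.single i 1 →
        (addVec p i y ξ).pi (Finsupp.single i 1) = (addVec p i y ξ).pi v → False := by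
      intro v hv hve h1
      rw [addVec_pi_single hi, addVec_pi_other hv hve] at h1
      rcases h with ⟨h3, _⟩ | ⟨h3, _⟩
      · exact hve (h1.symm.trans h3)
      · exact hv (h1 ▸ h3)
    intro u _ v _ h1 h2
    by_cases hu : u ∈ AA p.a
    · by_cases hv : v ∈ AA p.a
      · rw [addVec_pi_of_mem hu, addVec_pi_of_mem hv] at h1
        rw [addVec_d_of_mem hu, addVec_d_of_mem hv] at h2
        exact hp.inj u hu v hv h1 h2
      · exact (mixed u hu v hv h1 h2).elim
    · by_cases hv : v ∈ AA p.a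
      · exact (mixed v hv u hu h1.symm h2.symm).elim
      · by_cases hue : u = Finsupp.single i 1
        · by_cases hve : v = Finsupp.single i 1
          · rw [hue, hve]
          · rw [hue] at h1
            exact (mixed2 v hv hve h1).elim
        · by_cases hve : v = Finsupp.single i 1
          · rw [hve] at h1
            exact (mixed2 u hu hue h1.symm).elim
          · rw [addVec_pi_other hu hue, addVec_pi_other hv hve] at h1
            exact h1
  · intro x _
    by_cases hxA : x ∈ AA p.a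
    · rw [addVec_pi_of_mem hxA, addVec_d_of_mem hxA]
      exact hp.rank x hxA
    · by_cases hxe : x = Finsupp.single i 1
      · rw [hxe, addVec_pi_single hi, addVec_d_single hi, rk_single]
        rcases h with ⟨h1, h2⟩ | ⟨_, h2, _⟩
        · rw [h1, h2, rk_single, max_self]
        · exact h2
      · rw [addVec_pi_other hxA hxe, addVec_d_other hxA hxe, max_self]
  · intro x _
    by_cases hxA : x ∈ AA p.a
    · rw [addVec_L_of_mem hxA]
      exact (hp.L_le x hxA).trans hsub
    · rw [addVec_L_of_notMem hxA]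
      exact bot_le
  · intro x _ l hl
    by_cases hxA : x ∈ AA p.a
    · rw [addVec_L_of_mem hxA] at hl
      rw [addVec_pi_of_mem (AddSubgroup.add_mem _ hxA (hp.L_le x hxA hl)), addVec_pi_of_mem hxA]
      exact hp.loc_pi x hxA l hl
    · rw [addVec_L_of_notMem hxA] at hl
      have hl0 : l = 0 := hl
      rw [hl0, add_zero, add_zero]
  · intro x _ l hl
    by_cases hxA : x ∈ AA p.a
    · rw [addVec_L_of_mem hxA] at hl
      rw [addVec_d_of_mem (AddSubgroup.add_mem _ hxA (hp.L_le x hxA hl)), addVec_d_of_mem hxA]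
      exact hp.loc_d x hxA l hl
    · rw [addVec_L_of_notMem hxA] at hl
      have hl0 : l = 0 := hl
      rw [hl0, add_zero]
  · intro k hk
    exact (hp.M_le k hk).trans hsub
  · intro k hk b hb
    exact hsub (hp.B_sub k hk hb)
  · intro k hk b hb m hm
    exact Wit.mono hp (le_addVec p i y ξ) (hp.wit k hk b hb m hm)

/-- Every finite set of indices can be added. -/
theorem ext_a (p : Pf) (a : Finset Ix) : ∃ q ≤ p, a ⊆ q.1.a ∧ q.1.j = p.1.j := by
  classical
  induction a using Finset.induction_on with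
  | empty => exact ⟨p, le_refl p, Finset.empty_subset _, rfl⟩
  | insert i a _ ih =>
    obtain ⟨q, hq, h1, h2⟩ := ih
    by_cases hi : i ∈ q.1.a
    · exact ⟨q, hq, Finset.insert_subset hi h1, h2⟩
    · refine ⟨⟨addVec q.1 i (Finsupp.single i 1) i.1,
        valid_addVec q.2 hi (Or.inl ⟨rfl, rfl⟩)⟩, ?_, ?_, h2⟩
      · exact Le.trans (le_addVec q.1 i _ _) hq
      · intro k hk
        rcases Finset.mem_insert.1 hk with h | h
        · rw [h]
          exact Finset.mem_insert_self _ _
        · exact Finset.mem_insert_of_mem (h1 h)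

/-- Every element is separated from `0` by a subgroup `L y`.
PROOF: take an index `i` not in `p.a` (`p.a` is finite, `Ix` is infinite) and
`q = addVec p i e_i (rk e_i)`, `y = e_i`: `q.L y = ⊥`. -/
theorem ext_haus (p : Pf) (x : Gp) (hx : x ∈ AA p.1.a) (h0 : x ≠ 0) :
    ∃ q ≤ p, ∃ y ∈ AA q.1.a, x ∉ q.1.L y := by
  have _ := hx
  obtain ⟨i, hi⟩ := Infinite.exists_notMem_finset p.1.a
  refine ⟨⟨addVec p.1 i (Finsupp.single i 1) i.1,
    valid_addVec p.2 hi (Or.inl ⟨rfl, rfl⟩)⟩, le_addVec p.1 i _ _, Finsupp.single i 1,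
    single_mem_AA (Finset.mem_insert_self _ _), ?_⟩
  show x ∉ (addVec p.1 i (Finsupp.single i 1) i.1).L (Finsupp.single i 1)
  rw [addVec_L_of_notMem (single_notMem hi)]
  exact h0

/-- Every pair `(y, ξ)` becomes a value.
PROOF: if it is not a value yet, take `i = (max (rk y) ξ, n)` with `i ∉ p.a` and
`q = addVec p i y ξ`, `x = e_i`. -/
theorem ext_surj (p : Pf) (y : Gp) (hy : y ∈ AA p.1.a) (ξ : Om) :
    ∃ q ≤ p, ∃ x ∈ AA q.1.a, q.1.pi x = y ∧ q.1.d x = ξ := by
  by_cases h : ∃ x ∈ AA p.1.a, p.1.pi x = y ∧ p.1.d x = ξ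
  · exact ⟨p, le_refl p, h⟩
  · push Not at h
    obtain ⟨n, hn⟩ := Infinite.exists_notMem_finset (p.1.a.image Prod.snd)
    have hi : (max (rk y) ξ, n) ∉ p.1.a := fun hmem =>
      hn (Finset.mem_image_of_mem Prod.snd hmem)
    refine ⟨⟨addVec p.1 (max (rk y) ξ, n) y ξ, valid_addVec p.2 hi
      (Or.inr ⟨hy, rfl, fun x hx hc => h x hx hc.1 hc.2⟩)⟩, le_addVec p.1 _ _ _,
      Finsupp.single (max (rk y) ξ, n) 1, single_mem_AA (Finset.mem_insert_self _ _), ?_, ?_⟩
    · exact addVec_pi_single hi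
    · exact addVec_d_single hi

end Pool.Agent.RFN
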