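import Pool.Agent.RFN.Base

set_option autoImplicit false

/-! # Unfolding, folding and components

`n` is the number of private indices of each party, `β P : Fin n → Ix` the enumeration of the
private indices of the party `P`. `ioN (β P) (x, v) = x + ∑ v k e_(β P k)`;
`foN a β y = (the part of y on a, (∑_P y (β P k))_k)`; `cmp β y = (y (β P k))_(P, k)`. -/

namespace Pool.Agent.RFN

/-- The reference group. -/
abbrev Rf (n : ℕ) : Type := Gp × (Fin n → ZMod 2)

/-- The elements of the reference group with first component in the root group. -/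
noncomputable def RAn (a : Finset Ix) (n : ℕ) : AddSubgroup (Rf n) := (AA a).prod ⊤

theorem mem_RAn {a : Finset Ix} {n : ℕ} {w : Rf n} : w ∈ RAn a n ↔ w.1 ∈ AA a := by
  unfold RAn
  rw [AddSubgroup.mem_prod]
  exact and_iff_left (AddSubgroup.mem_top _)

/-- The unfolding map of a party. -/
noncomputable def ioN {n : ℕ} (β : Fin n → Ix) : Rf n →+ Gp where
  toFun w := w.1 + ∑ k, Finsupp.single (β k) (w.2 k)
  map_zero' := by simp
  map_add' := by
    intro w w'
    simp only [Prod.fst_add, Prod.snd_add, Pi.add_apply, Finsupp.single_add,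
      Finset.sum_add_distrib]
    abel

theorem ioN_apply {n : ℕ} (β : Fin n → Ix) (w : Rf n) :
    ioN β w = w.1 + ∑ k, Finsupp.single (β k) (w.2 k) := rfl

variable {T : Type} [Fintype T] [DecidableEq T] {n : ℕ}

open Classical in
/-- The folding map. -/
noncomputable def foN (a : Finset Ix) (β : T → Fin n → Ix) : Gp →+ Rf n where
  toFun y := (y.filter (· ∈ a), fun k => ∑ P, y (β P k))
  map_zero' := by
    refine Prod.ext ?_ ?_
    · exact Finsupp.filter_zero _
    · funext k
      simp
  map_add' := by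
    intro y y'
    refine Prod.ext ?_ ?_
    · exact Finsupp.filter_add
    · funext k
      simp [Finset.sum_add_distrib]

theorem foN_mem (a : Finset Ix) (β : T → Fin n → Ix) (y : Gp) : foN a β y ∈ RAn a n := by
  rw [mem_RAn, mem_AA_iff]
  intro i hi
  change (y.filter (· ∈ a)) i = 0
  rw [Finsupp.filter_apply_neg _ _ hi]

private theorem foN_fst (a : Finset Ix) (β : T → Fin n → Ix) (y : Gp) (i : Ix) [Decidable (i ∈ a)] :
    (foN a β y).1 i = if i ∈ a then y i else 0 := by
  change (y.filter (· ∈ a)) i = _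
  by_cases hi : i ∈ a
  · rw [Finsupp.filter_apply_pos _ _ hi, if_pos hi]
  · rw [Finsupp.filter_apply_neg _ _ hi, if_neg hi]

private theorem foN_snd (a : Finset Ix) (β : T → Fin n → Ix) (y : Gp) (k : Fin n) :
    (foN a β y).2 k = ∑ P, y (β P k) := rfl

private theorem ioN_val {n : ℕ} (β : Fin n → Ix) (w : Rf n) (i : Ix) [DecidableEq Ix] :
    ioN β w i = w.1 i + ∑ k, if β k = i then w.2 k else 0 := by
  rw [ioN_apply, Finsupp.add_apply, Finsupp.finset_sum_apply]
  congr 1
  apply Finset.sum_congr rfl
  intro k _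
  rw [Finsupp.single_apply]

/-- The components of an element. -/
def cmp (β : T → Fin n → Ix) : Gp →+ (T → Fin n → ZMod 2) where
  toFun y := fun P k => y (β P k)
  map_zero' := rfl
  map_add' _ _ := rfl

theorem cmp_apply (β : T → Fin n → Ix) (y : Gp) (P : T) (k : Fin n) :
    cmp β y P k = y (β P k) := rfl

/-- The element with given components. -/
noncomputable def Yv (β : T → Fin n → Ix) (y : T → Fin n → ZMod 2) : Gp :=
  ∑ P, ioN (β P) (0, y P)

/-- The index sets of the parties. -/
noncomputable def aP (a : Finset Ix) (β : Fin n → Ix) : Finset Ix := a ∪ Finset.univ.image β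

/-- Joint injectivity of the enumerations. -/
structure JInj (a : Finset Ix) (β : T → Fin n → Ix) : Prop where
  inj : ∀ P k P' k', β P k = β P' k' → P = P' ∧ k = k'
  notMem : ∀ P k, β P k ∉ a

theorem ioN_mem (a : Finset Ix) (β : Fin n → Ix) {w : Rf n} (hw : w ∈ RAn a n) :
    ioN β w ∈ AA (aP a β) := by
  rw [ioN_apply]
  apply AddSubgroup.add_mem
  · exact AA_mono Finset.subset_union_left (mem_RAn.1 hw)
  · apply AddSubgroup.sum_mem
    intro k _
    rw [mem_AA]
    refine Finsupp.support_single_subset.trans ?_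
    rw [Finset.singleton_subset_iff]
    exact Finset.mem_union_right _ (Finset.mem_image_of_mem _ (Finset.mem_univ k))

theorem ioN_root (β : Fin n → Ix) {x : Gp} : ioN β (x, 0) = x := by
  simp [ioN_apply]

variable {a : Finset Ix} {β : T → Fin n → Ix} (h : JInj a β)

include h

theorem cmp_ioN {P : T} {w : Rf n} (hw : w ∈ RAn a n) :
    cmp β (ioN (β P) w) = Pi.single P w.2 := by
  classical
  funext Q k
  rw [cmp_apply, ioN_val, mem_AA_iff.1 (mem_RAn.1 hw) _ (h.notMem Q k), zero_add]
  by_cases hQ : Q = P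
  · subst hQ
    rw [Pi.single_eq_same, Finset.sum_eq_single k]
    · rw [if_pos rfl]
    · intro k' _ hk'
      rw [if_neg fun e => hk' (h.inj _ _ _ _ e).2]
    · intro hk
      exact absurd (Finset.mem_univ k) hk
  · rw [Pi.single_eq_of_ne hQ, Pi.zero_apply]
    apply Finset.sum_eq_zero
    intro k' _
    rw [if_neg fun e => hQ (h.inj _ _ _ _ e).1.symm]

theorem foN_ioN {P : T} {w : Rf n} (hw : w ∈ RAn a n) : foN a β (ioN (β P) w) = w := by
  classical
  refine Prod.ext ?_ ?_
  · ext i
    rw [foN_fst]
    by_cases hi : i ∈ a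
    · rw [if_pos hi, ioN_val, Finset.sum_eq_zero, add_zero]
      intro k _
      rw [if_neg]
      rintro rfl
      exact h.notMem P k hi
    · rw [if_neg hi, mem_AA_iff.1 (mem_RAn.1 hw) i hi]
  · funext k
    rw [foN_snd]
    have h1 : ∀ Q, ioN (β P) w (β Q k) = (Pi.single P w.2 : T → Fin n → ZMod 2) Q k := fun Q =>
      congrFun (congrFun (cmp_ioN h hw) Q) k
    rw [Finset.sum_congr rfl fun Q _ => h1 Q, Finset.sum_eq_single P]
    · rw [Pi.single_eq_same]
    · intro Q _ hQ
      rw [Pi.single_eq_of_ne hQ, Pi.zero_apply]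
    · intro hP
      exact absurd (Finset.mem_univ P) hP

theorem ioN_foN {P : T} {x : Gp} (hx : x ∈ AA (aP a (β P))) : ioN (β P) (foN a β x) = x := by
  classical
  rw [mem_AA_iff] at hx
  have h0 : ∀ k, ∑ Q, x (β Q k) = x (β P k) := by
    intro k
    rw [Finset.sum_eq_single P]
    · intro Q _ hQ
      apply hx
      intro hmem
      rcases Finset.mem_union.1 hmem with h' | h'
      · exact h.notMem Q k h'
      · obtain ⟨k', -, e⟩ := Finset.mem_image.1 h'
        exact hQ (h.inj _ _ _ _ e).1.symm
    · intro hP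
      exact absurd (Finset.mem_univ P) hP
  ext i
  rw [ioN_val, foN_fst]
  simp only [foN_snd, h0]
  by_cases hi : i ∈ a
  · rw [if_pos hi, Finset.sum_eq_zero, add_zero]
    intro k _
    rw [if_neg]
    rintro rfl
    exact h.notMem P k hi
  · rw [if_neg hi, zero_add]
    by_cases hi' : i ∈ Finset.univ.image (β P)
    · obtain ⟨k, -, rfl⟩ := Finset.mem_image.1 hi'
      rw [Finset.sum_eq_single k]
      · rw [if_pos rfl]
      · intro k' _ hk'
        rw [if_neg fun e => hk' (h.inj _ _ _ _ e).2]
      · intro hk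
        exact absurd (Finset.mem_univ k) hk
    · rw [hx i fun hmem => (Finset.mem_union.1 hmem).elim hi hi']
      apply Finset.sum_eq_zero
      intro k _
      rw [if_neg]
      rintro rfl
      exact hi' (Finset.mem_image_of_mem _ (Finset.mem_univ k))

omit h in
private theorem zero_RAn (v : Fin n → ZMod 2) : ((0, v) : Rf n) ∈ RAn a n := by
  rw [mem_RAn]
  exact AddSubgroup.zero_mem _

theorem cmp_Yv (y : T → Fin n → ZMod 2) : cmp β (Yv β y) = y := by
  unfold Yv
  rw [map_sum, Finset.sum_congr rfl fun P _ => cmp_ioN h (zero_RAn (y P))]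
  exact Finset.univ_sum_single y

theorem foN_Yv (y : T → Fin n → ZMod 2) : foN a β (Yv β y) = (0, ∑ P, y P) := by
  unfold Yv
  rw [map_sum, Finset.sum_congr rfl fun P _ => foN_ioN h (zero_RAn (y P))]
  refine Prod.ext ?_ ?_
  · rw [Prod.fst_sum]
    exact Finset.sum_const_zero
  · rw [Prod.snd_sum]

/-- The components of an element of the group of the party `P`. -/
theorem cmp_of_mem {P : T} {x : Gp} (hx : x ∈ AA (aP a (β P))) :
    ∃ v, cmp β x = Pi.single P v := by
  refine ⟨(foN a β x).2, ?_⟩
  conv_lhs => rw [← ioN_foN h hx]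
  exact cmp_ioN h (foN_mem a β x)

/-- Only the component `P` is not zero: the element is in the group of `P`. -/
theorem mem_of_cmp {P : T} {x : Gp} (hx : x ∈ AA (Finset.univ.biUnion fun P => aP a (β P)))
    {v : Fin n → ZMod 2} (hv : cmp β x = Pi.single P v) : x ∈ AA (aP a (β P)) := by
  rw [mem_AA_iff] at hx ⊢
  intro i hi
  by_cases hi' : i ∈ Finset.univ.biUnion fun P => aP a (β P)
  · obtain ⟨Q, -, hQ⟩ := Finset.mem_biUnion.1 hi'
    rcases Finset.mem_union.1 hQ with h' | h'
    · exact absurd (Finset.mem_union_left _ h') hi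
    · obtain ⟨k, -, rfl⟩ := Finset.mem_image.1 h'
      have hQP : Q ≠ P := by
        rintro rfl
        exact hi (Finset.mem_union_right _ h')
      have h1 := congrFun (congrFun hv Q) k
      rw [Pi.single_eq_of_ne hQP] at h1
      exact h1
  · exact hx i hi'

theorem inter_aP {P Q : T} (hPQ : P ≠ Q) {x : Gp} (hx : x ∈ AA (aP a (β P)))
    (hx' : x ∈ AA (aP a (β Q))) : x ∈ AA a := by
  rw [mem_AA_iff] at hx hx' ⊢
  intro i hi
  by_cases h1 : i ∈ aP a (β P)
  · by_cases h2 : i ∈ aP a (β Q)
    · rcases Finset.mem_union.1 h1 with h' | h'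
      · exact absurd h' hi
      · rcases Finset.mem_union.1 h2 with h'' | h''
        · exact absurd h'' hi
        · obtain ⟨k, -, rfl⟩ := Finset.mem_image.1 h'
          obtain ⟨k', -, e⟩ := Finset.mem_image.1 h''
          exact absurd (h.inj _ _ _ _ e).1.symm hPQ
    · exact hx' i h2
  · exact hx i h1

end Pool.Agent.RFN
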