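import Pool.Agent.RFN.Cond
import Pool.Agent.RFN.Lin
import Pool.Agent.RFN.Delta

set_option autoImplicit false

/-! # Thinning out an uncountable family of conditions, first part

The family is a set `S` of pairs `s = (p, x)`, `p` a condition, `x` an element of its group.
`Pre S a Dl m n β`: the index sets `s.1.1.a` form a Delta-system with root `a`, the coordinate
sets one with root `Dl`, the ranks of the root are `≤ m`, the ranks of the private indices are
`> m`, each index set has `n` private indices, enumerated by `β s`.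

PROOF of `exists_pre`. (1) `delta` for `s ↦ s.1.1.a`, then again for `s ↦ s.1.1.j`: uncountable
`S1 ⊆ S`, roots `a` and `Dl`. As `S1` has at least two (even infinitely many) elements,
`a ⊆ s.1.1.a` and `Dl ⊆ s.1.1.j` for all `s ∈ S1`. (2) `m` = the largest rank of an index of `a`
(`⊥` if `a = ∅`). The set `N` of the indices of rank `≤ m` is countable (`countable_Iic`, times
`ℕ`), and the sets `s.1.1.a \ a`, `s ∈ S1`, are pairwise disjoint, so only countably many `s ∈ S1`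
have an element of `N` in `s.1.1.a \ a`; remove them. (3) For some `n` uncountably many `s` have
`(s.1.1.a \ a).card = n` (`pigeon`); for these choose `β s` an enumeration
(`Finset.equivFin` or `Finset.equivFinOfCardEq`). -/

namespace Pool.Agent.RFN

/-- The family after the first thinning. -/
structure Pre (S : Set (Pf × Gp)) (a : Finset Ix) (Dl : Finset Jx) (m : Om) (n : ℕ)
    (β : Pf × Gp → Fin n → Ix) : Prop where
  a_eq : ∀ s ∈ S, s.1.1.a = aP a (β s)
  inj : ∀ s ∈ S, Function.Injective (β s)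
  root : ∀ i ∈ a, i.1 ≤ m
  priv : ∀ s ∈ S, ∀ l, m < (β s l).1
  disj : ∀ s ∈ S, ∀ t ∈ S, s ≠ t → ∀ l l', β s l ≠ β t l'
  Dl_sub : ∀ s ∈ S, Dl ⊆ s.1.1.j
  Dl_inter : ∀ s ∈ S, ∀ t ∈ S, s ≠ t → ∀ i ∈ s.1.1.j, i ∈ t.1.1.j → i ∈ Dl

theorem exists_pre (S : Set (Pf × Gp)) (hS : ¬ S.Countable) :
    ∃ S' ⊆ S, ¬ S'.Countable ∧ ∃ (a : Finset Ix) (Dl : Finset Jx) (m : Om) (n : ℕ)
      (β : Pf × Gp → Fin n → Ix), Pre S' a Dl m n β := by
  classical
  obtain ⟨S0, hS0, hS0c, a, ha⟩ := delta S hS (fun s => s.1.1.a)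
  obtain ⟨S1, hS1, hS1c, Dl, hDl⟩ := delta S0 hS0c (fun s => s.1.1.j)
  have hother : ∀ s ∈ S1, ∃ t ∈ S1, s ≠ t := by
    intro s hs
    by_contra hcon
    push Not at hcon
    apply hS1c
    exact (Set.countable_singleton s).mono fun t ht => (hcon t ht).symm
  have haS : ∀ s ∈ S1, a ⊆ s.1.1.a := by
    intro s hs
    obtain ⟨t, ht, hst⟩ := hother s hs
    rw [← ha s (hS1 hs) t (hS1 ht) hst]
    exact Finset.inter_subset_left
  have hDS : ∀ s ∈ S1, Dl ⊆ s.1.1.j := by
    intro s hs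
    obtain ⟨t, ht, hst⟩ := hother s hs
    rw [← hDl s hs t ht hst]
    exact Finset.inter_subset_left
  set m : Om := a.sup Prod.fst with hm
  have hN : {i : Ix | i.1 ≤ m}.Countable := by
    have h1 : {i : Ix | i.1 ≤ m} = (Set.Iic m) ×ˢ (Set.univ : Set ℕ) := by
      ext i
      simp
    rw [h1]
    exact (countable_Iic m).prod Set.countable_univ
  have hB : {s ∈ S1 | ∃ i ∈ s.1.1.a, i ∉ a ∧ i.1 ≤ m}.Countable := by
    have hex : ∀ s : Pf × Gp, ∃ i : Ix, s ∈ {s ∈ S1 | ∃ i ∈ s.1.1.a, i ∉ a ∧ i.1 ≤ m} →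
        i ∈ s.1.1.a ∧ i ∉ a ∧ i.1 ≤ m := by
      intro s
      by_cases hs : s ∈ {s ∈ S1 | ∃ i ∈ s.1.1.a, i ∉ a ∧ i.1 ≤ m}
      · obtain ⟨_, i, hi⟩ := hs
        exact ⟨i, fun _ => hi⟩
      · exact ⟨(⊥, 0), fun h => absurd h hs⟩
    choose g hg using hex
    refine Set.MapsTo.countable_of_injOn (f := g) (t := {i : Ix | i.1 ≤ m}) ?_ ?_ hN
    · intro s hs
      exact (hg s hs).2.2
    · intro s hs t ht hst
      by_contra hne
      have h1 := ha s (hS1 hs.1) t (hS1 ht.1) hne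
      have h2 : g s ∈ s.1.1.a ∩ t.1.1.a := by
        refine Finset.mem_inter.2 ⟨(hg s hs).1, ?_⟩
        rw [hst]
        exact (hg t ht).1
      rw [h1] at h2
      exact (hg s hs).2.1 h2
  set S2 : Set (Pf × Gp) := S1 \ {s ∈ S1 | ∃ i ∈ s.1.1.a, i ∉ a ∧ i.1 ≤ m} with hS2
  have hS2c : ¬ S2.Countable := by
    intro h
    apply hS1c
    refine (h.union hB).mono fun s hs => ?_
    by_cases h1 : s ∈ {s ∈ S1 | ∃ i ∈ s.1.1.a, i ∉ a ∧ i.1 ≤ m}
    · exact Or.inr h1
    · exact Or.inl ⟨hs, h1⟩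
  obtain ⟨n, hn⟩ := pigeon S2 hS2c (fun s => (s.1.1.a \ a).card)
  have hex : ∀ s : Pf × Gp, ∃ b : Fin n → Ix, (s.1.1.a \ a).card = n →
      Function.Injective b ∧ Finset.univ.image b = s.1.1.a \ a := by
    intro s
    by_cases hs : (s.1.1.a \ a).card = n
    · refine ⟨fun l => (((s.1.1.a \ a).equivFinOfCardEq hs).symm l : Ix), fun _ => ⟨?_, ?_⟩⟩
      · intro l l' hl
        exact ((s.1.1.a \ a).equivFinOfCardEq hs).symm.injective (Subtype.ext hl)
      · ext i
        rw [Finset.mem_image]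
        constructor
        · rintro ⟨l, _, rfl⟩
          exact Subtype.prop _
        · intro hi
          refine ⟨(s.1.1.a \ a).equivFinOfCardEq hs ⟨i, hi⟩, Finset.mem_univ _, ?_⟩
          rw [Equiv.symm_apply_apply]
    · exact ⟨fun _ => (⊥, 0), fun h => absurd h hs⟩
  choose β hβ using hex
  have hmem : ∀ s ∈ {s ∈ S2 | (s.1.1.a \ a).card = n}, ∀ l, β s l ∈ s.1.1.a \ a := by
    intro s hs l
    rw [← (hβ s hs.2).2]
    exact Finset.mem_image_of_mem _ (Finset.mem_univ l)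
  refine ⟨{s ∈ S2 | (s.1.1.a \ a).card = n}, fun s hs => hS0 (hS1 hs.1.1), hn, a, Dl, m, n, β,
    ?_, ?_, ?_, ?_, ?_, ?_, ?_⟩
  · intro s hs
    unfold aP
    have h1 := (hβ s hs.2).2
    ext i
    rw [Finset.mem_union]
    have h2 : i ∈ Finset.univ.image (β s) ↔ i ∈ s.1.1.a \ a := by rw [h1]
    have h3 : i ∈ Finset.univ.image (β s) ↔ ∃ l, β s l = i := by
      simp
    constructor
    · intro hi
      by_cases hia : i ∈ a
      · exact Or.inl hia
      · right
        have h4 := h2.2 (Finset.mem_sdiff.2 ⟨hi, hia⟩)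
        rw [h3] at h4
        simpa using h4
    · rintro (hi | hi)
      · exact haS s hs.1.1 hi
      · have h4 : ∃ l, β s l = i := by simpa using hi
        exact (Finset.mem_sdiff.1 (h2.1 (h3.2 h4))).1
  · intro s hs
    exact (hβ s hs.2).1
  · intro i hi
    exact Finset.le_sup (f := Prod.fst) hi
  · intro s hs l
    by_contra hcon
    push Not at hcon
    have h1 := Finset.mem_sdiff.1 (hmem s hs l)
    exact hs.1.2 ⟨hs.1.1, β s l, h1.1, h1.2, hcon⟩
  · intro s hs t ht hst l l' heq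
    have h1 := Finset.mem_sdiff.1 (hmem s hs l)
    have h2 := Finset.mem_sdiff.1 (hmem t ht l')
    have h3 : β s l ∈ s.1.1.a ∩ t.1.1.a := by
      refine Finset.mem_inter.2 ⟨h1.1, ?_⟩
      rw [heq]
      exact h2.1
    rw [ha s (hS1 hs.1.1) t (hS1 ht.1.1) hst] at h3
    exact h1.2 h3
  · intro s hs
    exact hDS s hs.1.1
  · intro s hs t ht hst i hi hi'
    rw [← hDl s hs.1.1 t ht.1.1 hst]
    exact Finset.mem_inter.2 ⟨hi, hi'⟩

theorem Pre.mono {S S' : Set (Pf × Gp)} {a : Finset Ix} {Dl : Finset Jx} {m : Om} {n : ℕ}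
    {β : Pf × Gp → Fin n → Ix} (h : Pre S a Dl m n β) (hS : S' ⊆ S) : Pre S' a Dl m n β :=
  ⟨fun s hs => h.a_eq s (hS hs), fun s hs => h.inj s (hS hs), h.root,
    fun s hs => h.priv s (hS hs), fun s hs t ht => h.disj s (hS hs) t (hS ht),
    fun s hs => h.Dl_sub s (hS hs), fun s hs t ht => h.Dl_inter s (hS hs) t (hS ht)⟩

end Pool.Agent.RFN
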