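import Pool.Agent.RFN.Fam1

set_option autoImplicit false

/-! # Thinning out an uncountable family of conditions, second part: types

`SameTy`: the two members agree on the root and have the same subgroups and sets for the root
elements and root coordinates, transported to the reference group by `ioN (β s)`.

PROOF of `exists_ty`. `pi_root`: for `x ∈ AA a`, `pi x ∈ AA s.1.1.a` (`pi_mem`) and
`rk (pi x) ≤ rk x ≤ m` (`Valid.rank`, `rk_le_of_mem_AA`), so no private index (rank `> m`) is in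
its support (`le_rk`), so `pi x ∈ AA a`. In the same way `d x ≤ rk x ≤ m`.
The type of `s` is the element
`(x ↦ pi x, x ↦ d x, x ↦ {w | ioN (β s) w ∈ L x}, i ↦ {w | ioN (β s) w ∈ M i},
  i ↦ {w | ioN (β s) w ∈ B i}, foN-part w0)` of
`(A → A) × (A → Set.Iic m) × (A → Set R) × (Dl → Set R) × (Dl → Set R) × R`, where `A = AA a`
(finite, `finite_AA`) and `R = A × (Fin n → ZMod 2)` (finite); all these types are countable.
The last component: `s.2 ∈ AA s.1.1.a = AA (aP a (β s))` is `ioN (β s) w0` for some `w0` with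
`w0.1 ∈ AA a`: choose one (`w0 = (s.2.filter (· ∈ a), fun l => s.2 (β s l))`; or use
`ioN_foN` with the one party family). Now use `pigeon`. -/

namespace Pool.Agent.RFN

/-- The members `s` and `t` have the same type. -/
structure SameTy (a : Finset Ix) (Dl : Finset Jx) {n : ℕ} (β : Pf × Gp → Fin n → Ix)
    (s t : Pf × Gp) : Prop where
  pi_eq : ∀ x ∈ AA a, s.1.1.pi x = t.1.1.pi x
  d_eq : ∀ x ∈ AA a, s.1.1.d x = t.1.1.d x
  L_iso : ∀ x ∈ AA a, ∀ w ∈ RAn a n, ioN (β s) w ∈ s.1.1.L x → ioN (β t) w ∈ t.1.1.L x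
  M_iso : ∀ i ∈ Dl, ∀ w ∈ RAn a n, ioN (β s) w ∈ s.1.1.M i → ioN (β t) w ∈ t.1.1.M i
  B_iso : ∀ i ∈ Dl, ∀ w ∈ RAn a n, ioN (β s) w ∈ s.1.1.B i → ioN (β t) w ∈ t.1.1.B i

theorem root_sub {S : Set (Pf × Gp)} {a : Finset Ix} {Dl : Finset Jx} {m : Om} {n : ℕ}
    {β : Pf × Gp → Fin n → Ix} (h : Pre S a Dl m n β) {s : Pf × Gp} (hs : s ∈ S) :
    a ⊆ s.1.1.a := by
  rw [h.a_eq s hs]
  exact Finset.subset_union_left

theorem pi_root {S : Set (Pf × Gp)} {a : Finset Ix} {Dl : Finset Jx} {m : Om} {n : ℕ}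
    {β : Pf × Gp → Fin n → Ix} (h : Pre S a Dl m n β) {s : Pf × Gp} (hs : s ∈ S) {x : Gp}
    (hx : x ∈ AA a) : s.1.1.pi x ∈ AA a ∧ s.1.1.d x ≤ m := by
  have hx' : x ∈ AA s.1.1.a := AA_mono (root_sub h hs) hx
  have hr := s.1.2.rank x hx'
  have hm : rk x ≤ m := rk_le_of_mem_AA h.root hx
  rw [hr] at hm
  have h1 : rk (s.1.1.pi x) ≤ m := (le_max_left _ _).trans hm
  have h2 : s.1.1.d x ≤ m := (le_max_right _ _).trans hm
  refine ⟨?_, h2⟩
  intro i hi
  have h3 := s.1.2.pi_mem x hx' hi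
  rw [h.a_eq s hs] at h3
  rcases Finset.mem_union.1 h3 with h4 | h4
  · exact h4
  · exfalso
    obtain ⟨l, _, rfl⟩ := Finset.mem_image.1 h4
    have h5 : (β s l).1 ≤ rk (s.1.1.pi x) := le_rk (Finsupp.mem_support_iff.1 hi)
    exact absurd (h.priv s hs l) (not_lt.2 (h5.trans h1))

open Classical in
theorem exists_ty {S : Set (Pf × Gp)} (hS : ¬ S.Countable) {a : Finset Ix} {Dl : Finset Jx}
    {m : Om} {n : ℕ} {β : Pf × Gp → Fin n → Ix} (h : Pre S a Dl m n β)
    (hx : ∀ s ∈ S, s.2 ∈ AA s.1.1.a) :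
    ∃ S' ⊆ S, ¬ S'.Countable ∧ (∀ s ∈ S', ∀ t ∈ S', SameTy a Dl β s t) ∧
      ∃ w0 ∈ RAn a n, ∀ s ∈ S', s.2 = ioN (β s) w0 := by
  haveI : Finite (AA a) := finite_AA a
  haveI : Countable (Set.Iic m) := (countable_Iic m).to_subtype
  let R : Type := AA a × (Fin n → ZMod 2)
  let rr : R → Rf n := fun w => ((w.1 : Gp), w.2)
  have hrr : ∀ w : Rf n, w ∈ RAn a n → ∃ w' : R, rr w' = w := by
    intro w hw
    exact ⟨(⟨w.1, mem_RAn.1 hw⟩, w.2), rfl⟩
  have hrm : ∀ w' : R, rr w' ∈ RAn a n := fun w' => mem_RAn.2 w'.1.2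
  haveI : Finite R := inferInstanceAs (Finite (AA a × (Fin n → ZMod 2)))
  -- the point
  have hpt : ∀ s ∈ S, ∃ w : R, ioN (β s) (rr w) = s.2 := by
    intro s hs
    have h1 : s.2 ∈ AA (aP a (β s)) := by rw [← h.a_eq s hs]; exact hx s hs
    have hJ : JInj a (fun _ : Unit => β s) := by
      refine ⟨fun P k P' k' he => ⟨rfl, h.inj s hs he⟩, fun P k hmem => ?_⟩
      exact absurd (h.priv s hs k) (not_lt.2 (h.root _ hmem))
    have h2 := ioN_foN hJ (P := ()) h1
    obtain ⟨w, hw⟩ := hrr _ (foN_mem a (fun _ : Unit => β s) s.2)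
    exact ⟨w, by rw [hw]; exact h2⟩
  let f : Pf × Gp → (AA a → AA a) × (AA a → Set.Iic m) × (AA a → Set R) × (Dl → Set R) ×
      (Dl → Set R) × Option R := fun s =>
    (fun x => if hp : s.1.1.pi x ∈ AA a then ⟨s.1.1.pi x, hp⟩ else 0,
      fun x => if hd : s.1.1.d x ≤ m then ⟨s.1.1.d x, hd⟩ else ⟨m, Set.mem_Iic.2 le_rfl⟩,
      fun x => {w | ioN (β s) (rr w) ∈ s.1.1.L x},
      fun i => {w | ioN (β s) (rr w) ∈ s.1.1.M i},
      fun i => {w | ioN (β s) (rr w) ∈ s.1.1.B i},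
      if hw : ∃ w : R, ioN (β s) (rr w) = s.2 then some hw.choose else none)
  obtain ⟨c, hc⟩ := pigeon S hS f
  refine ⟨{s ∈ S | f s = c}, fun s hs => hs.1, hc, ?_, ?_⟩
  · rintro s ⟨hs, hsc⟩ t ⟨ht, htc⟩
    have hf : f s = f t := hsc.trans htc.symm
    have e1 := congrArg (fun z => z.1) hf
    have e2 := congrArg (fun z => z.2.1) hf
    have e3 := congrArg (fun z => z.2.2.1) hf
    have e4 := congrArg (fun z => z.2.2.2.1) hf
    have e5 := congrArg (fun z => z.2.2.2.2.1) hf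
    refine ⟨?_, ?_, ?_, ?_, ?_⟩
    · intro x hxa
      have := congrFun e1 ⟨x, hxa⟩
      simp only [f] at this
      rw [dif_pos (pi_root h hs hxa).1, dif_pos (pi_root h ht hxa).1] at this
      exact congrArg Subtype.val this
    · intro x hxa
      have := congrFun e2 ⟨x, hxa⟩
      simp only [f] at this
      rw [dif_pos (pi_root h hs hxa).2, dif_pos (pi_root h ht hxa).2] at this
      exact congrArg Subtype.val this
    · intro x hxa w hw hmem
      obtain ⟨w', rfl⟩ := hrr w hw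
      have := congrFun e3 ⟨x, hxa⟩
      simp only [f] at this
      have h6 : w' ∈ {w | ioN (β s) (rr w) ∈ s.1.1.L x} := hmem
      rw [this] at h6
      exact h6
    · intro i hi w hw hmem
      obtain ⟨w', rfl⟩ := hrr w hw
      have := congrFun e4 ⟨i, hi⟩
      simp only [f] at this
      have h6 : w' ∈ {w | ioN (β s) (rr w) ∈ s.1.1.M i} := hmem
      rw [this] at h6
      exact h6
    · intro i hi w hw hmem
      obtain ⟨w', rfl⟩ := hrr w hw
      have := congrFun e5 ⟨i, hi⟩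
      simp only [f] at this
      have h6 : w' ∈ {w | ioN (β s) (rr w) ∈ s.1.1.B i} := hmem
      rw [this] at h6
      exact h6
  · -- the common point
    have hne : {s ∈ S | f s = c}.Nonempty := by
      by_contra hne
      rw [Set.not_nonempty_iff_eq_empty] at hne
      exact hc (by rw [hne]; exact Set.countable_empty)
    obtain ⟨s0, hs0, hs0c⟩ := hne
    have hex0 := hpt s0 hs0
    refine ⟨rr hex0.choose, hrm _, ?_⟩
    rintro s ⟨hs, hsc⟩
    have hex := hpt s hs
    have e6 := congrArg (fun z => z.2.2.2.2.2) (hsc.trans hs0c.symm)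
    simp only [f] at e6
    rw [dif_pos hex, dif_pos hex0] at e6
    have e7 : hex.choose = hex0.choose := Option.some_injective _ e6
    rw [← e7]
    exact hex.choose_spec.symm

end Pool.Agent.RFN
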