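import Pool.Agent.RFN.Fam2

set_option autoImplicit false

/-! # Thinning out an uncountable family of conditions, third part: a sequence

PROOF of `exists_seq`. For finitely many members chosen so far let `m'` be a bound for the ranks of
all their private indices; only countably many members `s` have a private index of rank `≤ m'`
(disjointness and `countable_Iic`), so there is a member all of whose private indices have rank
`> m'`. By recursion (e.g. `exists_seq_strictMono`-like, or: choose `F : Om → S` with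
`∀ l, m' < (β (F m') l).1` for every `m'`, and put `s 0 = F m`, `s (k + 1) = F (M k)` with
`M k : Om` the maximum of `M (k - 1)` and the ranks of `s k`). If `n = 0` all requirements on ranks
are void; but the members must be different: then choose any injective sequence in `S'` (an
uncountable set is infinite). In general: keep a finite set of members already used and avoid it.

PROOF of `exists_fam`: `exists_pre`, `exists_ty`, `exists_seq`; `w ⊆ Dl`: `w ⊆ j` for two
different members, `Dl_inter`; `rk0`: `⊥ ≤ m < (β s l).1`. -/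

namespace Pool.Agent.RFN

theorem exists_seq {S : Set (Pf × Gp)} (hS : ¬ S.Countable) {a : Finset Ix} {Dl : Finset Jx}
    {m : Om} {n : ℕ} {β : Pf × Gp → Fin n → Ix} (h : Pre S a Dl m n β) :
    ∃ s : ℕ → Pf × Gp, (∀ k, s k ∈ S) ∧ Function.Injective s ∧
      ∀ k k', k < k' → ∀ l l', (β (s k) l).1 < (β (s k') l').1 := by
  classical
  have hstep : ∀ F : Finset (Pf × Gp), (∀ x ∈ F, x ∈ S) →
      ∃ y, y ∈ S ∧ ∀ x ∈ F, x ≠ y ∧ ∀ l l', (β x l).1 < (β y l').1 := by
    intro F _
    set m' : Om := F.sup fun x => Finset.univ.sup fun l => (β x l).1 with hm'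
    have hN : ({i : Ix | i.1 ≤ m'} : Set Ix).Countable := by
      have h1 : ({i : Ix | i.1 ≤ m'} : Set Ix) = (Set.Iic m') ×ˢ (Set.univ : Set ℕ) := by
        ext i
        simp
      rw [h1]
      exact (countable_Iic m').prod Set.countable_univ
    have hbad : ({s ∈ S | ∃ l, (β s l).1 ≤ m'} : Set (Pf × Gp)).Countable := by
      have h2 : ({s ∈ S | ∃ l, (β s l).1 ≤ m'} : Set (Pf × Gp)) ⊆
          ⋃ i ∈ {i : Ix | i.1 ≤ m'}, {s ∈ S | ∃ l, β s l = i} := by
        rintro s ⟨hs, l, hl⟩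
        simp only [Set.mem_iUnion]
        exact ⟨β s l, hl, hs, l, rfl⟩
      refine (Set.Countable.biUnion hN fun i _ => ?_).mono h2
      refine Set.Subsingleton.countable ?_
      rintro s ⟨hs, l, hl⟩ t ⟨ht, l', hl'⟩
      by_contra hne
      exact h.disj s hs t ht hne l l' (hl.trans hl'.symm)
    have hex : ∃ y ∈ S, y ∉ ({s ∈ S | ∃ l, (β s l).1 ≤ m'} : Set (Pf × Gp)) ∪ (F : Set (Pf × Gp)) := by
      by_contra hcon
      push Not at hcon
      exact hS ((hbad.union F.countable_toSet).mono fun y hy => hcon y hy)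
    obtain ⟨y, hy, hy2⟩ := hex
    rw [Set.mem_union, not_or] at hy2
    refine ⟨y, hy, fun x hx => ⟨?_, fun l l' => ?_⟩⟩
    · rintro rfl
      exact hy2.2 hx
    · have h3 : (β x l).1 ≤ m' := by
        have h4 : (β x l).1 ≤ Finset.univ.sup fun l => (β x l).1 :=
          Finset.le_sup (f := fun l => (β x l).1) (Finset.mem_univ l)
        exact h4.trans (Finset.le_sup (f := fun x => Finset.univ.sup fun l => (β x l).1) hx)
      refine h3.trans_lt ?_
      by_contra hcon
      push Not at hcon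
      exact hy2.1 ⟨hy, l', hcon⟩
  obtain ⟨s, hs, hr⟩ := exists_seq_of_forall_finset_exists (fun x => x ∈ S)
    (fun x y => x ≠ y ∧ ∀ l l', (β x l).1 < (β y l').1) hstep
  refine ⟨s, hs, ?_, fun k k' hk => (hr k k' hk).2⟩
  intro k k' hkk
  by_contra hne
  rcases lt_or_gt_of_ne hne with hlt | hlt
  · exact (hr k k' hlt).1 hkk
  · exact (hr k' k hlt).1 hkk.symm

/-- A sequence of isomorphic conditions with a root and increasing private ranks. -/
structure Fam (w : Finset Jx) where
  a : Finset Ix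
  Dl : Finset Jx
  n : ℕ
  s : ℕ → Pf × Gp
  β : ℕ → Fin n → Ix
  a_eq : ∀ k, (s k).1.1.a = aP a (β k)
  inj : ∀ k, Function.Injective (β k)
  rk0 : ∀ k l, ⊥ < (β k l).1
  rk1 : ∀ i ∈ a, ∀ k l, i.1 < (β k l).1
  rk2 : ∀ k k', k < k' → ∀ l l', (β k l).1 < (β k' l').1
  Dl_sub : ∀ k, Dl ⊆ (s k).1.1.j
  Dl_inter : ∀ k k', k ≠ k' → ∀ i ∈ (s k).1.1.j, i ∈ (s k').1.1.j → i ∈ Dl
  w_sub : w ⊆ Dl
  pi_root : ∀ k, ∀ x ∈ AA a, (s k).1.1.pi x ∈ AA a
  pi_eq : ∀ k k', ∀ x ∈ AA a, (s k).1.1.pi x = (s k').1.1.pi x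
  d_eq : ∀ k k', ∀ x ∈ AA a, (s k).1.1.d x = (s k').1.1.d x
  L_iso : ∀ k k', ∀ x ∈ AA a, ∀ v ∈ RAn a n, ioN (β k) v ∈ (s k).1.1.L x →
    ioN (β k') v ∈ (s k').1.1.L x
  M_iso : ∀ k k', ∀ i ∈ Dl, ∀ v ∈ RAn a n, ioN (β k) v ∈ (s k).1.1.M i →
    ioN (β k') v ∈ (s k').1.1.M i
  B_iso : ∀ k k', ∀ i ∈ Dl, ∀ v ∈ RAn a n, ioN (β k) v ∈ (s k).1.1.B i →
    ioN (β k') v ∈ (s k').1.1.B i
  x_eq : ∃ w0 ∈ RAn a n, ∀ k, (s k).2 = ioN (β k) w0

theorem exists_fam (S : Set (Pf × Gp)) (hS : ¬ S.Countable) (w : Finset Jx)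
    (h : ∀ s ∈ S, s.2 ∈ AA s.1.1.a ∧ w ⊆ s.1.1.j) :
    ∃ F : Fam w, (∀ k, F.s k ∈ S) ∧ Function.Injective F.s := by
  obtain ⟨S1, hS1, hS1c, a, Dl, m, n, β, hP⟩ := exists_pre S hS
  obtain ⟨S2, hS2, hS2c, hty, w0, hw0, hx0⟩ := exists_ty hS1c hP fun s hs => (h s (hS1 hs)).1
  have hP2 := hP.mono hS2
  obtain ⟨s, hs, hinj, hrk⟩ := exists_seq hS2c hP2
  refine ⟨{ a := a
            Dl := Dl
            n := n
            s := s
            β := fun k => β (s k)
            a_eq := fun k => hP2.a_eq (s k) (hs k)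
            inj := fun k => hP2.inj (s k) (hs k)
            rk0 := fun k l => bot_le.trans_lt (hP2.priv (s k) (hs k) l)
            rk1 := fun i hi k l => (hP2.root i hi).trans_lt (hP2.priv (s k) (hs k) l)
            rk2 := hrk
            Dl_sub := fun k => hP2.Dl_sub (s k) (hs k)
            Dl_inter := fun k k' hk i hi hi' =>
              hP2.Dl_inter (s k) (hs k) (s k') (hs k') (fun he => hk (hinj he)) i hi hi'
            w_sub := fun i hi => hP2.Dl_inter (s 0) (hs 0) (s 1) (hs 1)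
              (fun he => zero_ne_one (hinj he)) i ((h (s 0) (hS1 (hS2 (hs 0)))).2 hi)
              ((h (s 1) (hS1 (hS2 (hs 1)))).2 hi)
            pi_root := fun k x hx => (pi_root hP2 (hs k) hx).1
            pi_eq := fun k k' x hx => (hty (s k) (hs k) (s k') (hs k')).pi_eq x hx
            d_eq := fun k k' x hx => (hty (s k) (hs k) (s k') (hs k')).d_eq x hx
            L_iso := fun k k' x hx v hv => (hty (s k) (hs k) (s k') (hs k')).L_iso x hx v hv
            M_iso := fun k k' i hi v hv => (hty (s k) (hs k) (s k') (hs k')).M_iso i hi v hv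
            B_iso := fun k k' i hi v hv => (hty (s k) (hs k) (s k') (hs k')).B_iso i hi v hv
            x_eq := ⟨w0, hw0, fun k => hx0 (s k) (hs k)⟩ }, ?_, ?_⟩
  · exact fun k => hS1 (hS2 (hs k))
  · exact hinj

end Pool.Agent.RFN
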