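import Pool.Agent.ChoicelessEmb.Formula

/-! # Operations on names

As in `Pool.Agent.ZFIter.Sym`, but for an arbitrary preorder with a top element and without
symmetries. -/

set_option autoImplicit false

namespace Pool.Agent.RFN

open Pool.Agent.ChoicelessEmb FirstOrder LName

section Names

variable {P : Type}

/-- The name of the empty set. -/
noncomputable def emptyN : LName P := LName.mk ∅

theorem ch_emptyN : ch (emptyN : LName P) = ∅ := ch_mk ∅

theorem smallR {α : Type 1} {β : Type*} [Small.{0} β] (f : β → α) {T : Set α}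
    (h : ∀ a ∈ T, ∃ b, f b = a) : Small.{0} T :=
  small_subset (s := Set.range f) fun a ha => h a ha

/-- The name `{(nm t, p) | R t p}` of a relation between the elements of a type and conditions. -/
noncomputable def relG {T : Type} (nm : T → LName P) (R : T → P → Prop) : LName P :=
  LName.mk {a | ∃ t p, R t p ∧ a = (nm t, p)}

theorem mem_ch_relG {T : Type} {nm : T → LName P} {R : T → P → Prop} {u : LName P} {p : P} :
    (u, p) ∈ ch (relG nm R) ↔ ∃ t, R t p ∧ u = nm t := by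
  have : Small.{0} {a : LName P × P | ∃ t p, R t p ∧ a = (nm t, p)} := by
    apply smallR (fun b : T × P => (nm b.1, b.2))
    rintro a ⟨t, p, _, rfl⟩
    exact ⟨(t, p), rfl⟩
  unfold relG
  rw [ch_mk]
  constructor
  · rintro ⟨t, q, h, e⟩
    simp only [Prod.mk.injEq] at e
    obtain ⟨rfl, rfl⟩ := e
    exact ⟨t, h, rfl⟩
  · rintro ⟨t, h, rfl⟩
    exact ⟨t, p, h, rfl⟩

section Sep

variable [Preorder P]

/-- The name for `{u ∈ x : F u}`. -/
noncomputable def sepN (x : LName P) (F : LName P → P → Prop) : LName P :=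
  LName.mk {a | ∃ u c q, (u, c) ∈ ch x ∧ q ≤ c ∧ F u q ∧ a = (u, q)}

theorem mem_ch_sepN {x : LName P} {F : LName P → P → Prop} {u : LName P} {q : P} :
    (u, q) ∈ ch (sepN x F) ↔ ∃ c, (u, c) ∈ ch x ∧ q ≤ c ∧ F u q := by
  have : Small.{0} {a : LName P × P | ∃ u c q, (u, c) ∈ ch x ∧ q ≤ c ∧ F u q ∧ a = (u, q)} := by
    apply smallR (fun b : ch x × P => (b.1.1.1, b.2))
    rintro a ⟨u, c, q, hu, _, _, rfl⟩
    exact ⟨(⟨(u, c), hu⟩, q), rfl⟩
  unfold sepN
  rw [ch_mk]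
  constructor
  · rintro ⟨u', c, q', hu, hq, hF, h⟩
    simp only [Prod.mk.injEq] at h
    obtain ⟨rfl, rfl⟩ := h
    exact ⟨c, hu, hq, hF⟩
  · rintro ⟨c, hu, hq, hF⟩
    exact ⟨u, c, q, hu, hq, hF, rfl⟩

/-- The name for the union. -/
noncomputable def unionN (x : LName P) : LName P :=
  LName.mk {a | ∃ u c w d q, (u, c) ∈ ch x ∧ (w, d) ∈ ch u ∧ q ≤ c ∧ q ≤ d ∧ a = (w, q)}

theorem mem_ch_unionN {x : LName P} {w : LName P} {q : P} :
    (w, q) ∈ ch (unionN x) ↔ ∃ u c d, (u, c) ∈ ch x ∧ (w, d) ∈ ch u ∧ q ≤ c ∧ q ≤ d := by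
  have : Small.{0} {a : LName P × P |
      ∃ u c w d q, (u, c) ∈ ch x ∧ (w, d) ∈ ch u ∧ q ≤ c ∧ q ≤ d ∧ a = (w, q)} := by
    apply smallR (fun b : (Σ b : ch x, ch b.1.1) × P => (b.1.2.1.1, b.2))
    rintro a ⟨u, c, w, d, q, hu, hw, _, _, rfl⟩
    exact ⟨(⟨⟨(u, c), hu⟩, ⟨(w, d), hw⟩⟩, q), rfl⟩
  unfold unionN
  rw [ch_mk]
  constructor
  · rintro ⟨u, c, w', d, q', hu, hw, hc, hd, h⟩
    simp only [Prod.mk.injEq] at h
    obtain ⟨rfl, rfl⟩ := h
    exact ⟨u, c, d, hu, hw, hc, hd⟩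
  · rintro ⟨u, c, d, hu, hw, hc, hd⟩
    exact ⟨u, c, w, d, q, hu, hw, hc, hd, rfl⟩

/-- The labelled pairs from which subnames of `x` are built. -/
def base (x : LName P) : Set (LName P × P) := {a | ∃ c, (a.1, c) ∈ ch x ∧ a.2 ≤ c}

instance small_base (x : LName P) : Small.{0} (base x) := by
  apply smallR (fun b : ch x × P => (b.1.1.1, b.2))
  rintro ⟨u, q⟩ ⟨c, hu, _⟩
  exact ⟨(⟨(u, c), hu⟩, q), rfl⟩

/-- The name for `x ∩ y`. -/
noncomputable def subN (x y : LName P) : LName P := sepN x fun u q => fmem u y q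

end Sep

variable [Preorder P] [OrderTop P]

/-- The name for the unordered pair. -/
noncomputable def pairN (x y : LName P) : LName P := LName.mk {a | a = (x, ⊤) ∨ a = (y, ⊤)}

theorem mem_ch_pairN {x y u : LName P} {c : P} :
    (u, c) ∈ ch (pairN x y) ↔ (u = x ∨ u = y) ∧ c = ⊤ := by
  have : Small.{0} {a : LName P × P | a = (x, ⊤) ∨ a = (y, ⊤)} := by
    apply smallR (fun b : Bool => if b then (x, ⊤) else (y, ⊤))
    rintro a (rfl | rfl)
    · exact ⟨true, rfl⟩
    · exact ⟨false, rfl⟩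
  unfold pairN
  rw [ch_mk]
  simp only [Set.mem_ofPred_eq, Prod.mk.injEq]
  tauto

/-- The name for the (Kuratowski) ordered pair. -/
noncomputable def opairN (x y : LName P) : LName P := pairN (pairN x x) (pairN x y)

/-- The name for the power set. -/
noncomputable def powN (x : LName P) : LName P :=
  LName.mk {a | ∃ z, ch z ⊆ base x ∧ a = (z, ⊤)}

theorem mem_ch_powN {x z : LName P} {q : P} :
    (z, q) ∈ ch (powN x) ↔ ch z ⊆ base x ∧ q = ⊤ := by
  have : Small.{0} {a : LName P × P | ∃ z, ch z ⊆ base x ∧ a = (z, ⊤)} := by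
    apply smallR (fun b : Set (base x) => (LName.mk (Subtype.val '' b), ⊤))
    rintro a ⟨z, hz, rfl⟩
    refine ⟨Subtype.val ⁻¹' (ch z), ?_⟩
    have h1 : Subtype.val '' (Subtype.val ⁻¹' (ch z) : Set (base x)) = ch z := by
      rw [Subtype.image_preimage_coe]
      exact Set.inter_eq_right.2 hz
    simp only [Prod.mk.injEq, and_true]
    rw [h1, mk_ch]
  unfold powN
  rw [ch_mk]
  constructor
  · rintro ⟨z', hb, h⟩
    simp only [Prod.mk.injEq] at h
    obtain ⟨rfl, rfl⟩ := h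
    exact ⟨hb, rfl⟩
  · rintro ⟨hb, rfl⟩
    exact ⟨z, hb, rfl⟩

/-- A small family of names as a name. -/
noncomputable def collN (x : LName P) (Y : LName P → P → LName P) : LName P :=
  LName.mk {a | ∃ u c q, (u, c) ∈ ch x ∧ a = (Y u q, ⊤)}

theorem mem_ch_collN {x : LName P} {Y : LName P → P → LName P} {v : LName P} {d : P} :
    (v, d) ∈ ch (collN x Y) ↔ ∃ u c q, (u, c) ∈ ch x ∧ v = Y u q ∧ d = ⊤ := by
  have : Small.{0} {a : LName P × P | ∃ u c q, (u, c) ∈ ch x ∧ a = (Y u q, ⊤)} := by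
    apply smallR (fun b : ch x × P => (Y b.1.1.1 b.2, ⊤))
    rintro a ⟨u, c, q, hu, rfl⟩
    exact ⟨(⟨(u, c), hu⟩, q), rfl⟩
  unfold collN
  rw [ch_mk]
  constructor
  · rintro ⟨u, c, q, hu, h⟩
    simp only [Prod.mk.injEq] at h
    exact ⟨u, c, q, hu, h.1, h.2⟩
  · rintro ⟨u, c, q, hu, rfl, rfl⟩
    exact ⟨u, c, q, hu, rfl⟩

/-- The name for the image of `x` under a forced functional relation `F`, with witnesses `Y`. -/
noncomputable def replN (x : LName P) (Y : LName P → P → LName P)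
    (F : LName P → LName P → P → Prop) : LName P :=
  sepN (collN x Y) fun y q => ∃ u c, (u, c) ∈ ch x ∧ q ≤ c ∧ F u y q

/-- Canonical names of sets. -/
noncomputable def checkN : ZFSet.{0} → LName P :=
  ZFSet.mem_wf.fix fun x ih => LName.mk {a | ∃ y, ∃ h : y ∈ x, a = (ih y h, ⊤)}

theorem mem_ch_checkN {x : ZFSet.{0}} {u : LName P} {c : P} :
    (u, c) ∈ ch (checkN x) ↔ ∃ y ∈ x, u = checkN y ∧ c = ⊤ := by
  have h1 : (checkN x : LName P) = LName.mk {a | ∃ y, ∃ _ : y ∈ x, a = (checkN y, ⊤)} := by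
    conv_lhs => unfold checkN
    rw [WellFounded.fix_eq]
    rfl
  have : Small.{0} {a : LName P × P | ∃ y, ∃ _ : y ∈ x, a = (checkN y, ⊤)} := by
    apply smallR (fun b : x => (checkN b.1, ⊤))
    rintro a ⟨y, hy, rfl⟩
    exact ⟨⟨y, hy⟩, rfl⟩
  rw [h1, ch_mk]
  constructor
  · rintro ⟨y, hy, h⟩
    simp only [Prod.mk.injEq] at h
    exact ⟨y, hy, h.1, h.2⟩
  · rintro ⟨y, hy, rfl, rfl⟩
    exact ⟨y, hy, rfl⟩

theorem checkN_injective : Function.Injective (checkN : ZFSet.{0} → LName P) := by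
  intro x
  induction x using ZFSet.inductionOn with
  | _ x ih =>
    intro y h
    ext z
    constructor
    · intro hz
      have h1 : ((checkN z : LName P), (⊤ : P)) ∈ ch (checkN x) :=
        mem_ch_checkN.2 ⟨z, hz, rfl, rfl⟩
      rw [h] at h1
      obtain ⟨w, hw, e, _⟩ := mem_ch_checkN.1 h1
      rw [ih z hz e]
      exact hw
    · intro hz
      have h1 : ((checkN z : LName P), (⊤ : P)) ∈ ch (checkN y) :=
        mem_ch_checkN.2 ⟨z, hz, rfl, rfl⟩
      rw [← h] at h1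
      obtain ⟨w, hw, e, _⟩ := mem_ch_checkN.1 h1
      rw [← ih w hw e.symm]
      exact hw

theorem checkN_pairSet (x y : ZFSet.{0}) :
    (checkN {x, y} : LName P) = pairN (checkN x) (checkN y) := by
  apply LName.ext
  ext ⟨u, c⟩
  rw [mem_ch_checkN, mem_ch_pairN]
  constructor
  · rintro ⟨z, hz, rfl, rfl⟩
    rw [ZFSet.mem_pair] at hz
    rcases hz with rfl | rfl
    · exact ⟨Or.inl rfl, rfl⟩
    · exact ⟨Or.inr rfl, rfl⟩
  · rintro ⟨rfl | rfl, rfl⟩
    · exact ⟨x, ZFSet.mem_pair.2 (Or.inl rfl), rfl, rfl⟩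
    · exact ⟨y, ZFSet.mem_pair.2 (Or.inr rfl), rfl, rfl⟩

theorem checkN_pair (x y : ZFSet.{0}) :
    (checkN (ZFSet.pair x y) : LName P) = opairN (checkN x) (checkN y) := by
  unfold opairN ZFSet.pair
  rw [checkN_pairSet, ← ZFSet.pair_eq_singleton x, checkN_pairSet, checkN_pairSet]

/-- Canonical names are forced to be equal only if they are equal. -/
theorem feq_checkN {x : ZFSet.{0}} : ∀ {y : ZFSet.{0}} {p : P}, feq (checkN x) (checkN y) p →
    x = y := by
  induction x using ZFSet.inductionOn with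
  | _ x ih =>
    intro y p h
    rw [feq_iff] at h
    ext z
    constructor
    · intro hz
      obtain ⟨r, _, w, d, hw, _, h1⟩ := h.1 (checkN z) ⊤ (mem_ch_checkN.2 ⟨z, hz, rfl, rfl⟩) p
        le_rfl le_top
      obtain ⟨v, hv, rfl, _⟩ := mem_ch_checkN.1 hw
      rw [ih z hz h1]
      exact hv
    · intro hz
      obtain ⟨r, _, w, d, hw, _, h1⟩ := h.2 (checkN z) ⊤ (mem_ch_checkN.2 ⟨z, hz, rfl, rfl⟩) p
        le_rfl le_top
      obtain ⟨v, hv, rfl, _⟩ := mem_ch_checkN.1 hw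
      rw [← ih v hv h1]
      exact hv

end Names

end Pool.Agent.RFN
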