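import Pool.Agent.ChoicelessEmb.Truth
import Pool.Agent.RFN.GNames

set_option autoImplicit false

/-! # The truth lemma for an uncountable forcing notion

As in `Pool.Agent.ChoicelessEmb.Truth`, but the closure of the set `X` of names is only required
for the conditions in a subset `g0` which generates the filter `g`. -/

namespace Pool.Agent.RFN

open Pool.Agent.ChoicelessEmb FirstOrder LName

section Truth

variable {P : Type} [Preorder P] [OrderTop P]

/-- `g` is the filter generated by `g0`. -/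
structure GFil (g0 g : Set P) : Prop where
  fil : IsFil g
  sub : g0 ⊆ g
  gen : ∀ r ∈ g, ∃ r0 ∈ g0, r0 ≤ r

/-- `g0` decides the set `S`. -/
def Dec0 (g0 S : Set P) : Prop := ∃ p ∈ g0, p ∈ S ∨ ∀ r ≤ p, r ∉ S

/-- Closure of `X` and genericity of `g` needed for atomic formulas. -/
structure AtomG (X : Set (LName P)) (g0 g : Set P) : Prop extends GFil g0 g where
  c1 : ∀ u ∈ X, ∀ y ∈ X, ∀ r ∈ g0, r ∈ memSet u y →
    ∃ w ∈ X, ∃ d, (w, d) ∈ ch y ∧ r ≤ d ∧ feq u w r
  c2 : ∀ x ∈ X, ∀ y ∈ X, ∀ q ∈ g0, q ∈ badSet x y →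
    ∃ u ∈ X, ∃ c, (u, c) ∈ ch x ∧ q ≤ c ∧ ∀ r ≤ q, r ∉ memSet u y
  g1 : ∀ u ∈ X, ∀ y ∈ X, Dec0 g0 (memSet u y)
  g2 : ∀ x ∈ X, ∀ y ∈ X, Dec0 g0 (badSet x y)

variable {X : Set (LName P)} {g0 g : Set P}

omit [OrderTop P] in
theorem memSet_mono {u y : LName P} {r s : P} (h : r ∈ memSet u y) (hs : s ≤ r) :
    s ∈ memSet u y := by
  obtain ⟨w, d, hw, hd, hf⟩ := h
  exact ⟨w, d, hw, hs.trans hd, feq_mono hf hs⟩

theorem AtomG.dir0 (hg : AtomG X g0 g) {p q : P} (hp : p ∈ g) (hq : q ∈ g) :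
    ∃ r ∈ g0, r ≤ p ∧ r ≤ q := by
  obtain ⟨r, hr, h1, h2⟩ := hg.fil.dir p q hp hq
  obtain ⟨r0, h0, hr0⟩ := hg.gen r hr
  exact ⟨r0, h0, hr0.trans h1, hr0.trans h2⟩

theorem exists_mem_memSet (hg : AtomG X g0 g) {u y : LName P} (hu : u ∈ X) (hy : y ∈ X)
    (h : ∃ p ∈ g, fmem u y p) : ∃ r ∈ g0, r ∈ memSet u y := by
  obtain ⟨p, hp, h1⟩ := hg.g1 u hu y hy
  rcases h1 with h1 | h1
  · exact ⟨p, hp, h1⟩
  · exfalso
    obtain ⟨q, hq, h2⟩ := h
    obtain ⟨r, hr, hrp, hrq⟩ := hg.dir0 (hg.sub hp) hq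
    obtain ⟨s, hs, h3⟩ := h2 r hrq
    exact h1 s (hs.trans hrp) h3

theorem val_eq_iff (hg : AtomG X g0 g) {x : LName P} :
    ∀ {y : LName P}, x ∈ X → y ∈ X → (val X g x = val X g y ↔ ∃ p ∈ g, feq x y p) := by
  induction x using LName.induction with
  | h x ih =>
    intro y hx hy
    constructor
    · intro h
      -- no condition in `g0` below which `x ⊆ y` fails
      have key1 : ∀ q ∈ g0, q ∉ badSet x y := by
        intro q hq hb
        obtain ⟨u, hu, c, huc, hqc, hr⟩ := hg.c2 x hx y hy q hq hb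
        have h1 : val X g u ∈ val X g x :=
          mem_val.2 ⟨u, c, huc, hu, hg.fil.up _ _ (hg.sub hq) hqc, rfl⟩
        rw [h] at h1
        obtain ⟨w, d, hwd, hw, hd, e⟩ := mem_val.1 h1
        obtain ⟨p, hp, hf⟩ := (ih u c huc hu hw).1 e
        obtain ⟨s, hs, hsq, hsp⟩ := hg.fil.dir q p (hg.sub hq) hp
        obtain ⟨t, ht, hts, htd⟩ := hg.fil.dir s d hs hd
        exact hr t (hts.trans hsq) ⟨w, d, hwd, htd, feq_mono hf (hts.trans hsp)⟩
      have key2 : ∀ q ∈ g0, q ∉ badSet y x := by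
        intro q hq hb
        obtain ⟨w, hw, d, hwd, hqd, hr⟩ := hg.c2 y hy x hx q hq hb
        have h1 : val X g w ∈ val X g y :=
          mem_val.2 ⟨w, d, hwd, hw, hg.fil.up _ _ (hg.sub hq) hqd, rfl⟩
        rw [← h] at h1
        obtain ⟨u, c, huc, hu, hc, e⟩ := mem_val.1 h1
        obtain ⟨p, hp, hf⟩ := (ih u c huc hu hw).1 e.symm
        obtain ⟨s, hs, hsq, hsp⟩ := hg.fil.dir q p (hg.sub hq) hp
        obtain ⟨t, ht, hts, htc⟩ := hg.fil.dir s c hs hc
        exact hr t (hts.trans hsq) ⟨u, c, huc, htc, feq_symm (feq_mono hf (hts.trans hsp))⟩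
      obtain ⟨p, hp, hp1⟩ : ∃ p ∈ g, ∀ r ≤ p, r ∉ badSet x y := by
        obtain ⟨p, hp, h1 | h1⟩ := hg.g2 x hx y hy
        · exact absurd h1 (key1 p hp)
        · exact ⟨p, hg.sub hp, h1⟩
      obtain ⟨q, hq, hq1⟩ : ∃ p ∈ g, ∀ r ≤ p, r ∉ badSet y x := by
        obtain ⟨p, hp, h1 | h1⟩ := hg.g2 y hy x hx
        · exact absurd h1 (key2 p hp)
        · exact ⟨p, hg.sub hp, h1⟩
      obtain ⟨r, hr, hrp, hrq⟩ := hg.fil.dir p q hp hq
      refine ⟨r, hr, feq_of_fmem ?_ ?_⟩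
      · intro u c hu s hs hsc t ht
        by_contra hcon
        refine hp1 t (ht.trans (hs.trans hrp)) ⟨u, c, hu, ht.trans hsc, fun r' hr' hm => ?_⟩
        exact hcon ⟨r', hr', hm⟩
      · intro u c hu s hs hsc t ht
        by_contra hcon
        refine hq1 t (ht.trans (hs.trans hrq)) ⟨u, c, hu, ht.trans hsc, fun r' hr' hm => ?_⟩
        exact hcon ⟨r', hr', hm⟩
    · rintro ⟨p, hp, h⟩
      ext v
      constructor
      · intro hv
        obtain ⟨u, c, huc, hu, hc, rfl⟩ := mem_val.1 hv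
        obtain ⟨q, hq, hqp, hqc⟩ := hg.fil.dir p c hp hc
        have h1 : fmem u y q := fmem_congr_right (feq_mono h hqp) (fmem_of_ch huc hqc)
        obtain ⟨r, hr, hm⟩ := exists_mem_memSet hg hu hy ⟨q, hq, h1⟩
        obtain ⟨w, hw, d, hwd, hrd, hf⟩ := hg.c1 u hu y hy r hr hm
        exact mem_val.2 ⟨w, d, hwd, hw, hg.fil.up _ _ (hg.sub hr) hrd,
          (ih u c huc hu hw).2 ⟨r, hg.sub hr, hf⟩⟩
      · intro hv
        obtain ⟨w, d, hwd, hw, hd, rfl⟩ := mem_val.1 hv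
        obtain ⟨q, hq, hqp, hqd⟩ := hg.fil.dir p d hp hd
        have h1 : fmem w x q :=
          fmem_congr_right (feq_symm (feq_mono h hqp)) (fmem_of_ch hwd hqd)
        obtain ⟨r, hr, hm⟩ := exists_mem_memSet hg hw hx ⟨q, hq, h1⟩
        obtain ⟨u, hu, c, huc, hrc, hf⟩ := hg.c1 w hw x hx r hr hm
        exact mem_val.2 ⟨u, c, huc, hu, hg.fil.up _ _ (hg.sub hr) hrc,
          ((ih u c huc hu hw).2 ⟨r, hg.sub hr, feq_symm hf⟩).symm⟩

theorem val_mem_iff (hg : AtomG X g0 g) {u y : LName P} (hu : u ∈ X)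
    (hy : y ∈ X) : val X g u ∈ val X g y ↔ ∃ p ∈ g, fmem u y p := by
  constructor
  · intro h
    obtain ⟨w, d, hwd, hw, hd, e⟩ := mem_val.1 h
    obtain ⟨p, hp, hf⟩ := (val_eq_iff hg hu hw).1 e
    obtain ⟨r, hr, hrp, hrd⟩ := hg.fil.dir p d hp hd
    exact ⟨r, hr, fmem_congr_left (feq_symm (feq_mono hf hrp)) (fmem_of_ch hwd hrd)⟩
  · intro h
    obtain ⟨r, hr, hm⟩ := exists_mem_memSet hg hu hy h
    obtain ⟨w, hw, d, hwd, hrd, hf⟩ := hg.c1 u hu y hy r hr hm
    exact mem_val.2 ⟨w, d, hwd, hw, hg.fil.up _ _ (hg.sub hr) hrd,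
      (val_eq_iff hg hu hw).2 ⟨r, hg.sub hr, hf⟩⟩

variable {L : Language} [L.IsRelational] (F : FInterp L P)

/-- Closure of `X` and genericity of `g` needed for all formulas. -/
structure FormG (X : Set (LName P)) (g0 : Set P) : Prop where
  c3 : ∀ (k n : ℕ) (φ : L.BoundedFormula (Fin k) (n + 1)) (v : Fin k → LName P)
    (xs : Fin n → LName P), (∀ i, v i ∈ X) → (∀ i, xs i ∈ X) → ∀ p ∈ g0,
      p ∈ allBad F Set.univ φ v xs →
      ∃ x ∈ X, ∀ r ≤ p, ¬ forces F Set.univ φ v (Fin.snoc (α := fun _ => LName P) xs x) r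
  g3 : ∀ (k n : ℕ) (φ : L.BoundedFormula (Fin k) (n + 1)) (v : Fin k → LName P)
    (xs : Fin n → LName P), (∀ i, v i ∈ X) → (∀ i, xs i ∈ X) →
      Dec0 g0 (allBad F Set.univ φ v xs)
  g4 : ∀ (k n : ℕ) (φ ψ : L.BoundedFormula (Fin k) n) (v : Fin k → LName P)
    (xs : Fin n → LName P), (∀ i, v i ∈ X) → (∀ i, xs i ∈ X) →
      Dec0 g0 (impBad F Set.univ φ ψ v xs)

variable {F}

/-- The truth lemma. -/
theorem truth (hg : AtomG X g0 g) (hg' : FormG F X g0) [L.Structure (Mod X g)]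
    (hR : ∀ {m : ℕ} (R : L.Relations m) (xs : Fin m → X),
      Language.Structure.RelMap R (fun i => ev X g (xs i)) ↔
        ∃ p ∈ g, F.rel R (fun i => (xs i : LName P)) p)
    {k n : ℕ} (φ : L.BoundedFormula (Fin k) n) (v : Fin k → X) (xs : Fin n → X) :
    φ.Realize (fun i => ev X g (v i)) (fun i => ev X g (xs i)) ↔
      ∃ p ∈ g, forces F Set.univ φ (fun i => (v i : LName P))
        (fun i => (xs i : LName P)) p := by
  have key : ∀ {n : ℕ} (xs : Fin n → X) (t : L.Term (Fin k ⊕ Fin n)),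
      t.realize (Sum.elim (fun i => ev X g (v i)) (fun i => ev X g (xs i))) =
        ev X g (Sum.elim v xs (tv t)) := by
    intro n xs t
    rw [realize_tv]
    rcases tv t with a | i <;> rfl
  have key2 : ∀ {n : ℕ} (xs : Fin n → X) (t : L.Term (Fin k ⊕ Fin n)),
      (Sum.elim (fun i => (v i : LName P)) (fun i => (xs i : LName P)) (tv t)) =
        (Sum.elim v xs (tv t) : X) := by
    intro n xs t
    rcases tv t with a | i <;> rfl
  induction φ with
  | falsum =>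
    constructor
    · intro h; exact h.elim
    · rintro ⟨_, _, h⟩; exact h.elim
  | equal t₁ t₂ =>
    change t₁.realize _ = t₂.realize _ ↔ ∃ p ∈ g, feq _ _ p
    rw [key, key, key2, key2, ← val_eq_iff hg (Subtype.property _) (Subtype.property _)]
    exact Subtype.ext_iff
  | rel R ts =>
    change Language.Structure.RelMap R (fun i => (ts i).realize _) ↔ ∃ p ∈ g, F.rel R _ p
    simp only [key, key2]
    exact hR R _
  | @imp n φ ψ ihφ ihψ =>
    rw [Language.BoundedFormula.realize_imp]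
    refine (imp_congr (ihφ xs) (ihψ xs)).trans ?_
    constructor
    · intro h
      obtain ⟨p, hp, h1 | h1⟩ := hg'.g4 k n φ ψ (fun i => v i) (fun i => xs i)
        (fun i => (v i).2) (fun i => (xs i).2)
      · exfalso
        obtain ⟨h1, h2⟩ := h1
        obtain ⟨q, hq, h3⟩ := h ⟨p, hg.sub hp, h1⟩
        obtain ⟨r, hr, hrp, hrq⟩ := hg.fil.dir p q (hg.sub hp) hq
        exact h2 r hrp (forces_mono F Set.univ ψ h3 hrq)
      · refine ⟨p, hg.sub hp, fun q hq hf => forces_dense F Set.univ ψ fun r hr => ?_⟩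
        by_contra hcon
        refine h1 r (hr.trans hq) ⟨forces_mono F Set.univ φ hf hr, fun s hs hs' => ?_⟩
        exact hcon ⟨s, hs, hs'⟩
    · rintro ⟨p, hp, h⟩ ⟨q, hq, h'⟩
      obtain ⟨r, hr, hrp, hrq⟩ := hg.fil.dir p q hp hq
      exact ⟨r, hr, h r hrp (forces_mono F Set.univ φ h' hrq)⟩
  | @all n φ ih =>
    rw [Language.BoundedFormula.realize_all]
    have hsn : ∀ x : X, (Fin.snoc (α := fun _ => Mod X g) (fun i => ev X g (xs i)) (ev X g x)) =
        fun i => ev X g (Fin.snoc (α := fun _ => X) xs x i) := fun x =>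
      snoc_map (ev X g) xs x
    have hsn2 : ∀ x : X, (Fin.snoc (α := fun _ => LName P) (fun i => (xs i : LName P)) x) =
        fun i => ((Fin.snoc (α := fun _ => X) xs x i : X) : LName P) := fun x =>
      snoc_map (fun x : X => (x : LName P)) xs x
    constructor
    · intro h
      have h' : ∀ x : X, ∃ p ∈ g, forces F Set.univ φ (fun i => (v i : LName P))
          (Fin.snoc (α := fun _ => LName P) (fun i => (xs i : LName P)) x) p := by
        intro x
        have := h (ev X g x)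
        rw [hsn] at this
        rw [hsn2]
        exact (ih _).1 this
      obtain ⟨p, hp, h1 | h1⟩ := hg'.g3 k n φ (fun i => v i) (fun i => xs i)
        (fun i => (v i).2) (fun i => (xs i).2)
      · exfalso
        obtain ⟨x, hx, h2⟩ := hg'.c3 k n φ (fun i => v i) (fun i => xs i) (fun i => (v i).2)
          (fun i => (xs i).2) p hp h1
        obtain ⟨q, hq, h3⟩ := h' ⟨x, hx⟩
        obtain ⟨r, hr, hrp, hrq⟩ := hg.fil.dir p q (hg.sub hp) hq
        exact h2 r hrp (forces_mono F Set.univ φ h3 hrq)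
      · refine ⟨p, hg.sub hp, fun x _ => forces_dense F Set.univ φ fun r hr => ?_⟩
        by_contra hcon
        exact h1 r hr ⟨x, Set.mem_univ _, fun s hs hs' => hcon ⟨s, hs, hs'⟩⟩
    · rintro ⟨p, hp, h⟩ a
      obtain ⟨x, rfl⟩ := ev_surj a
      rw [hsn]
      refine (ih _).2 ⟨p, hp, ?_⟩
      have := h x.1 (Set.mem_univ _)
      rw [hsn2] at this
      exact this

end Truth

end Pool.Agent.RFN
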