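import Pool.Agent.RFN.TDefs

set_option autoImplicit false

/-! # The situation in the generic extension

`HyH N`: in the model `N` there are a Boolean group `(G, add)` with zero element `o`, a set `Bs`
and a relation `S ⊆ Bs × G` such that the sets `S_w = {x | (w, x) ∈ S}` are subgroups forming a base
at `o` of a Hausdorff group topology, a bijection `Ph` of `G` onto `G × D`, `D` uncountable, which
is locally a translation in the first coordinate and constant in the second one, and (`star`)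
every sequence of open sets (indexed by pairs of natural numbers) is open with respect to a
decreasing sequence of subgroups `S_(w n)` of countable index. -/

universe u

namespace Pool.Agent.RFN

open Pool.Agent.H78.ZF

/-- The sum. -/
noncomputable def ad {N : Type u} [ZFM N] (add x y : N) : N := ap add (opair x y)

/-- The data in the model. -/
structure HD (N : Type u) [ZFM N] where
  G : N
  D : N
  Bs : N
  S : N
  Ph : N
  add : N
  o : N

/-- The properties of the data. -/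
structure HD.Ok {N : Type u} [ZFM N] (h : HD N) : Prop where
  add_fun : Fun h.add (prod h.G h.G) h.G
  o_mem : h.o ∈ h.G
  assoc : ∀ x y z, x ∈ h.G → y ∈ h.G → z ∈ h.G →
    ad h.add (ad h.add x y) z = ad h.add x (ad h.add y z)
  comm : ∀ x y, x ∈ h.G → y ∈ h.G → ad h.add x y = ad h.add y x
  zero_add : ∀ x, x ∈ h.G → ad h.add h.o x = x
  add_self : ∀ x, x ∈ h.G → ad h.add x x = h.o
  bs_ne : ∃ w, w ∈ h.Bs
  S_zero : ∀ w, w ∈ h.Bs → opair w h.o ∈ h.S
  S_add : ∀ w x y, w ∈ h.Bs → x ∈ h.G → y ∈ h.G → opair w x ∈ h.S → opair w y ∈ h.S →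
    opair w (ad h.add x y) ∈ h.S
  dir : ∀ w w', w ∈ h.Bs → w' ∈ h.Bs → ∃ w'', w'' ∈ h.Bs ∧ ∀ x, x ∈ h.G →
    opair w'' x ∈ h.S → opair w x ∈ h.S ∧ opair w' x ∈ h.S
  haus : ∀ x, x ∈ h.G → x ≠ h.o → ∃ w, w ∈ h.Bs ∧ opair w x ∉ h.S
  Ph_bij : Bij h.Ph h.G (prod h.G h.D)
  loc : ∀ x y ξ, x ∈ h.G → y ∈ h.G → ξ ∈ h.D → ap h.Ph x = opair y ξ →
    ∃ w, w ∈ h.Bs ∧ ∀ l, l ∈ h.G → opair w l ∈ h.S →
      ap h.Ph (ad h.add x l) = opair (ad h.add y l) ξ
  D_ne : ∃ ξ, ξ ∈ h.D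
  unc : ∀ f, Fun f omega h.D → ∃ ξ, ξ ∈ h.D ∧ ∀ n, n ∈ (omega : N) → ap f n ≠ ξ
  star : ∀ O : N, (∀ i j x, i ∈ (omega : N) → j ∈ (omega : N) → x ∈ h.G →
      opair (opair i j) x ∈ O → ∃ w, w ∈ h.Bs ∧ ∀ l, l ∈ h.G → opair w l ∈ h.S →
        opair (opair i j) (ad h.add x l) ∈ O) →
    ∃ w c : N, Fun w omega h.Bs ∧
      (∀ n x, n ∈ (omega : N) → x ∈ h.G → opair (ap w (succ n)) x ∈ h.S →
        opair (ap w n) x ∈ h.S) ∧
      (∀ n x, n ∈ (omega : N) → x ∈ h.G → ∃ k y, k ∈ (omega : N) ∧ y ∈ h.G ∧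
        opair (opair n k) y ∈ c ∧ opair (ap w n) (ad h.add x y) ∈ h.S) ∧
      (∀ n k y y', opair (opair n k) y ∈ c → opair (opair n k) y' ∈ c → y = y') ∧
      ∀ i j x, i ∈ (omega : N) → j ∈ (omega : N) → x ∈ h.G → opair (opair i j) x ∈ O →
        ∃ n, n ∈ (omega : N) ∧ ∀ l, l ∈ h.G → opair (ap w n) l ∈ h.S →
          opair (opair i j) (ad h.add x l) ∈ O

/-- The situation in the generic extension. -/
def HyH (N : Type u) [ZFM N] : Prop := ∃ h : HD N, h.Ok

end Pool.Agent.RFN
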