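import Pool.Agent.RFN.MkAD
import Pool.Agent.RFN.Amalg

set_option autoImplicit false

/-! # The main combinatorial theorem

In every uncountable family of pairs `(p, x)`, with `x ∈ AA p.a`, whose conditions all have the
coordinates of the finite set `w`, there are two different members `(p, x)`, `(q, y)` and a
condition `r ≤ p, q` with `x + y ∈ r.M i` for all `i ∈ w`.

PROOF. `exists_fam`, `exists_AD`, and `amalg` for `P = D.t0`, `Q = t1`: with `k = κ t0 ≠ k' = κ t1`,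
`x = (F.s k).2 = ioN (β k) w0`, `y = ioN (β k') w0` (`x_eq`), `i ∈ w ⊆ Dl`. The members `F.s k`,
`F.s k'` are different as `F.s` is injective. -/

namespace Pool.Agent.RFN

theorem linked (S : Set (Pf × Gp)) (hS : ¬ S.Countable) (w : Finset Jx)
    (h : ∀ s ∈ S, s.2 ∈ AA s.1.1.a ∧ w ⊆ s.1.1.j) :
    ∃ s ∈ S, ∃ t ∈ S, s ≠ t ∧ ∃ r : Pf, r ≤ s.1 ∧ r ≤ t.1 ∧ ∀ i ∈ w, s.2 + t.2 ∈ r.1.M i := by
  obtain ⟨F, hF, hinj⟩ := exists_fam S hS w h
  obtain ⟨T, _, D, κ, t1, hκ, hne, hbd, hRA, hDl, hp, hio⟩ := exists_AD F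
  obtain ⟨r, hr, hr'⟩ := D.amalg
  obtain ⟨w0, hw0, hx⟩ := F.x_eq
  refine ⟨F.s (κ D.t0), hF _, F.s (κ t1), hF _, fun e => hne (hκ (hinj e)), r, ?_, ?_, ?_⟩
  · rw [← hp]; exact hr _ D.ht0
  · rw [← hp]; exact hr _ hbd
  · intro i hi
    have h1 := hr' D.t0 t1 D.ht0 hbd w0 (by rw [hRA]; exact hw0) i
      (by rw [hDl]; exact F.w_sub hi)
    rw [hio, hio, ← hx, ← hx] at h1
    exact h1

end Pool.Agent.RFN
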