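import Pool.Agent.RFN.Fam3
import Pool.Agent.RFN.Att
import Pool.Agent.RFN.AD

set_option autoImplicit false

/-! # From a family of conditions to the data for the amalgamation

`F : Fam w` is the sequence of isomorphic conditions, `A : Att F.n Λ-levels` the system of
auxiliary parties for the levels `(F.Dl).image (fun i => lev i.1)`. Let `κ : A.T → ℕ` be strictly
monotone with respect to `A.pos` (exists as `A.T` is finite: e.g. `κ P = (A.pos P - min).toNat`),
so `κ` is injective. Put
`p P = (F.s (κ P)).1`, `β P = F.β (κ P)`, `a = F.a`, `RA = RAn F.a F.n`, `io P = ioN (β P)`,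
`fo = foN F.a β`, `Dl = F.Dl`, `bd = A.bd`, `t0 = A.t0`,
`g θ = Yv β (A.y θ) + ioN (β θ) (0, ∑ P, A.y θ P)`.
`JInj F.a β`: for `κ P ≠ κ Q` the ranks of `β P l` and `β Q l'` are different (`rk2`), for `P = Q`
use `inj`; `β P l ∉ a` by `rk1`.
PROOFS of the fields.
* `io_mem`, `fo_io`, `fo_mem`, `io_fo`, `inter`, `fo_all`: `Lin` (`a_eq`).
* `rk_root`: `x ∈ AA a`, `y ∈ AA (ar p)`, `y ∉ AA a`: `y` has an index `β P l` in its support, of
  rank larger than all ranks in `a` (`le_rk`, `rk1`; `rk x < (β P l).1`: `Finset.sup_lt_iff` needs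
  `⊥ < (β P l).1`, which is the field `rk0`.)
* `rk_ne`: the rank of an element of `AA (aP a (β P)) \ AA a` is `(β P l).1` for some `l` (the
  maximum is attained, and ranks of private indices are larger than those of `a`). For `P ≠ Q`
  these are different by `rk2`.
* `pi_eq`, ..., `B_iso`: fields of `F`.
* `g_fo`: `foN_Yv`, `foN_ioN`: `(0, ∑ P, y P) + (0, ∑ P, y P) = 0`.
* `g_ar`: all indices in the support are of the form `β P l`.
* `g_mem`: for `α < bd θ` all indices in the support are `β P l` with `A.y θ P ≠ 0`, so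
  `bd θ < bd P` (`y_bd`), or `P = θ`.
* `g_rk`: `A.y θ ≠ 0` by `b1` (`0 + single θ 0 = single θ 0`); let `A.y θ P l ≠ 0`;
  `pos θ < pos P`, in particular `P ≠ θ`, and `g θ (β P l) = A.y θ P l ≠ 0`, so
  `rk (g θ) ≥ (β P l).1`, which is larger than the ranks of all indices in `a` and `β θ l'`
  (`rk1`, `rk2`), and `> ⊥`.
* `g_disj`: `cmp` of `u + g θ` is `A.y θ + single θ w'` (`cmp_of_mem`, `cmp_Yv`, `cmp_ioN`),
  if it was in `AA (p P).a` it would be `single P v`: against `b1`. `g_disj2`: same with `b2`.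
* `g_cover`: `z ∈ SS (lev i)`: `cmp z P ≠ 0` implies `bd P > lev i` (if `z (β P l) ≠ 0` then
  `β P l ∈ (p Q).a` for some `Q` with `bd Q > lev i`, and `Q = P` by `JInj`); use `cover` and
  `mem_of_cmp` (for `z` or for `z + g θ`, whose components are `single θ _`). -/

namespace Pool.Agent.RFN

section aux

variable {w : Finset Jx} (F : Fam w) {Fl : Finset Ordinal.{0}} (A : Att F.n Fl) (κ : A.T → ℕ)

/-- private ranks of different parties are different -/
private theorem mk_jinj (hκ : Function.Injective κ) :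
    JInj F.a (fun P : A.T => F.β (κ P)) where
  inj P k P' k' h := by
    rcases lt_trichotomy (κ P) (κ P') with h1 | h1 | h1
    · have h2 := F.rk2 _ _ h1 k k'
      have h3 : F.β (κ P) k = F.β (κ P') k' := h
      rw [h3] at h2
      exact absurd h2 (lt_irrefl _)
    · have hP := hκ h1
      subst hP
      exact ⟨rfl, F.inj _ h⟩
    · have h2 := F.rk2 _ _ h1 k' k
      have h3 : F.β (κ P) k = F.β (κ P') k' := h
      rw [h3] at h2
      exact absurd h2 (lt_irrefl _)
  notMem P k h := absurd (F.rk1 _ h (κ P) k) (lt_irrefl _)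

private theorem rk_priv {k : ℕ} {x : Gp} (hx : x ∈ AA (aP F.a (F.β k))) (hxa : x ∉ AA F.a) :
    ∃ l, rk x = (F.β k l).1 := by
  have hex : ∃ j ∈ x.support, j ∉ F.a := by
    rw [mem_AA, Finset.not_subset] at hxa
    exact hxa
  obtain ⟨j, hj, hja⟩ := hex
  obtain ⟨i, hi, hieq⟩ := Finset.exists_mem_eq_sup x.support ⟨j, hj⟩ Prod.fst
  have hrk : rk x = i.1 := hieq
  have hmem : ∀ i ∈ x.support, i ∈ F.a ∨ ∃ l, F.β k l = i := by
    intro i hi
    have := hx hi
    rw [aP, Finset.mem_union, Finset.mem_image] at this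
    rcases this with h | ⟨l, _, h⟩
    · exact Or.inl h
    · exact Or.inr ⟨l, h⟩
  rcases hmem i hi with h | ⟨l, h⟩
  · exfalso
    rcases hmem j hj with h' | ⟨l', h'⟩
    · exact hja h'
    · have h1 := F.rk1 i h k l'
      rw [h'] at h1
      have h2 : j.1 ≤ rk x := le_rk (Finsupp.mem_support_iff.1 hj)
      rw [hrk] at h2
      exact absurd h1 (not_lt.2 h2)
  · exact ⟨l, by rw [hrk, h]⟩

private theorem rk_lt_priv {k k' : ℕ} (hk : k < k') {x : Gp} (hx : x ∈ AA (aP F.a (F.β k)))
    (l : Fin F.n) : rk x < (F.β k' l).1 := by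
  unfold rk
  rw [Finset.sup_lt_iff (F.rk0 k' l)]
  intro i hi
  have := hx hi
  rw [aP, Finset.mem_union, Finset.mem_image] at this
  rcases this with h | ⟨l', _, h⟩
  · exact F.rk1 i h k' l
  · rw [← h]
    exact F.rk2 k k' hk l' l

private theorem rk_lt_root {k' : ℕ} {x : Gp} (hx : x ∈ AA F.a)
    (l : Fin F.n) : rk x < (F.β k' l).1 := by
  unfold rk
  rw [Finset.sup_lt_iff (F.rk0 k' l)]
  intro i hi
  exact F.rk1 i (hx hi) k' l

end aux

/-- The data of the amalgamation with two main parties which are members of the family. -/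
theorem exists_AD {w : Finset Jx} (F : Fam w) :
    ∃ (T : Type) (_ : Fintype T) (D : AD T (Rf F.n)) (κ : T → ℕ) (t1 : T),
      Function.Injective κ ∧ D.t0 ≠ t1 ∧ D.bd t1 = ⊤ ∧ D.RA = RAn F.a F.n ∧ D.Dl = F.Dl ∧
      (∀ P, D.p P = (F.s (κ P)).1) ∧ ∀ P, D.io P = ioN (F.β (κ P)) := by
  classical
  obtain ⟨A⟩ := exists_att F.n (F.Dl.image fun i => lev i.1)
  -- the enumeration of the parties
  obtain ⟨c, hc⟩ : ∃ c : ℤ, ∀ P, c ≤ A.pos P := by
    obtain ⟨c, hc⟩ := (Set.finite_range A.pos).bddBelow
    exact ⟨c, fun P => hc ⟨P, rfl⟩⟩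
  let κ : A.T → ℕ := fun P => (A.pos P - c).toNat
  have hκlt : ∀ P Q, A.pos P < A.pos Q → κ P < κ Q := by
    intro P Q h
    have h1 := hc P
    have h2 := hc Q
    simp only [κ]
    omega
  have hκ : Function.Injective κ := by
    intro P Q h
    apply A.pos_inj
    have h1 := hc P
    have h2 := hc Q
    simp only [κ] at h
    omega
  let β : A.T → Fin F.n → Ix := fun P => F.β (κ P)
  have hJ : JInj F.a β := mk_jinj F A κ hκ
  let p : A.T → Pf := fun P => (F.s (κ P)).1
  have hpa : ∀ P, (p P).1.a = aP F.a (β P) := fun P => F.a_eq (κ P)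
  have har : ar p = Finset.univ.biUnion fun P => aP F.a (β P) := by
    unfold ar
    exact Finset.biUnion_congr rfl fun P _ => hpa P
  let σ : A.T → Fin F.n → ZMod 2 := fun θ => ∑ P, A.y θ P
  let g : A.T → Gp := fun θ => Yv β (A.y θ) + ioN (β θ) (0, σ θ)
  have h0v : ∀ v : Fin F.n → ZMod 2, ((0, v) : Rf F.n) ∈ RAn F.a F.n := fun v =>
    mem_RAn.2 (AddSubgroup.zero_mem _)
  have hio : ∀ P v, ioN (β P) (0, v) ∈ AA (p P).1.a := by
    intro P v
    rw [hpa]
    exact ioN_mem F.a (β P) (h0v v)
  have hcmpg : ∀ θ, cmp β (g θ) = A.y θ + Pi.single θ (σ θ) := by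
    intro θ
    simp only [g]
    rw [map_add, cmp_Yv hJ, cmp_ioN hJ (h0v _)]
  have hg_ar : ∀ θ, g θ ∈ AA (ar p) := by
    intro θ
    refine AddSubgroup.add_mem _ (AddSubgroup.sum_mem _ fun P _ => ?_) ?_
    · exact AA_le_ar p P (hio P _)
    · exact AA_le_ar p θ (hio θ _)
  have hmemP : ∀ P, ∀ i ∈ (p P).1.a, i ∈ F.a ∨ ∃ l, β P l = i := by
    intro P i hi
    rw [hpa, aP, Finset.mem_union, Finset.mem_image] at hi
    rcases hi with h | ⟨l, _, h⟩
    · exact Or.inl h
    · exact Or.inr ⟨l, h⟩
  have hsing : ∀ (θ : A.T) (v v' : Fin F.n → ZMod 2),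
      (Pi.single θ v : A.T → Fin F.n → ZMod 2) + Pi.single θ v' = Pi.single θ (v + v') := by
    intro θ v v'
    funext P
    by_cases h : P = θ
    · subst h
      simp
    · rw [Pi.add_apply, Pi.single_eq_of_ne h, Pi.single_eq_of_ne h, Pi.single_eq_of_ne h,
        add_zero]
  let D : AD A.T (Rf F.n) :=
    { p := p
      a := F.a
      RA := RAn F.a F.n
      io := fun P => ioN (β P)
      fo := foN F.a β
      Dl := F.Dl
      bd := A.bd
      g := g
      t0 := A.t0
      ht0 := A.bd_t0
      a_sub := by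
        intro P
        rw [hpa]
        exact Finset.subset_union_left
      io_mem := by
        intro P w hw
        rw [hpa]
        exact ioN_mem F.a (β P) hw
      fo_io := fun P w hw => foN_ioN hJ hw
      fo_mem := fun P x _ => foN_mem F.a β x
      io_fo := by
        intro P x hx
        rw [hpa] at hx
        exact ioN_foN hJ hx
      inter := by
        intro P Q hPQ x hx hx'
        rw [hpa] at hx hx'
        exact inter_aP hJ hPQ hx hx'
      fo_all := fun x _ => foN_mem F.a β x
      rk_root := by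
        intro x hx y hy hya
        rw [mem_AA, Finset.not_subset] at hya
        obtain ⟨i, hi, hia⟩ := hya
        obtain ⟨P, hP⟩ := mem_ar.1 (hy hi)
        rcases hmemP P i hP with h | ⟨l, h⟩
        · exact absurd h hia
        · have h1 : rk x < (β P l).1 := rk_lt_root F hx l
          rw [h] at h1
          exact h1.trans_le (le_rk (Finsupp.mem_support_iff.1 hi))
      rk_ne := by
        intro P Q hPQ x hx y hy hxa hya
        rw [hpa] at hx hy
        obtain ⟨l, hl⟩ := rk_priv F hx hxa
        obtain ⟨l', hl'⟩ := rk_priv F hy hya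
        rw [hl, hl']
        rcases lt_trichotomy (κ P) (κ Q) with h | h | h
        · exact (F.rk2 _ _ h l l').ne
        · exact absurd (hκ h) hPQ
        · exact (F.rk2 _ _ h l' l).ne'
      pi_eq := fun x hx P Q => F.pi_eq _ _ x hx
      d_eq := fun x hx P Q => F.d_eq _ _ x hx
      pi_root := fun x hx P => F.pi_root _ x hx
      L_iso := fun x hx P Q w hw => F.L_iso _ _ x hx w hw
      Dl_sub := fun P => F.Dl_sub _
      Dl_inter := fun P Q hPQ i hi hi' => F.Dl_inter _ _ (fun h => hPQ (hκ h)) i hi hi'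
      M_iso := fun i hi P Q w hw => F.M_iso _ _ i hi w hw
      B_iso := fun i hi P Q w hw => F.B_iso _ _ i hi w hw
      g_fo := by
        intro θ _
        simp only [g]
        rw [map_add, foN_Yv hJ, foN_ioN hJ (h0v _)]
        refine Prod.ext ?_ ?_
        · simp
        · funext k
          exact CharTwo.add_self_eq_zero _
      g_ar := fun θ _ => hg_ar θ
      g_mem := by
        intro θ hθ α hα
        refine AddSubgroup.add_mem _ (AddSubgroup.sum_mem _ fun P _ => ?_) ?_
        · by_cases h : A.y θ P = 0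
          · rw [h]
            have h1 : ioN (β P) ((0, 0) : Rf F.n) = 0 := map_zero (ioN (β P))
            rw [h1]
            exact AddSubgroup.zero_mem _
          · have h1 := (A.y_bd θ hθ P h).1
            exact AA_le_SS p A.bd (hα.trans h1) (hio P _)
        · exact AA_le_SS p A.bd hα (hio θ _)
      g_rk := by
        intro θ hθ u hu
        have hy : A.y θ ≠ 0 := by
          intro h
          apply A.b1 θ hθ 0 θ 0
          rw [h, zero_add]
        obtain ⟨P, hP⟩ := Function.ne_iff.1 hy
        have hP' : A.y θ P ≠ 0 := hP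
        obtain ⟨l, hl⟩ := Function.ne_iff.1 hP'
        have hpos := (A.y_bd θ hθ P hP').2
        have hne : P ≠ θ := by
          rintro rfl
          exact lt_irrefl _ hpos
        have h1 : g θ (β P l) = A.y θ P l := by
          rw [← cmp_apply β (g θ) P l, hcmpg]
          rw [Pi.add_apply, Pi.single_eq_of_ne hne, add_zero]
        have h2 : (β P l).1 ≤ rk (g θ) := by
          apply le_rk
          rw [h1]
          exact hl
        rw [hpa] at hu
        exact (rk_lt_priv F (hκlt θ P hpos) hu l).trans_le h2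
      g_disj := by
        intro θ hθ P u hu h
        rw [hpa] at hu h
        obtain ⟨v, hv⟩ := cmp_of_mem hJ hu
        obtain ⟨v', hv'⟩ := cmp_of_mem hJ h
        rw [map_add, hv, hcmpg] at hv'
        apply A.b1 θ hθ (v + σ θ) P v'
        rw [← hv', ← hsing]
        abel
      g_disj2 := by
        intro θ θ' hθ hθ' hne u hu u' hu' h
        rw [hpa] at hu hu'
        obtain ⟨v, hv⟩ := cmp_of_mem hJ hu
        obtain ⟨v', hv'⟩ := cmp_of_mem hJ hu'
        have h1 : cmp β (u + g θ) = cmp β (u' + g θ') := congrArg (cmp β) h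
        rw [map_add (cmp β) u (g θ), map_add (cmp β) u' (g θ'), hv, hv', hcmpg, hcmpg] at h1
        apply A.b2 θ θ' hθ hθ' hne (v + σ θ) (v' + σ θ')
        rw [← hsing, ← hsing]
        calc A.y θ + (Pi.single θ v + Pi.single θ (σ θ))
            = Pi.single θ v + (A.y θ + Pi.single θ (σ θ)) := by abel
          _ = Pi.single θ' v' + (A.y θ' + Pi.single θ' (σ θ')) := h1
          _ = _ := by abel
      g_cover := by
        intro i hi z hz
        have hα : lev i.1 ∈ F.Dl.image fun i => lev i.1 :=
          Finset.mem_image.2 ⟨i, hi, rfl⟩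
        have hzar : z ∈ AA (ar p) := SS_le p A.bd _ hz
        have hsupp : ∀ P, cmp β z P ≠ 0 → ((lev i.1 : Ordinal.{0}) : WithTop Ordinal.{0}) < A.bd P := by
          intro P hP
          obtain ⟨l, hl⟩ := Function.ne_iff.1 hP
          have hl' : z (β P l) ≠ 0 := hl
          obtain ⟨Q, hQ, hQm⟩ := hz _ (Finsupp.mem_support_iff.2 hl')
          rcases hmemP Q _ hQm with h | ⟨l', h⟩
          · exact absurd h (hJ.notMem P l)
          · have := (hJ.inj Q l' P l h).1
            rw [← this]
            exact hQ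
        rcases A.cover _ hα (cmp β z) hsupp with ⟨Q, v, hQ, hv⟩ | ⟨θ, v, hθ, hθ', hv⟩
        · left
          refine ⟨Q, hQ, ?_⟩
          rw [hpa]
          rw [har] at hzar
          exact mem_of_cmp hJ hzar hv
        · right
          refine ⟨θ, hθ, hθ', ?_⟩
          rw [hpa]
          have h1 : z + g θ ∈ AA (Finset.univ.biUnion fun P => aP F.a (β P)) := by
            rw [← har]
            exact AddSubgroup.add_mem _ hzar (hg_ar θ)
          apply mem_of_cmp hJ h1 (v := v + σ θ)
          rw [map_add, hv, hcmpg, ← hsing]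
          have h2 : A.y θ + A.y θ = 0 := by
            funext P k
            exact CharTwo.add_self_eq_zero _
          calc A.y θ + Pi.single θ v + (A.y θ + Pi.single θ (σ θ))
              = (A.y θ + A.y θ) + (Pi.single θ v + Pi.single θ (σ θ)) := by abel
            _ = _ := by rw [h2, zero_add] }
  exact ⟨A.T, A.ft, D, κ, A.t1, hκ, A.t_ne, A.bd_t1, rfl, rfl, fun _ => rfl, fun _ => rfl⟩

end Pool.Agent.RFN
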