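import Pool.Agent.RFN.Cond

set_option autoImplicit false

/-! # Every family of tuples is an open-name

PROOF. For a condition `q` let `m = q.j.card`, and let `e : Fin m ≃ q.j` be an enumeration
(`q.1.j.equivFin.symm`). Define `subOf q k = (e k).1.1` for `k < m` (`Nm.nil` otherwise), and
`shapeOf q x Z W` with `num k = (e k).1.2`, `M k = q.M (e k)`, `B k = q.B (e k)`, the other
fields copied from `q`, and `W' = {k < m | e k ∈ W}`. Then `LeS p (shapeOf q x Z W) (subOf q)` iff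
`Le p q` (every `i ∈ q.j` is `e k` for a unique `k < m`, and `(subOf q k, num k) = e k`), and for
`W ⊆ q.j` the last clause of `Wit` is `∀ i ∈ W, z + x ∈ p.M i`. Take
`β = Nm.mk (fun i => (F i).map fun t => shapeOf t.1 i.1 t.2.1 t.2.2)
  (fun i => match F i with | none => fun _ => Nm.nil | some t => subOf t.1)`. -/

namespace Pool.Agent.RFN

private noncomputable def subOf (q : Pf) (k : ℕ) : Nm :=
  if h : k < q.1.j.card then (q.1.j.equivFin.symm ⟨k, h⟩).1.1 else Nm.nil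

private noncomputable def numOf (q : Pf) (k : ℕ) : ℕ :=
  if h : k < q.1.j.card then (q.1.j.equivFin.symm ⟨k, h⟩).1.2 else 0

private theorem pair_eq (q : Pf) {k : ℕ} (h : k < q.1.j.card) :
    (subOf q k, numOf q k) = (q.1.j.equivFin.symm ⟨k, h⟩).1 := by
  unfold subOf numOf
  rw [dif_pos h, dif_pos h]

private theorem pair_mem (q : Pf) {k : ℕ} (h : k < q.1.j.card) :
    (subOf q k, numOf q k) ∈ q.1.j := by
  rw [pair_eq q h]
  exact (q.1.j.equivFin.symm ⟨k, h⟩).2

private theorem exists_pair (q : Pf) {i : Jx} (hi : i ∈ q.1.j) :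
    ∃ k, k < q.1.j.card ∧ (subOf q k, numOf q k) = i := by
  refine ⟨(q.1.j.equivFin ⟨i, hi⟩).1, (q.1.j.equivFin ⟨i, hi⟩).2, ?_⟩
  rw [pair_eq q (q.1.j.equivFin ⟨i, hi⟩).2]
  have : q.1.j.equivFin.symm (q.1.j.equivFin ⟨i, hi⟩) = ⟨i, hi⟩ := Equiv.symm_apply_apply _ _
  exact congrArg Subtype.val this

open Classical in
private noncomputable def shapeOf (q : Pf) (x : Gp) (Z : Finset Gp) (W : Finset Jx) : Shape where
  m := q.1.j.card
  a := q.1.a
  pi := q.1.pi
  d := q.1.d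
  L := q.1.L
  num := numOf q
  M := fun k => q.1.M (subOf q k, numOf q k)
  B := fun k => q.1.B (subOf q k, numOf q k)
  x := x
  Z := Z
  W := (Finset.range q.1.j.card).filter fun k => (subOf q k, numOf q k) ∈ W

private theorem leS_iff (p : Cond0) (q : Pf) (x : Gp) (Z : Finset Gp) (W : Finset Jx) :
    LeS p (shapeOf q x Z W) (subOf q) ↔ Le p q.1 := by
  constructor
  · intro h
    refine ⟨h.a, h.pi, h.d, h.L, ?_, ?_, ?_⟩
    · intro i hi
      obtain ⟨k, hk, e⟩ := exists_pair q hi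
      have := h.j k hk
      rw [← e]
      exact this
    · intro i hi
      obtain ⟨k, hk, e⟩ := exists_pair q hi
      have := h.M k hk
      rw [← e]
      exact this
    · intro i hi
      obtain ⟨k, hk, e⟩ := exists_pair q hi
      have := h.B k hk
      rw [← e]
      exact this
  · intro h
    exact ⟨h.a, h.pi, h.d, h.L, fun k hk => h.j (pair_mem q hk), fun k hk => h.M _ (pair_mem q hk),
      fun k hk => h.B _ (pair_mem q hk)⟩

private theorem mem_W {q : Pf} {x : Gp} {Z : Finset Gp} {W : Finset Jx} {k : ℕ} :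
    k ∈ (shapeOf q x Z W).W ↔ k < q.1.j.card ∧ (subOf q k, numOf q k) ∈ W := by
  classical
  unfold shapeOf
  simp only [Finset.mem_filter, Finset.mem_range]

private noncomputable def sb (F : Gp × ℕ → Option (Pf × Finset Gp × Finset Jx)) (i : Gp × ℕ) :
    ℕ → Nm :=
  ((F i).map fun t => subOf t.1).getD fun _ => Nm.nil

private theorem sb_eq {F : Gp × ℕ → Option (Pf × Finset Gp × Finset Jx)} {i : Gp × ℕ} {q : Pf}
    {Z : Finset Gp} {W : Finset Jx} (h : F i = some (q, Z, W)) : sb F i = subOf q := by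
  unfold sb
  rw [h]
  rfl

private noncomputable def shp (F : Gp × ℕ → Option (Pf × Finset Gp × Finset Jx)) (i : Gp × ℕ) :
    Option Shape :=
  (F i).map fun t => shapeOf t.1 i.1 t.2.1 t.2.2

private theorem shp_eq {F : Gp × ℕ → Option (Pf × Finset Gp × Finset Jx)} {i : Gp × ℕ} {q : Pf}
    {Z : Finset Gp} {W : Finset Jx} (h : F i = some (q, Z, W)) :
    shp F i = some (shapeOf q i.1 Z W) := by
  unfold shp
  rw [h]
  rfl

private theorem of_shp {F : Gp × ℕ → Option (Pf × Finset Gp × Finset Jx)} {i : Gp × ℕ} {s : Shape}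
    (h : shp F i = some s) : ∃ q Z W, F i = some (q, Z, W) ∧ s = shapeOf q i.1 Z W := by
  unfold shp at h
  obtain ⟨⟨q, Z, W⟩, ht, h2⟩ := Option.map_eq_some_iff.1 h
  exact ⟨q, Z, W, ht, h2.symm⟩

theorem exists_name (F : Gp × ℕ → Option (Pf × Finset Gp × Finset Jx))
    (hF : ∀ i q Z W, F i = some (q, Z, W) → (Z : Set Gp) ⊆ AA q.1.a ∧ W ⊆ q.1.j) :
    ∃ β : Nm, ∀ (p : Pf) (z : Gp), Wit p.1 β z ↔ ∃ i q Z W, F i = some (q, Z, W) ∧ p ≤ q ∧
      (∀ u ∈ Z, z + i.1 ∈ p.1.L u) ∧ ∀ k ∈ W, z + i.1 ∈ p.1.M k := by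
  refine ⟨Nm.mk (shp F) (sb F), fun p z => ?_⟩
  constructor
  · rintro ⟨i, s, hs, h1, h2, h3, h4⟩
    obtain ⟨q, Z, W, ht, rfl⟩ := of_shp hs
    rw [sb_eq ht] at h1 h4
    refine ⟨i, q, Z, W, ht, (leS_iff _ _ _ _ _).1 h1, h3, ?_⟩
    intro j hj
    obtain ⟨k, hk, e⟩ := exists_pair q ((hF i q Z W ht).2 hj)
    have hkW : k ∈ (shapeOf q i.1 Z W).W := by
      rw [mem_W, e]
      exact ⟨hk, hj⟩
    have h5 := (h4 k hkW).2
    rw [← e]
    exact h5
  · rintro ⟨i, q, Z, W, ht, h1, h2, h3⟩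
    refine ⟨i, shapeOf q i.1 Z W, shp_eq ht, ?_, ?_, h2, ?_⟩
    · rw [sb_eq ht]
      exact (leS_iff _ _ _ _ _).2 h1
    · intro u hu
      exact AA_mono h1.a ((hF i q Z W ht).1 hu)
    · intro k hk
      rw [mem_W] at hk
      refine ⟨hk.1, ?_⟩
      rw [sb_eq ht]
      exact h3 _ hk.2

end Pool.Agent.RFN
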