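import Pool.Agent.ChoicelessEmb.Exist
import Pool.Agent.RFN.GTruth

set_option autoImplicit false

/-! # Requirements on a countable set of names and a generic filter

`Req R` says that the requirement `R X g0 g` can be met by a countable closure process for the
set of names `X` (which also contains the names `condN r`, `r ∈ g0`, coding the conditions) and by
deciding countably many sets of conditions. -/

namespace Pool.Agent.RFN

open Pool.Agent.ChoicelessEmb FirstOrder LName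

variable {P : Type} [Preorder P] [OrderTop P]

omit [Preorder P] [OrderTop P] in
/-- A name which codes a condition. -/
noncomputable def condN (r : P) : LName P := LName.mk {a | a = (emptyN, r)}

omit [Preorder P] [OrderTop P] in
theorem condN_injective : Function.Injective (condN : P → LName P) := by
  intro r s h
  have hs : ∀ r : P, ch (condN r) = {a | a = (emptyN, r)} := by
    intro r
    have : Small.{0} {a : LName P × P | a = (emptyN, r)} := by
      apply smallR (fun _ : Unit => (emptyN, r))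
      rintro a rfl
      exact ⟨(), rfl⟩
    exact ch_mk _
  have h1 : ((emptyN : LName P), r) ∈ ch (condN r) := by rw [hs]; rfl
  rw [h, hs] at h1
  exact congrArg Prod.snd h1

/-- The requirement `R` can be met. -/
def Req (R : Set (LName P) → Set P → Set P → Prop) : Prop :=
  ∃ (C : Set (LName P) → Prop) (ι : Type) (_ : Countable ι) (k : ι → ℕ)
    (D : ∀ j, (Fin (k j) → LName P) → Set P), CReq Set.univ C ∧
    ∀ X g0 g, GFil g0 g → (∀ r ∈ g0, condN r ∈ X) → C X →
      (∀ j v, (∀ i, v i ∈ X) → Dec0 g0 (D j v)) → R X g0 g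

theorem Req.mono {R R' : Set (LName P) → Set P → Set P → Prop} (h : Req R)
    (hR : ∀ X g0 g, GFil g0 g → R X g0 g → R' X g0 g) : Req R' := by
  obtain ⟨C, ι, hι, k, D, hC, h⟩ := h
  exact ⟨C, ι, hι, k, D, hC, fun X g0 g hg h0 hX hD => hR X g0 g hg (h X g0 g hg h0 hX hD)⟩

theorem Req.forall {κ : Type} [Countable κ] {R : κ → Set (LName P) → Set P → Set P → Prop}
    (h : ∀ i, Req (R i)) : Req fun X g0 g => ∀ i, R i X g0 g := by
  choose C ι hι k D hC h using h
  refine ⟨fun X => ∀ i, C i X, Σ i, ι i, inferInstance, fun j => k j.1 j.2,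
    fun j => D j.1 j.2, CReq.forall hC, ?_⟩
  intro X g0 g hg h0 hX hD i
  exact h i X g0 g hg h0 (hX i) fun j v hv => hD ⟨i, j⟩ v hv

theorem Req.and {R R' : Set (LName P) → Set P → Set P → Prop} (h : Req R) (h' : Req R') :
    Req fun X g0 g => R X g0 g ∧ R' X g0 g := by
  have : Req fun X g0 g => ∀ b : Bool, (if b then R else R') X g0 g := by
    apply Req.forall
    intro b
    cases b
    · simpa using h'
    · simpa using h
  refine this.mono fun X g0 g _ h => ?_
  exact ⟨by simpa using h true, by simpa using h false⟩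

/-- Closure under an operation. -/
theorem Req.op (k : ℕ) (f : (Fin k → LName P) → LName P) :
    Req fun X _ _ => ∀ v : Fin k → LName P, (∀ i, v i ∈ X) → f v ∈ X :=
  ⟨fun X => ∀ v : Fin k → LName P, (∀ i, v i ∈ X) → f v ∈ X, Empty, inferInstance,
    fun j => j.elim, fun j => j.elim, creq_op k f fun _ _ => Set.mem_univ _,
    fun _ _ _ _ _ hX _ => hX⟩

/-- Deciding a family of sets. -/
theorem Req.dec (k : ℕ) (D : (Fin k → LName P) → Set P) :
    Req fun X g0 _ => ∀ v : Fin k → LName P, (∀ i, v i ∈ X) → Dec0 g0 (D v) :=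
  ⟨fun _ => True, Unit, inferInstance, fun _ => k, fun _ => D,
    ⟨fun _ => ∅, fun _ _ _ => ⟨Set.countable_empty, Set.empty_subset _⟩,
      fun _ _ _ _ => trivial⟩, fun _ _ _ _ _ _ hD => hD ()⟩

/-- Witnesses for the conditions in `g0` can be found in `X`. -/
theorem Req.refl (k : ℕ) (Pr : (Fin k → LName P) → P → LName P → Prop) :
    Req fun X g0 _ => ∀ v : Fin k → LName P, (∀ i, v i ∈ X) → ∀ r ∈ g0,
      (∃ y, Pr v r y) → ∃ y ∈ X, Pr v r y := by
  refine ⟨fun X => ∀ w : Fin (k + 1) → LName P, (∀ i, w i ∈ X) →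
      (∃ y ∈ Set.univ, ∃ r, w (Fin.last k) = condN r ∧ Pr (fun i => w i.castSucc) r y) →
      ∃ y ∈ X, ∃ r, w (Fin.last k) = condN r ∧ Pr (fun i => w i.castSucc) r y,
    Empty, inferInstance, fun j => j.elim, fun j => j.elim,
    creq_skolem (k + 1) (fun (w : Fin (k + 1) → LName P) y =>
      ∃ r, w (Fin.last k) = condN r ∧ Pr (fun i => w i.castSucc) r y), ?_⟩
  intro X g0 g _ h0 hX _ v hv r hr ⟨y, hy⟩
  have h1 := hX (Fin.snoc (α := fun _ => LName P) v (condN r)) (by
    intro i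
    refine Fin.lastCases ?_ (fun j => ?_) i
    · rw [Fin.snoc_last]; exact h0 r hr
    · rw [Fin.snoc_castSucc]; exact hv j) ⟨y, Set.mem_univ _, r, by rw [Fin.snoc_last], by
      simpa only [Fin.snoc_castSucc] using hy⟩
  obtain ⟨y, hy, r', hr', h2⟩ := h1
  rw [Fin.snoc_last] at hr'
  rw [← condN_injective hr'] at h2
  refine ⟨y, hy, ?_⟩
  simpa only [Fin.snoc_castSucc] using h2

theorem Req.const (c : LName P) : Req fun X _ _ => c ∈ X :=
  (Req.op 0 fun _ => c).mono fun _ _ _ _ h => h Fin.elim0 fun i => i.elim0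

theorem Req.op1 (f : LName P → LName P) : Req fun X _ _ => ∀ x ∈ X, f x ∈ X :=
  (Req.op 1 fun v => f (v 0)).mono fun _ _ _ _ h x hx => h (fun _ => x) fun _ => hx

theorem Req.op2 (f : LName P → LName P → LName P) :
    Req fun X _ _ => ∀ x ∈ X, ∀ y ∈ X, f x y ∈ X :=
  (Req.op 2 fun v => f (v 0) (v 1)).mono fun _ _ _ _ h x hx y hy =>
    h ![x, y] fun i => by fin_cases i <;> simpa

theorem Req.op3 (f : LName P → LName P → LName P → LName P) :
    Req fun X _ _ => ∀ x ∈ X, ∀ y ∈ X, ∀ z ∈ X, f x y z ∈ X :=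
  (Req.op 3 fun v => f (v 0) (v 1) (v 2)).mono fun _ _ _ _ h x hx y hy z hz =>
    h ![x, y, z] fun i => by fin_cases i <;> simpa

theorem Req.opn (n : ℕ) (f : (Fin n → LName P) → LName P → LName P) :
    Req fun X _ _ => ∀ a : Fin n → LName P, (∀ i, a i ∈ X) → ∀ x ∈ X, f a x ∈ X := by
  refine (Req.op (n + 1) fun v => f (fun i => v i.succ) (v 0)).mono ?_
  intro X _ _ _ h a ha x hx
  have := h (Fin.cons x a : Fin (n + 1) → LName P) fun i => by
    refine Fin.cases ?_ (fun j => ?_) i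
    · exact hx
    · exact ha j
  simpa using this

theorem Req.dec1 (D : LName P → Set P) : Req fun X g0 _ => ∀ x ∈ X, Dec0 g0 (D x) :=
  (Req.dec 1 fun v => D (v 0)).mono fun _ _ _ _ h x hx => h (fun _ => x) fun _ => hx

theorem Req.dec2 (D : LName P → LName P → Set P) :
    Req fun X g0 _ => ∀ x ∈ X, ∀ y ∈ X, Dec0 g0 (D x y) :=
  (Req.dec 2 fun v => D (v 0) (v 1)).mono fun _ _ _ _ h x hx y hy =>
    h ![x, y] fun i => by fin_cases i <;> simpa

theorem Req.dec3 (D : LName P → LName P → LName P → Set P) :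
    Req fun X g0 _ => ∀ x ∈ X, ∀ y ∈ X, ∀ z ∈ X, Dec0 g0 (D x y z) :=
  (Req.dec 3 fun v => D (v 0) (v 1) (v 2)).mono fun _ _ _ _ h x hx y hy z hz =>
    h ![x, y, z] fun i => by fin_cases i <;> simpa

theorem Req.dec4 (D : LName P → LName P → LName P → LName P → Set P) :
    Req fun X g0 _ => ∀ x ∈ X, ∀ y ∈ X, ∀ z ∈ X, ∀ w ∈ X, Dec0 g0 (D x y z w) :=
  (Req.dec 4 fun v => D (v 0) (v 1) (v 2) (v 3)).mono fun _ _ _ _ h x hx y hy z hz w hw =>
    h ![x, y, z, w] fun i => by fin_cases i <;> simpa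

theorem Req.refl1 (Pr : LName P → P → LName P → Prop) :
    Req fun X g0 _ => ∀ x ∈ X, ∀ r ∈ g0, (∃ w, Pr x r w) → ∃ w ∈ X, Pr x r w :=
  (Req.refl 1 fun v r w => Pr (v 0) r w).mono fun _ _ _ _ h x hx r hr hw =>
    h (fun _ => x) (fun _ => hx) r hr hw

theorem Req.refl2 (Pr : LName P → LName P → P → LName P → Prop) :
    Req fun X g0 _ => ∀ x ∈ X, ∀ y ∈ X, ∀ r ∈ g0, (∃ w, Pr x y r w) → ∃ w ∈ X, Pr x y r w :=
  (Req.refl 2 fun v r w => Pr (v 0) (v 1) r w).mono fun _ _ _ _ h x hx y hy r hr hw =>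
    h ![x, y] (fun i => by fin_cases i <;> simpa) r hr hw

theorem Req.refl3 (Pr : LName P → LName P → LName P → P → LName P → Prop) :
    Req fun X g0 _ => ∀ x ∈ X, ∀ y ∈ X, ∀ z ∈ X, ∀ r ∈ g0,
      (∃ w, Pr x y z r w) → ∃ w ∈ X, Pr x y z r w :=
  (Req.refl 3 fun v r w => Pr (v 0) (v 1) (v 2) r w).mono fun _ _ _ _ h x hx y hy z hz r hr hw =>
    h ![x, y, z] (fun i => by fin_cases i <;> simpa) r hr hw

theorem Req.refl4 (Pr : LName P → LName P → LName P → LName P → P → LName P → Prop) :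
    Req fun X g0 _ => ∀ x ∈ X, ∀ y ∈ X, ∀ z ∈ X, ∀ u ∈ X, ∀ r ∈ g0,
      (∃ w, Pr x y z u r w) → ∃ w ∈ X, Pr x y z u r w :=
  (Req.refl 4 fun v r w => Pr (v 0) (v 1) (v 2) (v 3) r w).mono
    fun _ _ _ _ h x hx y hy z hz u hu r hr hw =>
    h ![x, y, z, u] (fun i => by fin_cases i <;> simpa) r hr hw

open Classical in
/-- The descending sequence. -/
noncomputable def dseq (X : Set (LName P)) (f : ℕ → Set P) : ℕ → P
  | 0 => ⊤
  | n + 1 => if h : ∃ r, r ≤ dseq X f n ∧ r ∈ f n ∧ condN r ∈ X then h.choose else dseq X f n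

theorem dseq_succ (X : Set (LName P)) (f : ℕ → Set P) (n : ℕ) :
    dseq X f (n + 1) ≤ dseq X f n ∧
      ((∃ r, r ≤ dseq X f n ∧ r ∈ f n ∧ condN r ∈ X) → dseq X f (n + 1) ∈ f n) ∧
      (condN (dseq X f n) ∈ X → condN (dseq X f (n + 1)) ∈ X) := by
  rw [dseq]
  split_ifs with h
  · exact ⟨h.choose_spec.1, fun _ => h.choose_spec.2.1, fun _ => h.choose_spec.2.2⟩
  · exact ⟨le_rfl, fun h' => absurd h' h, fun h => h⟩

/-- A requirement which can be met is met by some `X`, `g0`, `g`. -/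
theorem Req.exists {R : Set (LName P) → Set P → Set P → Prop} (h : Req R) :
    ∃ (X : Set (LName P)) (g0 g : Set P), X.Countable ∧ GFil g0 g ∧ R X g0 g := by
  classical
  obtain ⟨C, ι, hι, k, D, hC, h⟩ := h
  have h2 : CReq (Set.univ : Set (LName P)) fun X => ∀ j : ι, ∀ w : Fin (k j + 1) → LName P,
      (∀ i, w i ∈ X) →
      (∃ y ∈ Set.univ, ∃ r s, w (Fin.last _) = condN r ∧ y = condN s ∧ s ≤ r ∧
        s ∈ D j (fun i => w i.castSucc)) →
      ∃ y ∈ X, ∃ r s, w (Fin.last _) = condN r ∧ y = condN s ∧ s ≤ r ∧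
        s ∈ D j (fun i => w i.castSucc) := by
    apply CReq.forall
    intro j
    exact creq_skolem (k j + 1) (fun (w : Fin (k j + 1) → LName P) y =>
      ∃ r s, w (Fin.last _) = condN r ∧ y = condN s ∧ s ≤ r ∧
        s ∈ D j (fun i => w i.castSucc))
  obtain ⟨X, hAX, _, hXc, hX1, hX2⟩ := (hC.and h2).exists (A := {condN ⊤})
    (Set.subset_univ _) (Set.countable_singleton _)
  have htop : condN (⊤ : P) ∈ X := hAX rfl
  have hcl : ∀ (j : ι) (v : Fin (k j) → LName P), (∀ i, v i ∈ X) → ∀ r, condN r ∈ X →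
      (∃ s, s ≤ r ∧ s ∈ D j v) → ∃ s, s ≤ r ∧ s ∈ D j v ∧ condN s ∈ X := by
    intro j v hv r hr ⟨s, hs, hsD⟩
    obtain ⟨y, hy, r', s', h3, h4, h5, h6⟩ := hX2 j
      (Fin.snoc (α := fun _ => LName P) v (condN r)) (by
        intro i
        refine Fin.lastCases ?_ (fun j => ?_) i
        · rw [Fin.snoc_last]; exact hr
        · rw [Fin.snoc_castSucc]; exact hv j)
      ⟨condN s, Set.mem_univ _, r, s, by rw [Fin.snoc_last], rfl, hs, by
        simpa only [Fin.snoc_castSucc] using hsD⟩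
    rw [Fin.snoc_last] at h3
    rw [← condN_injective h3] at h5
    refine ⟨s', h5, by simpa only [Fin.snoc_castSucc] using h6, ?_⟩
    rw [← h4]; exact hy
  have hcX : Countable X := hXc.to_subtype
  -- enumerate the sets to be decided
  let W : Type _ := Σ j : ι, (Fin (k j) → X)
  have hW : Countable W := inferInstance
  obtain ⟨e, he⟩ : ∃ e : ℕ → Option W, ∀ w : W, ∃ n, e n = some w := by
    have : Countable (Option W) := inferInstance
    obtain ⟨e, he⟩ := exists_surjective_nat (Option W)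
    exact ⟨e, fun w => he (some w)⟩
  let f : ℕ → Set P := fun n => match e n with
    | none => ∅
    | some w => D w.1 fun i => (w.2 i : LName P)
  let p : ℕ → P := dseq X f
  have hpX : ∀ n, condN (p n) ∈ X := by
    intro n
    induction n with
    | zero => exact htop
    | succ n ih => exact (dseq_succ X f n).2.2 ih
  have hanti : Antitone p := antitone_nat_of_succ_le fun n => (dseq_succ X f n).1
  refine ⟨X, Set.range p, {q | ∃ n, p n ≤ q}, hXc, ?_, ?_⟩
  · refine ⟨⟨⟨0, le_rfl⟩, ?_, ?_⟩, ?_, ?_⟩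
    · rintro a b ⟨n, hn⟩ hab
      exact ⟨n, hn.trans hab⟩
    · rintro a b ⟨n, hn⟩ ⟨m, hm⟩
      exact ⟨p (max n m), ⟨_, le_rfl⟩, (hanti (le_max_left n m)).trans hn,
        (hanti (le_max_right n m)).trans hm⟩
    · rintro _ ⟨n, rfl⟩
      exact ⟨n, le_rfl⟩
    · rintro r ⟨n, hn⟩
      exact ⟨p n, ⟨n, rfl⟩, hn⟩
  · refine h X _ _ ⟨⟨⟨0, le_rfl⟩, ?_, ?_⟩, ?_, ?_⟩ ?_ hX1 ?_
    · rintro a b ⟨n, hn⟩ hab
      exact ⟨n, hn.trans hab⟩
    · rintro a b ⟨n, hn⟩ ⟨m, hm⟩
      exact ⟨p (max n m), ⟨_, le_rfl⟩, (hanti (le_max_left n m)).trans hn,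
        (hanti (le_max_right n m)).trans hm⟩
    · rintro _ ⟨n, rfl⟩
      exact ⟨n, le_rfl⟩
    · rintro r ⟨n, hn⟩
      exact ⟨p n, ⟨n, rfl⟩, hn⟩
    · rintro _ ⟨n, rfl⟩
      exact hpX n
    · intro j v hv
      obtain ⟨n, hn⟩ := he ⟨j, fun i => ⟨v i, hv i⟩⟩
      have hfn : f n = D j v := by
        change (match e n with
          | none => ∅
          | some w => D w.1 fun i => (w.2 i : LName P)) = D j v
        rw [hn]
      by_cases hs : ∃ s, s ≤ p n ∧ s ∈ D j v
      · obtain ⟨s, h1, h2, h3⟩ := hcl j v hv (p n) (hpX n) hs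
        have := (dseq_succ X f n).2.1 ⟨s, h1, by rw [hfn]; exact h2, h3⟩
        rw [hfn] at this
        exact ⟨p (n + 1), ⟨_, rfl⟩, Or.inl this⟩
      · refine ⟨p n, ⟨_, rfl⟩, Or.inr fun r hr hrD => hs ⟨r, hr, hrD⟩⟩

end Pool.Agent.RFN
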