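import Pool.Agent.RFN.ReqZF
import Pool.Agent.ZFIter.End

set_option autoImplicit false

/-! # Requirements for coded objects

`nm : T → LName P` is an injective coding of the elements of a type by names (for instance
canonical names). Pairs are coded by `opairN`. -/

namespace Pool.Agent.RFN

open Pool.Agent.ChoicelessEmb LName

variable {P : Type} [Preorder P] [OrderTop P]

theorem reqc_dec {T : Type*} (nm : T → LName P) (hnm : Function.Injective nm)
    (D : T → Set P) : Req fun X g0 _ => ∀ t, nm t ∈ X → Dec0 g0 (D t) := by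
  refine (Req.dec1 fun u => {r | ∃ t, u = nm t ∧ r ∈ D t}).mono ?_
  intro X g0 g _ h t ht
  have e : {r | ∃ t', nm t = nm t' ∧ r ∈ D t'} = D t := by
    ext r
    constructor
    · rintro ⟨t', h1, h2⟩
      rw [hnm h1]
      exact h2
    · exact fun h => ⟨t, rfl, h⟩
  have := h (nm t) ht
  rw [e] at this
  exact this

theorem reqc_refl {T T' : Type*} (nm : T → LName P) (hnm : Function.Injective nm)
    (nm' : T' → LName P) (Q : T → P → T' → Prop) :
    Req fun X g0 _ => ∀ t, nm t ∈ X → ∀ r ∈ g0, (∃ t', Q t r t') →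
      ∃ t', nm' t' ∈ X ∧ Q t r t' := by
  refine (Req.refl1 fun u r w => ∃ t t', u = nm t ∧ w = nm' t' ∧ Q t r t').mono ?_
  intro X g0 g _ h t ht r hr ⟨t', h'⟩
  obtain ⟨w, hw, s, s', h1, rfl, h2⟩ := h (nm t) ht r hr ⟨nm' t', t, t', rfl, rfl, h'⟩
  rw [← hnm h1] at h2
  exact ⟨s', hw, h2⟩

theorem reqc_op {T T' : Type*} (nm : T → LName P) (hnm : Function.Injective nm)
    (nm' : T' → LName P) (f : T → T') : Req fun X _ _ => ∀ t, nm t ∈ X → nm' (f t) ∈ X := by
  classical
  refine (Req.op1 fun u => if h : ∃ t, u = nm t then nm' (f h.choose) else emptyN).mono ?_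
  intro X g0 g _ h t ht
  have h1 := h (nm t) ht
  have h2 : ∃ s, nm t = nm s := ⟨t, rfl⟩
  rw [dif_pos h2] at h1
  rw [← hnm h2.choose_spec] at h1
  exact h1

theorem pairN_inj {x y x' y' : LName P} (h : pairN x y = pairN x' y') :
    (x = x' ∧ y = y') ∨ (x = y' ∧ y = x') := by
  have key : ∀ u, (u = x ∨ u = y) ↔ (u = x' ∨ u = y') := by
    intro u
    have h1 : (u, (⊤ : P)) ∈ ch (pairN x y) ↔ (u, (⊤ : P)) ∈ ch (pairN x' y') := by rw [h]
    rw [mem_ch_pairN, mem_ch_pairN] at h1
    simpa using h1
  have h1 := (key x).1 (Or.inl rfl)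
  have h2 := (key y).1 (Or.inr rfl)
  have h3 := (key x').2 (Or.inl rfl)
  have h4 := (key y').2 (Or.inr rfl)
  grind

theorem opairN_inj {x y x' y' : LName P} (h : opairN x y = opairN x' y') :
    x = x' ∧ y = y' := by
  unfold opairN at h
  rcases pairN_inj h with ⟨h1, h2⟩ | ⟨h1, h2⟩
  · have e1 := pairN_inj h1
    have e2 := pairN_inj h2
    grind
  · have e1 := pairN_inj h1
    have e2 := pairN_inj h2
    grind

/-- The coding of pairs. -/
noncomputable def nm2 {T T' : Type*} (nm : T → LName P) (nm' : T' → LName P) (t : T × T') :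
    LName P := opairN (nm t.1) (nm' t.2)

theorem nm2_inj {T T' : Type*} {nm : T → LName P} {nm' : T' → LName P}
    (h : Function.Injective nm) (h' : Function.Injective nm') :
    Function.Injective (nm2 nm nm') := by
  rintro ⟨a, b⟩ ⟨c, d⟩ e
  obtain ⟨e1, e2⟩ := opairN_inj e
  exact Prod.ext (h e1) (h' e2)

/-- Closure under ordered pairs and under projections. -/
theorem req_proj : Req fun (X : Set (LName P)) _ _ =>
    (∀ u ∈ X, ∀ v ∈ X, opairN u v ∈ X) ∧ ∀ u v, opairN u v ∈ X → u ∈ X ∧ v ∈ X := by
  have h1 : Req fun (X : Set (LName P)) _ _ => ∀ u ∈ X, ∀ v ∈ X, opairN u v ∈ X := Req.op2 _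
  have h2 := reqc_op (P := P) (T := LName P × LName P) (fun t => opairN t.1 t.2)
    (fun a b e => Prod.ext (opairN_inj e).1 (opairN_inj e).2) id Prod.fst
  have h3 := reqc_op (P := P) (T := LName P × LName P) (fun t => opairN t.1 t.2)
    (fun a b e => Prod.ext (opairN_inj e).1 (opairN_inj e).2) id Prod.snd
  refine (h1.and (h2.and h3)).mono ?_
  rintro X g0 g _ ⟨h1, h2, h3⟩
  exact ⟨h1, fun u v h => ⟨h2 (u, v) h, h3 (u, v) h⟩⟩

/-- Every type has an injective coding by sets. -/
theorem exists_code (T : Type) : ∃ f : T → ZFSet.{0}, Function.Injective f := by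
  refine ⟨fun t => (Ordinal.typein (WellOrderingRel (α := T)) t).toZFSet, fun a b h => ?_⟩
  exact Ordinal.typein_injective _ (Ordinal.toZFSet_injective h)

/-- A coding of a type by sets. -/
noncomputable def cd (T : Type) : T → ZFSet.{0} := (exists_code T).choose

theorem cd_inj (T : Type) : Function.Injective (cd T) := (exists_code T).choose_spec

/-- The canonical names of the elements of a type. -/
noncomputable def ckT (T : Type) (t : T) : LName P := checkN (cd T t)

theorem ckT_inj (T : Type) : Function.Injective (ckT T : T → LName P) :=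
  fun _ _ h => cd_inj T (checkN_injective h)

/-- The canonical names of the natural numbers. -/
noncomputable def nN (n : ℕ) : LName P := checkN (natZ n)

theorem nN_inj : Function.Injective (nN : ℕ → LName P) :=
  fun _ _ h => natZ_injective (checkN_injective h)

end Pool.Agent.RFN
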