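import Pool.Agent.RFN.Req
import Pool.Agent.RFN.GZF

set_option autoImplicit false

/-! # The closure needed for ZF can be obtained -/

namespace Pool.Agent.RFN

open Pool.Agent.ChoicelessEmb FirstOrder LName

open Pool.Agent.H78.ZF (LSet)

open Pool.Agent.ZFIter (Fset)

variable {P : Type} [Preorder P] [OrderTop P]

theorem req_atom : Req fun (X : Set (LName P)) g0 g => AtomG X g0 g := by
  have c1 := Req.refl2 (P := P) fun u y r w => ∃ d, (w, d) ∈ ch y ∧ r ≤ d ∧ feq u w r
  have c2 := Req.refl2 (P := P) fun x y q u => ∃ c, (u, c) ∈ ch x ∧ q ≤ c ∧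
    ∀ r ≤ q, r ∉ memSet u y
  have g1 := Req.dec2 (P := P) fun u y => memSet u y
  have g2 := Req.dec2 (P := P) fun x y => badSet x y
  refine (c1.and (c2.and (g1.and g2))).mono ?_
  rintro X g0 g hg ⟨c1, c2, g1, g2⟩
  exact
    { toGFil := hg
      c1 := fun u hu y hy r hr h => c1 u hu y hy r hr h
      c2 := fun x hx y hy q hq h => c2 x hx y hy q hq h
      g1 := g1
      g2 := g2 }

theorem req_form : Req fun (X : Set (LName P)) g0 _ => FormG (Fset P) X g0 := by
  have c3 : Req fun (X : Set (LName P)) g0 _ => ∀ (k n : ℕ)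
      (φ : LSet.BoundedFormula (Fin k) (n + 1)), ∀ w : Fin (k + n) → LName P, (∀ i, w i ∈ X) →
      ∀ p ∈ g0, (∃ x, ∀ r ≤ p, ¬ forces (Fset P) Set.univ φ (fun i => w (Fin.castAdd n i))
        (Fin.snoc (α := fun _ => LName P) (fun i => w (Fin.natAdd k i)) x) r) →
      ∃ x ∈ X, ∀ r ≤ p, ¬ forces (Fset P) Set.univ φ (fun i => w (Fin.castAdd n i))
        (Fin.snoc (α := fun _ => LName P) (fun i => w (Fin.natAdd k i)) x) r := by
    apply Req.forall
    intro k
    apply Req.forall
    intro n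
    have := countable_BF (L := LSet) k (n + 1)
    apply Req.forall
    intro φ
    exact Req.refl (k + n) _
  have g3 : Req fun (X : Set (LName P)) g0 _ => ∀ (k n : ℕ)
      (φ : LSet.BoundedFormula (Fin k) (n + 1)), ∀ w : Fin (k + n) → LName P, (∀ i, w i ∈ X) →
      Dec0 g0 (allBad (Fset P) Set.univ φ (fun i => w (Fin.castAdd n i))
        fun i => w (Fin.natAdd k i)) := by
    apply Req.forall
    intro k
    apply Req.forall
    intro n
    have := countable_BF (L := LSet) k (n + 1)
    apply Req.forall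
    intro φ
    exact Req.dec (k + n) fun w => allBad (Fset P) Set.univ φ (fun i => w (Fin.castAdd n i))
        fun i => w (Fin.natAdd k i)
  have g4 : Req fun (X : Set (LName P)) g0 _ => ∀ (k n : ℕ)
      (φ ψ : LSet.BoundedFormula (Fin k) n), ∀ w : Fin (k + n) → LName P, (∀ i, w i ∈ X) →
      Dec0 g0 (impBad (Fset P) Set.univ φ ψ (fun i => w (Fin.castAdd n i))
        fun i => w (Fin.natAdd k i)) := by
    apply Req.forall
    intro k
    apply Req.forall
    intro n
    have := countable_BF (L := LSet) k n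
    apply Req.forall
    intro φ
    apply Req.forall
    intro ψ
    exact Req.dec (k + n) fun w => impBad (Fset P) Set.univ φ ψ (fun i => w (Fin.castAdd n i))
        fun i => w (Fin.natAdd k i)
  have key : ∀ {X : Set (LName P)} {k n : ℕ} {v : Fin k → LName P} {xs : Fin n → LName P},
      (∀ i, v i ∈ X) → (∀ i, xs i ∈ X) → ∀ i, Fin.append v xs i ∈ X := by
    intro X k n v xs hv hxs i
    refine Fin.addCases (fun j => ?_) (fun j => ?_) i
    · rw [Fin.append_left]; exact hv j
    · rw [Fin.append_right]; exact hxs j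
  refine (c3.and (g3.and g4)).mono ?_
  rintro X g0 g hg ⟨c3, g3, g4⟩
  refine ⟨?_, ?_, ?_⟩
  · intro k n φ v xs hv hxs p hp h
    obtain ⟨x, _, h⟩ := h
    have := c3 k n φ (Fin.append v xs) (key hv hxs) p hp
    simp only [Fin.append_left, Fin.append_right] at this
    exact this ⟨x, h⟩
  · intro k n φ v xs hv hxs
    have := g3 k n φ (Fin.append v xs) (key hv hxs)
    simp only [Fin.append_left, Fin.append_right] at this
    exact this
  · intro k n φ ψ v xs hv hxs
    have := g4 k n φ ψ (Fin.append v xs) (key hv hxs)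
    simp only [Fin.append_left, Fin.append_right] at this
    exact this

theorem req_wit : Req fun (X : Set (LName P)) g0 _ =>
    ∀ (n : ℕ) (φ : LSet.Formula (Fin (n + 2))) (a : Fin n → LName P),
    (∀ i, a i ∈ X) → ∀ u ∈ X, ∀ q ∈ g0, witY φ a u q ∈ X := by
  apply Req.forall
  intro n
  have : Countable (LSet.Formula (Fin (n + 2))) := countable_BF (L := LSet) (n + 2) 0
  apply Req.forall
  intro φ
  refine (Req.refl (P := P) (n + 1) fun v q w => w = witY φ (fun i => v i.succ) (v 0) q).mono ?_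
  intro X g0 g _ h a ha u hu q hq
  obtain ⟨w, hw, e⟩ := h (Fin.cons u a : Fin (n + 1) → LName P) (fun i => by
    refine Fin.cases ?_ (fun j => ?_) i
    · exact hu
    · exact ha j) q hq ⟨_, rfl⟩
  simp only [Fin.cons_zero, Fin.cons_succ] at e
  rw [← e]
  exact hw

theorem req_repl2 : Req fun (X : Set (LName P)) g0 _ =>
    ∀ (n : ℕ) (φ : LSet.Formula (Fin (n + 2))) (a : Fin n → LName P),
    (∀ i, a i ∈ X) → ∀ x ∈ X, ∀ y ∈ X, ∀ q ∈ g0,
    (∃ u c, (u, c) ∈ ch x ∧ q ≤ c ∧
      ff φ (Fin.cons u (Fin.cons y a : Fin (n + 1) → LName P)) q) →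
    ∃ u ∈ X, ∃ c, (u, c) ∈ ch x ∧ q ≤ c ∧
      ff φ (Fin.cons u (Fin.cons y a : Fin (n + 1) → LName P)) q := by
  apply Req.forall
  intro n
  have : Countable (LSet.Formula (Fin (n + 2))) := countable_BF (L := LSet) (n + 2) 0
  apply Req.forall
  intro φ
  refine (Req.refl (P := P) (n + 1 + 1) fun v q u => ∃ c, (u, c) ∈ ch (v 0) ∧ q ≤ c ∧
      ff φ (Fin.cons u (Fin.cons (v (Fin.succ 0)) (fun i => v i.succ.succ) :
        Fin (n + 1) → LName P)) q).mono ?_
  intro X g0 g _ h a ha x hx y hy q hq hw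
  have := h (Fin.cons x (Fin.cons y a : Fin (n + 1) → LName P) : Fin (n + 1 + 1) → LName P)
    (fun i => by
    refine Fin.cases ?_ (fun j => ?_) i
    · exact hx
    · refine Fin.cases ?_ (fun j => ?_) j
      · exact hy
      · exact ha j) q hq
  simp only [Fin.cons_zero, Fin.cons_succ] at this
  exact this hw

theorem req_opG : Req fun (X : Set (LName P)) g0 g => OpG X g0 g := by
  have pr : Req fun (X : Set (LName P)) _ _ => ∀ x ∈ X, ∀ y ∈ X, pairN x y ∈ X :=
    Req.op2 _
  have un : Req fun (X : Set (LName P)) _ _ => ∀ x ∈ X, unionN x ∈ X := Req.op1 _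
  have u2 := Req.refl2 (P := P) fun x w q u =>
    ∃ c d, (u, c) ∈ ch x ∧ (w, d) ∈ ch u ∧ q ≤ c ∧ q ≤ d
  have pw : Req fun (X : Set (LName P)) _ _ => ∀ x ∈ X, powN x ∈ X := Req.op1 _
  have sb : Req fun (X : Set (LName P)) _ _ => ∀ x ∈ X, ∀ y ∈ X, subN x y ∈ X := Req.op2 _
  have sp : Req fun (X : Set (LName P)) _ _ => ∀ (n : ℕ) (φ : LSet.Formula (Fin (n + 1)))
      (a : Fin n → LName P), (∀ i, a i ∈ X) → ∀ x ∈ X, sepF φ a x ∈ X := by
    apply Req.forall
    intro n
    have : Countable (LSet.Formula (Fin (n + 1))) := countable_BF (L := LSet) (n + 1) 0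
    apply Req.forall
    intro φ
    exact Req.opn n _
  have rp : Req fun (X : Set (LName P)) _ _ => ∀ (n : ℕ) (φ : LSet.Formula (Fin (n + 2)))
      (a : Fin n → LName P), (∀ i, a i ∈ X) → ∀ x ∈ X, replF φ a x ∈ X := by
    apply Req.forall
    intro n
    have : Countable (LSet.Formula (Fin (n + 2))) := countable_BF (L := LSet) (n + 2) 0
    apply Req.forall
    intro φ
    exact Req.opn n _
  refine (req_atom.and (req_form.and (pr.and (un.and (u2.and (pw.and (sb.and (sp.and
    (req_wit.and (rp.and req_repl2)))))))))).mono ?_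
  rintro X g0 g hg ⟨at', fm, pr, un, u2, pw, sb, sp, wt, rp, rp2⟩
  exact
    { atom := at'
      form := fm
      pair := pr
      union := un
      union2 := fun x hx w hw q hq h => u2 x hx w hw q hq h
      pow := pw
      sub := sb
      sep := sp
      wit := wt
      repl := rp
      repl2 := rp2 }

end Pool.Agent.RFN
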