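import Pool.Agent.RFN.ReqC
import Pool.Agent.RFN.ExtCoord
import Pool.Agent.RFN.HDefs

set_option autoImplicit false

/-! # The generic extension: names and requirements

The forcing notion is `Pf`. `nG x`, `nO ξ`, `nB w`, `nN n` are the canonical names of the elements
of the group, of the colours, of the finite sets of generators (`Bx`) and of the natural numbers.
`InS p w x`: the condition `p` knows that `x` is in the basic subgroup with index `w = (Z, W)`,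
i.e. in all `L u`, `u ∈ Z`, and `M i`, `i ∈ W`. -/

namespace Pool.Agent.RFN

open Pool.Agent.ChoicelessEmb LName

open Pool.Agent.H78.ZF (ZFM IsZFModel)

/-- Names over the forcing notion. -/
abbrev Na : Type 1 := LName Pf

/-- The indices of the basic subgroups. -/
abbrev Bx : Type := Finset Gp × Finset Jx

noncomputable def nG : Gp → Na := ckT Gp
noncomputable def nO : Om → Na := ckT Om
noncomputable def nB : Bx → Na := ckT Bx

theorem nG_inj : Function.Injective nG := ckT_inj Gp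
theorem nO_inj : Function.Injective nO := ckT_inj Om
theorem nB_inj : Function.Injective nB := ckT_inj Bx

/-- `p` knows the basic subgroup with index `w`. -/
def Dom (p : Pf) (w : Bx) : Prop := (∀ u ∈ w.1, u ∈ AA p.1.a) ∧ w.2 ⊆ p.1.j

/-- `p` knows that `x` is in the basic subgroup with index `w`. -/
def InS (p : Pf) (w : Bx) (x : Gp) : Prop :=
  Dom p w ∧ x ∈ AA p.1.a ∧ (∀ u ∈ w.1, x ∈ p.1.L u) ∧ ∀ i ∈ w.2, x ∈ p.1.M i

/-- `p` knows that `x` is mapped to `(y, ξ)`. -/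
def InPh (p : Pf) (x y : Gp) (ξ : Om) : Prop := x ∈ AA p.1.a ∧ p.1.pi x = y ∧ p.1.d x = ξ

theorem Dom.mono {p q : Pf} {w : Bx} (h : Dom q w) (hp : p ≤ q) : Dom p w :=
  ⟨fun u hu => AA_mono hp.a (h.1 u hu), h.2.trans hp.j⟩

theorem InS.mono {p q : Pf} {w : Bx} {x : Gp} (h : InS q w x) (hp : p ≤ q) : InS p w x := by
  obtain ⟨h1, h2, h3, h4⟩ := h
  exact ⟨h1.mono hp, AA_mono hp.a h2, fun u hu => (hp.L u (h1.1 u hu) x h2).2 (h3 u hu),
    fun i hi => (hp.M i (h1.2 hi) x h2).2 (h4 i hi)⟩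

theorem InS.of_le {p q : Pf} {w : Bx} {x : Gp} (h : InS p w x) (hp : p ≤ q) (hq : Dom q w)
    (hx : x ∈ AA q.1.a) : InS q w x := by
  obtain ⟨h1, h2, h3, h4⟩ := h
  exact ⟨hq, hx, fun u hu => (hp.L u (hq.1 u hu) x hx).1 (h3 u hu),
    fun i hi => (hp.M i (hq.2 hi) x hx).1 (h4 i hi)⟩

theorem InPh.mono {p q : Pf} {x y : Gp} {ξ : Om} (h : InPh q x y ξ) (hp : p ≤ q) :
    InPh p x y ξ :=
  ⟨AA_mono hp.a h.1, (hp.pi x h.1).trans h.2.1, (hp.d x h.1).trans h.2.2⟩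

/-- The names of the objects of `HD`. -/
noncomputable def nmG : Na := relG nG fun _ _ => True
noncomputable def nmD : Na := relG nO fun _ _ => True
noncomputable def nmB : Na := relG nB fun _ _ => True
noncomputable def nmS : Na := relG (nm2 nB nG) fun t p => InS p t.1 t.2
noncomputable def nmPh : Na := relG (nm2 nG (nm2 nG nO)) fun t p => InPh p t.1 t.2.1 t.2.2
noncomputable def nmAdd : Na := relG (nm2 (nm2 nG nG) nG) fun t _ => t.2 = t.1.1 + t.1.2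

/-- The basic requirements. -/
structure St (X : Set Na) (g0 g : Set Pf) : Prop where
  op : OpG X g0 g
  opair : ∀ u ∈ X, ∀ v ∈ X, opairN u v ∈ X
  proj : ∀ u v, opairN u v ∈ X → u ∈ X ∧ v ∈ X
  nat : ∀ n, (nN n : Na) ∈ X
  om : (checkN omegaZ : Na) ∈ X
  nmG : nmG ∈ X
  nmD : nmD ∈ X
  nmB : nmB ∈ X
  nmS : nmS ∈ X
  nmPh : nmPh ∈ X
  nmAdd : nmAdd ∈ X
  zero : nG 0 ∈ X
  add : ∀ x y, nG x ∈ X → nG y ∈ X → nG (x + y) ∈ X
  bot : nO ⊥ ∈ X
  bempty : nB (∅, ∅) ∈ X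
  bsingle : ∀ x, nG x ∈ X → nB ({x}, ∅) ∈ X
  bunion : ∀ w w' : Bx, nB w ∈ X → nB w' ∈ X →
    ∃ w'', nB w'' ∈ X ∧ w.1 ⊆ w''.1 ∧ w.2 ⊆ w''.2 ∧ w'.1 ⊆ w''.1 ∧ w'.2 ⊆ w''.2
  dom : ∀ w : Bx, nB w ∈ X → ∃ p ∈ g0, Dom p w
  domG : ∀ x, nG x ∈ X → ∃ p ∈ g0, x ∈ AA p.1.a
  ph : ∀ x, nG x ∈ X → ∀ p ∈ g0, x ∈ AA p.1.a → nG (p.1.pi x) ∈ X ∧ nO (p.1.d x) ∈ X
  surj : ∀ y ξ, nG y ∈ X → nO ξ ∈ X → ∃ x, nG x ∈ X ∧ ∃ p ∈ g0, InPh p x y ξ
  haus : ∀ x, nG x ∈ X → x ≠ 0 → ∃ y, nG y ∈ X ∧ ∃ p ∈ g0, x ∈ AA p.1.a ∧ y ∈ AA p.1.a ∧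
    x ∉ p.1.L y

/-- The pair of `X` and `g` as a class. -/
class SX (X : Set Na) (g : Set Pf) where
  g0 : Set Pf
  st : St X g0 g

section model

variable {X : Set Na} {g : Set Pf}

theorem St.natZ_mem {g0 : Set Pf} (h : St X g0 g) {z : ZFSet.{0}}
    (hz : z = omegaZ ∨ ∃ n, z = natZ n) : val X g (checkN z) = z := by
  refine val_checkN h.op.atom.fil (Z := {z | z = omegaZ ∨ ∃ n, z = natZ n}) ?_ ?_ z hz
  · rintro x (rfl | ⟨n, rfl⟩) y hy
    · obtain ⟨n, rfl⟩ := ZFSet.mem_range.1 hy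
      exact Or.inr ⟨n, rfl⟩
    · obtain ⟨m, _, rfl⟩ := mem_natZ.1 hy
      exact Or.inr ⟨m, rfl⟩
  · rintro x (rfl | ⟨n, rfl⟩)
    · exact h.om
    · exact h.nat n

theorem St.isZF {g0 : Set Pf} (h : St X g0 g) : IsZFModel (fun x y : Mod X g => x.1 ∈ y.1) := by
  refine Pool.Agent.ZFIter.isZFModel_of (modelsZF h.op ⟨omegaZ, ⟨checkN omegaZ, h.om,
    h.natZ_mem (Or.inl rfl)⟩, ?_, ?_⟩)
  · exact ZFSet.mem_range.2 ⟨0, rfl⟩
  · intro n hn
    obtain ⟨k, rfl⟩ := ZFSet.mem_range.1 hn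
    exact ZFSet.mem_range.2 ⟨k + 1, rfl⟩

/-- The generic extension as a model of ZF. -/
instance instZFM [hs : SX X g] : ZFM (Mod X g) where
  E x y := x.1 ∈ y.1
  zf := hs.st.isZF

variable [hs : SX X g]

/-- The element of the model with the name `u`. -/
noncomputable def el (X : Set Na) (g : Set Pf) (u : Na) (hu : u ∈ X) : Mod X g :=
  ⟨val X g u, u, hu, rfl⟩

theorem emb_val : Pool.Agent.ZFIter.Emb (M := Mod X g) (fun x => x.1) where
  inj := Subtype.val_injective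
  tr x z hz := ⟨⟨z, Mod_trans x.1 x.2 z hz⟩, rfl⟩
  mem _ _ := Iff.rfl

/-- The data `HD` in the model. -/
noncomputable def hd (X : Set Na) (g : Set Pf) [hs : SX X g] : HD (Mod X g) where
  G := el X g nmG hs.st.nmG
  D := el X g nmD hs.st.nmD
  Bs := el X g nmB hs.st.nmB
  S := el X g nmS hs.st.nmS
  Ph := el X g nmPh hs.st.nmPh
  add := el X g nmAdd hs.st.nmAdd
  o := el X g (nG 0) hs.st.zero

/-- Elements of the group in the model. -/
noncomputable def eG (X : Set Na) (g : Set Pf) (x : {x : Gp // nG x ∈ X}) : Mod X g :=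
  el X g (nG x.1) x.2
noncomputable def eO (X : Set Na) (g : Set Pf) (x : {x : Om // nO x ∈ X}) : Mod X g :=
  el X g (nO x.1) x.2
noncomputable def eB (X : Set Na) (g : Set Pf) (x : {x : Bx // nB x ∈ X}) : Mod X g :=
  el X g (nB x.1) x.2
noncomputable def eN (X : Set Na) (g : Set Pf) [hs : SX X g] (n : ℕ) : Mod X g :=
  el X g (nN n) (hs.st.nat n)

/-- The sum in the subgroup of the elements with a name in `X`. -/
noncomputable def addX (x y : {x : Gp // nG x ∈ X}) : {x : Gp // nG x ∈ X} :=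
  ⟨x.1 + y.1, hs.st.add x.1 y.1 x.2 y.2⟩

end model

end Pool.Agent.RFN
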