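import Pool.Agent.RFN.SDefs

set_option autoImplicit false

/-! # Dictionary between names and elements of the model

PROOFS. `mem_val_relG` is `mem_val` and `mem_ch_relG`. `el_eq_iff`, `mem_el` are `val_eq_iff`,
`val_mem_iff` (with `hs.st.op.atom`). `opair_el`: `emb_val.opair` (Emb of ZFIter.End: the value
of `opair x y` is `ZFSet.pair x.1 y.1`) and `val_opairN`. Injectivity of `eG` etc.: from `el_eq_iff`
and `feq_checkN` (`nG x = checkN (cd Gp x)`) and injectivity of `cd`. `mem_G`, ...: unfold `hd`,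
`mem_val_relG` (the condition `⊤` is in `g`). `mem_S`: `val (opairN (nB w) (nG x))` is the pair of
the values, by injectivity (`ZFSet.pair_inj`, `eB_inj`, `eG_inj`) the `t` given by `mem_val_relG` is
`(w, x)` (its components are in `X` by `proj`). Similarly `mem_Ph`, `mem_add`. `mem_omega_iff`:
`emb_val.omega` with `o = el (checkN omegaZ)` (`natZ_mem`), and `natZ_mem` for `checkN (natZ n)`.
`succ_eN`: `emb_val.succ`, `natZ (n + 1) = insert (natZ n) (natZ n)` (by definition). -/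

namespace Pool.Agent.RFN

open Pool.Agent.ChoicelessEmb LName

open Pool.Agent.H78.ZF (ZFM opair omega succ)

theorem mem_val_relG {P : Type} {X : Set (LName P)} {g : Set P} {T : Type} {nm : T → LName P}
    {R : T → P → Prop} {v : ZFSet.{0}} : v ∈ val X g (relG nm R) ↔
      ∃ t, nm t ∈ X ∧ (∃ p ∈ g, R t p) ∧ v = val X g (nm t) := by
  rw [mem_val]
  constructor
  · rintro ⟨u, p, hu, hX, hp, rfl⟩
    obtain ⟨t, ht, rfl⟩ := mem_ch_relG.1 hu
    exact ⟨t, hX, ⟨p, hp, ht⟩, rfl⟩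
  · rintro ⟨t, hX, ⟨p, hp, ht⟩, rfl⟩
    exact ⟨nm t, p, mem_ch_relG.2 ⟨t, ht, rfl⟩, hX, hp, rfl⟩

variable {X : Set Na} {g : Set Pf} [hs : SX X g]

theorem exists_el (a : Mod X g) : ∃ u hu, a = el X g u hu := by
  obtain ⟨_, u, hu, rfl⟩ := a
  exact ⟨u, hu, rfl⟩

theorem el_eq_iff {u v : Na} (hu : u ∈ X) (hv : v ∈ X) :
    el X g u hu = el X g v hv ↔ ∃ p ∈ g, feq u v p := by
  rw [← val_eq_iff hs.st.op.atom hu hv]
  exact Subtype.ext_iff

theorem mem_el {u v : Na} (hu : u ∈ X) (hv : v ∈ X) :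
    el X g u hu ∈ el X g v hv ↔ ∃ p ∈ g, fmem u v p :=
  val_mem_iff hs.st.op.atom hu hv

theorem opair_el {u v : Na} (hu : u ∈ X) (hv : v ∈ X) :
    opair (el X g u hu) (el X g v hv) = el X g (opairN u v) (hs.st.opair u hu v hv) := by
  apply Subtype.ext
  refine (emb_val.opair (el X g u hu) (el X g v hv)).trans ?_
  exact (val_opairN hs.st.op.atom.fil hs.st.op.pair hu hv).symm

/-- equality of canonical names -/
private theorem ck_inj {T : Type} {x y : T} (hx : ckT T x ∈ X) (hy : ckT T y ∈ X)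
    (h : el X g (ckT T x) hx = el X g (ckT T y) hy) : x = y := by
  obtain ⟨p, _, hp⟩ := (el_eq_iff hx hy).1 h
  exact cd_inj T (feq_checkN hp)

theorem eG_inj : Function.Injective (eG X g) :=
  fun x y h => Subtype.ext (ck_inj x.2 y.2 h)

theorem eO_inj : Function.Injective (eO X g) :=
  fun x y h => Subtype.ext (ck_inj x.2 y.2 h)

theorem eB_inj : Function.Injective (eB X g) :=
  fun x y h => Subtype.ext (ck_inj x.2 y.2 h)

theorem eN_inj : Function.Injective (eN X g) := by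
  intro m n h
  obtain ⟨p, _, hp⟩ := (el_eq_iff (hs.st.nat m) (hs.st.nat n)).1 h
  exact natZ_injective (feq_checkN hp)

/-- membership in a relation -/
private theorem mem_rel {T : Type} {nm : T → Na} {R : T → Pf → Prop} (h : relG nm R ∈ X)
    {a : Mod X g} : a ∈ el X g (relG nm R) h ↔
      ∃ t, ∃ ht : nm t ∈ X, (∃ p ∈ g, R t p) ∧ a = el X g (nm t) ht := by
  have h1 : a ∈ el X g (relG nm R) h ↔ a.1 ∈ val X g (relG nm R) := Iff.rfl
  rw [h1, mem_val_relG]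
  constructor
  · rintro ⟨t, ht, hp, e⟩
    exact ⟨t, ht, hp, Subtype.ext e⟩
  · rintro ⟨t, ht, hp, e⟩
    exact ⟨t, ht, hp, congrArg Subtype.val e⟩

include hs in
private theorem top_g : (⊤ : Pf) ∈ g := hs.st.op.atom.fil.top_mem

/-- equality of pairs -/
private theorem opair_eq {a b : Mod X g} {u v : Na} (h : opairN u v ∈ X)
    (e : opair a b = el X g (opairN u v) h) :
    a = el X g u (hs.st.proj u v h).1 ∧ b = el X g v (hs.st.proj u v h).2 := by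
  refine Pool.Agent.H78.ZF.opair_inj (e.trans ?_)
  exact (opair_el (hs.st.proj u v h).1 (hs.st.proj u v h).2).symm

theorem mem_G {a : Mod X g} : a ∈ (hd X g).G ↔ ∃ x, a = eG X g x := by
  refine (mem_rel hs.st.nmG).trans ⟨?_, ?_⟩
  · rintro ⟨t, ht, _, e⟩
    exact ⟨⟨t, ht⟩, e⟩
  · rintro ⟨x, e⟩
    exact ⟨x.1, x.2, ⟨⊤, top_g (X := X), trivial⟩, e⟩

theorem mem_D {a : Mod X g} : a ∈ (hd X g).D ↔ ∃ x, a = eO X g x := by
  refine (mem_rel hs.st.nmD).trans ⟨?_, ?_⟩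
  · rintro ⟨t, ht, _, e⟩
    exact ⟨⟨t, ht⟩, e⟩
  · rintro ⟨x, e⟩
    exact ⟨x.1, x.2, ⟨⊤, top_g (X := X), trivial⟩, e⟩

theorem mem_B {a : Mod X g} : a ∈ (hd X g).Bs ↔ ∃ x, a = eB X g x := by
  refine (mem_rel hs.st.nmB).trans ⟨?_, ?_⟩
  · rintro ⟨t, ht, _, e⟩
    exact ⟨⟨t, ht⟩, e⟩
  · rintro ⟨x, e⟩
    exact ⟨x.1, x.2, ⟨⊤, top_g (X := X), trivial⟩, e⟩

theorem mem_S {w : {x : Bx // nB x ∈ X}} {x : {x : Gp // nG x ∈ X}} :
    opair (eB X g w) (eG X g x) ∈ (hd X g).S ↔ ∃ p ∈ g, InS p w.1 x.1 := by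
  refine (mem_rel hs.st.nmS).trans ⟨?_, ?_⟩
  · rintro ⟨t, ht, hp, e⟩
    obtain ⟨e1, e2⟩ := opair_eq ht e
    have h1 := ck_inj w.2 (hs.st.proj _ _ ht).1 e1
    have h2 := ck_inj x.2 (hs.st.proj _ _ ht).2 e2
    rw [h1, h2]
    exact hp
  · intro hp
    exact ⟨(w.1, x.1), hs.st.opair _ w.2 _ x.2, hp, opair_el w.2 x.2⟩

theorem mem_Ph {x y : {x : Gp // nG x ∈ X}} {ξ : {x : Om // nO x ∈ X}} :
    opair (eG X g x) (opair (eG X g y) (eO X g ξ)) ∈ (hd X g).Ph ↔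
      ∃ p ∈ g, InPh p x.1 y.1 ξ.1 := by
  refine (mem_rel hs.st.nmPh).trans ⟨?_, ?_⟩
  · rintro ⟨t, ht, hp, e⟩
    obtain ⟨e1, e2⟩ := opair_eq ht e
    have ht2 := (hs.st.proj _ _ ht).2
    obtain ⟨e3, e4⟩ := opair_eq ht2 e2
    have h1 := ck_inj x.2 (hs.st.proj _ _ ht).1 e1
    have h2 := ck_inj y.2 (hs.st.proj _ _ ht2).1 e3
    have h3 := ck_inj ξ.2 (hs.st.proj _ _ ht2).2 e4
    rw [h1, h2, h3]
    exact hp
  · intro hp
    have h1 : opairN (nG y.1) (nO ξ.1) ∈ X := hs.st.opair _ y.2 _ ξ.2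
    refine ⟨(x.1, y.1, ξ.1), hs.st.opair _ x.2 _ h1, hp, ?_⟩
    have e1 : opair (eG X g y) (eO X g ξ) = el X g (opairN (nG y.1) (nO ξ.1)) h1 :=
      opair_el y.2 ξ.2
    rw [e1]
    exact opair_el x.2 h1

theorem mem_Ph' {a : Mod X g} (h : a ∈ (hd X g).Ph) :
    ∃ x y ξ, a = opair (eG X g x) (opair (eG X g y) (eO X g ξ)) := by
  obtain ⟨t, ht, _, rfl⟩ := (mem_rel hs.st.nmPh).1 h
  have ht1 := (hs.st.proj _ _ ht).1
  have ht2 := (hs.st.proj _ _ ht).2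
  have ht3 := (hs.st.proj _ _ ht2).1
  have ht4 := (hs.st.proj _ _ ht2).2
  refine ⟨⟨t.1, ht1⟩, ⟨t.2.1, ht3⟩, ⟨t.2.2, ht4⟩, ?_⟩
  have e1 : opair (eG X g ⟨t.2.1, ht3⟩) (eO X g ⟨t.2.2, ht4⟩) =
      el X g (opairN (nG t.2.1) (nO t.2.2)) ht2 := opair_el ht3 ht4
  rw [e1]
  exact (opair_el ht1 ht2).symm

theorem mem_add {x y z : {x : Gp // nG x ∈ X}} :
    opair (opair (eG X g x) (eG X g y)) (eG X g z) ∈ (hd X g).add ↔ z.1 = x.1 + y.1 := by
  refine (mem_rel hs.st.nmAdd).trans ⟨?_, ?_⟩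
  · rintro ⟨t, ht, ⟨_, _, hp⟩, e⟩
    obtain ⟨e1, e2⟩ := opair_eq ht e
    have ht1 := (hs.st.proj _ _ ht).1
    obtain ⟨e3, e4⟩ := opair_eq ht1 e1
    have h1 := ck_inj x.2 (hs.st.proj _ _ ht1).1 e3
    have h2 := ck_inj y.2 (hs.st.proj _ _ ht1).2 e4
    have h3 := ck_inj z.2 (hs.st.proj _ _ ht).2 e2
    rw [h1, h2, h3]
    exact hp
  · intro hp
    have h1 : opairN (nG x.1) (nG y.1) ∈ X := hs.st.opair _ x.2 _ y.2
    refine ⟨((x.1, y.1), z.1), hs.st.opair _ h1 _ z.2, ⟨⊤, top_g (X := X), hp⟩, ?_⟩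
    have e1 : opair (eG X g x) (eG X g y) = el X g (opairN (nG x.1) (nG y.1)) h1 :=
      opair_el x.2 y.2
    rw [e1]
    exact opair_el h1 z.2

theorem mem_add' {a : Mod X g} (h : a ∈ (hd X g).add) :
    ∃ x y z, a = opair (opair (eG X g x) (eG X g y)) (eG X g z) := by
  obtain ⟨t, ht, _, rfl⟩ := (mem_rel hs.st.nmAdd).1 h
  have ht1 := (hs.st.proj _ _ ht).1
  have ht2 := (hs.st.proj _ _ ht).2
  have ht3 := (hs.st.proj _ _ ht1).1
  have ht4 := (hs.st.proj _ _ ht1).2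
  refine ⟨⟨t.1.1, ht3⟩, ⟨t.1.2, ht4⟩, ⟨t.2, ht2⟩, ?_⟩
  have e1 : opair (eG X g ⟨t.1.1, ht3⟩) (eG X g ⟨t.1.2, ht4⟩) =
      el X g (opairN (nG t.1.1) (nG t.1.2)) ht1 := opair_el ht3 ht4
  rw [e1]
  exact (opair_el ht1 ht2).symm

private theorem val_eN (n : ℕ) : (eN X g n).1 = natZ n :=
  hs.st.natZ_mem (Or.inr ⟨n, rfl⟩)

theorem mem_omega_iff {a : Mod X g} : a ∈ (omega : Mod X g) ↔ ∃ n, a = eN X g n := by
  have ho : (el X g (checkN omegaZ) hs.st.om).1 = omegaZ := hs.st.natZ_mem (Or.inl rfl)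
  rw [emb_val.omega (o := el X g (checkN omegaZ) hs.st.om) ho]
  constructor
  · rintro ⟨n, hn⟩
    exact ⟨n, Subtype.ext (hn.trans (val_eN n).symm)⟩
  · rintro ⟨n, rfl⟩
    exact ⟨n, val_eN n⟩

theorem succ_eN (n : ℕ) : succ (eN X g n) = eN X g (n + 1) := by
  apply Subtype.ext
  refine (emb_val.succ (eN X g n)).trans ?_
  rw [val_eN (n + 1)]
  show insert (eN X g n).1 (eN X g n).1 = _
  rw [val_eN n]
  rfl

end Pool.Agent.RFN
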