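import Pool.Agent.RFN.SGrp

set_option autoImplicit false

/-! # The generic bijection in the model

PROOFS. `Ph_bij`: elements of `Ph` are of the required form (`mem_Ph'`). Existence of values:
`domG` gives `p ∈ g0` with `x ∈ AA p.a`, and the values `p.pi x`, `p.d x` have names in `X` (`ph`);
`InPh p x _ _`. Uniqueness: for `p, q ∈ g` with `InPh p x y ξ`, `InPh q x y' ξ'` take a common
extension (`InPh.mono`). Injectivity: same with `Valid.inj`. Surjectivity: `surj`.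
`loc`: `ap Ph x = (y, ξ)` means `InPh p x y ξ` for some `p ∈ g`; take `w = ({x}, ∅)` (`bsingle`). For
`l` with `InS q w l`, `q ∈ g`, a common extension `r ∈ g` has `l ∈ r.L x`, so
`InPh r (x + l) (y + l) ξ` by `loc_pi`, `loc_d`. -/

namespace Pool.Agent.RFN

open Pool.Agent.ChoicelessEmb LName

open Pool.Agent.H78.ZF (ZFM opair omega succ Fun prod ap Bij)

variable {X : Set Na} {g : Set Pf} [hs : SX X g]

private theorem sph_form {a b : Mod X g} (h : opair a b ∈ (hd X g).Ph) :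
    ∃ x y ξ, a = eG X g x ∧ b = opair (eG X g y) (eO X g ξ) := by
  obtain ⟨x, y, ξ, e⟩ := mem_Ph' h
  obtain ⟨h1, h2⟩ := Pool.Agent.H78.ZF.opair_inj e
  exact ⟨x, y, ξ, h1, h2⟩

private theorem sph_fun : Fun (hd X g).Ph (hd X g).G (prod (hd X g).G (hd X g).D) := by
  refine ⟨fun p hp => ?_, fun a ha => ?_⟩
  · obtain ⟨x, y, ξ, rfl⟩ := mem_Ph' hp
    refine ⟨eG X g x, mem_G.2 ⟨x, rfl⟩, opair (eG X g y) (eO X g ξ), ?_, rfl⟩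
    exact (Pool.Agent.H78.ZF.mem_prod _ _ _).2
      ⟨eG X g y, mem_G.2 ⟨y, rfl⟩, eO X g ξ, mem_D.2 ⟨ξ, rfl⟩, rfl⟩
  · obtain ⟨x, rfl⟩ := mem_G.1 ha
    obtain ⟨p, hp, hx⟩ := hs.st.domG x.1 x.2
    obtain ⟨h1, h2⟩ := hs.st.ph x.1 x.2 p hp hx
    refine ⟨opair (eG X g ⟨p.1.pi x.1, h1⟩) (eO X g ⟨p.1.d x.1, h2⟩),
      mem_Ph.2 ⟨p, hs.st.op.atom.sub hp, hx, rfl, rfl⟩, fun b hb => ?_⟩
    obtain ⟨x', y, ξ, e, rfl⟩ := sph_form hb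
    have ex : x = x' := eG_inj e
    subst ex
    obtain ⟨q, hq, hq'⟩ := mem_Ph.1 hb
    obtain ⟨r, hr, hrp, hrq⟩ := hs.st.op.atom.fil.dir p q (hs.st.op.atom.sub hp) hq
    have i1 : InPh r x.1 y.1 ξ.1 := hq'.mono hrq
    have i2 : InPh r x.1 (p.1.pi x.1) (p.1.d x.1) := InPh.mono ⟨hx, rfl, rfl⟩ hrp
    have e1 : y = ⟨p.1.pi x.1, h1⟩ := Subtype.ext (i1.2.1.symm.trans i2.2.1)
    have e2 : ξ = ⟨p.1.d x.1, h2⟩ := Subtype.ext (i1.2.2.symm.trans i2.2.2)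
    rw [e1, e2]

theorem hd_Ph_bij : Bij (hd X g).Ph (hd X g).G (prod (hd X g).G (hd X g).D) := by
  refine ⟨⟨sph_fun, fun a a' b h h' => ?_⟩, fun b hb => ?_⟩
  · obtain ⟨x, y, ξ, rfl, rfl⟩ := sph_form h
    obtain ⟨x', y', ξ', rfl, e⟩ := sph_form h'
    obtain ⟨e1, e2⟩ := Pool.Agent.H78.ZF.opair_inj e
    have ey : y = y' := eG_inj e1
    have eξ : ξ = ξ' := eO_inj e2
    subst ey eξ
    obtain ⟨p, hp, hp'⟩ := mem_Ph.1 h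
    obtain ⟨q, hq, hq'⟩ := mem_Ph.1 h'
    obtain ⟨r, hr, hrp, hrq⟩ := hs.st.op.atom.fil.dir p q hp hq
    have i1 : InPh r x.1 y.1 ξ.1 := hp'.mono hrp
    have i2 : InPh r x'.1 y.1 ξ.1 := hq'.mono hrq
    have e3 : x = x' := Subtype.ext (r.2.inj x.1 i1.1 x'.1 i2.1 (i1.2.1.trans i2.2.1.symm)
      (i1.2.2.trans i2.2.2.symm))
    rw [e3]
  · obtain ⟨a1, h1, a2, h2, rfl⟩ := (Pool.Agent.H78.ZF.mem_prod _ _ _).1 hb
    obtain ⟨y, rfl⟩ := mem_G.1 h1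
    obtain ⟨ξ, rfl⟩ := mem_D.1 h2
    obtain ⟨x, hx, p, hp, hp'⟩ := hs.st.surj y.1 ξ.1 y.2 ξ.2
    exact ⟨eG X g ⟨x, hx⟩, mem_Ph.2 ⟨p, hs.st.op.atom.sub hp, hp'⟩⟩

theorem hd_loc : ∀ x y ξ, x ∈ (hd X g).G → y ∈ (hd X g).G → ξ ∈ (hd X g).D →
    ap (hd X g).Ph x = opair y ξ →
    ∃ w, w ∈ (hd X g).Bs ∧ ∀ l, l ∈ (hd X g).G → opair w l ∈ (hd X g).S →
      ap (hd X g).Ph (ad (hd X g).add x l) = opair (ad (hd X g).add y l) ξ := by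
  intro a b c ha hb hc hab
  obtain ⟨x, rfl⟩ := mem_G.1 ha
  obtain ⟨y, rfl⟩ := mem_G.1 hb
  obtain ⟨ξ, rfl⟩ := mem_D.1 hc
  have h0 := (sph_fun (X := X) (g := g)).opair_ap ha
  rw [hab] at h0
  obtain ⟨p, hp, hp'⟩ := mem_Ph.1 h0
  refine ⟨eB X g ⟨({x.1}, ∅), hs.st.bsingle x.1 x.2⟩, mem_B.2 ⟨_, rfl⟩, fun l hl hS => ?_⟩
  obtain ⟨l, rfl⟩ := mem_G.1 hl
  obtain ⟨q, hq, hq'⟩ := mem_S.1 hS
  obtain ⟨r, hr, hrp, hrq⟩ := hs.st.op.atom.fil.dir p q hp hq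
  have i1 : InPh r x.1 y.1 ξ.1 := hp'.mono hrp
  have i2 : InS r ({x.1}, ∅) l.1 := hq'.mono hrq
  have hL : l.1 ∈ r.1.L x.1 := i2.2.2.1 x.1 (Finset.mem_singleton_self _)
  rw [ad_e, ad_e]
  refine (sph_fun (X := X) (g := g)).ap_eq (mem_Ph.2 ⟨r, hr, ?_⟩)
  refine ⟨(AA r.1.a).add_mem i1.1 i2.2.1, ?_, ?_⟩
  · show r.1.pi (x.1 + l.1) = y.1 + l.1
    rw [r.2.loc_pi x.1 i1.1 l.1 hL, i1.2.1]
  · show r.1.d (x.1 + l.1) = ξ.1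
    rw [r.2.loc_d x.1 i1.1 l.1 hL, i1.2.2]

end Pool.Agent.RFN
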