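import Pool.Agent.RFN.SDefs

set_option autoImplicit false

/-! # The basic requirements can be met

PROOF of `req_st`: conjunction (`Req.and`, `Req.forall`, `Req.mono`) of
* `req_opG`, `req_proj`; `nat`: `Req.forall` over `n` of `Req.const`; the names: `Req.const`;
* `add`: `reqc_op (nm2 nG nG) _ nG (fun t => t.1 + t.2)`; `bsingle`: `reqc_op nG _ nB _`;
  `bunion`: `reqc_op (nm2 nB nB) _ nB _` (union, classical decidability); membership of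
  `nm2 a b t` in `X` from the closure under `opairN`;
* `dom`: `reqc_dec nB _ (fun w => {p | Dom p w})`, dense by `ext_dom` (for `w = (Z, W)` take the
  union of the supports of the elements of `Z`, and `W`); `domG`: `{p | x ∈ AA p.a}`, `ext_dom`
  with `x.support`;
* `ph`: `reqc_refl nG _ (nm2 nG nO) (fun x r t => t.1 = r.1.pi x ∧ t.2 = r.1.d x)` and projections;
* `surj`: `reqc_dec (nm2 nG nO) _ (fun t => {p | ∃ x, InPh p x t.1 t.2})`, dense by `ext_dom` (with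
  `y.support`) and `ext_surj`; and `reqc_refl (nm2 nG nO) _ nG (fun t r x => InPh r x t.1 t.2)`;
* `haus`: `reqc_dec nG _ (fun x => {p | ∃ y, x ∈ AA p.a ∧ y ∈ AA p.a ∧ x ∉ p.L y})`, for `x ≠ 0`
  dense by `ext_dom` and `ext_haus`; and `reqc_refl`.
`dec0_dense` turns `Dec0` for a dense set into the existence of a member in `g0`. -/

namespace Pool.Agent.RFN

open Pool.Agent.ChoicelessEmb LName

theorem dec0_dense {P : Type} [Preorder P] {g0 D : Set P} (h : Dec0 g0 D)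
    (hD : ∀ p : P, ∃ r ≤ p, r ∈ D) : ∃ p ∈ g0, p ∈ D := by
  obtain ⟨p, hp, h1 | h1⟩ := h
  · exact ⟨p, hp, h1⟩
  · obtain ⟨r, hr, hr'⟩ := hD p
    exact absurd hr' (h1 r hr)

theorem req_stC : Req fun (X : Set Na) _ _ => (∀ n, (nN n : Na) ∈ X) ∧
    ((checkN omegaZ : Na) ∈ X ∧ nmG ∈ X ∧ nmD ∈ X ∧ nmB ∈ X) ∧
    (nmS ∈ X ∧ nmPh ∈ X ∧ nmAdd ∈ X) ∧ nG 0 ∈ X ∧ nO ⊥ ∈ X ∧ nB (∅, ∅) ∈ X :=
  (Req.forall fun _ => Req.const _).and
    (((Req.const _).and ((Req.const _).and ((Req.const _).and (Req.const _)))).and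
      (((Req.const _).and ((Req.const _).and (Req.const _))).and
        ((Req.const _).and ((Req.const _).and (Req.const _)))))

theorem req_add : Req fun (X : Set Na) _ _ =>
    ∀ x y, nG x ∈ X → nG y ∈ X → nG (x + y) ∈ X := by
  refine ((reqc_op (nm2 nG nG) (nm2_inj nG_inj nG_inj) nG (fun t => t.1 + t.2)).and
    req_proj).mono ?_
  rintro X g0 g _ ⟨h1, h2, _⟩ x y hx hy
  exact h1 (x, y) (h2 _ hx _ hy)

theorem req_bsingle : Req fun (X : Set Na) _ _ => ∀ x, nG x ∈ X → nB ({x}, ∅) ∈ X :=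
  reqc_op nG nG_inj nB (fun x => ({x}, ∅))

theorem req_bunion : Req fun (X : Set Na) _ _ => ∀ w w' : Bx, nB w ∈ X → nB w' ∈ X →
    ∃ w'', nB w'' ∈ X ∧ w.1 ⊆ w''.1 ∧ w.2 ⊆ w''.2 ∧ w'.1 ⊆ w''.1 ∧ w'.2 ⊆ w''.2 := by
  classical
  refine ((reqc_op (nm2 nB nB) (nm2_inj nB_inj nB_inj) nB
    (fun t => (t.1.1 ∪ t.2.1, t.1.2 ∪ t.2.2))).and req_proj).mono ?_
  rintro X g0 g _ ⟨h1, h2, _⟩ w w' hw hw'
  exact ⟨_, h1 (w, w') (h2 _ hw _ hw'), Finset.subset_union_left, Finset.subset_union_left,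
    Finset.subset_union_right, Finset.subset_union_right⟩

theorem exists_dom (p : Pf) (w : Bx) : ∃ r ≤ p, Dom r w := by
  classical
  obtain ⟨q, hq, ha, hj⟩ := ext_dom p (w.1.biUnion fun x => x.support) w.2
  refine ⟨q, hq, fun u hu => ?_, hj⟩
  refine AA_mono ?_ (mem_AA_support u)
  exact (Finset.subset_biUnion_of_mem (fun x : Gp => x.support) hu).trans ha

theorem exists_domG (p : Pf) (x : Gp) : ∃ r ≤ p, x ∈ AA r.1.a := by
  obtain ⟨q, hq, ha, _⟩ := ext_dom p x.support ∅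
  exact ⟨q, hq, AA_mono ha (mem_AA_support x)⟩

theorem exists_inPh (p : Pf) (y : Gp) (ξ : Om) : ∃ r ≤ p, ∃ x, InPh r x y ξ := by
  obtain ⟨q, hq, hy⟩ := exists_domG p y
  obtain ⟨r, hr, x, hx, h1, h2⟩ := ext_surj q y hy ξ
  exact ⟨r, le_trans hr hq, x, hx, h1, h2⟩

theorem exists_haus (p : Pf) (x : Gp) (h0 : x ≠ 0) :
    ∃ r ≤ p, ∃ y, x ∈ AA r.1.a ∧ y ∈ AA r.1.a ∧ x ∉ r.1.L y := by
  obtain ⟨q, hq, hx⟩ := exists_domG p x
  obtain ⟨r, hr, y, hy, h1⟩ := ext_haus q x hx h0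
  exact ⟨r, le_trans hr hq, y, AA_mono (show Le r.1 q.1 from hr).a hx, hy, h1⟩

theorem req_dom : Req fun (X : Set Na) g0 _ => ∀ w : Bx, nB w ∈ X → ∃ p ∈ g0, Dom p w := by
  refine (reqc_dec nB nB_inj (fun w => {p | Dom p w})).mono ?_
  intro X g0 g _ h w hw
  exact dec0_dense (h w hw) fun p => exists_dom p w

theorem req_domG : Req fun (X : Set Na) g0 _ => ∀ x, nG x ∈ X → ∃ p ∈ g0, x ∈ AA p.1.a := by
  refine (reqc_dec nG nG_inj (fun x => {p : Pf | x ∈ AA p.1.a})).mono ?_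
  intro X g0 g _ h x hx
  exact dec0_dense (h x hx) fun p => exists_domG p x

theorem req_ph : Req fun (X : Set Na) g0 _ => ∀ x, nG x ∈ X → ∀ p ∈ g0, x ∈ AA p.1.a →
    nG (p.1.pi x) ∈ X ∧ nO (p.1.d x) ∈ X := by
  refine ((reqc_refl nG nG_inj (nm2 nG nO)
    (fun x (r : Pf) t => t.1 = r.1.pi x ∧ t.2 = r.1.d x)).and req_proj).mono ?_
  rintro X g0 g _ ⟨h1, _, h2⟩ x hx p hp _
  obtain ⟨t, ht, e1, e2⟩ := h1 x hx p hp ⟨(p.1.pi x, p.1.d x), rfl, rfl⟩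
  rw [← e1, ← e2]
  exact h2 _ _ ht

theorem req_surj : Req fun (X : Set Na) g0 _ => ∀ y ξ, nG y ∈ X → nO ξ ∈ X →
    ∃ x, nG x ∈ X ∧ ∃ p ∈ g0, InPh p x y ξ := by
  refine (((reqc_dec (nm2 nG nO) (nm2_inj nG_inj nO_inj)
    (fun t => {p | ∃ x, InPh p x t.1 t.2})).and
    (reqc_refl (nm2 nG nO) (nm2_inj nG_inj nO_inj) nG
      (fun t r x => InPh r x t.1 t.2))).and req_proj).mono ?_
  rintro X g0 g _ ⟨⟨h1, h2⟩, h3, _⟩ y ξ hy hξ
  have ht : nm2 nG nO (y, ξ) ∈ X := h3 _ hy _ hξ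
  obtain ⟨p, hp, hp'⟩ := dec0_dense (h1 (y, ξ) ht) fun p => exists_inPh p y ξ
  obtain ⟨x, hx, hx'⟩ := h2 (y, ξ) ht p hp hp'
  exact ⟨x, hx, p, hp, hx'⟩

theorem req_haus : Req fun (X : Set Na) g0 _ => ∀ x, nG x ∈ X → x ≠ 0 →
    ∃ y, nG y ∈ X ∧ ∃ p ∈ g0, x ∈ AA p.1.a ∧ y ∈ AA p.1.a ∧ x ∉ p.1.L y := by
  refine ((reqc_dec nG nG_inj
    (fun x => {p : Pf | ∃ y, x ∈ AA p.1.a ∧ y ∈ AA p.1.a ∧ x ∉ p.1.L y})).and
    (reqc_refl nG nG_inj nG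
      (fun x (p : Pf) y => x ∈ AA p.1.a ∧ y ∈ AA p.1.a ∧ x ∉ p.1.L y))).mono ?_
  rintro X g0 g _ ⟨h1, h2⟩ x hx h0
  obtain ⟨p, hp, hp'⟩ := dec0_dense (h1 x hx) fun p => exists_haus p x h0
  obtain ⟨y, hy, hy'⟩ := h2 x hx p hp hp'
  exact ⟨y, hy, p, hp, hy'⟩

theorem req_st : Req fun (X : Set Na) g0 g => St X g0 g := by
  refine ((req_opG (P := Pf)).and (req_proj.and (req_stC.and (req_add.and (req_bsingle.and
    (req_bunion.and (req_dom.and (req_domG.and (req_ph.and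
      (req_surj.and req_haus)))))))))).mono ?_
  rintro X g0 g _ ⟨h1, ⟨h2, h3⟩, ⟨h4, ⟨h5, h6, h7, h8⟩, ⟨h9, h10, h11⟩, h12, h13, h14⟩,
    h15, h16, h17, h18, h19, h20, h21, h22⟩
  exact ⟨h1, h2, h3, h4, h5, h6, h7, h8, h9, h10, h11, h12, h15, h13, h14, h16, h17, h18, h19,
    h20, h21, h22⟩

end Pool.Agent.RFN
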