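import Pool.Agent.RFN.StarDefs

set_option autoImplicit false

/-! # The requirements for sequences of open sets can be met

PROOF. Conjunction (`Req.and`, `Req.forall` over the natural numbers, `Req.mono`) of `Req.op1`,
`reqc_op`, `reqc_dec`, `reqc_refl` for the types `Na`, `Na × Gp` (coding `nm2 id nG`, injective by
`nm2_inj Function.injective_id nG_inj`), `Na × Gp × Bx` (coding `nm2 id (nm2 nG nB)`); the codes
are in `X` by `req_proj`. `wnm`: `Req.forall` over `n` of `reqc_op id _ nB (fun O => wn O n)`.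
`idx`: `reqc_dec` for the set `{r | ∃ y, IxP O n x r y}`, which is dense: given `p` take by `ext_dom`
`p' ≤ p` with `x ∈ AA p'.a` (`x.support ⊆ p'.a`) and `(wn O n).2 ⊆ p'.j`, then `IF_max`; so some
`r ∈ g0` is in the set; `reqc_refl` gives `y` with `nG y ∈ X`. -/

namespace Pool.Agent.RFN

open Pool.Agent.ChoicelessEmb LName

private theorem inj_id : Function.Injective (id : Na → Na) := Function.injective_id

theorem exists_ixP (O : Na) (n : ℕ) (x : Gp) (p : Pf) :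
    ∃ r ≤ p, ∃ y, IxP O n x r y := by
  obtain ⟨q, hq, ha, hj⟩ := ext_dom p x.support (wn O n).2
  have hx : x ∈ AA q.1.a := AA_mono ha (mem_AA_support x)
  obtain ⟨k, q', y, h1, r, hr, hr', h2⟩ := IF_max hj hx
  refine ⟨r, le_trans hr hq, y, k, q', h1, hr', ?_, h2⟩
  exact AA_mono (show Le r.1 q.1 from hr).a hx

theorem req_wseq : Req fun (X : Set Na) _ _ => ∀ O ∈ X, wseqN O ∈ X := Req.op1 _

theorem req_cseq : Req fun (X : Set Na) _ _ => ∀ O ∈ X, cseqN O ∈ X := Req.op1 _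

theorem req_wnm : Req fun (X : Set Na) _ _ => ∀ O ∈ X, ∀ n, nB (wn O n) ∈ X := by
  refine (Req.forall fun n : ℕ => reqc_op id inj_id nB (fun O => wn O n)).mono ?_
  intro X g0 g _ h O hO n
  exact h n O hO

theorem req_bad : Req fun (X : Set Na) g0 _ => ∀ O ∈ X, ∀ i j x w, nG x ∈ X → nB w ∈ X →
    Dec0 g0 {r | ∃ z, BdP O i j x w r z} := by
  refine ((Req.forall fun ij : ℕ × ℕ => reqc_dec (nm2 (id : Na → Na) (nm2 nG nB))
    (nm2_inj inj_id (nm2_inj nG_inj nB_inj))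
    (fun t => {r | ∃ z, BdP t.1 ij.1 ij.2 t.2.1 t.2.2 r z})).and req_proj).mono ?_
  rintro X g0 g _ ⟨h1, h2, _⟩ O hO i j x w hx hw
  exact h1 (i, j) (O, x, w) (h2 _ hO _ (h2 _ hx _ hw))

theorem req_badr : Req fun (X : Set Na) g0 _ => ∀ O ∈ X, ∀ i j x w, nG x ∈ X → nB w ∈ X →
    ∀ r ∈ g0, (∃ z, BdP O i j x w r z) → ∃ z, nG z ∈ X ∧ BdP O i j x w r z := by
  refine ((Req.forall fun ij : ℕ × ℕ => reqc_refl (nm2 (id : Na → Na) (nm2 nG nB))
    (nm2_inj inj_id (nm2_inj nG_inj nB_inj)) nG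
    (fun t r z => BdP t.1 ij.1 ij.2 t.2.1 t.2.2 r z)).and req_proj).mono ?_
  rintro X g0 g _ ⟨h1, h2, _⟩ O hO i j x w hx hw r hr hz
  exact h1 (i, j) (O, x, w) (h2 _ hO _ (h2 _ hx _ hw)) r hr hz

theorem req_ant : Req fun (X : Set Na) g0 _ => ∀ O ∈ X, ∀ i j x, nG x ∈ X →
    Dec0 g0 {r | ∃ k q, KF O i j x k = some q ∧ r ≤ q} := by
  refine ((Req.forall fun ij : ℕ × ℕ => reqc_dec (nm2 (id : Na → Na) nG)
    (nm2_inj inj_id nG_inj)
    (fun t => {r | ∃ k q, KF t.1 ij.1 ij.2 t.2 k = some q ∧ r ≤ q})).and req_proj).mono ?_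
  rintro X g0 g _ ⟨h1, h2, _⟩ O hO i j x hx
  exact h1 (i, j) (O, x) (h2 _ hO _ hx)

theorem req_bmem : Req fun (X : Set Na) g0 _ => ∀ O ∈ X, ∀ i j x, nG x ∈ X →
    Dec0 g0 {r | ∃ n, (bt O i j, n) ∈ r.1.j ∧ x ∈ r.1.B (bt O i j, n)} := by
  refine ((Req.forall fun ij : ℕ × ℕ => reqc_dec (nm2 (id : Na → Na) nG)
    (nm2_inj inj_id nG_inj)
    (fun t => {r | ∃ n, (bt t.1 ij.1 ij.2, n) ∈ r.1.j ∧
      t.2 ∈ r.1.B (bt t.1 ij.1 ij.2, n)})).and req_proj).mono ?_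
  rintro X g0 g _ ⟨h1, h2, _⟩ O hO i j x hx
  exact h1 (i, j) (O, x) (h2 _ hO _ hx)

theorem req_idx : Req fun (X : Set Na) g0 _ => ∀ O ∈ X, ∀ n x, nG x ∈ X →
    ∃ r ∈ g0, ∃ y, nG y ∈ X ∧ IxP O n x r y := by
  refine (((Req.forall fun n : ℕ => reqc_dec (nm2 (id : Na → Na) nG)
    (nm2_inj inj_id nG_inj) (fun t => {r | ∃ y, IxP t.1 n t.2 r y})).and
    (Req.forall fun n : ℕ => reqc_refl (nm2 (id : Na → Na) nG)
      (nm2_inj inj_id nG_inj) nG (fun t r y => IxP t.1 n t.2 r y))).and req_proj).mono ?_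
  rintro X g0 g _ ⟨⟨h1, h2⟩, h3, _⟩ O hO n x hx
  have ht : nm2 (id : Na → Na) nG (O, x) ∈ X := h3 _ hO _ hx
  obtain ⟨p, hp, h4 | h4⟩ := h1 n (O, x) ht
  · obtain ⟨y, hy, h5⟩ := h2 n (O, x) ht p hp h4
    exact ⟨p, hp, y, hy, h5⟩
  · obtain ⟨r, hr, h5⟩ := exists_ixP O n x p
    exact absurd h5 (h4 r hr)

theorem req_stS : Req fun (X : Set Na) g0 _ => StS X g0 := by
  refine (req_wseq.and (req_cseq.and (req_wnm.and (req_bad.and (req_badr.and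
    (req_ant.and (req_bmem.and req_idx))))))).mono ?_
  rintro X g0 g _ ⟨h1, h2, h3, h4, h5, h6, h7, h8⟩
  exact ⟨h1, h2, h3, h4, h5, h6, h7, h8⟩

end Pool.Agent.RFN
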