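import Pool.Agent.RFN.SDict

set_option autoImplicit false

/-! # The group in the model

PROOFS. `add_fun`: elements of `prod G G` are `opair (eG x) (eG y)` (`mem_prod`, `mem_G`); the unique
value is `eG (addX x y)` (`mem_add`, `mem_add'`). `ad_e` from `Fun.ap_eq`. The group laws from those
of `Gp` (`mem_G`, `ad_e`). Filter facts: two conditions in `g` have a common extension in `g`
(`hs.st.op.atom.fil.dir`). `S_zero`: `dom`. `S_add`: common extension, `InS.mono`, subgroups.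
`dir`: `bunion`: take `w''`, and `InS p w'' x → InS p w x` for `w ⊆ w''` (componentwise).
`haus`: `x ≠ 0`: `y`, `p` from `haus`, `w = ({y}, ∅)`: if `InS q w x`, `q ∈ g`: for a common
extension `r`: `x ∈ r.L y`, so `x ∈ p.L y` (`Le.L`), contradiction. -/

namespace Pool.Agent.RFN

open Pool.Agent.ChoicelessEmb LName

open Pool.Agent.H78.ZF (ZFM opair omega succ Fun prod ap)

variable {X : Set Na} {g : Set Pf} [hs : SX X g]

theorem hd_add_fun : Fun (hd X g).add (prod (hd X g).G (hd X g).G) (hd X g).G := by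
  constructor
  · intro p hp
    obtain ⟨x, y, z, rfl⟩ := mem_add' hp
    exact ⟨opair (eG X g x) (eG X g y), (Pool.Agent.H78.ZF.opair_mem_prod _ _ _ _).2
      ⟨mem_G.2 ⟨x, rfl⟩, mem_G.2 ⟨y, rfl⟩⟩, eG X g z, mem_G.2 ⟨z, rfl⟩, rfl⟩
  · intro p hp
    obtain ⟨a, ha, b, hb, rfl⟩ := (Pool.Agent.H78.ZF.mem_prod _ _ _).1 hp
    obtain ⟨x, rfl⟩ := mem_G.1 ha
    obtain ⟨y, rfl⟩ := mem_G.1 hb
    refine ⟨eG X g (addX (g := g) x y), mem_add.2 rfl, fun c hc => ?_⟩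
    obtain ⟨x', y', z', e⟩ := mem_add' hc
    obtain ⟨_, e2⟩ := Pool.Agent.H78.ZF.opair_inj e
    subst e2
    have h1 : z'.1 = x.1 + y.1 := mem_add.1 hc
    exact congrArg (eG X g) (Subtype.ext h1)

theorem ad_e (x y : {x : Gp // nG x ∈ X}) :
    ad (hd X g).add (eG X g x) (eG X g y) = eG X g (addX (g := g) x y) :=
  (hd_add_fun (X := X) (g := g)).ap_eq (mem_add.2 rfl)

theorem hd_o : (hd X g).o = eG X g ⟨0, hs.st.zero⟩ := rfl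

theorem hd_assoc : ∀ x y z, x ∈ (hd X g).G → y ∈ (hd X g).G → z ∈ (hd X g).G →
    ad (hd X g).add (ad (hd X g).add x y) z = ad (hd X g).add x (ad (hd X g).add y z) := by
  intro x y z hx hy hz
  obtain ⟨x, rfl⟩ := mem_G.1 hx
  obtain ⟨y, rfl⟩ := mem_G.1 hy
  obtain ⟨z, rfl⟩ := mem_G.1 hz
  rw [ad_e, ad_e, ad_e, ad_e]
  exact congrArg (eG X g) (Subtype.ext (add_assoc x.1 y.1 z.1))

theorem hd_comm : ∀ x y, x ∈ (hd X g).G → y ∈ (hd X g).G →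
    ad (hd X g).add x y = ad (hd X g).add y x := by
  intro x y hx hy
  obtain ⟨x, rfl⟩ := mem_G.1 hx
  obtain ⟨y, rfl⟩ := mem_G.1 hy
  rw [ad_e, ad_e]
  exact congrArg (eG X g) (Subtype.ext (add_comm x.1 y.1))

theorem hd_zero_add : ∀ x, x ∈ (hd X g).G → ad (hd X g).add (hd X g).o x = x := by
  intro x hx
  obtain ⟨x, rfl⟩ := mem_G.1 hx
  rw [hd_o, ad_e]
  exact congrArg (eG X g) (Subtype.ext (zero_add x.1))

theorem hd_add_self : ∀ x, x ∈ (hd X g).G → ad (hd X g).add x x = (hd X g).o := by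
  intro x hx
  obtain ⟨x, rfl⟩ := mem_G.1 hx
  rw [hd_o, ad_e]
  exact congrArg (eG X g) (Subtype.ext (add_self x.1))

theorem hd_S_zero : ∀ w, w ∈ (hd X g).Bs → opair w (hd X g).o ∈ (hd X g).S := by
  intro w hw
  obtain ⟨w, rfl⟩ := mem_B.1 hw
  rw [hd_o]
  obtain ⟨p, hp, hd⟩ := hs.st.dom w.1 w.2
  exact mem_S.2 ⟨p, hs.st.op.atom.sub hp, hd, AddSubgroup.zero_mem _,
    fun u _ => AddSubgroup.zero_mem _, fun i _ => AddSubgroup.zero_mem _⟩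

theorem hd_S_add : ∀ w x y, w ∈ (hd X g).Bs → x ∈ (hd X g).G → y ∈ (hd X g).G →
    opair w x ∈ (hd X g).S → opair w y ∈ (hd X g).S →
    opair w (ad (hd X g).add x y) ∈ (hd X g).S := by
  intro w x y hw hx hy h1 h2
  obtain ⟨w, rfl⟩ := mem_B.1 hw
  obtain ⟨x, rfl⟩ := mem_G.1 hx
  obtain ⟨y, rfl⟩ := mem_G.1 hy
  rw [ad_e]
  obtain ⟨p, hp, hpx⟩ := mem_S.1 h1
  obtain ⟨q, hq, hqy⟩ := mem_S.1 h2
  obtain ⟨r, hr, hrp, hrq⟩ := hs.st.op.atom.fil.dir p q hp hq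
  obtain ⟨d, a1, a2, a3⟩ := hpx.mono hrp
  obtain ⟨_, b1, b2, b3⟩ := hqy.mono hrq
  exact mem_S.2 ⟨r, hr, d, AddSubgroup.add_mem _ a1 b1,
    fun u hu => AddSubgroup.add_mem _ (a2 u hu) (b2 u hu),
    fun i hi => AddSubgroup.add_mem _ (a3 i hi) (b3 i hi)⟩

theorem InS.sub {p : Pf} {w w'' : Bx} {x : Gp} (h : InS p w'' x) (h1 : w.1 ⊆ w''.1)
    (h2 : w.2 ⊆ w''.2) : InS p w x := by
  obtain ⟨⟨d1, d2⟩, a1, a2, a3⟩ := h
  exact ⟨⟨fun u hu => d1 u (h1 hu), h2.trans d2⟩, a1, fun u hu => a2 u (h1 hu),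
    fun i hi => a3 i (h2 hi)⟩

theorem hd_dir : ∀ w w', w ∈ (hd X g).Bs → w' ∈ (hd X g).Bs → ∃ w'', w'' ∈ (hd X g).Bs ∧
    ∀ x, x ∈ (hd X g).G → opair w'' x ∈ (hd X g).S →
      opair w x ∈ (hd X g).S ∧ opair w' x ∈ (hd X g).S := by
  intro w w' hw hw'
  obtain ⟨w, rfl⟩ := mem_B.1 hw
  obtain ⟨w', rfl⟩ := mem_B.1 hw'
  obtain ⟨w'', hX, h1, h2, h3, h4⟩ := hs.st.bunion w.1 w'.1 w.2 w'.2
  refine ⟨eB X g ⟨w'', hX⟩, mem_B.2 ⟨_, rfl⟩, fun x hx h => ?_⟩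
  obtain ⟨x, rfl⟩ := mem_G.1 hx
  obtain ⟨p, hp, hi⟩ := mem_S.1 h
  exact ⟨mem_S.2 ⟨p, hp, hi.sub h1 h2⟩, mem_S.2 ⟨p, hp, hi.sub h3 h4⟩⟩

theorem hd_haus : ∀ x, x ∈ (hd X g).G → x ≠ (hd X g).o →
    ∃ w, w ∈ (hd X g).Bs ∧ opair w x ∉ (hd X g).S := by
  intro x hx hne
  obtain ⟨x, rfl⟩ := mem_G.1 hx
  have hx0 : x.1 ≠ 0 := by
    intro h
    apply hne
    rw [hd_o]
    exact congrArg (eG X g) (Subtype.ext h)
  obtain ⟨y, hy, p, hp, hxp, hyp, hL⟩ := hs.st.haus x.1 x.2 hx0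
  refine ⟨eB X g ⟨({y}, ∅), hs.st.bsingle y hy⟩, mem_B.2 ⟨_, rfl⟩, fun h => ?_⟩
  obtain ⟨q, hq, hi⟩ := mem_S.1 h
  obtain ⟨r, hr, hrp, hrq⟩ := hs.st.op.atom.fil.dir p q (hs.st.op.atom.sub hp) hq
  obtain ⟨_, _, a2, _⟩ := hi.mono hrq
  have h1 : x.1 ∈ r.1.L y := a2 y (Finset.mem_singleton_self y)
  exact hL ((hrp.L y hyp x.1 hxp).1 h1)

end Pool.Agent.RFN
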