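import Pool.Agent.RFN.SStK
import Pool.Agent.RFN.SGrp

set_option autoImplicit false

/-! # Sequences of open sets in the generic extension

PROOFS.
* `open_wn`: `exists_Kn`, `exists_Bt`: `p ∈ g`, `m`. Let `N = max (max i j) m + 1`. If `q ∈ g`,
  `InS q (wn O N) (z + x)`, take a common extension `r ∈ g` of `p`, `q`. `(bt O i j, m) ∈ (wn O N).2`
  (`mem_wn`), so `z + x ∈ r.M (bt O i j, m)` (`InS.mono`), `x ∈ r.B (bt O i j, m)` (`Le.B`), and
  `Valid.wit` gives `Wit r (bt O i j) (x + (z + x))`, `x + (z + x) = z`; `fmem_wit`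
  (`z ∈ AA r.a` as `z + x` and `x` are).
* `ap_wseq`: `Fun.ap_eq` and `mem_val_relG`. `wseq_fun`: elements of the value of `wseqN O` are
  `opair (eN n) (eB ⟨wn O n, _⟩)`.
* `hd_star`: `w = el (wseqN O')`, `c = el (cseqN O')` for a name `O'` of `O` (`exists_el`);
  `mem_omega_iff`, `mem_G`, `mem_S`, `ad_e`, `opair_el`, `mem_el`, `succ_eN`. Decreasing:
  `(wn O n).2 ⊆ (wn O (n + 1)).2` and `InS` is monotone in the index. Index: `idx` gives
  `r ∈ g0`, `y` with `nG y ∈ X`, `IxP O n x r y`, so with `k`, `q` as in `IxP` the triple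
  `((n, k), y)` is in `c` (`mem_val_relG`, `nI_eq`), `InS r (wn O n) (x + y)` by `IF_spec`. The values
  of `c` are unique as `IF` is a function (`eN_inj`, `eG_inj`). -/

namespace Pool.Agent.RFN

open Pool.Agent.ChoicelessEmb LName

open Pool.Agent.H78.ZF (ZFM opair omega succ Fun prod ap)

variable {X : Set Na} {g0 g : Set Pf}

theorem open_wn (st : St X g0 g) (hS : StS X g0) {O : Na} (hO : O ∈ X) (i j : ℕ) {x : Gp}
    (hx : nG x ∈ X) {w : Bx} (hw : nB w ∈ X)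
    (h : ∀ z, nG z ∈ X → (∃ p ∈ g, InS p w (z + x)) → ∃ p ∈ g, fmem (nI i j z) O p) :
    ∃ N, ∀ z, (∃ p ∈ g, InS p (wn O N) (z + x)) → ∃ p ∈ g, fmem (nI i j z) O p := by
  obtain ⟨p1, hp1, hK⟩ := exists_Kn st hS hO i j hx hw h
  obtain ⟨p2, hp2, m, hm, hxB⟩ := exists_Bt st hS hO i j hx ⟨p1, hp1, w, hK⟩
  refine ⟨max (max i j) m + 1, ?_⟩
  rintro z ⟨q, hq, hin⟩
  obtain ⟨r1, hr1, h11, h12⟩ := st.op.atom.fil.dir p1 p2 hp1 hp2
  obtain ⟨r, hr, hr1', hrq⟩ := st.op.atom.fil.dir r1 q hr1 hq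
  have hrp1 : r ≤ p1 := hr1'.trans h11
  have hrp2 : r ≤ p2 := hr1'.trans h12
  have hin' := hin.mono hrq
  have hk : ((bt O i j, m) : Jx) ∈ (wn O (max (max i j) m + 1)).2 :=
    mem_wn.2 ⟨i, j, m, by omega, by omega, by omega, rfl⟩
  have h1 : z + x ∈ r.1.M (bt O i j, m) := hin'.2.2.2 _ hk
  have h2 : (bt O i j, m) ∈ r.1.j := hrp2.j hm
  have h3 : x ∈ r.1.B (bt O i j, m) := hrp2.B _ hm hxB
  have h4 : Wit r.1 (bt O i j) (x + (z + x)) := r.2.wit _ h2 x h3 _ h1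
  have hxA : x ∈ AA r.1.a := AA_mono hrp1.a hK.2.1
  have h5 : x + (z + x) = z := by
    rw [add_comm z x, ← add_assoc, Pool.Agent.RFN.add_self, zero_add]
  rw [h5] at h4
  have hzA : z ∈ AA r.1.a := by
    have h6 := AddSubgroup.add_mem _ hxA hin'.2.1
    rwa [h5] at h6
  exact ⟨r, hr, fmem_wit hzA h4⟩

section model

variable [hs : SX X g]

/-- membership in a relation -/
private theorem mem_relS {T : Type} {nm : T → Na} {R : T → Pf → Prop} (h : relG nm R ∈ X)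
    {a : Mod X g} : a ∈ el X g (relG nm R) h ↔
      ∃ t, ∃ ht : nm t ∈ X, (∃ p ∈ g, R t p) ∧ a = el X g (nm t) ht := by
  have h1 : a ∈ el X g (relG nm R) h ↔ a.1 ∈ val X g (relG nm R) := Iff.rfl
  rw [h1, mem_val_relG]
  constructor
  · rintro ⟨t, ht, hp, e⟩
    exact ⟨t, ht, hp, Subtype.ext e⟩
  · rintro ⟨t, ht, hp, e⟩
    exact ⟨t, ht, hp, congrArg Subtype.val e⟩

/-- elements of the sequence of indices -/
private theorem mem_wsq (hS : StS X hs.g0) {O : Na} (hO : O ∈ X) {a : Mod X g} :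
    a ∈ el X g (wseqN O) (hS.wseq O hO) ↔
      ∃ n, a = opair (eN X g n) (eB X g ⟨wn O n, hS.wnm O hO n⟩) := by
  refine (mem_relS (hS.wseq O hO)).trans ⟨?_, ?_⟩
  · rintro ⟨⟨n, w⟩, ht, ⟨p, hp, hR⟩, rfl⟩
    have hR' : w = wn O n := hR
    subst hR'
    refine ⟨n, ?_⟩
    exact (opair_el (hs.st.nat n) (hS.wnm O hO n)).symm
  · rintro ⟨n, rfl⟩
    refine ⟨(n, wn O n), hs.st.opair _ (hs.st.nat n) _ (hS.wnm O hO n),
      ⟨⊤, hs.st.op.atom.fil.top_mem, rfl⟩, ?_⟩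
    exact opair_el (hs.st.nat n) (hS.wnm O hO n)

theorem wseq_fun (hS : StS X hs.g0) {O : Na} (hO : O ∈ X) :
    Fun (el X g (wseqN O) (hS.wseq O hO)) omega (hd X g).Bs := by
  constructor
  · intro p hp
    obtain ⟨n, rfl⟩ := (mem_wsq hS hO).1 hp
    exact ⟨eN X g n, mem_omega_iff.2 ⟨n, rfl⟩, _, mem_B.2 ⟨_, rfl⟩, rfl⟩
  · intro a ha
    obtain ⟨n, rfl⟩ := mem_omega_iff.1 ha
    refine ⟨eB X g ⟨wn O n, hS.wnm O hO n⟩, (mem_wsq hS hO).2 ⟨n, rfl⟩, fun c hc => ?_⟩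
    obtain ⟨m, e⟩ := (mem_wsq hS hO).1 hc
    obtain ⟨e1, e2⟩ := Pool.Agent.H78.ZF.opair_inj e
    have h1 := eN_inj e1
    subst h1
    exact e2

theorem ap_wseq (hS : StS X hs.g0) {O : Na} (hO : O ∈ X) (n : ℕ) :
    ap (el X g (wseqN O) (hS.wseq O hO)) (eN X g n) = eB X g ⟨wn O n, hS.wnm O hO n⟩ :=
  (wseq_fun hS hO).ap_eq ((mem_wsq hS hO).2 ⟨n, rfl⟩)

theorem mem_cseq (hS : StS X hs.g0) {O : Na} (hO : O ∈ X) {n k : ℕ}
    {y : {x : Gp // nG x ∈ X}} :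
    opair (opair (eN X g n) (eN X g k)) (eG X g y) ∈ el X g (cseqN O) (hS.cseq O hO) ↔
      ∃ p ∈ g, ∃ q, IF (wn O n).2 k = some (q, y.1) ∧ p ≤ q := by
  refine (mem_relS (hS.cseq O hO)).trans ⟨?_, ?_⟩
  · rintro ⟨⟨⟨n', k'⟩, y'⟩, ht, ⟨p, hp, hR⟩, e⟩
    have ht1 := (hs.st.proj _ _ ht).1
    have ht2 := (hs.st.proj _ _ ht).2
    have ht3 := (hs.st.proj _ _ ht1).1
    have ht4 := (hs.st.proj _ _ ht1).2
    have e1 : el X g (nm2 (nm2 nN nN) nG ((n', k'), y')) ht =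
        opair (opair (eN X g n') (eN X g k')) (eG X g ⟨y', ht2⟩) := by
      have e2 : opair (eN X g n') (eN X g k') = el X g (opairN (nN n') (nN k')) ht1 :=
        opair_el ht3 ht4
      rw [e2]
      exact (opair_el ht1 ht2).symm
    rw [e1] at e
    obtain ⟨e3, e4⟩ := Pool.Agent.H78.ZF.opair_inj e
    obtain ⟨e5, e6⟩ := Pool.Agent.H78.ZF.opair_inj e3
    have h1 := eN_inj e5
    have h2 := eN_inj e6
    have h3 := eG_inj e4
    subst h1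
    subst h2
    subst h3
    exact ⟨p, hp, hR⟩
  · rintro ⟨p, hp, hR⟩
    have h1 : opairN (nN n) (nN k) ∈ X := hs.st.opair _ (hs.st.nat n) _ (hs.st.nat k)
    refine ⟨((n, k), y.1), hs.st.opair _ h1 _ y.2, ⟨p, hp, hR⟩, ?_⟩
    have e2 : opair (eN X g n) (eN X g k) = el X g (opairN (nN n) (nN k)) h1 :=
      opair_el (hs.st.nat n) (hs.st.nat k)
    rw [e2]
    exact opair_el h1 y.2

theorem mem_cseq' (hS : StS X hs.g0) {O : Na} (hO : O ∈ X) {a : Mod X g}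
    (h : a ∈ el X g (cseqN O) (hS.cseq O hO)) :
    ∃ n k y, a = opair (opair (eN X g n) (eN X g k)) (eG X g y) := by
  obtain ⟨⟨⟨n', k'⟩, y'⟩, ht, _, rfl⟩ := (mem_relS (hS.cseq O hO)).1 h
  have ht1 := (hs.st.proj _ _ ht).1
  have ht2 := (hs.st.proj _ _ ht).2
  have ht3 := (hs.st.proj _ _ ht1).1
  have ht4 := (hs.st.proj _ _ ht1).2
  refine ⟨n', k', ⟨y', ht2⟩, ?_⟩
  have e2 : opair (eN X g n') (eN X g k') = el X g (opairN (nN n') (nN k')) ht1 :=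
    opair_el ht3 ht4
  rw [e2]
  exact (opair_el ht1 ht2).symm

private theorem wn_mono (O : Na) (n : ℕ) : (wn O n).2 ⊆ (wn O (n + 1)).2 := by
  intro k hk
  obtain ⟨i, j, m, h1, h2, h3, rfl⟩ := mem_wn.1 hk
  exact mem_wn.2 ⟨i, j, m, by omega, by omega, by omega, rfl⟩

theorem hd_star (hS : StS X hs.g0) : ∀ O : Mod X g,
    (∀ i j x, i ∈ (omega : Mod X g) → j ∈ (omega : Mod X g) → x ∈ (hd X g).G →
      opair (opair i j) x ∈ O → ∃ w, w ∈ (hd X g).Bs ∧ ∀ l, l ∈ (hd X g).G →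
        opair w l ∈ (hd X g).S → opair (opair i j) (ad (hd X g).add x l) ∈ O) →
    ∃ w c : Mod X g, Fun w omega (hd X g).Bs ∧
      (∀ n x, n ∈ (omega : Mod X g) → x ∈ (hd X g).G → opair (ap w (succ n)) x ∈ (hd X g).S →
        opair (ap w n) x ∈ (hd X g).S) ∧
      (∀ n x, n ∈ (omega : Mod X g) → x ∈ (hd X g).G → ∃ k y, k ∈ (omega : Mod X g) ∧
        y ∈ (hd X g).G ∧ opair (opair n k) y ∈ c ∧
        opair (ap w n) (ad (hd X g).add x y) ∈ (hd X g).S) ∧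
      (∀ n k y y', opair (opair n k) y ∈ c → opair (opair n k) y' ∈ c → y = y') ∧
      ∀ i j x, i ∈ (omega : Mod X g) → j ∈ (omega : Mod X g) → x ∈ (hd X g).G →
        opair (opair i j) x ∈ O → ∃ n, n ∈ (omega : Mod X g) ∧ ∀ l, l ∈ (hd X g).G →
          opair (ap w n) l ∈ (hd X g).S → opair (opair i j) (ad (hd X g).add x l) ∈ O := by
  intro O' hO'
  obtain ⟨O, hO, rfl⟩ := exists_el O'
  have hkey : ∀ (i j : ℕ) (z : {x : Gp // nG x ∈ X}),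
      opair (opair (eN X g i) (eN X g j)) (eG X g z) ∈ el X g O hO ↔
        ∃ p ∈ g, fmem (nI i j z.1) O p := by
    intro i j z
    have h1 : opairN (nN i) (nN j) ∈ X := hs.st.opair _ (hs.st.nat i) _ (hs.st.nat j)
    have e2 : opair (eN X g i) (eN X g j) = el X g (opairN (nN i) (nN j)) h1 :=
      opair_el (hs.st.nat i) (hs.st.nat j)
    have e3 : opair (opair (eN X g i) (eN X g j)) (eG X g z) =
        el X g (nI i j z.1) (hs.st.opair _ h1 _ z.2) := by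
      rw [e2]
      exact opair_el h1 z.2
    rw [e3]
    exact mem_el _ hO
  refine ⟨el X g (wseqN O) (hS.wseq O hO), el X g (cseqN O) (hS.cseq O hO), wseq_fun hS hO,
    ?_, ?_, ?_, ?_⟩
  · intro n x hn hx h
    obtain ⟨n, rfl⟩ := mem_omega_iff.1 hn
    obtain ⟨x, rfl⟩ := mem_G.1 hx
    rw [succ_eN, ap_wseq hS hO, mem_S] at h
    rw [ap_wseq hS hO, mem_S]
    obtain ⟨p, hp, hi⟩ := h
    exact ⟨p, hp, hi.sub (Finset.Subset.refl _) (wn_mono O n)⟩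
  · intro n x hn hx
    obtain ⟨n, rfl⟩ := mem_omega_iff.1 hn
    obtain ⟨x, rfl⟩ := mem_G.1 hx
    obtain ⟨r, hr, y, hy, k, q, hIF, hrq, hxA, hM⟩ := hS.idx O hO n x.1 x.2
    have hrg : r ∈ g := hs.st.op.atom.sub hr
    refine ⟨eN X g k, eG X g ⟨y, hy⟩, mem_omega_iff.2 ⟨k, rfl⟩, mem_G.2 ⟨_, rfl⟩,
      (mem_cseq hS hO).2 ⟨r, hrg, q, hIF, hrq⟩, ?_⟩
    rw [ap_wseq hS hO, ad_e, mem_S]
    obtain ⟨h1, h2⟩ := IF_spec hIF
    refine ⟨r, hrg, ⟨⟨fun u hu => ?_, h1.trans hrq.j⟩, ?_, fun u hu => ?_, hM⟩⟩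
    · exact absurd hu (Finset.notMem_empty u)
    · exact AddSubgroup.add_mem _ hxA (AA_mono hrq.a h2)
    · exact absurd hu (Finset.notMem_empty u)
  · intro n k y y' h h'
    obtain ⟨n1, k1, y1, e1⟩ := mem_cseq' hS hO h
    obtain ⟨e2, rfl⟩ := Pool.Agent.H78.ZF.opair_inj e1
    obtain ⟨rfl, rfl⟩ := Pool.Agent.H78.ZF.opair_inj e2
    obtain ⟨n2, k2, y2, e3⟩ := mem_cseq' hS hO h'
    obtain ⟨e4, rfl⟩ := Pool.Agent.H78.ZF.opair_inj e3
    obtain ⟨p, _, q, hq, _⟩ := (mem_cseq hS hO).1 h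
    obtain ⟨p', _, q', hq', _⟩ := (mem_cseq hS hO).1 h'
    rw [hq] at hq'
    simp only [Option.some.injEq, Prod.mk.injEq] at hq'
    exact congrArg (eG X g) (Subtype.ext hq'.2)
  · intro i j x hi hj hx h
    obtain ⟨w, hw, hwO⟩ := hO' i j x hi hj hx h
    obtain ⟨i, rfl⟩ := mem_omega_iff.1 hi
    obtain ⟨j, rfl⟩ := mem_omega_iff.1 hj
    obtain ⟨x, rfl⟩ := mem_G.1 hx
    obtain ⟨w, rfl⟩ := mem_B.1 hw
    have hxx : ∀ z : Gp, x.1 + (z + x.1) = z := by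
      intro z
      rw [add_comm z x.1, ← add_assoc, Pool.Agent.RFN.add_self, zero_add]
    obtain ⟨N, hN⟩ := open_wn (g0 := hs.g0) (g := g) hs.st hS hO i j x.2 w.2 (by
      intro z hz hin
      have h1 : opair (eB X g w) (eG X g ⟨z + x.1, hs.st.add _ _ hz x.2⟩) ∈ (hd X g).S :=
        mem_S.2 hin
      have h2 := hwO _ (mem_G.2 ⟨_, rfl⟩) h1
      rw [ad_e] at h2
      have h3 := (hkey i j _).1 h2
      have h4 : (addX (g := g) x ⟨z + x.1, hs.st.add _ _ hz x.2⟩).1 = z := hxx z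
      rw [h4] at h3
      exact h3)
    refine ⟨eN X g N, mem_omega_iff.2 ⟨N, rfl⟩, fun l hl hlS => ?_⟩
    obtain ⟨l, rfl⟩ := mem_G.1 hl
    rw [ap_wseq hS hO, mem_S] at hlS
    rw [ad_e, hkey]
    apply hN
    have h5 : (addX (g := g) x l).1 + x.1 = l.1 := by
      show (x.1 + l.1) + x.1 = l.1
      rw [add_comm, ← add_assoc, Pool.Agent.RFN.add_self, zero_add]
    rw [h5]
    exact hlS

end model

end Pool.Agent.RFN
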