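import Pool.Agent.RFN.SDict
import Pool.Agent.RFN.Ctb

set_option autoImplicit false

/-! # The set of colours is uncountable in the model

For a name `f` and `n : ℕ` let `USet f n` be the set of the conditions which force
`(n, ξ) ∈ f` for some `ξ`, `UF f n` an enumeration of a countable subset as in `exists_antichain`,
`Uxi f n q` a colour `ξ` with `q` forcing `(n, ξ) ∈ f`, and `xiS f` a colour different from all
`Uxi f n q`, `q` in the range of `UF f n` (there are countably many of these, and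
`not_countable_Om`).

PROOF of `hd_unc`. Let `F` be a function from `omega` to `D` in the model, `F = el f`. Take
`ξ = eO (xiS f)`. Suppose `ap F (eN n) = ξ`, so `opair (eN n) ξ ∈ F`, i.e. (`opair_el`, `mem_el`)
some `p ∈ g` forces `(n, xiS f) ∈ f`. By `dec` there is `r0 ∈ g0` with `r0 ≤ q`, `UF f n k = some q`,
or no `r ≤ r0` has this property. In the second case take a common extension `r ∈ g` of `p` and `r0`:
`r ∈ USet f n` (`fmem_mono`), so by `exists_antichain` `r` is compatible with some `q` in the range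
of `UF f n`: `s ≤ r`, `s ≤ q`, contradiction. In the first case `r0` forces `(n, ξ') ∈ f` with
`ξ' = Uxi f n q ≠ xiS f`, by `rf` there is such a `ξ'` with `nO ξ' ∈ X`, so
`opair (eN n) (eO ξ') ∈ F` and `eO ξ' ≠ eO (xiS f)` (`eO_inj`): `F` is not a function.
PROOF of `req_stU`: `reqc_op`, `reqc_dec`, `reqc_refl` with `T = Na` (coding `id`) and
`T = Na × ℕ` (coding `nm2 id nN`, using `nat` and closure under `opairN`, `req_proj`), or
`Req.forall` over `n : ℕ` and `T = Na`. -/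

namespace Pool.Agent.RFN

open Pool.Agent.ChoicelessEmb LName

open Pool.Agent.H78.ZF (ZFM opair omega succ Fun prod ap)

/-- The conditions which decide a value of `f` at `n`. -/
def USet (f : Na) (n : ℕ) : Set Pf := {q | ∃ ξ, fmem (opairN (nN n) (nO ξ)) f q}

noncomputable def UF (f : Na) (n : ℕ) : ℕ → Option Pf := (exists_antichain (USet f n)).choose

theorem UF_mem {f : Na} {n k : ℕ} {q : Pf} (h : UF f n k = some q) : q ∈ USet f n :=
  (exists_antichain (USet f n)).choose_spec.1 k q h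

theorem UF_max {f : Na} {n : ℕ} {p : Pf} (h : p ∈ USet f n) :
    ∃ k q, UF f n k = some q ∧ ∃ r, r ≤ p ∧ r ≤ q :=
  (exists_antichain (USet f n)).choose_spec.2 p h

open Classical in
noncomputable def Uxi (f : Na) (n : ℕ) (q : Pf) : Om :=
  if h : ∃ ξ, fmem (opairN (nN n) (nO ξ)) f q then h.choose else ⊥

theorem exists_xiS (f : Na) : ∃ ξ : Om, ∀ n k q, UF f n k = some q → Uxi f n q ≠ ξ := by
  by_contra hcon
  push Not at hcon
  apply not_countable_Om
  have h : (Set.univ : Set Om) ⊆ Set.range (fun t : ℕ × ℕ =>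
      match UF f t.1 t.2 with
      | some q => Uxi f t.1 q
      | none => (⊥ : Om)) := by
    intro ξ _
    obtain ⟨n, k, q, h1, h2⟩ := hcon ξ
    refine ⟨(n, k), ?_⟩
    simp only [h1]
    exact h2
  exact Set.countable_univ_iff.1 ((Set.countable_range _).mono h)

/-- A colour which is not a value. -/
noncomputable def xiS (f : Na) : Om := (exists_xiS f).choose

/-- The requirements for the uncountability. -/
structure StU (X : Set Na) (g0 : Set Pf) : Prop where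
  xi : ∀ f ∈ X, nO (xiS f) ∈ X
  dec : ∀ f ∈ X, ∀ n, Dec0 g0 {r | ∃ k q, UF f n k = some q ∧ r ≤ q}
  rf : ∀ f ∈ X, ∀ n, ∀ r ∈ g0, (∃ ξ, ξ ≠ xiS f ∧ fmem (opairN (nN n) (nO ξ)) f r) →
    ∃ ξ, nO ξ ∈ X ∧ ξ ≠ xiS f ∧ fmem (opairN (nN n) (nO ξ)) f r

theorem req_stU : Req fun (X : Set Na) g0 _ => StU X g0 := by
  have h1 : Req fun (X : Set Na) _ _ => ∀ f ∈ X, nO (xiS f) ∈ X := Req.op1 _
  have h2 : Req fun (X : Set Na) g0 _ => ∀ n : ℕ, ∀ f ∈ X,
      Dec0 g0 {r | ∃ k q, UF f n k = some q ∧ r ≤ q} :=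
    Req.forall fun n => Req.dec1 fun f => {r | ∃ k q, UF f n k = some q ∧ r ≤ q}
  have h3 : Req fun (X : Set Na) g0 _ => ∀ n : ℕ, ∀ f ∈ X, ∀ r ∈ g0,
      (∃ w, ∃ ξ, w = nO ξ ∧ ξ ≠ xiS f ∧ fmem (opairN (nN n) (nO ξ)) f r) →
      ∃ w ∈ X, ∃ ξ, w = nO ξ ∧ ξ ≠ xiS f ∧ fmem (opairN (nN n) (nO ξ)) f r :=
    Req.forall fun n => Req.refl1 fun f r w =>
      ∃ ξ, w = nO ξ ∧ ξ ≠ xiS f ∧ fmem (opairN (nN n) (nO ξ)) f r
  refine (h1.and (h2.and h3)).mono ?_
  rintro X g0 g _ ⟨h1, h2, h3⟩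
  refine ⟨h1, fun f hf n => h2 n f hf, ?_⟩
  intro f hf n r hr ⟨ξ, hξ, hm⟩
  obtain ⟨w, hw, ξ', rfl, h4, h5⟩ := h3 n f hf r hr ⟨nO ξ, ξ, rfl, hξ, hm⟩
  exact ⟨ξ', hw, h4, h5⟩

theorem hd_unc {X : Set Na} {g : Set Pf} [hs : SX X g] (hU : StU X hs.g0) (F : Mod X g)
    (hF : Fun F omega (hd X g).D) :
    ∃ ξ, ξ ∈ (hd X g).D ∧ ∀ n, n ∈ (omega : Mod X g) → ap F n ≠ ξ := by
  obtain ⟨f, hf, rfl⟩ := exists_el F
  have hat := hs.st.op.atom
  have hxi : nO (xiS f) ∈ X := hU.xi f hf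
  refine ⟨eO X g ⟨xiS f, hxi⟩, mem_D.2 ⟨_, rfl⟩, ?_⟩
  intro a ha hap
  obtain ⟨n, rfl⟩ := mem_omega_iff.1 ha
  have h1 := hF.opair_ap ha
  rw [hap] at h1
  have h2 : el X g (opairN (nN n) (nO (xiS f))) (hs.st.opair _ (hs.st.nat n) _ hxi) ∈
      el X g f hf := by
    rw [← opair_el]
    exact h1
  obtain ⟨p, hp, hpm⟩ := (mem_el _ hf).1 h2
  obtain ⟨r0, hr0, hc | hc⟩ := hU.dec f hf n
  · obtain ⟨k, q, hq, hrq⟩ := hc
    have hqm : ∃ ξ, fmem (opairN (nN n) (nO ξ)) f q := UF_mem hq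
    have h3 : fmem (opairN (nN n) (nO (Uxi f n q))) f q := by
      unfold Uxi
      rw [dif_pos hqm]
      exact hqm.choose_spec
    have h4 : Uxi f n q ≠ xiS f := (exists_xiS f).choose_spec n k q hq
    obtain ⟨ξ', hξX, hne, hm⟩ := hU.rf f hf n r0 hr0 ⟨_, h4, fmem_mono h3 hrq⟩
    have h5 : opair (eN X g n) (eO X g ⟨ξ', hξX⟩) ∈ el X g f hf := by
      have h6 : el X g (opairN (nN n) (nO ξ')) (hs.st.opair _ (hs.st.nat n) _ hξX) ∈
          el X g f hf := (mem_el _ hf).2 ⟨r0, hat.sub hr0, hm⟩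
      rw [← opair_el (hs.st.nat n) hξX] at h6
      exact h6
    have h7 := hF.ap_eq h5
    rw [hap] at h7
    have h8 := eO_inj h7
    exact hne (congrArg Subtype.val h8).symm
  · obtain ⟨r, hr, hrp, hr0r⟩ := hat.fil.dir p r0 hp (hat.sub hr0)
    have hrU : r ∈ USet f n := ⟨xiS f, fmem_mono hpm hrp⟩
    obtain ⟨k, q, hq, s, hsr, hsq⟩ := UF_max hrU
    exact hc s (hsr.trans hr0r) ⟨k, q, hq, hsq⟩

end Pool.Agent.RFN
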