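import Pool.Agent.RFN.TGrp

set_option autoImplicit false

/-! # The homeomorphism and the uncountable discrete space

PROOFS.
* `exists_prodTop`: separate from `pow (prod X Y)`.
* `isHomeo_Ph`. Continuity: `W ∈ T1`, `Ph x = (y, ξ) ∈ W`; `U × V ⊆ W` with `y ∈ U ∈ T`,
  `ξ ∈ V ⊆ D`; take `w1` with `y + S_w1 ⊆ U`, `w2` from `loc`, `w` below both (`dir`), and the
  neighbourhood `cst w x` of `x`: for `z` in it, `l = x + z ∈ S_w`, `z = x + l`,
  `Ph z = (y + l, ξ) ∈ U × V`.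
  Openness: `U ∈ T`, `V` its image, `(y, ξ) ∈ V`, `(y, ξ) = Ph x`, `x ∈ U`; take `w1` with
  `x + S_w1 ⊆ U`, `w2` from `loc`, `w` below both, and the neighbourhoods `cst w y` of `y` and
  `{ξ} = sing ξ` of `ξ`: for `z ∈ cst w y`, `l = y + z ∈ S_w`, `z = y + l`,
  `(z, ξ) = Ph (x + l)`, `x + l ∈ U`. `V ⊆ prod G D` as `Ph` is a function.
* `not_ctbl_D`: let `f` be an injection of `D` into `omega`, `ξ0 ∈ D`. The function
  `g : omega → D`, `g n = ` the `ξ ∈ D` with `f ξ = n`, if there is one, otherwise `ξ0`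
  (`mkf omega D (fun n => iota (fun ξ => (ξ ∈ D ∧ ap f ξ = n) ∨
  ((¬ ∃ η, η ∈ D ∧ ap f η = n) ∧ ξ = ξ0)))`), is onto, against `unc`. -/

universe u

namespace Pool.Agent.RFN

open Pool.Agent.H78.ZF

variable {N : Type u} [ZFM N]

theorem exists_prodTop (X T Y S : N) : ∃ T1, IsProdTop T1 X T Y S := by
  refine ⟨sep (pow (prod X Y)) (fun W => ∀ x y, opair x y ∈ W →
    ∃ U V, U ∈ T ∧ V ∈ S ∧ x ∈ U ∧ y ∈ V ∧ ∀ u v, u ∈ U → v ∈ V → opair u v ∈ W), ?_⟩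
  intro W
  rw [mem_sep, mem_pow]

variable {h : HD N} (hk : h.Ok)

include hk

theorem isHomeo_Ph {T1 : N} (h1 : IsProdTop T1 h.G (topG h) h.D (pow h.D)) :
    IsHomeo h.Ph h.G (topG h) (prod h.G h.D) T1 := by
  have hfun : Fun h.Ph h.G (prod h.G h.D) := hk.Ph_bij.fun
  refine ⟨hk.Ph_bij, ⟨hfun, ?_⟩, ?_⟩
  · intro x W hx hW hxW
    have hp := hfun.ap_mem hx
    rw [mem_prod] at hp
    obtain ⟨y, hy, ξ, hξ, e⟩ := hp
    rw [e] at hxW
    obtain ⟨U, V, hU, hV, hyU, hξV, hUV⟩ := ((h1 W).1 hW).2 y ξ hxW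
    obtain ⟨w1, hw1, hw1'⟩ := ((mem_topG h U).1 hU).2 y hyU
    obtain ⟨w2, hw2, hw2'⟩ := hk.loc x y ξ hx hy hξ e
    obtain ⟨w, hw, hw'⟩ := hk.dir w1 w2 hw1 hw2
    obtain ⟨hc1, hc2⟩ := cst_mem hk hw hx
    refine ⟨cst h w x, hc1, hc2, ?_⟩
    intro z hz
    rw [mem_cst] at hz
    obtain ⟨hzG, hzS⟩ := hz
    have hl := ad_mem hk hx hzG
    obtain ⟨hl1, hl2⟩ := hw' _ hl hzS
    have h3 := hw2' _ hl hl2
    rw [add_cancel' hk hx hzG] at h3
    rw [h3]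
    exact hUV _ _ (hw1' _ hl hl1) hξV
  · intro U V hU hV
    rw [h1 V]
    have hUG := ((mem_topG h U).1 hU).1
    refine ⟨?_, ?_⟩
    · intro p hp
      obtain ⟨x, hx, rfl⟩ := (hV p).1 hp
      exact hfun.ap_mem (hUG x hx)
    · intro y ξ hyξ
      obtain ⟨x, hxU, e⟩ := (hV _).1 hyξ
      have hx := hUG x hxU
      have hp := hfun.ap_mem hx
      rw [← e, opair_mem_prod] at hp
      obtain ⟨hy, hξ⟩ := hp
      obtain ⟨w1, hw1, hw1'⟩ := ((mem_topG h U).1 hU).2 x hxU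
      obtain ⟨w2, hw2, hw2'⟩ := hk.loc x y ξ hx hy hξ e.symm
      obtain ⟨w, hw, hw'⟩ := hk.dir w1 w2 hw1 hw2
      obtain ⟨hc1, hc2⟩ := cst_mem hk hw hy
      refine ⟨cst h w y, sing ξ, hc1, ?_, hc2, by rw [mem_sing], ?_⟩
      · rw [mem_pow]
        intro z hz
        rw [mem_sing] at hz
        rw [hz]
        exact hξ
      · intro u v hu hv
        rw [mem_sing] at hv
        subst hv
        rw [mem_cst] at hu
        obtain ⟨huG, huS⟩ := hu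
        have hl := ad_mem hk hy huG
        obtain ⟨hl1, hl2⟩ := hw' _ hl huS
        have h3 := hw2' _ hl hl2
        rw [add_cancel' hk hy huG] at h3
        rw [hV]
        exact ⟨_, hw1' _ hl hl1, h3.symm⟩

theorem not_ctbl_D : ¬ Ctbl h.D := by
  rintro ⟨f, hf⟩
  obtain ⟨ξ0, hξ0⟩ := hk.D_ne
  set F : N → N := fun n => iota (fun ξ => (ξ ∈ h.D ∧ ap f ξ = n) ∨
    ((¬ ∃ η, η ∈ h.D ∧ ap f η = n) ∧ ξ = ξ0)) with hF
  have hF1 : F1 F := by rw [hF]; infer_instance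
  have hη : ∀ η, η ∈ h.D → F (ap f η) = η := by
    intro η hη
    rw [hF]
    apply iota_eq
    · exact Or.inl ⟨hη, rfl⟩
    · rintro x (⟨hx, e⟩ | ⟨hn, -⟩)
      · exact hf.ap_inj hx hη e
      · exact absurd ⟨η, hη, rfl⟩ hn
  have hmem : ∀ n, n ∈ (omega : N) → F n ∈ h.D := by
    intro n _
    by_cases hn : ∃ η, η ∈ h.D ∧ ap f η = n
    · obtain ⟨η, h2, rfl⟩ := hn
      rw [hη η h2]
      exact h2
    · have : F n = ξ0 := by
        rw [hF]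
        apply iota_eq
        · exact Or.inr ⟨hn, rfl⟩
        · rintro x (⟨hx, e⟩ | ⟨-, e⟩)
          · exact absurd ⟨x, hx, e⟩ hn
          · exact e
      rw [this]
      exact hξ0
  obtain ⟨ξ, hξ, hne⟩ := hk.unc (mkf omega h.D F) (mkf_fun hmem)
  have h2 := hf.fun.ap_mem hξ
  apply hne _ h2
  rw [ap_mkf hmem h2]
  exact hη ξ hξ

end Pool.Agent.RFN
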