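import Pool.Agent.RFN.TQuoTop

set_option autoImplicit false

/-! # The quotient group: continuity of the quotient map, countable base

PROOFS.
* `isCont_piK`: `U ∈ SK`, `cs x ∈ U`, `n` as in the definition; the neighbourhood
  `cst (w n) x` of `x`: for `z` in it, `z = x + l`, `l = x + z ∈ S_(w n)`.
* `isSecCtb_KK`: the base is the set `BK` of all `bK n y` with `((n, k), y) ∈ c`, `n, k ∈ omega`,
  `y ∈ G`. Base: `U ∈ SK`, `A = cs x ∈ U`, `n` for `x`; by `idx` there are `k, y` with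
  `((n, k), y) ∈ c` and `x + y ∈ S_(w n)`; `A ∈ bK n y`, and for `A' = cs x' ∈ bK n y`:
  `l = x + x' = (x + y) + (y + x') ∈ S_(w n)`, `x' = x + l`, so `A' ∈ U`.
  Countable: `U ↦ least (fun z => ∃ n k y, n ∈ omega ∧ k ∈ omega ∧ y ∈ G ∧ z = pr n k ∧
  ((n, k), y) ∈ c ∧ U = bK n y)` is injective by `pr_inj` and `fun_c` (`least_spec`). -/

universe u

namespace Pool.Agent.RFN

open Pool.Agent.H78.ZF

variable {N : Type u} [ZFM N] {ι : Type}

/-- The base. -/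
noncomputable def BKs (h : HD N) (w c : N) : N :=
  sep (SK h w) (fun V => ∃ n k y, n ∈ (omega : N) ∧ k ∈ (omega : N) ∧ y ∈ h.G ∧
    opair (opair n k) y ∈ c ∧ V = bK h w n y)

theorem mem_BKs (h : HD N) (w c V : N) : V ∈ BKs h w c ↔ V ∈ SK h w ∧
    ∃ n k y, n ∈ (omega : N) ∧ k ∈ (omega : N) ∧ y ∈ h.G ∧
      opair (opair n k) y ∈ c ∧ V = bK h w n y := by
  unfold BKs
  rw [mem_sep]

/-- The code of a set of the base. -/
noncomputable def codB (h : HD N) (w c U : N) : N :=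
  least (fun z => ∃ n k y, n ∈ (omega : N) ∧ k ∈ (omega : N) ∧ y ∈ h.G ∧ z = pr n k ∧
    opair (opair n k) y ∈ c ∧ U = bK h w n y)

instance DF.codB (h : HD N) (w c : N) (U : (ι → N) → N) [DF U] :
    DF (fun v => codB h w c (U v)) := by
  unfold RFN.codB
  infer_instance

theorem codB_spec (h : HD N) (w c U : N) (hU : U ∈ BKs h w c) : codB h w c U ∈ (omega : N) ∧
    ∃ n k y, n ∈ (omega : N) ∧ k ∈ (omega : N) ∧ y ∈ h.G ∧ codB h w c U = pr n k ∧
      opair (opair n k) y ∈ c ∧ U = bK h w n y := by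
  obtain ⟨-, n, k, y, hn, hk, hy, hc, e⟩ := (mem_BKs h w c U).1 hU
  have h1 := least_spec (fun z => ∃ n k y, n ∈ (omega : N) ∧ k ∈ (omega : N) ∧ y ∈ h.G ∧
    z = pr n k ∧ opair (opair n k) y ∈ c ∧ U = bK h w n y)
    ⟨pr n k, pr_mem hn hk, n, k, y, hn, hk, hy, rfl, hc, e⟩
  exact ⟨h1.1, h1.2.1⟩

variable {h : HD N} (hk : h.Ok) {w c : N} (hw : WOk h w c)

include hk hw

theorem isCont_piK : IsCont (piK h w) h.G (topG h) (KK h w) (SK h w) := by
  obtain ⟨hhom, hap⟩ := isHom_piK hk hw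
  refine ⟨hhom.1, ?_⟩
  intro x V hx hV hxV
  rw [hap x hx] at hxV
  obtain ⟨n, hn, hl⟩ := ((mem_SK h w V).1 hV).2 x hx hxV
  have hwn : ap w n ∈ h.Bs := hw.fn.ap_mem hn
  obtain ⟨h1, h2⟩ := cst_mem hk hwn hx
  refine ⟨cst h (ap w n) x, h1, h2, ?_⟩
  intro y hy
  obtain ⟨hyG, hyS⟩ := (mem_cst h (ap w n) x y).1 hy
  rw [hap y hyG]
  have h3 := hl (ad h.add x y) (ad_mem hk hx hyG) hyS
  rw [add_cancel' hk hx hyG] at h3
  exact h3

theorem isSecCtb_KK : IsSecCtb (KK h w) (SK h w) := by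
  refine ⟨BKs h w c, ?_, ?_, ?_⟩
  · intro V hV
    exact ((mem_BKs h w c V).1 hV).1
  · have hF : ∀ U, U ∈ BKs h w c → codB h w c U ∈ (omega : N) :=
      fun U hU => (codB_spec h w c U hU).1
    refine ⟨mkf (BKs h w c) omega (fun U => codB h w c U), ?_⟩
    rw [inj_iff]
    refine ⟨mkf_fun hF, ?_⟩
    intro U U' hU hU' e
    rw [ap_mkf hF hU, ap_mkf hF hU'] at e
    obtain ⟨-, n, k, y, hn, hkk, hy, h1, h2, h3⟩ := codB_spec h w c U hU
    obtain ⟨-, n', k', y', hn', hkk', hy', h1', h2', h3'⟩ := codB_spec h w c U' hU'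
    rw [h1, h1'] at e
    obtain ⟨rfl, rfl⟩ := pr_inj hn hkk hn' hkk' e
    have hyy : y = y' := hw.fun_c _ _ _ _ h2 h2'
    subst hyy
    rw [h3, h3']
  · intro U A hU hA
    obtain ⟨hsub, hopen⟩ := (mem_SK h w U).1 hU
    obtain ⟨x, hx, rfl⟩ := (mem_KK h w A).1 (hsub A hA)
    obtain ⟨n, hn, hl⟩ := hopen x hx hA
    obtain ⟨k, y, hkk, hy, hc, hS⟩ := hw.idx n x hn hx
    have hwn : ap w n ∈ h.Bs := hw.fn.ap_mem hn
    refine ⟨bK h w n y, ?_, ?_, ?_⟩
    · rw [mem_BKs]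
      exact ⟨bK_mem hk hw hn hy, n, k, y, hn, hkk, hy, hc, rfl⟩
    · rw [cs_mem_bK hk hw hn hx hy, hk.comm y x hy hx]
      exact hS
    · intro A' hA'
      unfold bK at hA'
      rw [mem_sep] at hA'
      obtain ⟨-, x', hx', rfl, hS'⟩ := hA'
      have e1 : ad h.add (ad h.add x y) (ad h.add y x') = ad h.add x x' := by
        rw [hk.assoc x y _ hx hy (ad_mem hk hy hx'), add_cancel' hk hy hx']
      have h3 : opair (ap w n) (ad h.add x x') ∈ h.S := by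
        rw [← e1]
        exact hk.S_add _ _ _ hwn (ad_mem hk hx hy) (ad_mem hk hy hx') hS hS'
      have h4 := hl (ad h.add x x') (ad_mem hk hx hx') h3
      rw [add_cancel' hk hx hx'] at h4
      exact h4

end Pool.Agent.RFN
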