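import Pool.Agent.RFN.TReal
import Pool.Agent.RFN.TQuoCtb
import Pool.Agent.RFN.THomeo

set_option autoImplicit false

/-! # From the situation in the generic extension to the negation of Q1

PROOF of `isRFact_topG`: let `R, lt, f` be given; `Q`, `e` from `IsRealLine`. Apply `star` to
`OQ`: `w, c`. Then `K = KK`, `n = nK`, `S = SK`, `h = piK`, `k = kK`; `f x = kK (cs x) =
kK (piK x)`. PROOF of `negQ1_of_HyH`: `isTopGrp_topG`, `isRFact_topG`, `not_ctbl_D`,
`exists_prodTop`, `isHomeo_Ph` (with `H = G`). -/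

universe u

namespace Pool.Agent.RFN

open Pool.Agent.H78.ZF

variable {N : Type u} [ZFM N]

theorem isRFact_topG {h : HD N} (hk : h.Ok) : IsRFact h.G h.add (topG h) := by
  intro R lt f hR hf
  obtain ⟨Q, hQ, ⟨e, he⟩, hd⟩ := hR.2.2.2.2.2.1
  obtain ⟨w, c, hfn, hdec, hidx, hfc, hO⟩ :=
    hk.star (OQ h lt Q e f) (OQ_open hk hR hQ he hd hf)
  have hw : WOk h w c := ⟨hfn, hdec, hidx, hfc⟩
  refine ⟨KK h w, nK h w, SK h w, piK h w, kK h w R f, isTopGrp_KK hk hw, isSecCtb_KK hk hw,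
    (isHom_piK hk hw).1, isCont_piK hk hw, isContReal_kK hk hR hQ he hd hf hw hO, ?_⟩
  intro x hx
  rw [(isHom_piK hk hw).2 x hx, (kK_cs hk hR hQ he hd hf hw hO).2 x hx]

theorem negQ1_of_HyH (hN : HyH N) : NegQ1 N := by
  obtain ⟨h, hk⟩ := hN
  obtain ⟨T1, hT1⟩ := exists_prodTop h.G (topG h) h.D (pow h.D)
  exact ⟨h.G, h.add, topG h, h.G, h.add, topG h, h.D, T1, h.Ph, isTopGrp_topG hk,
    isRFact_topG hk, isTopGrp_topG hk, not_ctbl_D hk, hT1, isHomeo_Ph hk hT1⟩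

end Pool.Agent.RFN
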