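import Pool.Agent.RFN.ACMod
import Pool.Agent.RFN.SStar
import Pool.Agent.RFN.SStR
import Pool.Agent.RFN.SPh
import Pool.Agent.RFN.SUnc
import Pool.Agent.RFN.SReq
import Pool.Agent.RFN.TFinal

set_option autoImplicit false

/-! # The model

PROOFS. `hd_ok`: the fields are `hd_add_fun`, `mem_G`, ..., `hd_star` (`bs_ne` from `st.bempty`, `D_ne`
from `st.bot`). `exists_st`: `Req.exists` for the conjunction of `req_st`, `req_stU`, `req_stS`,
`req_stA`. `exists_model`: `M = Mod X g`; countable as an image of `X`, transitive by `Mod_trans`;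
the structure given by `St.isZF` is `instZFM`; `negQ1_of_HyH`, `choice_mod`. -/

namespace Pool.Agent.RFN

open Pool.Agent.ChoicelessEmb LName

open Pool.Agent.H78.ZF (ZFM IsZFModel)

theorem hd_ok {X : Set Na} {g : Set Pf} [hs : SX X g] (hU : StU X hs.g0) (hS : StS X hs.g0) :
    (hd X g).Ok where
  add_fun := hd_add_fun
  o_mem := mem_G.2 ⟨⟨0, hs.st.zero⟩, rfl⟩
  assoc := hd_assoc
  comm := hd_comm
  zero_add := hd_zero_add
  add_self := hd_add_self
  bs_ne := ⟨eB X g ⟨(∅, ∅), hs.st.bempty⟩, mem_B.2 ⟨_, rfl⟩⟩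
  S_zero := hd_S_zero
  S_add := hd_S_add
  dir := hd_dir
  haus := hd_haus
  Ph_bij := hd_Ph_bij
  loc := hd_loc
  D_ne := ⟨eO X g ⟨⊥, hs.st.bot⟩, mem_D.2 ⟨_, rfl⟩⟩
  unc := fun F hF => hd_unc hU F hF
  star := hd_star hS

theorem exists_st : ∃ (X : Set Na) (g : Set Pf) (hs : SX X g), X.Countable ∧ StU X hs.g0 ∧
    StS X hs.g0 ∧ StA X := by
  obtain ⟨X, g0, g, hc, _, h1, h2, h3, h4⟩ :=
    (req_st.and (req_stU.and (req_stS.and req_stA))).exists
  exact ⟨X, g, ⟨g0, h1⟩, hc, h2, h3, h4⟩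

/-- There is a countable transitive model of ZFC in which the negation of Q1 holds. -/
theorem exists_model : ∃ (M : Set ZFSet.{0}) (h : IsZFModel fun x y : M => x.1 ∈ y.1),
    M.Countable ∧ (∀ x ∈ M, ∀ y ∈ x, y ∈ M) ∧
      letI : ZFM M := ⟨_, h⟩
      Choice M ∧ NegQ1 M := by
  obtain ⟨X, g, hs, hc, hU, hS, hA⟩ := exists_st
  exact ⟨Mod X g, hs.st.isZF, hc.image _, Mod_trans, choice_mod hA,
    negQ1_of_HyH ⟨hd X g, hd_ok hU hS⟩⟩

end Pool.Agent.RFN
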