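import Pool.Agent.RFN.StarDefs

set_option autoImplicit false

/-! # Neighbourhoods contained in an open set are known by conditions in the generic filter

PROOFS.
* `fmem_wit`: `wit_bt`, `KW_spec (KF_mem h)`: with `w = KW O i j x q`, `Dom q w` and `x ∈ AA q.a`, so
  `InS p w (z + x)`.
* `wit_self`: `wit_bt` with this `x`, `k`, `q` (`x + x = 0`: `Pool.Agent.RFN.add_self`).
* `exists_Kn`: decide `bad`. If `r0 ∈ g0` has `z` with `BdP O i j x w r0 z` then by `badr` we may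
  take `nG z ∈ X`; the hypothesis gives `p ∈ g` with `fmem (nI i j z) O p`, and a common extension
  of `p` and `r0` contradicts `BdP` (`fmem_mono`). Otherwise let `p ∈ g`, `p ≤ r0`, `Dom p w`,
  `x ∈ AA p.a` (`st.dom`, `st.domG`, directedness). Then `Kn O i j x p w`: for `r ≤ p`, `z` with
  `InS r w (z + x)` use `fmem_dense`: for `r' ≤ r` `BdP O i j x w r' z` fails, so there is
  `r'' ≤ r'` with `fmem (nI i j z) O r''`.
* `exists_KF`: decide `ant`; if `r0 ∈ g0` has no extension in the set take a common extension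
  `r ∈ g` of `r0` and the condition in `KE` (`Kn.mono`) and use `KF_max`.
* `exists_Bt`: decide `bmem`; if `r0 ∈ g0` has no extension in the set, take a common extension
  `r ∈ g` of `r0`, the condition `p` given by `exists_KF`, and a condition with `x` in its domain
  (`Kn`), and use `wit_self` and `ext_B`. -/

namespace Pool.Agent.RFN

open Pool.Agent.ChoicelessEmb LName

theorem fmem_wit {O : Na} {i j : ℕ} {p : Pf} {z : Gp} (hz : z ∈ AA p.1.a)
    (h : Wit p.1 (bt O i j) z) : fmem (nI i j z) O p := by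
  obtain ⟨x, k, q, hF, hpq, hu, hk⟩ := wit_bt.1 h
  have K := KW_spec (KF_mem hF)
  exact K.2.2 p hpq z hz ⟨K.1.mono hpq, add_mem hz (AA_mono hpq.a K.2.1), hu, hk⟩

theorem wit_self {O : Na} {i j k : ℕ} {x : Gp} {p q : Pf} (h : KF O i j x k = some q)
    (hp : p ≤ q) : Wit p.1 (bt O i j) x := by
  refine wit_bt.2 ⟨x, k, q, h, hp, fun u _ => ?_, fun l _ => ?_⟩
  · rw [Pool.Agent.RFN.add_self]
    exact zero_mem _
  · rw [Pool.Agent.RFN.add_self]
    exact zero_mem _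

variable {X : Set Na} {g0 g : Set Pf}

theorem exists_Kn (st : St X g0 g) (hS : StS X g0) {O : Na} (hO : O ∈ X) (i j : ℕ) {x : Gp}
    (hx : nG x ∈ X) {w : Bx} (hw : nB w ∈ X)
    (h : ∀ z, nG z ∈ X → (∃ p ∈ g, InS p w (z + x)) → ∃ p ∈ g, fmem (nI i j z) O p) :
    ∃ p ∈ g, Kn O i j x p w := by
  have hA := st.op.atom
  obtain ⟨r0, hr0, hdec⟩ := hS.bad O hO i j x w hx hw
  rcases hdec with hdec | hdec
  · exfalso
    obtain ⟨z, hz, hb⟩ := hS.badr O hO i j x w hx hw r0 hr0 hdec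
    obtain ⟨p, hp, hf⟩ := h z hz ⟨r0, hA.sub hr0, hb.2.1⟩
    obtain ⟨r, _, hrp, hrr⟩ := hA.dir0 hp (hA.sub hr0)
    exact hb.2.2 r hrr (fmem_mono hf hrp)
  · obtain ⟨p1, hp1, hd1⟩ := st.dom w hw
    obtain ⟨p2, hp2, hd2⟩ := st.domG x hx
    obtain ⟨r1, hr1, h1, h2⟩ := hA.dir0 (hA.sub hr0) (hA.sub hp1)
    obtain ⟨p, hp, h3, h4⟩ := hA.dir0 (hA.sub hr1) (hA.sub hp2)
    refine ⟨p, hA.sub hp, hd1.mono (h3.trans h2), AA_mono h4.a hd2, ?_⟩
    intro r hr z hz hin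
    refine fmem_dense fun r' hr' => ?_
    by_contra hcon
    refine hdec r' (hr'.trans (hr.trans (h3.trans h1)))
      ⟨z, AA_mono hr'.a hz, hin.mono hr', fun r'' h'' hm => hcon ⟨r'', h'', hm⟩⟩

theorem exists_KF (st : St X g0 g) (hS : StS X g0) {O : Na} (hO : O ∈ X) (i j : ℕ) {x : Gp}
    (hx : nG x ∈ X) (h : ∃ p ∈ g, p ∈ KE O i j x) :
    ∃ p ∈ g, ∃ k q, KF O i j x k = some q ∧ p ≤ q := by
  have hA := st.op.atom
  obtain ⟨r0, hr0, hdec⟩ := hS.ant O hO i j x hx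
  rcases hdec with ⟨k, q, hF, hle⟩ | hdec
  · exact ⟨r0, hA.sub hr0, k, q, hF, hle⟩
  · exfalso
    obtain ⟨p, hp, w, hK⟩ := h
    obtain ⟨r, _, h1, h2⟩ := hA.dir0 (hA.sub hr0) hp
    have hrK : r ∈ KE O i j x := ⟨w, hK.mono h2⟩
    obtain ⟨k, q, hF, r', h3, h4⟩ := KF_max hrK
    exact hdec r' (h3.trans h1) ⟨k, q, hF, h4⟩

theorem exists_Bt (st : St X g0 g) (hS : StS X g0) {O : Na} (hO : O ∈ X) (i j : ℕ) {x : Gp}
    (hx : nG x ∈ X) (h : ∃ p ∈ g, p ∈ KE O i j x) :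
    ∃ p ∈ g, ∃ m, (bt O i j, m) ∈ p.1.j ∧ x ∈ p.1.B (bt O i j, m) := by
  have hA := st.op.atom
  obtain ⟨r0, hr0, hdec⟩ := hS.bmem O hO i j x hx
  rcases hdec with ⟨n, h1, h2⟩ | hdec
  · exact ⟨r0, hA.sub hr0, n, h1, h2⟩
  · exfalso
    obtain ⟨p, hp, k, q, hF, hle⟩ := exists_KF st hS hO i j hx h
    obtain ⟨r, _, h1, h2⟩ := hA.dir0 (hA.sub hr0) hp
    have hxr : x ∈ AA r.1.a := AA_mono (h2.trans hle).a (KW_spec (KF_mem hF)).2.1
    obtain ⟨q', hq', n, h3, h4⟩ := ext_B r (bt O i j) x hxr (wit_self hF (h2.trans hle))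
    exact hdec q' (hq'.trans h1) ⟨n, h3, h4⟩

end Pool.Agent.RFN
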