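import Pool.Agent.RFN.SDefs
import Pool.Agent.RFN.Ctb
import Pool.Agent.RFN.NameOf

set_option autoImplicit false

/-! # Countable sequences of open sets in the generic extension: definitions

`O` is a name, `nI i j x` the name of the triple `((i, j), x)`. `Kn O i j x q w`: `q` knows that
the basic neighbourhood with index `w` of `x` is contained in the `(i, j)`-th section of `O`.
`KF O i j x` enumerates a maximal antichain of such conditions, `KW` chooses a `w`, and `bt O i j` is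
the open-name of the set of all these neighbourhoods. `wn O n` is the index of the `n`-th subgroup of
the countable family, and `IF` an enumeration of pairs as in `exists_index`. -/

namespace Pool.Agent.RFN

open Pool.Agent.ChoicelessEmb LName

/-- The name of the triple `((i, j), x)`. -/
noncomputable def nI (i j : ℕ) (x : Gp) : Na := opairN (opairN (nN i) (nN j)) (nG x)

theorem nI_eq (i j : ℕ) (x : Gp) : nI i j x = nm2 (nm2 nN nN) nG ((i, j), x) := rfl

/-- `q` knows that the neighbourhood with index `w` of `x` is in the `(i, j)`-th section of `O`. -/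
def Kn (O : Na) (i j : ℕ) (x : Gp) (q : Pf) (w : Bx) : Prop :=
  Dom q w ∧ x ∈ AA q.1.a ∧ ∀ r ≤ q, ∀ z ∈ AA r.1.a, InS r w (z + x) → fmem (nI i j z) O r

theorem Kn.mono {O : Na} {i j : ℕ} {x : Gp} {p q : Pf} {w : Bx} (h : Kn O i j x q w)
    (hp : p ≤ q) : Kn O i j x p w :=
  ⟨h.1.mono hp, AA_mono hp.a h.2.1, fun r hr => h.2.2 r (hr.trans hp)⟩

/-- The conditions which know a neighbourhood of `x` contained in the section. -/
def KE (O : Na) (i j : ℕ) (x : Gp) : Set Pf := {q | ∃ w, Kn O i j x q w}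

noncomputable def KF (O : Na) (i j : ℕ) (x : Gp) : ℕ → Option Pf :=
  (exists_antichain (KE O i j x)).choose

theorem KF_mem {O : Na} {i j : ℕ} {x : Gp} {k : ℕ} {q : Pf} (h : KF O i j x k = some q) :
    q ∈ KE O i j x := (exists_antichain (KE O i j x)).choose_spec.1 k q h

theorem KF_max {O : Na} {i j : ℕ} {x : Gp} {p : Pf} (h : p ∈ KE O i j x) :
    ∃ k q, KF O i j x k = some q ∧ ∃ r, r ≤ p ∧ r ≤ q :=
  (exists_antichain (KE O i j x)).choose_spec.2 p h

open Classical in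
noncomputable def KW (O : Na) (i j : ℕ) (x : Gp) (q : Pf) : Bx :=
  if h : ∃ w, Kn O i j x q w then h.choose else (∅, ∅)

theorem KW_spec {O : Na} {i j : ℕ} {x : Gp} {q : Pf} (h : q ∈ KE O i j x) :
    Kn O i j x q (KW O i j x q) := by
  have h' : ∃ w, Kn O i j x q w := h
  unfold KW
  rw [dif_pos h']
  exact h'.choose_spec

/-- The tuples of the open-name. -/
noncomputable def KT (O : Na) (i j : ℕ) (t : Gp × ℕ) : Option (Pf × Finset Gp × Finset Jx) :=
  (KF O i j t.1 t.2).map fun q => (q, KW O i j t.1 q)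

theorem KT_eq {O : Na} {i j : ℕ} {t : Gp × ℕ} {q : Pf} {Z : Finset Gp} {W : Finset Jx} :
    KT O i j t = some (q, Z, W) ↔ KF O i j t.1 t.2 = some q ∧ KW O i j t.1 q = (Z, W) := by
  unfold KT
  rw [Option.map_eq_some_iff]
  constructor
  · rintro ⟨q', h1, h2⟩
    simp only [Prod.mk.injEq] at h2
    obtain ⟨rfl, h2⟩ := h2
    exact ⟨h1, h2⟩
  · rintro ⟨h1, h2⟩
    exact ⟨q, h1, by rw [h2]⟩

theorem exists_bt (O : Na) (i j : ℕ) : ∃ β : Nm, ∀ (p : Pf) (z : Gp), Wit p.1 β z ↔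
    ∃ t q Z W, KT O i j t = some (q, Z, W) ∧ p ≤ q ∧
      (∀ u ∈ Z, z + t.1 ∈ p.1.L u) ∧ ∀ k ∈ W, z + t.1 ∈ p.1.M k := by
  refine exists_name (KT O i j) ?_
  intro t q Z W h
  obtain ⟨h1, h2⟩ := KT_eq.1 h
  have h3 := (KW_spec (KF_mem h1)).1
  rw [h2] at h3
  exact ⟨fun u hu => h3.1 u hu, h3.2⟩

/-- The open-name of the `(i, j)`-th section of `O`. -/
noncomputable def bt (O : Na) (i j : ℕ) : Nm := (exists_bt O i j).choose

theorem wit_bt {O : Na} {i j : ℕ} {p : Pf} {z : Gp} : Wit p.1 (bt O i j) z ↔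
    ∃ x k q, KF O i j x k = some q ∧ p ≤ q ∧ (∀ u ∈ (KW O i j x q).1, z + x ∈ p.1.L u) ∧
      ∀ k ∈ (KW O i j x q).2, z + x ∈ p.1.M k := by
  refine ((exists_bt O i j).choose_spec p z).trans ?_
  constructor
  · rintro ⟨t, q, Z, W, h, hp, h1, h2⟩
    obtain ⟨h3, h4⟩ := KT_eq.1 h
    exact ⟨t.1, t.2, q, h3, hp, by rw [h4]; exact h1, by rw [h4]; exact h2⟩
  · rintro ⟨x, k, q, h, hp, h1, h2⟩
    exact ⟨(x, k), q, _, _, KT_eq.2 ⟨h, rfl⟩, hp, h1, h2⟩

open Classical in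
/-- The index of the `n`-th subgroup. -/
noncomputable def wn (O : Na) (n : ℕ) : Bx :=
  (∅, (Finset.range n ×ˢ Finset.range n ×ˢ Finset.range n).image
    fun t => (bt O t.1 t.2.1, t.2.2))

theorem mem_wn {O : Na} {n : ℕ} {k : Jx} : k ∈ (wn O n).2 ↔
    ∃ i j m, i < n ∧ j < n ∧ m < n ∧ k = (bt O i j, m) := by
  unfold wn
  simp only [Finset.mem_image, Finset.mem_product, Finset.mem_range, Prod.exists]
  constructor
  · rintro ⟨i, j, m, ⟨h1, h2, h3⟩, rfl⟩
    exact ⟨i, j, m, h1, h2, h3, rfl⟩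
  · rintro ⟨i, j, m, h1, h2, h3, rfl⟩
    exact ⟨i, j, m, ⟨h1, h2, h3⟩, rfl⟩

/-- The enumeration of pairs of `exists_index`. -/
noncomputable def IF (w : Finset Jx) : ℕ → Option (Pf × Gp) := (exists_index w).choose

theorem IF_spec {w : Finset Jx} {k : ℕ} {q : Pf} {y : Gp} (h : IF w k = some (q, y)) :
    w ⊆ q.1.j ∧ y ∈ AA q.1.a := (exists_index w).choose_spec.1 k q y h

theorem IF_max {w : Finset Jx} {p : Pf} (hp : w ⊆ p.1.j) {x : Gp} (hx : x ∈ AA p.1.a) :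
    ∃ k q y, IF w k = some (q, y) ∧ ∃ r, r ≤ p ∧ r ≤ q ∧ ∀ i ∈ w, x + y ∈ r.1.M i :=
  (exists_index w).choose_spec.2 p hp x hx

/-- `r` knows that `x` is in the coset of `y` with respect to the `n`-th subgroup. -/
def IxP (O : Na) (n : ℕ) (x : Gp) (r : Pf) (y : Gp) : Prop :=
  ∃ k q, IF (wn O n).2 k = some (q, y) ∧ r ≤ q ∧ x ∈ AA r.1.a ∧
    ∀ i ∈ (wn O n).2, x + y ∈ r.1.M i

/-- The name of the sequence of indices. -/
noncomputable def wseqN (O : Na) : Na := relG (nm2 nN nB) fun t _ => t.2 = wn O t.1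

/-- The name of the countable set of representatives. -/
noncomputable def cseqN (O : Na) : Na :=
  relG (nm2 (nm2 nN nN) nG) fun t p => ∃ q, IF (wn O t.1.1).2 t.1.2 = some (q, t.2) ∧ p ≤ q

/-- The conditions which know that the neighbourhood with index `w` of `x` is not contained in
the section. -/
def BdP (O : Na) (i j : ℕ) (x : Gp) (w : Bx) (r : Pf) (z : Gp) : Prop :=
  z ∈ AA r.1.a ∧ InS r w (z + x) ∧ ∀ r' ≤ r, ¬ fmem (nI i j z) O r'

/-- The requirements for the countable sequences of open sets. -/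
structure StS (X : Set Na) (g0 : Set Pf) : Prop where
  wseq : ∀ O ∈ X, wseqN O ∈ X
  cseq : ∀ O ∈ X, cseqN O ∈ X
  wnm : ∀ O ∈ X, ∀ n, nB (wn O n) ∈ X
  bad : ∀ O ∈ X, ∀ i j x w, nG x ∈ X → nB w ∈ X → Dec0 g0 {r | ∃ z, BdP O i j x w r z}
  badr : ∀ O ∈ X, ∀ i j x w, nG x ∈ X → nB w ∈ X → ∀ r ∈ g0, (∃ z, BdP O i j x w r z) →
    ∃ z, nG z ∈ X ∧ BdP O i j x w r z
  ant : ∀ O ∈ X, ∀ i j x, nG x ∈ X → Dec0 g0 {r | ∃ k q, KF O i j x k = some q ∧ r ≤ q}
  bmem : ∀ O ∈ X, ∀ i j x, nG x ∈ X →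
    Dec0 g0 {r | ∃ n, (bt O i j, n) ∈ r.1.j ∧ x ∈ r.1.B (bt O i j, n)}
  idx : ∀ O ∈ X, ∀ n x, nG x ∈ X → ∃ r ∈ g0, ∃ y, nG y ∈ X ∧ IxP O n x r y

end Pool.Agent.RFN
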