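import Pool.Agent.RFN.HDefs

set_option autoImplicit false

/-! # The topology of the group `h.G` in the model

`topG h` is the set of all `U ⊆ G` such that for every `x ∈ U` there is `w ∈ Bs` with
`x + S_w ⊆ U`; `cst h w x` is the coset `x + S_w = {y | x + y ∈ S_w}`.

PROOFS (G is a Boolean group: `x + x = o`).
* `cst_mem`: `x ∈ cst w x` as `x + x = o ∈ S_w`; for `y ∈ cst w x` and `l ∈ S_w`:
  `x + (y + l) = (x + y) + l ∈ S_w`.
* `isTop_topG`: unions clear; intersections by `dir`; `G ∈ T` by `bs_ne`.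
* `isHaus_topG`: `x ≠ y`, so `x + y ≠ o` (otherwise `x = x + (x + y) = y`), take `w` with
  `x + y ∉ S_w` (`haus`), `U = cst w x`, `V = cst w y`: for `z` in both,
  `x + y = (x + z) + (y + z) ∈ S_w`.
* continuity of the addition: `x + y ∈ W`, `w` with `(x + y) + S_w ⊆ W`: `U = cst w x`,
  `V = cst w y`: `u + v = (x + y) + ((x + u) + (y + v))`.
* inverses: `IsInv x x'` implies `x' = x` (take `z = x'`... : `(x + x') + o = o`, so `x + x' = o`,
  `x' = x`). -/

universe u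

namespace Pool.Agent.RFN

open Pool.Agent.H78.ZF

variable {N : Type u} [ZFM N] {ι : Type}

instance DF.ad (s t r : (ι → N) → N) [DF s] [DF t] [DF r] :
    DF (fun v => ad (s v) (t v) (r v)) := by
  unfold RFN.ad
  infer_instance

/-- The coset `x + S_w`. -/
noncomputable def cst (h : HD N) (w x : N) : N :=
  sep h.G (fun y => opair w (ad h.add x y) ∈ h.S)

@[simp] theorem mem_cst (h : HD N) (w x y : N) :
    y ∈ cst h w x ↔ y ∈ h.G ∧ opair w (ad h.add x y) ∈ h.S := by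
  unfold cst
  rw [mem_sep]

/-- The topology of the group. -/
noncomputable def topG (h : HD N) : N :=
  sep (pow h.G) (fun U => ∀ x, x ∈ U → ∃ w, w ∈ h.Bs ∧ ∀ l, l ∈ h.G → opair w l ∈ h.S →
    ad h.add x l ∈ U)

theorem mem_topG (h : HD N) (U : N) : U ∈ topG h ↔ U ⊆ h.G ∧ ∀ x, x ∈ U →
    ∃ w, w ∈ h.Bs ∧ ∀ l, l ∈ h.G → opair w l ∈ h.S → ad h.add x l ∈ U := by
  unfold topG
  rw [mem_sep, mem_pow]

variable {h : HD N} (hk : h.Ok)

include hk

theorem ad_mem {x y : N} (hx : x ∈ h.G) (hy : y ∈ h.G) : ad h.add x y ∈ h.G :=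
  hk.add_fun.ap_mem (by rw [opair_mem_prod]; exact ⟨hx, hy⟩)

theorem add_zero' {x : N} (hx : x ∈ h.G) : ad h.add x h.o = x := by
  rw [hk.comm x h.o hx hk.o_mem, hk.zero_add x hx]

theorem add_cancel' {x y : N} (hx : x ∈ h.G) (hy : y ∈ h.G) :
    ad h.add x (ad h.add x y) = y := by
  rw [← hk.assoc x x y hx hx hy, hk.add_self x hx, hk.zero_add y hy]

theorem eq_of_ad_eq_o {x y : N} (hx : x ∈ h.G) (hy : y ∈ h.G) (e : ad h.add x y = h.o) :
    x = y := by
  have := add_cancel' hk hx hy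
  rw [e, add_zero' hk hx] at this
  exact this

theorem cst_mem {w x : N} (hw : w ∈ h.Bs) (hx : x ∈ h.G) :
    cst h w x ∈ topG h ∧ x ∈ cst h w x := by
  constructor
  · rw [mem_topG]
    refine ⟨fun y hy => ((mem_cst h w x y).1 hy).1, fun y hy => ⟨w, hw, fun l hl hwl => ?_⟩⟩
    obtain ⟨hyG, hyS⟩ := (mem_cst h w x y).1 hy
    rw [mem_cst]
    refine ⟨ad_mem hk hyG hl, ?_⟩
    rw [← hk.assoc x y l hx hyG hl]
    exact hk.S_add w _ _ hw (ad_mem hk hx hyG) hl hyS hwl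
  · rw [mem_cst]
    refine ⟨hx, ?_⟩
    rw [hk.add_self x hx]
    exact hk.S_zero w hw

theorem isTop_topG : IsTop h.G (topG h) := by
  refine ⟨fun U hU => ((mem_topG h U).1 hU).1, ?_, fun S hS => ?_, fun U V W hU hV hW => ?_⟩
  · rw [mem_topG]
    obtain ⟨w, hw⟩ := hk.bs_ne
    exact ⟨sub_refl _, fun x hx => ⟨w, hw, fun l hl _ => ad_mem hk hx hl⟩⟩
  · rw [mem_topG]
    constructor
    · intro x hx
      obtain ⟨y, hy, hxy⟩ := (mem_sUn _ _).1 hx
      exact ((mem_topG h y).1 (hS y hy)).1 x hxy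
    · intro x hx
      obtain ⟨y, hy, hxy⟩ := (mem_sUn _ _).1 hx
      obtain ⟨w, hw, h1⟩ := ((mem_topG h y).1 (hS y hy)).2 x hxy
      exact ⟨w, hw, fun l hl hwl => (mem_sUn _ _).2 ⟨y, hy, h1 l hl hwl⟩⟩
  · rw [mem_topG]
    constructor
    · intro x hx
      exact ((mem_topG h U).1 hU).1 x ((hW x).1 hx).1
    · intro x hx
      obtain ⟨hxU, hxV⟩ := (hW x).1 hx
      obtain ⟨w, hw, h1⟩ := ((mem_topG h U).1 hU).2 x hxU
      obtain ⟨w', hw', h2⟩ := ((mem_topG h V).1 hV).2 x hxV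
      obtain ⟨w'', hw'', h3⟩ := hk.dir w w' hw hw'
      refine ⟨w'', hw'', fun l hl hwl => (hW _).2 ⟨?_, ?_⟩⟩
      · exact h1 l hl (h3 l hl hwl).1
      · exact h2 l hl (h3 l hl hwl).2

theorem isHaus_topG : IsHaus h.G (topG h) := by
  intro x y hx hy hxy
  have h0 : ad h.add x y ≠ h.o := fun e => hxy (eq_of_ad_eq_o hk hx hy e)
  obtain ⟨w, hw, hw2⟩ := hk.haus _ (ad_mem hk hx hy) h0
  refine ⟨cst h w x, cst h w y, (cst_mem hk hw hx).1, (cst_mem hk hw hy).1,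
    (cst_mem hk hw hx).2, (cst_mem hk hw hy).2, fun z hz => hw2 ?_⟩
  obtain ⟨hzG, h1⟩ := (mem_cst h w x z).1 hz.1
  obtain ⟨-, h2⟩ := (mem_cst h w y z).1 hz.2
  have h3 : ad h.add x y = ad h.add (ad h.add x z) (ad h.add y z) := by
    rw [hk.comm y z hy hzG, hk.assoc x z _ hx hzG (ad_mem hk hzG hy), add_cancel' hk hzG hy]
  rw [h3]
  exact hk.S_add w _ _ hw (ad_mem hk hx hzG) (ad_mem hk hy hzG) h1 h2

private theorem four {x a y b : N} (hx : x ∈ h.G) (ha : a ∈ h.G) (hy : y ∈ h.G) (hb : b ∈ h.G) :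
    ad h.add (ad h.add x a) (ad h.add y b) = ad h.add (ad h.add x y) (ad h.add a b) := by
  rw [hk.assoc x a _ hx ha (ad_mem hk hy hb), ← hk.assoc a y b ha hy hb, hk.comm a y ha hy,
    hk.assoc y a b hy ha hb, ← hk.assoc x y _ hx hy (ad_mem hk ha hb)]

theorem isTopGrp_topG : IsTopGrp h.G h.add (topG h) := by
  refine ⟨⟨hk.add_fun, hk.assoc, h.o, hk.o_mem, fun x hx => ⟨hk.zero_add x hx, ?_⟩,
    fun x hx => ⟨x, hx, hk.add_self x hx, hk.add_self x hx⟩⟩, isTop_topG hk, isHaus_topG hk,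
    ?_, ?_⟩
  · exact add_zero' hk hx
  · intro x y W hx hy hW hxy
    have hxy' : ad h.add x y ∈ W := hxy
    obtain ⟨w, hw, h1⟩ := ((mem_topG h W).1 hW).2 _ hxy'
    refine ⟨cst h w x, cst h w y, (cst_mem hk hw hx).1, (cst_mem hk hw hy).1,
      (cst_mem hk hw hx).2, (cst_mem hk hw hy).2, fun u v hu hv => ?_⟩
    obtain ⟨huG, h2⟩ := (mem_cst h w x u).1 hu
    obtain ⟨hvG, h3⟩ := (mem_cst h w y v).1 hv
    have ha := ad_mem hk hx huG
    have hb := ad_mem hk hy hvG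
    have h4 := h1 _ (ad_mem hk ha hb) (hk.S_add w _ _ hw ha hb h2 h3)
    rw [← four hk hx ha hy hb, add_cancel' hk hx huG, add_cancel' hk hy hvG] at h4
    exact h4
  · intro x x' W hxx hW hx'
    have key : ∀ u u' : N, IsInv h.G h.add u u' → u = u' := by
      rintro u u' ⟨hu, hu', h1⟩
      have h2 : ad h.add (ad h.add u u') h.o = h.o := h1 h.o hk.o_mem
      rw [add_zero' hk (ad_mem hk hu hu')] at h2
      exact eq_of_ad_eq_o hk hu hu' h2
    refine ⟨W, hW, ?_, fun u u' hu huu => ?_⟩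
    · rw [key x x' hxx]
      exact hx'
    · rw [← key u u' huu]
      exact hu

end Pool.Agent.RFN
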