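import Pool.Agent.RFN.TGrp

set_option autoImplicit false

/-! # The quotient group, algebra

`w : omega → Bs` is a decreasing sequence of basic subgroups, with countable index as witnessed by
`c` (the second, third and fourth clause of `star`): `WOk h w c`.
`cs x = {y ∈ G | ∀ n, x + y ∈ S_(w n)}` is the coset of `x` modulo the intersection of the
subgroups, `KK` the set of the cosets, `nK` the addition of cosets, `piK : G → KK` the quotient
map.

PROOFS.
* `cs_eq_iff`: `cs x = cs y ↔ ∀ n ∈ omega, x + y ∈ S_(w n)` (`x ∈ cs x`, and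
  `y + z = (x + y) + (x + z)`).
* `nK`: `addK p` = the set of all `z ∈ G` such that there are `A, B, a, b` with `p = (A, B)`,
  `a ∈ A`, `b ∈ B` and `(a + b) + z ∈ S_(w n)` for all `n ∈ omega`. `addK_cs`: for `p = (cs x, cs y)`
  this is `cs (x + y)`: if `a ∈ cs x`, `b ∈ cs y`, then `(x + y) + (a + b) = (x + a) + (y + b)`
  is in all `S_(w n)`; conversely take `a = x`, `b = y`.
* `isGrp_KK`: all axioms from those of `G` by `nK_cs` (every element of `KK` is some `cs x`,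
  `x ∈ G`); unit `cs o`, inverse of `cs x` is `cs x`.
* `mono`: for `m, n ∈ omega`, `m ⊆ n` (or `m = n` or `m ∈ n`): `S_(w n) ⊆ S_(w m)`: induction on
  `n` (`omega_induction`; `m ∈ succ n ↔ m ∈ n ∨ m = n`). -/

universe u

namespace Pool.Agent.RFN

open Pool.Agent.H78.ZF

variable {N : Type u} [ZFM N] {ι : Type}

/-- A decreasing sequence of basic subgroups of countable index. -/
structure WOk (h : HD N) (w c : N) : Prop where
  fn : Fun w omega h.Bs
  dec : ∀ n x, n ∈ (omega : N) → x ∈ h.G → opair (ap w (succ n)) x ∈ h.S →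
    opair (ap w n) x ∈ h.S
  idx : ∀ n x, n ∈ (omega : N) → x ∈ h.G → ∃ k y, k ∈ (omega : N) ∧ y ∈ h.G ∧
    opair (opair n k) y ∈ c ∧ opair (ap w n) (ad h.add x y) ∈ h.S
  fun_c : ∀ n k y y', opair (opair n k) y ∈ c → opair (opair n k) y' ∈ c → y = y'

/-- The coset of `x`. -/
noncomputable def cs (h : HD N) (w x : N) : N :=
  sep h.G (fun y => ∀ n, n ∈ (omega : N) → opair (ap w n) (ad h.add x y) ∈ h.S)

@[simp] theorem mem_cs (h : HD N) (w x y : N) : y ∈ cs h w x ↔ y ∈ h.G ∧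
    ∀ n, n ∈ (omega : N) → opair (ap w n) (ad h.add x y) ∈ h.S := by
  unfold cs
  rw [mem_sep]

instance DF.cs (h : HD N) (w x : (ι → N) → N) [DF w] [DF x] :
    DF (fun v => cs h (w v) (x v)) := by
  unfold RFN.cs
  infer_instance

/-- The set of the cosets. -/
noncomputable def KK (h : HD N) (w : N) : N :=
  sep (pow h.G) (fun A => ∃ x, x ∈ h.G ∧ A = cs h w x)

theorem mem_KK (h : HD N) (w A : N) : A ∈ KK h w ↔ ∃ x, x ∈ h.G ∧ A = cs h w x := by
  unfold KK
  rw [mem_sep, mem_pow]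
  constructor
  · exact fun h => h.2
  · rintro ⟨x, hx, rfl⟩
    exact ⟨fun y hy => ((mem_cs h w x y).1 hy).1, x, hx, rfl⟩

theorem cs_mem_KK (h : HD N) (w : N) {x : N} (hx : x ∈ h.G) : cs h w x ∈ KK h w :=
  (mem_KK h w _).2 ⟨x, hx, rfl⟩

/-- The sum of the two components of a pair of cosets. -/
noncomputable def addK (h : HD N) (w p : N) : N :=
  sep h.G (fun z => ∃ A B a b, p = opair A B ∧ a ∈ A ∧ b ∈ B ∧
    ∀ n, n ∈ (omega : N) → opair (ap w n) (ad h.add (ad h.add a b) z) ∈ h.S)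

instance DF.addK (h : HD N) (w p : (ι → N) → N) [DF w] [DF p] :
    DF (fun v => addK h (w v) (p v)) := by
  unfold RFN.addK
  infer_instance

/-- The addition of the quotient group. -/
noncomputable def nK (h : HD N) (w : N) : N :=
  mkf (prod (KK h w) (KK h w)) (KK h w) (fun p => addK h w p)

/-- The quotient map. -/
noncomputable def piK (h : HD N) (w : N) : N := mkf h.G (KK h w) (fun x => cs h w x)

variable {h : HD N} (hk : h.Ok) {w c : N} (hw : WOk h w c)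

include hk hw

theorem mono_w {n : N} (hn : n ∈ (omega : N)) : ∀ m x, m ∈ (omega : N) → x ∈ h.G →
    (m = n ∨ m ∈ n) → opair (ap w n) x ∈ h.S → opair (ap w m) x ∈ h.S := by
  refine omega_induction (fun n => ∀ m x, m ∈ (omega : N) → x ∈ h.G →
    (m = n ∨ m ∈ n) → opair (ap w n) x ∈ h.S → opair (ap w m) x ∈ h.S) ?_ ?_ n hn
  · intro m x _ _ hm hx
    rcases hm with rfl | hm
    · exact hx
    · exact absurd hm (not_mem_emp m)
  · intro n hn ih m x hm hx hmn hS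
    rcases hmn with rfl | hmn
    · exact hS
    · rw [mem_succ] at hmn
      exact ih m x hm hx (hmn.symm) (hw.dec n x hn hx hS)

omit hw in
private theorem q_b3 {x y z : N} (hx : x ∈ h.G) (hy : y ∈ h.G) (hz : z ∈ h.G) :
    ad h.add (ad h.add x y) (ad h.add y z) = ad h.add x z := by
  rw [hk.assoc x y _ hx hy (ad_mem hk hy hz), add_cancel' hk hy hz]

omit hw in
private theorem q_a3 {x y z : N} (hx : x ∈ h.G) (hy : y ∈ h.G) (hz : z ∈ h.G) :
    ad h.add (ad h.add x y) (ad h.add x z) = ad h.add y z := by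
  rw [hk.comm x y hx hy, q_b3 hk hy hx hz]

omit hw in
private theorem q_four {x y a b : N} (hx : x ∈ h.G) (hy : y ∈ h.G) (ha : a ∈ h.G) (hb : b ∈ h.G) :
    ad h.add (ad h.add x y) (ad h.add a b) = ad h.add (ad h.add x a) (ad h.add y b) := by
  rw [hk.assoc x y _ hx hy (ad_mem hk ha hb), ← hk.assoc y a b hy ha hb, hk.comm y a hy ha,
    hk.assoc a y b ha hy hb, hk.assoc x a _ hx ha (ad_mem hk hy hb)]

omit hk in
private theorem q_bs {n : N} (hn : n ∈ (omega : N)) : ap w n ∈ h.Bs := hw.fn.ap_mem hn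

private theorem q_self {x : N} (hx : x ∈ h.G) : x ∈ cs h w x := by
  rw [mem_cs]
  refine ⟨hx, fun n hn => ?_⟩
  rw [hk.add_self x hx]
  exact hk.S_zero _ (q_bs hw hn)

theorem cs_eq_iff {x y : N} (hx : x ∈ h.G) (hy : y ∈ h.G) : cs h w x = cs h w y ↔
    ∀ n, n ∈ (omega : N) → opair (ap w n) (ad h.add x y) ∈ h.S := by
  constructor
  · intro e
    have h1 := q_self hk hw hy
    rw [← e, mem_cs] at h1
    exact h1.2
  · intro hS
    apply ext
    intro z
    rw [mem_cs, mem_cs]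
    constructor
    · rintro ⟨hz, h1⟩
      refine ⟨hz, fun n hn => ?_⟩
      rw [← q_a3 hk hx hy hz]
      exact hk.S_add _ _ _ (q_bs hw hn) (ad_mem hk hx hy) (ad_mem hk hx hz) (hS n hn) (h1 n hn)
    · rintro ⟨hz, h1⟩
      refine ⟨hz, fun n hn => ?_⟩
      rw [← q_b3 hk hx hy hz]
      exact hk.S_add _ _ _ (q_bs hw hn) (ad_mem hk hx hy) (ad_mem hk hy hz) (hS n hn) (h1 n hn)

theorem addK_cs {x y : N} (hx : x ∈ h.G) (hy : y ∈ h.G) :
    addK h w (opair (cs h w x) (cs h w y)) = cs h w (ad h.add x y) := by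
  apply ext
  intro z
  unfold addK
  rw [mem_sep, mem_cs]
  constructor
  · rintro ⟨hz, A, B, a, b, e, ha, hb, h1⟩
    refine ⟨hz, fun n hn => ?_⟩
    obtain ⟨rfl, rfl⟩ := opair_inj e
    rw [mem_cs] at ha hb
    have hxy := ad_mem hk hx hy
    have hab := ad_mem hk ha.1 hb.1
    rw [← q_b3 hk hxy hab hz]
    refine hk.S_add _ _ _ (q_bs hw hn) (ad_mem hk hxy hab) (ad_mem hk hab hz) ?_ (h1 n hn)
    rw [q_four hk hx hy ha.1 hb.1]
    exact hk.S_add _ _ _ (q_bs hw hn) (ad_mem hk hx ha.1) (ad_mem hk hy hb.1) (ha.2 n hn)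
      (hb.2 n hn)
  · rintro ⟨hz, h1⟩
    exact ⟨hz, _, _, x, y, rfl, q_self hk hw hx, q_self hk hw hy, h1⟩

private theorem q_addK_mem : ∀ p, p ∈ prod (KK h w) (KK h w) → addK h w p ∈ KK h w := by
  intro p hp
  rw [mem_prod] at hp
  obtain ⟨A, hA, B, hB, rfl⟩ := hp
  rw [mem_KK] at hA hB
  obtain ⟨x, hx, rfl⟩ := hA
  obtain ⟨y, hy, rfl⟩ := hB
  rw [addK_cs hk hw hx hy]
  exact cs_mem_KK h w (ad_mem hk hx hy)

theorem nK_cs {x y : N} (hx : x ∈ h.G) (hy : y ∈ h.G) :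
    ap (nK h w) (opair (cs h w x) (cs h w y)) = cs h w (ad h.add x y) := by
  unfold nK
  rw [ap_mkf (q_addK_mem hk hw)
    ((opair_mem_prod _ _ _ _).2 ⟨cs_mem_KK h w hx, cs_mem_KK h w hy⟩), addK_cs hk hw hx hy]

theorem isGrp_KK : IsGrp (KK h w) (nK h w) := by
  refine ⟨mkf_fun (q_addK_mem hk hw), ?_, cs h w h.o, cs_mem_KK h w hk.o_mem, ?_, ?_⟩
  · intro A B C hA hB hC
    rw [mem_KK] at hA hB hC
    obtain ⟨x, hx, rfl⟩ := hA
    obtain ⟨y, hy, rfl⟩ := hB
    obtain ⟨z, hz, rfl⟩ := hC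
    rw [nK_cs hk hw hx hy, nK_cs hk hw hy hz, nK_cs hk hw (ad_mem hk hx hy) hz,
      nK_cs hk hw hx (ad_mem hk hy hz), hk.assoc x y z hx hy hz]
  · intro A hA
    rw [mem_KK] at hA
    obtain ⟨x, hx, rfl⟩ := hA
    rw [nK_cs hk hw hk.o_mem hx, nK_cs hk hw hx hk.o_mem, hk.zero_add x hx, add_zero' hk hx]
    exact ⟨rfl, rfl⟩
  · intro A hA
    rw [mem_KK] at hA
    obtain ⟨x, hx, rfl⟩ := hA
    refine ⟨cs h w x, cs_mem_KK h w hx, ?_, ?_⟩ <;>
      rw [nK_cs hk hw hx hx, hk.add_self x hx]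

theorem isHom_piK : IsHom (piK h w) h.G h.add (KK h w) (nK h w) ∧
    ∀ x, x ∈ h.G → ap (piK h w) x = cs h w x := by
  have h1 : ∀ x, x ∈ h.G → cs h w x ∈ KK h w := fun x hx => cs_mem_KK h w hx
  have h2 : ∀ x, x ∈ h.G → ap (piK h w) x = cs h w x := fun x hx => ap_mkf h1 hx
  refine ⟨⟨mkf_fun h1, ?_⟩, h2⟩
  intro x y hx hy
  rw [h2 x hx, h2 y hy, nK_cs hk hw hx hy]
  exact h2 _ (ad_mem hk hx hy)

end Pool.Agent.RFN
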