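import Pool.Agent.RFN.TQuo

set_option autoImplicit false

/-! # The quotient group, topology

`SK` is the set of all `U ⊆ KK` such that for every `x ∈ G` with `cs x ∈ U` there is `n ∈ omega`
with `cs (x + l) ∈ U` for all `l ∈ S_(w n)`. `bK n y` is the set of all `cs x` with
`y + x ∈ S_(w n)`.

PROOFS.
* `bK_mem`: `bK n y ∈ SK` for `y ∈ G`, `n ∈ omega`. If `cs x ∈ bK n y`: there is `x' ∈ G` with
  `cs x = cs x'` and `y + x' ∈ S_(w n)`; then `y + x = (y + x') + (x' + x) ∈ S_(w n)`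
  (`cs_eq_iff`), and `y + (x + l) = (y + x) + l`. Moreover `cs x ∈ bK n y ↔ y + x ∈ S_(w n)`
  (`cs_mem_bK`).
* `isTop_SK`: intersections: `n, m`, take the larger one (`trichotomy` and `mono_w`).
* `isHaus_SK`: `cs x ≠ cs y`: some `n` with `x + y ∉ S_(w n)` (`cs_eq_iff`); take
  `bK n x`, `bK n y`.
* `isTopGrp_KK`: addition: `cs (x + y) ∈ W`, `n` with `cs (x + y + l) ∈ W` for `l ∈ S_(w n)`; take
  `bK n x`, `bK n y`: `u = cs x'`, `v = cs y'`, `x' + y' = (x + y) + ((x + x') + (y + y'))`.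
  Inverses: in `KK` every element is its own inverse (`IsInv A A'` implies `A' = A`: write
  `A = cs x`, `A' = cs y`; `(A + A') + cs o = cs o` gives `cs (x + y) = cs o`, so
  `x + y ∈ S_(w n)` for all `n`, and `cs x = cs y`). -/

universe u

namespace Pool.Agent.RFN

open Pool.Agent.H78.ZF

variable {N : Type u} [ZFM N] {ι : Type}

/-- The topology of the quotient group. -/
noncomputable def SK (h : HD N) (w : N) : N :=
  sep (pow (KK h w)) (fun U => ∀ x, x ∈ h.G → cs h w x ∈ U → ∃ n, n ∈ (omega : N) ∧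
    ∀ l, l ∈ h.G → opair (ap w n) l ∈ h.S → cs h w (ad h.add x l) ∈ U)

theorem mem_SK (h : HD N) (w U : N) : U ∈ SK h w ↔ U ⊆ KK h w ∧
    ∀ x, x ∈ h.G → cs h w x ∈ U → ∃ n, n ∈ (omega : N) ∧
      ∀ l, l ∈ h.G → opair (ap w n) l ∈ h.S → cs h w (ad h.add x l) ∈ U := by
  unfold SK
  rw [mem_sep, mem_pow]

/-- The image of the coset `y + S_(w n)`. -/
noncomputable def bK (h : HD N) (w n y : N) : N :=
  sep (KK h w) (fun A => ∃ x, x ∈ h.G ∧ A = cs h w x ∧ opair (ap w n) (ad h.add y x) ∈ h.S)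

instance DF.bK (h : HD N) (w : N) (n y : (ι → N) → N) [DF n] [DF y] :
    DF (fun v => bK h w (n v) (y v)) := by
  unfold RFN.bK
  infer_instance

variable {h : HD N} (hk : h.Ok) {w c : N} (hw : WOk h w c)

include hk hw

omit hw in
private theorem t_b3 {x y z : N} (hx : x ∈ h.G) (hy : y ∈ h.G) (hz : z ∈ h.G) :
    ad h.add (ad h.add x y) (ad h.add y z) = ad h.add x z := by
  rw [hk.assoc x y _ hx hy (ad_mem hk hy hz), add_cancel' hk hy hz]

omit hw in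
private theorem t_four {x a y b : N} (hx : x ∈ h.G) (ha : a ∈ h.G) (hy : y ∈ h.G)
    (hb : b ∈ h.G) :
    ad h.add (ad h.add x a) (ad h.add y b) = ad h.add (ad h.add x y) (ad h.add a b) := by
  rw [hk.assoc x a _ hx ha (ad_mem hk hy hb), ← hk.assoc a y b ha hy hb, hk.comm a y ha hy,
    hk.assoc y a b hy ha hb, ← hk.assoc x y _ hx hy (ad_mem hk ha hb)]

omit hk in
private theorem t_bs {n : N} (hn : n ∈ (omega : N)) : ap w n ∈ h.Bs := hw.fn.ap_mem hn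

theorem cs_mem_bK {n x y : N} (hn : n ∈ (omega : N)) (hx : x ∈ h.G) (hy : y ∈ h.G) :
    cs h w x ∈ bK h w n y ↔ opair (ap w n) (ad h.add y x) ∈ h.S := by
  unfold bK
  rw [mem_sep]
  constructor
  · rintro ⟨-, x', hx', e, hS⟩
    have h1 := (cs_eq_iff hk hw hx hx').1 e n hn
    rw [hk.comm x x' hx hx'] at h1
    rw [← t_b3 hk hy hx' hx]
    exact hk.S_add _ _ _ (t_bs hw hn) (ad_mem hk hy hx') (ad_mem hk hx' hx) hS h1
  · intro hS
    exact ⟨cs_mem_KK h w hx, x, hx, rfl, hS⟩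

theorem bK_mem {n y : N} (hn : n ∈ (omega : N)) (hy : y ∈ h.G) : bK h w n y ∈ SK h w := by
  rw [mem_SK]
  refine ⟨fun A hA => ?_, fun x hx hxb => ⟨n, hn, fun l hl hS => ?_⟩⟩
  · unfold bK at hA
    rw [mem_sep] at hA
    exact hA.1
  · rw [cs_mem_bK hk hw hn hx hy] at hxb
    rw [cs_mem_bK hk hw hn (ad_mem hk hx hl) hy, ← hk.assoc y x l hy hx hl]
    exact hk.S_add _ _ _ (t_bs hw hn) (ad_mem hk hy hx) hl hxb hS

private theorem self_bK {n x : N} (hn : n ∈ (omega : N)) (hx : x ∈ h.G) :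
    cs h w x ∈ bK h w n x := by
  rw [cs_mem_bK hk hw hn hx hx, hk.add_self x hx]
  exact hk.S_zero _ (t_bs hw hn)

theorem isTop_SK : IsTop (KK h w) (SK h w) := by
  refine ⟨fun U hU => ((mem_SK h w U).1 hU).1, ?_, fun S hS => ?_, fun U V W hU hV hW => ?_⟩
  · rw [mem_SK]
    exact ⟨sub_refl _, fun x hx _ => ⟨emp, emp_mem_omega, fun l hl _ =>
      cs_mem_KK h w (ad_mem hk hx hl)⟩⟩
  · rw [mem_SK]
    constructor
    · intro A hA
      obtain ⟨U, hU, hAU⟩ := (mem_sUn _ _).1 hA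
      exact ((mem_SK h w U).1 (hS U hU)).1 A hAU
    · intro x hx hxS
      obtain ⟨U, hU, hAU⟩ := (mem_sUn _ _).1 hxS
      obtain ⟨n, hn, h1⟩ := ((mem_SK h w U).1 (hS U hU)).2 x hx hAU
      exact ⟨n, hn, fun l hl hwl => (mem_sUn _ _).2 ⟨U, hU, h1 l hl hwl⟩⟩
  · rw [mem_SK]
    constructor
    · intro A hA
      exact ((mem_SK h w U).1 hU).1 A ((hW A).1 hA).1
    · intro x hx hxW
      obtain ⟨hxU, hxV⟩ := (hW _).1 hxW
      obtain ⟨n, hn, h1⟩ := ((mem_SK h w U).1 hU).2 x hx hxU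
      obtain ⟨m, hm, h2⟩ := ((mem_SK h w V).1 hV).2 x hx hxV
      rcases trichotomy hn hm with hnm | hnm | hnm
      · exact ⟨m, hm, fun l hl hwl => (hW _).2
          ⟨h1 l hl (mono_w hk hw hm n l hn hl (Or.inr hnm) hwl), h2 l hl hwl⟩⟩
      · exact ⟨m, hm, fun l hl hwl => (hW _).2
          ⟨h1 l hl (mono_w hk hw hm n l hn hl (Or.inl hnm) hwl), h2 l hl hwl⟩⟩
      · exact ⟨n, hn, fun l hl hwl => (hW _).2
          ⟨h1 l hl hwl, h2 l hl (mono_w hk hw hn m l hm hl (Or.inr hnm) hwl)⟩⟩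

theorem isHaus_SK : IsHaus (KK h w) (SK h w) := by
  intro A B hA hB hAB
  obtain ⟨x, hx, rfl⟩ := (mem_KK h w A).1 hA
  obtain ⟨y, hy, rfl⟩ := (mem_KK h w B).1 hB
  have h0 : ¬ ∀ n, n ∈ (omega : N) → opair (ap w n) (ad h.add x y) ∈ h.S :=
    fun e => hAB ((cs_eq_iff hk hw hx hy).2 e)
  push Not at h0
  obtain ⟨n, hn, hS⟩ := h0
  refine ⟨bK h w n x, bK h w n y, bK_mem hk hw hn hx, bK_mem hk hw hn hy,
    self_bK hk hw hn hx, self_bK hk hw hn hy, fun z hz => hS ?_⟩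
  have hzK : z ∈ KK h w := ((mem_SK h w _).1 (bK_mem hk hw hn hx)).1 z hz.1
  obtain ⟨u, hu, rfl⟩ := (mem_KK h w z).1 hzK
  have h1 := (cs_mem_bK hk hw hn hu hx).1 hz.1
  have h2 := (cs_mem_bK hk hw hn hu hy).1 hz.2
  rw [hk.comm y u hy hu] at h2
  rw [← t_b3 hk hx hu hy]
  exact hk.S_add _ _ _ (t_bs hw hn) (ad_mem hk hx hu) (ad_mem hk hu hy) h1 h2

theorem isTopGrp_KK : IsTopGrp (KK h w) (nK h w) (SK h w) := by
  refine ⟨isGrp_KK hk hw, isTop_SK hk hw, isHaus_SK hk hw, ?_, ?_⟩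
  · intro A B W hA hB hW hAB
    obtain ⟨x, hx, rfl⟩ := (mem_KK h w A).1 hA
    obtain ⟨y, hy, rfl⟩ := (mem_KK h w B).1 hB
    rw [nK_cs hk hw hx hy] at hAB
    obtain ⟨n, hn, h1⟩ := ((mem_SK h w W).1 hW).2 _ (ad_mem hk hx hy) hAB
    refine ⟨bK h w n x, bK h w n y, bK_mem hk hw hn hx, bK_mem hk hw hn hy,
      self_bK hk hw hn hx, self_bK hk hw hn hy, fun u v hu hv => ?_⟩
    have huK : u ∈ KK h w := ((mem_SK h w _).1 (bK_mem hk hw hn hx)).1 u hu
    have hvK : v ∈ KK h w := ((mem_SK h w _).1 (bK_mem hk hw hn hy)).1 v hv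
    obtain ⟨x', hx', rfl⟩ := (mem_KK h w u).1 huK
    obtain ⟨y', hy', rfl⟩ := (mem_KK h w v).1 hvK
    rw [cs_mem_bK hk hw hn hx' hx] at hu
    rw [cs_mem_bK hk hw hn hy' hy] at hv
    rw [nK_cs hk hw hx' hy']
    have ha := ad_mem hk hx hx'
    have hb := ad_mem hk hy hy'
    have h4 := h1 _ (ad_mem hk ha hb) (hk.S_add _ _ _ (t_bs hw hn) ha hb hu hv)
    rw [t_four hk hx hx' hy hy', add_cancel' hk (ad_mem hk hx hy) (ad_mem hk hx' hy')] at h4
    exact h4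
  · intro A A' W hAA hW hA'
    have key : ∀ u u' : N, IsInv (KK h w) (nK h w) u u' → u = u' := by
      rintro u u' ⟨hu, hu', h1⟩
      obtain ⟨x, hx, rfl⟩ := (mem_KK h w u).1 hu
      obtain ⟨y, hy, rfl⟩ := (mem_KK h w u').1 hu'
      have h2 := h1 _ (cs_mem_KK h w hk.o_mem)
      have hxy := ad_mem hk hx hy
      rw [nK_cs hk hw hx hy, nK_cs hk hw hxy hk.o_mem, add_zero' hk hxy] at h2
      refine (cs_eq_iff hk hw hx hy).2 fun n hn => ?_
      have h3 := (cs_eq_iff hk hw hxy hk.o_mem).1 h2 n hn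
      rwa [add_zero' hk hxy] at h3
    refine ⟨W, hW, ?_, fun u u' hu huu => ?_⟩
    · rw [key A A' hAA]
      exact hA'
    · rw [← key u u' huu]
      exact hu

end Pool.Agent.RFN
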