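import Pool.Agent.RFN.TQuoTop

set_option autoImplicit false

/-! # Factorization of continuous real functions

Let `R` be a real line with order `lt`, `Q` a countable order dense subset with an injection `e`
into `omega`, `f : G → R` continuous. `OQ` = the set of all `((i, j), x)`, `x ∈ G`, such that there
are `q, r ∈ Q` with `e q = i`, `e r = j`, `q < f x < r`.

PROOFS.
* `OQ_open`: hypothesis of `star` for `OQ`: from `IsContReal` (`U ∈ topG h`).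
* `f_const`: if `WOk h w c` and the last clause of `star` (`hO`) hold then
  `cs x = cs y → f x = f y`: otherwise e.g. `f x < f y` (linear order; the other case is
  symmetric); there are `r ∈ Q` with `f x < r < f y` and `q ∈ Q` with `q < f x` (no endpoints and
  density of `Q`). `((e q, e r), x) ∈ OQ`, so for some `n` all `x + l`, `l ∈ S_(w n)`, are in that
  section; `l = x + y ∈ S_(w n)` (`cs_eq_iff`), `x + l = y`, so `f y < r` (as `e` is injective the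
  `q', r'` for `((e q, e r), y) ∈ OQ` are `q, r`). Contradiction.
* `kK = mkf KK R (fun A => iota (fun r => ∃ x, x ∈ G ∧ A = cs x ∧ r = f x))`: `kK (cs x) = f x`.
* `isContReal_kK`: at `A = cs x`, `a < f x < b`: take `q, r ∈ Q` with `a < q < f x < r < b`, `n`
  from `hO` for `(e q, e r)` and `x`, and the neighbourhood `bK n x`: for `A' = cs x'` in it
  `x + x' ∈ S_(w n)`, `x' = x + (x + x')`, so `q < f x' < r`. -/

universe u

namespace Pool.Agent.RFN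

open Pool.Agent.H78.ZF

variable {N : Type u} [ZFM N] {ι : Type}

/-- The family of the preimages of the intervals with endpoints in `Q`. -/
noncomputable def OQ (h : HD N) (lt Q e f : N) : N :=
  sep (prod (prod omega omega) h.G) (fun z => ∃ x q r, z = opair (opair (ap e q) (ap e r)) x ∧
    q ∈ Q ∧ r ∈ Q ∧ opair q (ap f x) ∈ lt ∧ opair (ap f x) r ∈ lt)

/-- The function on the quotient. -/
noncomputable def kK (h : HD N) (w R f : N) : N :=
  mkf (KK h w) R (fun A => iota (fun r => ∃ x, x ∈ h.G ∧ A = cs h w x ∧ r = ap f x))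

theorem opair_mem_OQ {h : HD N} {lt Q e f i j x : N} :
    opair (opair i j) x ∈ OQ h lt Q e f ↔ i ∈ (omega : N) ∧ j ∈ (omega : N) ∧ x ∈ h.G ∧
      ∃ q r, q ∈ Q ∧ r ∈ Q ∧ i = ap e q ∧ j = ap e r ∧ opair q (ap f x) ∈ lt ∧
        opair (ap f x) r ∈ lt := by
  unfold OQ
  rw [mem_sep, opair_mem_prod, opair_mem_prod]
  constructor
  · rintro ⟨⟨⟨hi, hj⟩, hx⟩, x', q, r, e1, hq, hr, h1, h2⟩
    obtain ⟨e2, e3⟩ := opair_inj e1
    obtain ⟨e4, e5⟩ := opair_inj e2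
    subst e3
    exact ⟨hi, hj, hx, q, r, hq, hr, e4, e5, h1, h2⟩
  · rintro ⟨hi, hj, hx, q, r, hq, hr, e4, e5, h1, h2⟩
    exact ⟨⟨⟨hi, hj⟩, hx⟩, x, q, r, by rw [e4, e5], hq, hr, h1, h2⟩

variable {h : HD N} (hk : h.Ok) {R lt Q e f : N} (hR : IsRealLine R lt) (hQ : Q ⊆ R)
  (he : Inj e Q omega)
  (hd : ∀ x y, x ∈ R → y ∈ R → opair x y ∈ lt → ∃ q, q ∈ Q ∧ opair x q ∈ lt ∧ opair q y ∈ lt)
  (hf : IsContReal f h.G (topG h) R lt)

include hk hR hQ he hd hf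

theorem OQ_open : ∀ i j x, i ∈ (omega : N) → j ∈ (omega : N) → x ∈ h.G →
    opair (opair i j) x ∈ OQ h lt Q e f → ∃ w, w ∈ h.Bs ∧ ∀ l, l ∈ h.G → opair w l ∈ h.S →
      opair (opair i j) (ad h.add x l) ∈ OQ h lt Q e f := by
  intro i j x hi hj hx hO
  obtain ⟨_, _, _, q, r, hq, hr, e1, e2, h1, h2⟩ := opair_mem_OQ.1 hO
  obtain ⟨U, hU, hxU, hU'⟩ := hf.2 x q r hx (hQ q hq) (hQ r hr) h1 h2
  obtain ⟨_, hU2⟩ := (mem_topG h U).1 hU
  obtain ⟨w, hw, hw'⟩ := hU2 x hxU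
  refine ⟨w, hw, fun l hl hwl => ?_⟩
  obtain ⟨h3, h4⟩ := hU' _ (hw' l hl hwl)
  exact opair_mem_OQ.2 ⟨hi, hj, ad_mem hk hx hl, q, r, hq, hr, e1, e2, h3, h4⟩

variable {w c : N} (hw : WOk h w c)
  (hO : ∀ i j x, i ∈ (omega : N) → j ∈ (omega : N) → x ∈ h.G →
    opair (opair i j) x ∈ OQ h lt Q e f →
    ∃ n, n ∈ (omega : N) ∧ ∀ l, l ∈ h.G → opair (ap w n) l ∈ h.S →
      opair (opair i j) (ad h.add x l) ∈ OQ h lt Q e f)

include hw hO

theorem f_const {x y : N} (hx : x ∈ h.G) (hy : y ∈ h.G) (hxy : cs h w x = cs h w y) :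
    ap f x = ap f y := by
  have hft : Fun f h.G R := hf.1
  have key : ∀ x y, x ∈ h.G → y ∈ h.G → cs h w x = cs h w y → opair (ap f x) (ap f y) ∈ lt →
      False := by
    intro x y hx hy hxy hlt
    have hfx := hft.ap_mem hx
    have hfy := hft.ap_mem hy
    obtain ⟨r, hr, hr1, hr2⟩ := hd _ _ hfx hfy hlt
    obtain ⟨_, q', hq', hq'1⟩ := hR.2.2.2.2.1 _ hfx
    obtain ⟨q, hq, hq1, hq2⟩ := hd _ _ hq' hfx hq'1
    have hm : opair (opair (ap e q) (ap e r)) x ∈ OQ h lt Q e f :=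
      opair_mem_OQ.2 ⟨he.fun.ap_mem hq, he.fun.ap_mem hr, hx, q, r, hq, hr, rfl, rfl, hq2, hr1⟩
    obtain ⟨n, hn, hn'⟩ := hO _ _ x (he.fun.ap_mem hq) (he.fun.ap_mem hr) hx hm
    have h1 := hn' (ad h.add x y) (ad_mem hk hx hy) ((cs_eq_iff hk hw hx hy).1 hxy n hn)
    rw [add_cancel' hk hx hy] at h1
    obtain ⟨_, _, _, q2, r2, hq2, hr2', e1, e2, h2, h3⟩ := opair_mem_OQ.1 h1
    have e3 := he.ap_inj hr hr2' e2
    subst e3
    exact hR.2.1 _ hfy (hR.2.2.1 _ _ _ hfy (hQ r hr) hfy h3 hr2)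
  rcases hR.2.2.2.1 _ _ (hft.ap_mem hx) (hft.ap_mem hy) with h1 | h1 | h1
  · exact absurd h1 (fun h1 => key x y hx hy hxy h1)
  · exact h1
  · exact absurd h1 (fun h1 => key y x hy hx hxy.symm h1)

theorem kK_cs : Fun (kK h w R f) (KK h w) R ∧
    ∀ x, x ∈ h.G → ap (kK h w R f) (cs h w x) = ap f x := by
  have hft : Fun f h.G R := hf.1
  have hv : ∀ x, x ∈ h.G →
      iota (fun r => ∃ x', x' ∈ h.G ∧ cs h w x = cs h w x' ∧ r = ap f x') = ap f x := by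
    intro x hx
    refine iota_eq ⟨x, hx, rfl, rfl⟩ ?_
    rintro r ⟨x', hx', e1, rfl⟩
    exact (f_const hk hR hQ he hd hf hw hO hx hx' e1).symm
  have hm : ∀ A, A ∈ KK h w →
      iota (fun r => ∃ x, x ∈ h.G ∧ A = cs h w x ∧ r = ap f x) ∈ R := by
    intro A hA
    obtain ⟨x, hx, rfl⟩ := (mem_KK h w A).1 hA
    rw [hv x hx]
    exact hft.ap_mem hx
  refine ⟨mkf_fun hm, fun x hx => ?_⟩
  unfold kK
  rw [ap_mkf hm (cs_mem_KK h w hx), hv x hx]

theorem isContReal_kK : IsContReal (kK h w R f) (KK h w) (SK h w) R lt := by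
  have hft : Fun f h.G R := hf.1
  obtain ⟨hkf, hkc⟩ := kK_cs hk hR hQ he hd hf hw hO
  refine ⟨hkf, fun A a b hA ha hb h1 h2 => ?_⟩
  obtain ⟨x, hx, rfl⟩ := (mem_KK h w A).1 hA
  rw [hkc x hx] at h1 h2
  have hfx := hft.ap_mem hx
  obtain ⟨q, hq, hq1, hq2⟩ := hd _ _ ha hfx h1
  obtain ⟨r, hr, hr1, hr2⟩ := hd _ _ hfx hb h2
  have hm : opair (opair (ap e q) (ap e r)) x ∈ OQ h lt Q e f :=
    opair_mem_OQ.2 ⟨he.fun.ap_mem hq, he.fun.ap_mem hr, hx, q, r, hq, hr, rfl, rfl, hq2, hr1⟩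
  obtain ⟨n, hn, hn'⟩ := hO _ _ x (he.fun.ap_mem hq) (he.fun.ap_mem hr) hx hm
  refine ⟨bK h w n x, bK_mem hk hw hn hx, ?_, fun A' hA' => ?_⟩
  · rw [cs_mem_bK hk hw hn hx hx, hk.add_self x hx]
    exact hk.S_zero _ (hw.fn.ap_mem hn)
  · obtain ⟨hA2, x', hx', rfl, h3⟩ : A' ∈ KK h w ∧ ∃ x', x' ∈ h.G ∧ A' = cs h w x' ∧
        opair (ap w n) (ad h.add x x') ∈ h.S := by
      have := hA'
      unfold bK at this
      rwa [mem_sep] at this
    have h4 := hn' _ (ad_mem hk hx hx') h3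
    rw [add_cancel' hk hx hx'] at h4
    obtain ⟨_, _, _, q2, r2, hq2', hr2', e1, e2, h5, h6⟩ := opair_mem_OQ.1 h4
    have e3 := he.ap_inj hr hr2' e2
    have e4 := he.ap_inj hq hq2' e1
    subst e3 e4
    have hfx' := hft.ap_mem hx'
    rw [hkc x' hx']
    exact ⟨hR.2.2.1 _ _ _ ha (hQ q hq) hfx' hq1 h5, hR.2.2.1 _ _ _ hfx' (hQ r hr) hb h6 hr2⟩

end Pool.Agent.RFN
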